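import Pool.Agent.H493.EN.Stm

set_option autoImplicit false

/-! Project EN (helper493), task GAU (helper71): Gaussian concentration for Lipschitz functions. -/

open Complex Filter Topology Set MeasureTheory ProbabilityTheory
open scoped BoundedContinuousFunction RealInnerProductSpace NNReal

namespace Pool.Agent.H493.EN

namespace GAUL

theorem var_le {n : ℕ} {S : Matrix (Fin n) (Fin n) ℝ} (hS : S.PosSemidef) {Λ : ℝ}
    (h : ∀ a : Fin n → ℝ, ∑ i, ∑ j, a i * a j * S i j ≤ Λ * ∑ i, a i ^ 2)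
    (u : EuclideanSpace ℝ (Fin n)) :
    Var[fun x => ⟪u, x⟫; multivariateGaussian 0 S] ≤ Λ * ‖u‖ ^ 2 := by
  rw [← covarianceBilin_self IsGaussian.memLp_two_id u, covarianceBilin_multivariateGaussian hS]
  have h1 := h (fun i => u i)
  have h2 : ‖u‖ ^ 2 = ∑ i, u i ^ 2 := by
    rw [EuclideanSpace.norm_sq_eq]
    exact Finset.sum_congr rfl fun i _ => by rw [Real.norm_eq_abs, sq_abs]
  rw [h2]
  refine le_trans (le_of_eq ?_) h1
  simp only [dotProduct, Matrix.mulVec]
  refine Finset.sum_congr rfl fun i _ => ?_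
  rw [Finset.mul_sum]
  refine Finset.sum_congr rfl fun j _ => ?_
  ring

theorem integrable_of_lip {n : ℕ} (μ : Measure (EuclideanSpace ℝ (Fin n))) [IsGaussian μ]
    {F : EuclideanSpace ℝ (Fin n) → ℝ} {L : ℝ≥0} (hF : LipschitzWith L F) : Integrable F μ := by
  have h1 : Integrable (fun x : EuclideanSpace ℝ (Fin n) => |F 0| + (L : ℝ) * ‖x‖) μ :=
    (integrable_const _).add ((IsGaussian.integrable_id (μ := μ)).norm.const_mul _)
  refine h1.mono' hF.continuous.aestronglyMeasurable (Filter.Eventually.of_forall fun x => ?_)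
  have h2 := hF.norm_sub_le x 0
  rw [sub_zero] at h2
  have h3 : F x = F 0 + (F x - F 0) := by ring
  rw [Real.norm_eq_abs, h3]
  rw [Real.norm_eq_abs] at h2
  exact (abs_add_le _ _).trans (add_le_add le_rfl h2)

end GAUL

open GAUL in
theorem t_GAU (h1 : S_GAU1) (h2 : S_MOL) : S_GAU := by
  intro n S hS Λ hΛ hq F L hL hF hF0 δ hδ
  set μ := multivariateGaussian 0 S with hμ
  have hmean : ∫ x, x ∂μ = 0 := integral_id_multivariateGaussian
  have hLpos : (0 : ℝ) < L := by exact_mod_cast hL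
  have hvar := var_le hS hq
  -- the bound for every `η`
  have key : ∀ η : ℝ, 0 < η → 2 * η ≤ δ →
      μ.real {x | δ ≤ F x} ≤ Real.exp (-(2 * (δ - 2 * η) ^ 2 / (Real.pi ^ 2 * (L : ℝ) ^ 2 * Λ))) := by
    intro η hη hηδ
    obtain ⟨F', hC, hL', hd⟩ := h2 n F L hF η hη
    have hsub := h1 n μ hmean Λ hΛ.le hvar F' L hLpos.le hC
      (fun x => norm_fderiv_le_of_lipschitz ℝ hL')
    have hi := integrable_of_lip μ hF
    have hi' := integrable_of_lip μ hL'
    have hint : |∫ y, F' y ∂μ| ≤ η := by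
      have e1 : ∫ y, F' y ∂μ = ∫ y, (F' y - F y) ∂μ := by
        rw [integral_sub hi' hi, hF0, sub_zero]
      rw [e1]
      have e2 := norm_integral_le_of_norm_le_const (μ := μ) (f := fun y => F' y - F y) (C := η)
        (Filter.Eventually.of_forall fun x => by rw [Real.norm_eq_abs]; exact hd x)
      rw [Real.norm_eq_abs] at e2
      simpa using e2
    have hsubset : {x | δ ≤ F x} ⊆ {x | δ - 2 * η ≤ F' x - ∫ y, F' y ∂μ} := by
      intro x hx
      have e1 : δ ≤ F x := hx
      have e2 := (abs_le.1 (hd x)).1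
      have e3 := (abs_le.1 hint).2
      show δ - 2 * η ≤ F' x - ∫ y, F' y ∂μ
      linarith
    refine (measureReal_mono hsubset).trans ?_
    refine (hsub.measure_ge_le (by linarith)).trans (le_of_eq ?_)
    congr 1
    rw [Real.coe_toNNReal _ (by positivity)]
    have hpi := Real.pi_pos
    field_simp
    ring
  rcases hδ.eq_or_lt with h0 | h0
  · rw [← h0]
    have e : -(2 * (0 : ℝ) ^ 2 / (Real.pi ^ 2 * (L : ℝ) ^ 2 * Λ)) = 0 := by ring
    rw [e, Real.exp_zero]
    exact measureReal_le_one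
  · have hcont : Tendsto (fun η : ℝ => Real.exp (-(2 * (δ - 2 * η) ^ 2 / (Real.pi ^ 2 * (L : ℝ) ^ 2 * Λ))))
        (𝓝[>] 0) (𝓝 (Real.exp (-(2 * (δ - 2 * 0) ^ 2 / (Real.pi ^ 2 * (L : ℝ) ^ 2 * Λ))))) := by
      apply Tendsto.mono_left _ nhdsWithin_le_nhds
      apply Continuous.tendsto
      fun_prop
    rw [mul_zero, sub_zero] at hcont
    refine ge_of_tendsto hcont ?_
    have hev : ∀ᶠ η : ℝ in 𝓝[>] 0, η ∈ Set.Ioo (0 : ℝ) (δ / 2) := Ioo_mem_nhdsGT (by linarith)
    filter_upwards [hev] with η hη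
    exact key η hη.1 (by have := hη.2; linarith)

end Pool.Agent.H493.EN
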