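import Pool.Agent.H493.EN.Stm

set_option autoImplicit false

/-! Maurey-Pisier bound -/

open Filter Topology Set MeasureTheory ProbabilityTheory
open scoped RealInnerProductSpace NNReal

namespace Pool.Agent.H493.EN

namespace GAU1L

theorem ofReal_integral_le {α : Type*} [MeasurableSpace α] {ν : Measure α} {f : α → ℝ}
    (hf : Integrable f ν) : ENNReal.ofReal (∫ a, f a ∂ν) ≤ ∫⁻ a, ENNReal.ofReal (f a) ∂ν := by
  rw [integral_eq_lintegral_pos_part_sub_lintegral_neg_part hf]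
  refine (ENNReal.ofReal_le_ofReal (sub_le_self _ ENNReal.toReal_nonneg)).trans ?_
  exact ENNReal.ofReal_toReal_le

/-- Jensen's inequality for `exp` and the lower Lebesgue integral -/
theorem jensen {α : Type*} [MeasurableSpace α] (ν : Measure α) [IsProbabilityMeasure ν]
    {φ : α → ℝ} (hφ : Integrable φ ν) :
    ENNReal.ofReal (Real.exp (∫ a, φ a ∂ν)) ≤ ∫⁻ a, ENNReal.ofReal (Real.exp (φ a)) ∂ν := by
  set m := ∫ a, φ a ∂ν with hm
  have h1 : ∀ a, Real.exp m * (1 + φ a - m) ≤ Real.exp (φ a) := by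
    intro a
    have h := Real.add_one_le_exp (φ a - m)
    calc Real.exp m * (1 + φ a - m) ≤ Real.exp m * Real.exp (φ a - m) := by
          refine mul_le_mul_of_nonneg_left ?_ (Real.exp_nonneg m)
          linarith
      _ = Real.exp (φ a) := by rw [← Real.exp_add]; congr 1; ring
  have hint : Integrable (fun a => Real.exp m * (1 + φ a - m)) ν :=
    (((integrable_const (1 : ℝ)).add hφ).sub (integrable_const m)).const_mul _
  have h2 : ∫ a, Real.exp m * (1 + φ a - m) ∂ν = Real.exp m := by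
    have e1 : ∫ a, (1 + φ a - m) ∂ν = 1 := by
      have e2 : ∫ a, (1 + φ a - m) ∂ν = ∫ a, (1 + φ a) ∂ν - ∫ _a, m ∂ν :=
        integral_sub ((integrable_const (1 : ℝ)).add hφ) (integrable_const m)
      have e3 : ∫ a, (1 + φ a) ∂ν = ∫ _a, (1 : ℝ) ∂ν + ∫ a, φ a ∂ν :=
        integral_add (integrable_const (1 : ℝ)) hφ
      rw [e2, e3, ← hm]
      simp
    rw [integral_const_mul, e1, mul_one]
  calc ENNReal.ofReal (Real.exp m) = ENNReal.ofReal (∫ a, Real.exp m * (1 + φ a - m) ∂ν) := by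
        rw [h2]
    _ ≤ ∫⁻ a, ENNReal.ofReal (Real.exp m * (1 + φ a - m)) ∂ν := ofReal_integral_le hint
    _ ≤ _ := lintegral_mono fun a => ENNReal.ofReal_le_ofReal (h1 a)

/-- the normalised Lebesgue measure on the quarter period -/
noncomputable def nu : Measure ℝ :=
  ENNReal.ofReal (2 / Real.pi) • volume.restrict (Ioc 0 (Real.pi / 2))

instance : IsProbabilityMeasure nu := ⟨by
  have hp := Real.pi_pos
  unfold nu
  rw [Measure.smul_apply, Measure.restrict_apply MeasurableSet.univ, univ_inter, Real.volume_Ioc,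
    sub_zero, smul_eq_mul, ← ENNReal.ofReal_mul (by positivity)]
  have : 2 / Real.pi * (Real.pi / 2) = 1 := by field_simp
  rw [this, ENNReal.ofReal_one]⟩

theorem integral_nu (f : ℝ → ℝ) :
    ∫ θ, f θ ∂nu = 2 / Real.pi * ∫ θ in (0 : ℝ)..(Real.pi / 2), f θ := by
  have hp := Real.pi_pos
  unfold nu
  rw [integral_smul_measure, intervalIntegral.integral_of_le (by positivity),
    ENNReal.toReal_ofReal (by positivity), smul_eq_mul]

variable {E : Type*} [NormedAddCommGroup E] [InnerProductSpace ℝ E]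

/-- the derivative along the rotation -/
noncomputable def psi (F : E → ℝ) (θ : ℝ) (z : E × E) : ℝ :=
  fderiv ℝ F (Real.cos θ • z.1 + Real.sin θ • z.2) (-Real.sin θ • z.1 + Real.cos θ • z.2)

theorem psi_cont {F : E → ℝ} (hF : ContDiff ℝ 1 F) :
    Continuous fun q : (E × E) × ℝ => psi F q.2 q.1 := by
  unfold psi
  have h1 : Continuous (fderiv ℝ F) := hF.continuous_fderiv (by norm_num)
  refine (h1.comp ?_).clm_apply ?_
  · fun_prop
  · fun_prop

theorem psi_hasDeriv {F : E → ℝ} (hF : ContDiff ℝ 1 F) (z : E × E) (θ : ℝ) :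
    HasDerivAt (fun θ : ℝ => F (Real.cos θ • z.1 + Real.sin θ • z.2)) (psi F θ z) θ := by
  have h1 : HasDerivAt (fun θ : ℝ => Real.cos θ • z.1 + Real.sin θ • z.2)
      (-Real.sin θ • z.1 + Real.cos θ • z.2) θ :=
    ((Real.hasDerivAt_cos θ).smul_const z.1).add ((Real.hasDerivAt_sin θ).smul_const z.2)
  have h2 : HasFDerivAt F (fderiv ℝ F (Real.cos θ • z.1 + Real.sin θ • z.2))
      (Real.cos θ • z.1 + Real.sin θ • z.2) :=
    (hF.differentiable (by norm_num) _).hasFDerivAt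
  exact h2.comp_hasDerivAt θ h1

theorem psi_integral {F : E → ℝ} (hF : ContDiff ℝ 1 F) (z : E × E) :
    ∫ θ in (0 : ℝ)..(Real.pi / 2), psi F θ z = F z.2 - F z.1 := by
  have hc : Continuous fun θ => psi F θ z :=
    (psi_cont hF).comp (Continuous.prodMk continuous_const continuous_id)
  rw [intervalIntegral.integral_eq_sub_of_hasDerivAt (fun θ _ => psi_hasDeriv hF z θ)
    (hc.intervalIntegrable _ _)]
  simp

theorem step1 {F : E → ℝ} (hF : ContDiff ℝ 1 F) (l : ℝ) (z : E × E) :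
    ENNReal.ofReal (Real.exp (l * (F z.2 - F z.1))) ≤
      ∫⁻ θ, ENNReal.ofReal (Real.exp (l * (Real.pi / 2) * psi F θ z)) ∂nu := by
  have hp := Real.pi_pos
  have hc : Continuous fun θ => psi F θ z :=
    (psi_cont hF).comp (Continuous.prodMk continuous_const continuous_id)
  have hint : Integrable (fun θ => l * (Real.pi / 2) * psi F θ z) nu := by
    unfold nu
    refine Integrable.smul_measure ?_ ENNReal.ofReal_ne_top
    exact ((hc.const_mul (l * (Real.pi / 2))).integrableOn_Icc (a := 0)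
      (b := Real.pi / 2)).mono_set Ioc_subset_Icc_self
  have h := jensen nu hint
  have e : ∫ θ, l * (Real.pi / 2) * psi F θ z ∂nu = l * (F z.2 - F z.1) := by
    rw [integral_nu, intervalIntegral.integral_const_mul, psi_integral hF]
    field_simp
  rwa [e] at h

variable [MeasurableSpace E] [BorelSpace E] [CompleteSpace E] [SecondCountableTopology E]

theorem inner_bound (μ : Measure E) [IsGaussian μ] (hμ : ∫ x, x ∂μ = 0) {Λ : ℝ} (hΛ : 0 ≤ Λ)
    (hvar : ∀ u : E, Var[fun x => ⟪u, x⟫; μ] ≤ Λ * ‖u‖ ^ 2) {L : ℝ} (_hL : 0 ≤ L)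
    (D : E →L[ℝ] ℝ) (hD : ‖D‖ ≤ L) (c : ℝ) :
    ∫⁻ y, ENNReal.ofReal (Real.exp (c * D y)) ∂μ ≤
      ENNReal.ofReal (Real.exp (Λ * L ^ 2 * c ^ 2 / 2)) := by
  have hX := IsGaussian.map_eq_gaussianReal (μ := μ) D
  have h0 : μ[D] = 0 := by
    rw [IsGaussian.integral_dual, hμ, map_zero]
  have hmgf : mgf D μ c = Real.exp (μ[D] * c + (Var[D; μ]).toNNReal * c ^ 2 / 2) :=
    mgf_gaussianReal hX c
  have hpos : 0 < mgf D μ c := by rw [hmgf]; exact Real.exp_pos _
  have hint : Integrable (fun y => Real.exp (c * D y)) μ := mgf_pos_iff.1 hpos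
  rw [← ofReal_integral_eq_lintegral_ofReal hint (Eventually.of_forall fun _ => Real.exp_nonneg _)]
  refine ENNReal.ofReal_le_ofReal ?_
  have e : ∫ y, Real.exp (c * D y) ∂μ = mgf D μ c := rfl
  rw [e, hmgf, h0]
  refine Real.exp_le_exp.2 ?_
  have hv : Var[D; μ] ≤ Λ * L ^ 2 := by
    set v := (InnerProductSpace.toDual ℝ E).symm D with hv
    have e1 : (fun x => ⟪v, x⟫) = (D : E → ℝ) := by
      funext x
      rw [hv, InnerProductSpace.toDual_symm_apply]
    have e2 : ‖v‖ = ‖D‖ := by rw [hv, LinearIsometryEquiv.norm_map]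
    have h := hvar v
    rw [e1, e2] at h
    refine h.trans ?_
    have := norm_nonneg D
    gcongr
  have hv' : ((Var[D; μ]).toNNReal : ℝ) ≤ Λ * L ^ 2 := by
    rw [Real.coe_toNNReal']
    exact max_le hv (by positivity)
  have := mul_le_mul_of_nonneg_right hv' (sq_nonneg c)
  linarith

theorem step2 (μ : Measure E) [IsGaussian μ] (hμ : ∫ x, x ∂μ = 0) {Λ : ℝ} (hΛ : 0 ≤ Λ)
    (hvar : ∀ u : E, Var[fun x => ⟪u, x⟫; μ] ≤ Λ * ‖u‖ ^ 2) {F : E → ℝ} {L : ℝ} (hL : 0 ≤ L)
    (hF : ContDiff ℝ 1 F) (hFL : ∀ x, ‖fderiv ℝ F x‖ ≤ L) (c θ : ℝ) :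
    ∫⁻ z, ENNReal.ofReal (Real.exp (c * psi F θ z)) ∂(μ.prod μ) ≤
      ENNReal.ofReal (Real.exp (Λ * L ^ 2 * c ^ 2 / 2)) := by
  have h1 : Continuous (fderiv ℝ F) := hF.continuous_fderiv (by norm_num)
  have hG : Continuous fun z : E × E => fderiv ℝ F z.1 z.2 :=
    (h1.comp continuous_fst).clm_apply continuous_snd
  have hm : Measurable fun z : E × E => ENNReal.ofReal (Real.exp (c * fderiv ℝ F z.1 z.2)) :=
    (ENNReal.continuous_ofReal.comp (Real.continuous_exp.comp (hG.const_mul c))).measurable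
  have e : ∫⁻ z, ENNReal.ofReal (Real.exp (c * psi F θ z)) ∂(μ.prod μ) =
      ∫⁻ z, ENNReal.ofReal (Real.exp (c * fderiv ℝ F z.1 z.2)) ∂(μ.prod μ) := by
    conv_rhs => rw [← IsGaussian.map_rotation_eq_self (μ := μ) hμ θ]
    rw [lintegral_map hm (by fun_prop)]
    refine lintegral_congr fun z => ?_
    rw [ContinuousLinearMap.rotation_apply]
    rfl
  rw [e, lintegral_prod _ hm.aemeasurable]
  calc ∫⁻ x, ∫⁻ y, ENNReal.ofReal (Real.exp (c * fderiv ℝ F x y)) ∂μ ∂μ
      ≤ ∫⁻ _x, ENNReal.ofReal (Real.exp (Λ * L ^ 2 * c ^ 2 / 2)) ∂μ :=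
        lintegral_mono fun x => inner_bound μ hμ hΛ hvar hL _ (hFL x) c
    _ = _ := by simp

theorem step3 (μ : Measure E) [IsGaussian μ] (hμ : ∫ x, x ∂μ = 0) {Λ : ℝ} (hΛ : 0 ≤ Λ)
    (hvar : ∀ u : E, Var[fun x => ⟪u, x⟫; μ] ≤ Λ * ‖u‖ ^ 2) {F : E → ℝ} {L : ℝ} (hL : 0 ≤ L)
    (hF : ContDiff ℝ 1 F) (hFL : ∀ x, ‖fderiv ℝ F x‖ ≤ L) (l : ℝ) :
    ∫⁻ z, ENNReal.ofReal (Real.exp (l * (F z.2 - F z.1))) ∂(μ.prod μ) ≤
      ENNReal.ofReal (Real.exp (Λ * L ^ 2 * (l * (Real.pi / 2)) ^ 2 / 2)) := by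
  calc ∫⁻ z, ENNReal.ofReal (Real.exp (l * (F z.2 - F z.1))) ∂(μ.prod μ)
      ≤ ∫⁻ z, ∫⁻ θ, ENNReal.ofReal (Real.exp (l * (Real.pi / 2) * psi F θ z)) ∂nu ∂(μ.prod μ) :=
        lintegral_mono fun z => step1 hF l z
    _ = ∫⁻ θ, ∫⁻ z, ENNReal.ofReal (Real.exp (l * (Real.pi / 2) * psi F θ z)) ∂(μ.prod μ) ∂nu := by
        refine lintegral_lintegral_swap ?_
        exact (ENNReal.continuous_ofReal.comp (Real.continuous_exp.comp
          ((psi_cont hF).const_mul (l * (Real.pi / 2))))).measurable.aemeasurable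
    _ ≤ ∫⁻ _θ, ENNReal.ofReal (Real.exp (Λ * L ^ 2 * (l * (Real.pi / 2)) ^ 2 / 2)) ∂nu :=
        lintegral_mono fun θ => step2 μ hμ hΛ hvar hL hF hFL _ θ
    _ = _ := by simp

theorem F_integrable (μ : Measure E) [IsGaussian μ] {F : E → ℝ} {L : ℝ}
    (hF : ContDiff ℝ 1 F) (hFL : ∀ x, ‖fderiv ℝ F x‖ ≤ L) : Integrable F μ := by
  have h1 : ∀ x, ‖F x‖ ≤ ‖F 0‖ + L * ‖x‖ := by
    intro x
    have h2 := convex_univ.norm_image_sub_le_of_norm_fderiv_le (𝕜 := ℝ) (f := F) (x := 0) (y := x)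
      (fun y _ => hF.differentiable (by norm_num) y) (fun y _ => hFL y) (mem_univ _) (mem_univ _)
    rw [sub_zero] at h2
    have h3 : F x = F 0 + (F x - F 0) := by ring
    rw [h3]
    exact (norm_add_le _ _).trans (by linarith)
  refine Integrable.mono' (g := fun x => ‖F 0‖ + L * ‖x‖) ?_
    hF.continuous.aestronglyMeasurable (Eventually.of_forall h1)
  have h4 : Integrable (fun x : E => ‖x‖) μ := (IsGaussian.integrable_id (μ := μ)).norm
  exact (integrable_const _).add (h4.const_mul L)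

theorem step4 (μ : Measure E) [IsGaussian μ] (hμ : ∫ x, x ∂μ = 0) {Λ : ℝ} (hΛ : 0 ≤ Λ)
    (hvar : ∀ u : E, Var[fun x => ⟪u, x⟫; μ] ≤ Λ * ‖u‖ ^ 2) {F : E → ℝ} {L : ℝ} (hL : 0 ≤ L)
    (hF : ContDiff ℝ 1 F) (hFL : ∀ x, ‖fderiv ℝ F x‖ ≤ L) (l : ℝ) :
    ∫⁻ y, ENNReal.ofReal (Real.exp (l * (F y - ∫ x, F x ∂μ))) ∂μ ≤
      ENNReal.ofReal (Real.exp (Λ * L ^ 2 * (l * (Real.pi / 2)) ^ 2 / 2)) := by
  refine le_trans ?_ (step3 μ hμ hΛ hvar hL hF hFL l)
  have hm : Measurable fun z : E × E => ENNReal.ofReal (Real.exp (l * (F z.2 - F z.1))) := by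
    have hc := hF.continuous
    exact (ENNReal.continuous_ofReal.comp (Real.continuous_exp.comp
      (((hc.comp continuous_snd).sub (hc.comp continuous_fst)).const_mul l))).measurable
  rw [lintegral_prod_symm _ hm.aemeasurable]
  refine lintegral_mono fun y => ?_
  have hint : Integrable (fun x => l * (F y - F x)) μ :=
    ((integrable_const (F y)).sub (F_integrable μ hF hFL)).const_mul l
  have h := jensen μ hint
  have e : ∫ x, l * (F y - F x) ∂μ = l * (F y - ∫ x, F x ∂μ) := by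
    rw [integral_const_mul, integral_sub (integrable_const (F y)) (F_integrable μ hF hFL)]
    simp
  rwa [e] at h

end GAU1L

open GAU1L in
theorem t_GAU1 : S_GAU1 := by
  intro n μ _ hμ Λ hΛ hvar F L hL hF hFL
  have hc := hF.continuous
  have key := step4 μ hμ hΛ hvar hL hF hFL
  have hint : ∀ t : ℝ, Integrable (fun x => Real.exp (t * (F x - ∫ y, F y ∂μ))) μ := by
    intro t
    have hcont : Continuous fun x => Real.exp (t * (F x - ∫ y, F y ∂μ)) :=
      Real.continuous_exp.comp ((hc.sub continuous_const).const_mul t)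
    refine (lintegral_ofReal_ne_top_iff_integrable hcont.aestronglyMeasurable
      (Eventually.of_forall fun _ => Real.exp_nonneg _)).1 ?_
    exact ((key t).trans_lt ENNReal.ofReal_lt_top).ne
  refine ⟨hint, fun t => ?_⟩
  have h1 := key t
  rw [← ofReal_integral_eq_lintegral_ofReal (hint t)
    (Eventually.of_forall fun _ => Real.exp_nonneg _),
    ENNReal.ofReal_le_ofReal_iff (Real.exp_nonneg _)] at h1
  refine h1.trans (le_of_eq ?_)
  congr 1
  rw [Real.coe_toNNReal _ (by positivity)]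
  ring

end Pool.Agent.H493.EN
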