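import Pool.Agent.H493.EN.GLO

set_option autoImplicit false

/-! The pattern inequality at a fixed height, for functions which need not be continuous (adapted from GLO, helper230). -/

open Complex Filter Topology Set MeasureTheory

namespace Pool.Agent.H493.EN

namespace GLO2L

open GLOL

lemma piece (T τ a b : ℝ) (F : ℝ → ℝ) (hi0 : IntervalIntegrable (fun t => F t ^ 2) volume T (2 * T))
    (Θ : ℝ → ℂ) (h1 : ∀ t, ‖Θ t‖ ≤ 1) (hτ : 0 < τ) (ha : T ≤ a) (hab : a ≤ b) (hb : b ≤ 2 * T) :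
    ‖∫ t in a..b, Θ t * (F t : ℂ)‖ ≤ τ / 2 * (∫ t in T..(2 * T), F t ^ 2) +
      (b - a) / (2 * τ) := by
  have hT : T ≤ 2 * T := by linarith
  have hsub : uIcc a b ⊆ Icc T (2 * T) := by
    rw [uIcc_of_le hab]; exact Icc_subset_Icc ha hb
  have hi1 : IntervalIntegrable (fun t => F t ^ 2) volume a b := by
    refine hi0.mono_set ?_
    rw [uIcc_of_le hT]; exact hsub
  have hA : ‖∫ t in a..b, Θ t * (F t : ℂ)‖ ≤
      ∫ t in a..b, (τ / 2 * F t ^ 2 + 1 / (2 * τ)) := by
    apply intervalIntegral.norm_integral_le_of_norm_le hab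
    · refine Eventually.of_forall fun t _ => ?_
      rw [norm_mul, Complex.norm_real, Real.norm_eq_abs]
      calc ‖Θ t‖ * |F t| ≤ 1 * |F t| := mul_le_mul_of_nonneg_right (h1 t) (abs_nonneg _)
        _ = |F t| := one_mul _
        _ ≤ _ := abs_le τ (F t) hτ
    · exact (hi1.const_mul _).add intervalIntegrable_const
  have hB : ∫ t in a..b, (τ / 2 * F t ^ 2 + 1 / (2 * τ)) =
      τ / 2 * (∫ t in a..b, F t ^ 2) + (b - a) / (2 * τ) := by
    rw [intervalIntegral.integral_add (hi1.const_mul _) intervalIntegrable_const,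
      intervalIntegral.integral_const_mul, intervalIntegral.integral_const, smul_eq_mul]
    ring
  have hC : ∫ t in a..b, F t ^ 2 ≤ ∫ t in T..(2 * T), F t ^ 2 := by
    apply intervalIntegral.integral_mono_interval ha hab hb _ hi0
    exact Eventually.of_forall fun t => sq_nonneg _
  have := mul_le_mul_of_nonneg_left hC (by positivity : (0 : ℝ) ≤ τ / 2)
  linarith

/-- shifting the integral -/
lemma shift (T s B τ : ℝ) (Y : ℝ → ℝ) (hT : 0 < T) (hs : 0 ≤ s) (hsT : s ≤ T)
    (hc0 : IntervalIntegrable Y volume T (2 * T)) (hcs : IntervalIntegrable (fun t => Y (t + s)) volume T (2 * T))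
    (hc02 : IntervalIntegrable (fun t => Y t ^ 2) volume T (2 * T))
    (hcs2 : IntervalIntegrable (fun t => Y (t + s) ^ 2) volume T (2 * T))
    (hB0 : ∫ t in T..(2 * T), Y t ^ 2 ≤ B * T)
    (hBs : ∫ t in T..(2 * T), Y (t + s) ^ 2 ≤ B * T) (hτ : 0 < τ)
    (θ : ℝ → ℂ) (hm : Measurable θ) (h1 : ∀ t, ‖θ t‖ ≤ 1) :
    ‖(∫ t in T..(2 * T), θ t * (Y t : ℂ)) - ∫ t in T..(2 * T), θ (t + s) * (Y (t + s) : ℂ)‖ ≤
      τ * B * T + s / τ := by
  have hT2 : T ≤ 2 * T := by linarith
  have hi0 : IntervalIntegrable (fun t => θ t * (Y t : ℂ)) volume T (2 * T) := by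
    exact ii_mul _ _ _ hc0 _ hm h1
  have hi1 : IntervalIntegrable (fun t => θ (t + s) * (Y (t + s) : ℂ)) volume T (2 * T) := by
    exact ii_mul T (2 * T) (fun t => Y (t + s)) hcs (fun t => θ (t + s))
      (hm.comp (measurable_id.add_const s)) (fun t => h1 _)
  have hi2 : IntervalIntegrable (fun t => θ t * (Y t : ℂ)) volume (T + s) (2 * T + s) := by
    have := hi1.comp_add_right (-s)
    simp only [sub_neg_eq_add, neg_add_cancel_right] at this
    exact this
  have hi3 : IntervalIntegrable (fun t => θ t * (Y t : ℂ)) volume T (T + s) := by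
    apply hi0.mono_set
    rw [uIcc_of_le hT2, uIcc_of_le (by linarith)]
    exact Icc_subset_Icc le_rfl (by linarith)
  have e1 : ∫ t in T..(2 * T), θ (t + s) * (Y (t + s) : ℂ) =
      ∫ t in (T + s)..(2 * T + s), θ t * (Y t : ℂ) :=
    intervalIntegral.integral_comp_add_right (fun t => θ t * (Y t : ℂ)) s
  have e2 := intervalIntegral.integral_interval_sub_interval_comm hi0 hi2 hi3
  have e3 : ∫ t in (2 * T)..(2 * T + s), θ t * (Y t : ℂ) =
      ∫ t in (2 * T - s)..(2 * T), θ (t + s) * (Y (t + s) : ℂ) := by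
    rw [intervalIntegral.integral_comp_add_right (fun t => θ t * (Y t : ℂ)) s]
    rw [sub_add_cancel]
  have b1 := piece T τ T (T + s) Y hc02 θ h1 hτ le_rfl (by linarith) (by linarith)
  have b2 := piece T τ (2 * T - s) (2 * T) (fun t => Y (t + s)) hcs2 (fun t => θ (t + s))
    (fun t => h1 _) hτ (by linarith) (by linarith) le_rfl
  rw [e1, e2, e3]
  refine (norm_sub_le _ _).trans ?_
  have c1 := mul_le_mul_of_nonneg_left hB0 (by positivity : (0 : ℝ) ≤ τ / 2)
  have c2 := mul_le_mul_of_nonneg_left hBs (by positivity : (0 : ℝ) ≤ τ / 2)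
  have c3 : (T + s - T) / (2 * τ) + (2 * T - (2 * T - s)) / (2 * τ) = s / τ := by
    field_simp
    ring
  have c4 : τ / 2 * (B * T) + τ / 2 * (B * T) = τ * B * T := by ring
  linarith

end GLO2L

open GLOL GLO2L in
theorem glo2 (T h : ℝ) (M : ℕ) (Y : ℝ → ℝ) (B τ η ρ δ K : ℝ) (hT : 0 < T) (hh : 0 ≤ h) (hM : 1 ≤ M)
    (hMh : M * h ≤ T) (_hB : 0 ≤ B) (hτ : 0 < τ) (hη : 0 ≤ η) (hρ : 0 ≤ ρ) (hδ : 0 ≤ δ)
    (hI1 : ∀ m ≤ M, IntervalIntegrable (fun t => Y (t + m * h)) volume T (2 * T))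
    (hI2 : ∀ m ≤ M, IntervalIntegrable (fun t => Y (t + m * h) ^ 2) volume T (2 * T))
    (hBm : ∀ m ≤ M, ∫ t in T..(2 * T), Y (t + m * h) ^ 2 ≤ B * T)
    (hexc : ∀ p : ℕ → ℂ, (∀ m, ‖p m‖ ≤ 1) →
      volume {t | t ∈ Icc T (2 * T) ∧ η * M ≤ ‖∑ m ∈ Finset.range M, p m * (Y (t + m * h) : ℂ)‖} ≤
        ENNReal.ofReal (ρ * T))
    (θ : ℝ → ℂ) (hθm : Measurable θ) (hθ1 : ∀ t, ‖θ t‖ ≤ 1)
    (hPE : ∃ (P : Finset (ℕ → ℂ)) (E : Set ℝ), (P.card : ℝ) ≤ K ∧ (∀ p ∈ P, ∀ m, ‖p m‖ ≤ 1) ∧
      volume E ≤ ENNReal.ofReal (δ * T) ∧ ∀ t ∈ Icc T (2 * T), t ∉ E →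
        ∃ p ∈ P, ∑ m ∈ Finset.range M, ‖θ (t + m * h) - p m‖ ≤ δ * M) :
    ‖∫ t in T..(2 * T), θ t * (Y t : ℂ)‖ ≤
      (η + δ / τ + 3 / 2 * τ * B + (δ + K * ρ) / (2 * τ)) * T + M * h / τ := by
  obtain ⟨P, E, hPK, hP1, hE, hfol⟩ := hPE
  have hT2 : T ≤ 2 * T := by linarith
  have hM0 : (0 : ℝ) < M := by exact_mod_cast hM
  have hK : 0 ≤ K := le_trans (Nat.cast_nonneg _) hPK
  have hc0 : IntervalIntegrable Y volume T (2 * T) := by
    have := hI1 0 (Nat.zero_le _)
    simpa using this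
  have hc02 : IntervalIntegrable (fun t => Y t ^ 2) volume T (2 * T) := by
    have := hI2 0 (Nat.zero_le _)
    simpa using this
  have hB0 : ∫ t in T..(2 * T), Y t ^ 2 ≤ B * T := by
    have := hBm 0 (Nat.zero_le _)
    simpa using this
  -- exceptional set
  let Ex : (ℕ → ℂ) → Set ℝ := fun p =>
    {t | t ∈ Icc T (2 * T) ∧ η * M ≤ ‖∑ m ∈ Finset.range M, p m * (Y (t + m * h) : ℂ)‖}
  let Z : Set ℝ := toMeasurable volume (E ∪ ⋃ p ∈ P, Ex p)
  have hZm : MeasurableSet Z := measurableSet_toMeasurable _ _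
  have hZsub : E ∪ ⋃ p ∈ P, Ex p ⊆ Z := subset_toMeasurable _ _
  have hZv : volume Z ≤ ENNReal.ofReal ((δ + K * ρ) * T) := by
    have e1 : volume Z = volume (E ∪ ⋃ p ∈ P, Ex p) := measure_toMeasurable _
    rw [e1]
    have e2 : volume (⋃ p ∈ P, Ex p) ≤ ENNReal.ofReal (K * ρ * T) := by
      refine (measure_biUnion_finset_le P Ex).trans ?_
      refine (Finset.sum_le_sum fun p hp => hexc p (hP1 p hp)).trans ?_
      rw [Finset.sum_const, nsmul_eq_mul]
      have : ((P.card : ℕ) : ENNReal) = ENNReal.ofReal (P.card : ℝ) := by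
        rw [ENNReal.ofReal_natCast]
      rw [this, ← ENNReal.ofReal_mul (Nat.cast_nonneg _)]
      apply ENNReal.ofReal_le_ofReal
      rw [mul_assoc]
      exact mul_le_mul_of_nonneg_right hPK (by positivity)
    calc volume (E ∪ ⋃ p ∈ P, Ex p) ≤ volume E + volume (⋃ p ∈ P, Ex p) := measure_union_le _ _
      _ ≤ ENNReal.ofReal (δ * T) + ENNReal.ofReal (K * ρ * T) := add_le_add hE e2
      _ = ENNReal.ofReal ((δ + K * ρ) * T) := by
        rw [← ENNReal.ofReal_add (by positivity) (by positivity)]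
        congr 1; ring
  -- integrability of squares
  have hsq : ∀ m ∈ Finset.range M,
      IntervalIntegrable (fun t => Y (t + m * h) ^ 2) volume T (2 * T) := by
    intro m hm
    exact hI2 m (Finset.mem_range.mp hm).le
  have hprod : ∀ m ∈ Finset.range M,
      IntervalIntegrable (fun t => θ (t + m * h) * (Y (t + m * h) : ℂ)) volume T (2 * T) := by
    intro m hm
    exact ii_mul T (2 * T) (fun t => Y (t + m * h)) (hI1 m (Finset.mem_range.mp hm).le) (fun t => θ (t + m * h))
      (hθm.comp (measurable_id.add_const _)) (fun t => hθ1 _)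
  have hIsum : IntervalIntegrable (fun t => ∑ m ∈ Finset.range M, Y (t + m * h) ^ 2)
      volume T (2 * T) := by
    have := IntervalIntegrable.sum (Finset.range M) hsq
    refine this.congr fun t _ => ?_
    simp [Finset.sum_apply]
  have hIZ : IntervalIntegrable (Z.indicator fun _ => M / (2 * τ)) volume T (2 * T) := by
    constructor
    · exact (integrable_const _).indicator hZm
    · exact (integrable_const _).indicator hZm
  -- pointwise bound
  have hpt : ∀ t ∈ Icc T (2 * T),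
      ‖∑ m ∈ Finset.range M, θ (t + m * h) * (Y (t + m * h) : ℂ)‖ ≤
        (η * M + δ * M / τ) + τ / 2 * (∑ m ∈ Finset.range M, Y (t + m * h) ^ 2) +
          Z.indicator (fun _ => M / (2 * τ)) t := by
    intro t ht
    by_cases htZ : t ∈ Z
    · rw [indicator_of_mem htZ]
      have h1 : ‖∑ m ∈ Finset.range M, θ (t + m * h) * (Y (t + m * h) : ℂ)‖ ≤
          ∑ m ∈ Finset.range M, (τ / 2 * Y (t + m * h) ^ 2 + 1 / (2 * τ)) := by
        refine (norm_sum_le _ _).trans (Finset.sum_le_sum fun m _ => ?_)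
        rw [norm_mul, Complex.norm_real, Real.norm_eq_abs]
        calc ‖θ (t + m * h)‖ * |Y (t + m * h)| ≤ 1 * |Y (t + m * h)| :=
              mul_le_mul_of_nonneg_right (hθ1 _) (abs_nonneg _)
          _ = |Y (t + m * h)| := one_mul _
          _ ≤ _ := abs_le τ _ hτ
      rw [Finset.sum_add_distrib, ← Finset.mul_sum, Finset.sum_const, Finset.card_range,
        nsmul_eq_mul] at h1
      have h2 : (M : ℝ) * (1 / (2 * τ)) = M / (2 * τ) := by ring
      rw [h2] at h1
      have h3 : 0 ≤ η * M + δ * M / τ := by positivity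
      linarith
    · rw [indicator_of_notMem htZ, add_zero]
      have htn : t ∉ E ∪ ⋃ p ∈ P, Ex p := fun hc => htZ (hZsub hc)
      have htE : t ∉ E := fun hc => htn (Or.inl hc)
      obtain ⟨p, hp, hps⟩ := hfol t ht htE
      have htp : ‖∑ m ∈ Finset.range M, p m * (Y (t + m * h) : ℂ)‖ ≤ η * M := by
        by_contra hcon
        push Not at hcon
        apply htn
        right
        rw [mem_iUnion₂]
        exact ⟨p, hp, ht, hcon.le⟩
      have hsplit : ∑ m ∈ Finset.range M, θ (t + m * h) * (Y (t + m * h) : ℂ) =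
          ∑ m ∈ Finset.range M, p m * (Y (t + m * h) : ℂ) +
          ∑ m ∈ Finset.range M, (θ (t + m * h) - p m) * (Y (t + m * h) : ℂ) := by
        rw [← Finset.sum_add_distrib]
        exact Finset.sum_congr rfl fun m _ => by ring
      have h1 : ‖∑ m ∈ Finset.range M, (θ (t + m * h) - p m) * (Y (t + m * h) : ℂ)‖ ≤
          ∑ m ∈ Finset.range M, (‖θ (t + m * h) - p m‖ / τ + τ / 2 * Y (t + m * h) ^ 2) := by
        refine (norm_sum_le _ _).trans (Finset.sum_le_sum fun m _ => ?_)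
        rw [norm_mul, Complex.norm_real, Real.norm_eq_abs]
        apply mul_abs_le τ _ _ hτ (norm_nonneg _)
        calc ‖θ (t + m * h) - p m‖ ≤ ‖θ (t + m * h)‖ + ‖p m‖ := norm_sub_le _ _
          _ ≤ 1 + 1 := add_le_add (hθ1 _) (hP1 p hp m)
          _ = 2 := by norm_num
      rw [Finset.sum_add_distrib, ← Finset.mul_sum, ← Finset.sum_div] at h1
      have h2 : (∑ m ∈ Finset.range M, ‖θ (t + m * h) - p m‖) / τ ≤ δ * M / τ :=
        div_le_div_of_nonneg_right hps hτ.le
      rw [hsplit]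
      refine (norm_add_le _ _).trans ?_
      linarith
  -- the integral of the pointwise bound
  have hconst : IntervalIntegrable (fun _ : ℝ => η * M + δ * M / τ) volume T (2 * T) :=
    intervalIntegrable_const
  have hint : ‖∫ t in T..(2 * T), ∑ m ∈ Finset.range M, θ (t + m * h) * (Y (t + m * h) : ℂ)‖ ≤
      M * ((η + δ / τ + τ * B / 2 + (δ + K * ρ) / (2 * τ)) * T) := by
    have h1 := intervalIntegral.norm_integral_le_of_norm_le hT2
      (f := fun t => ∑ m ∈ Finset.range M, θ (t + m * h) * (Y (t + m * h) : ℂ))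
      (Eventually.of_forall fun t ht => hpt t ⟨ht.1.le, ht.2⟩)
      ((hconst.add (hIsum.const_mul _)).add hIZ)
    refine h1.trans ?_
    rw [intervalIntegral.integral_add (hconst.add (hIsum.const_mul _)) hIZ,
      intervalIntegral.integral_add hconst (hIsum.const_mul _),
      intervalIntegral.integral_const, intervalIntegral.integral_const_mul,
      intervalIntegral.integral_finsetSum hsq]
    have h2 : ∑ m ∈ Finset.range M, ∫ t in T..(2 * T), Y (t + m * h) ^ 2 ≤ M * (B * T) := by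
      refine (Finset.sum_le_sum fun m hm => hBm m (Finset.mem_range.mp hm).le).trans ?_
      rw [Finset.sum_const, Finset.card_range, nsmul_eq_mul]
    have h3 : ∫ t in T..(2 * T), Z.indicator (fun _ => M / (2 * τ)) t ≤
        (δ + K * ρ) * T * (M / (2 * τ)) := by
      rw [intervalIntegral.integral_of_le hT2, setIntegral_indicator hZm, setIntegral_const,
        smul_eq_mul]
      apply mul_le_mul_of_nonneg_right _ (by positivity)
      apply ENNReal.toReal_le_of_le_ofReal (by positivity)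
      exact (measure_mono inter_subset_right).trans hZv
    have h4 := mul_le_mul_of_nonneg_left h2 (by positivity : (0 : ℝ) ≤ τ / 2)
    have h5 : (2 * T - T) • (η * M + δ * M / τ) + τ / 2 * (M * (B * T)) +
        (δ + K * ρ) * T * (M / (2 * τ)) =
        M * ((η + δ / τ + τ * B / 2 + (δ + K * ρ) / (2 * τ)) * T) := by
      rw [smul_eq_mul]
      field_simp
      ring
    rw [← h5]
    linarith
  -- averaging over shifts
  have hsh : ∀ m ∈ Finset.range M,
      ‖(∫ t in T..(2 * T), θ t * (Y t : ℂ)) -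
        ∫ t in T..(2 * T), θ (t + m * h) * (Y (t + m * h) : ℂ)‖ ≤ τ * B * T + M * h / τ := by
    intro m hm
    have hmM : (m : ℝ) ≤ M := by exact_mod_cast (Finset.mem_range.mp hm).le
    have hmh : (m : ℝ) * h ≤ M * h := mul_le_mul_of_nonneg_right hmM hh
    have := shift T (m * h) B τ Y hT (by positivity) (hmh.trans hMh) hc0
      (hI1 m (Finset.mem_range.mp hm).le) hc02 (hI2 m (Finset.mem_range.mp hm).le) hB0 (hBm m (Finset.mem_range.mp hm).le) hτ θ hθm hθ1
    have h2 : (m : ℝ) * h / τ ≤ M * h / τ := div_le_div_of_nonneg_right hmh hτ.le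
    linarith
  have hsum : (M : ℂ) * ∫ t in T..(2 * T), θ t * (Y t : ℂ) =
      ∑ m ∈ Finset.range M, ((∫ t in T..(2 * T), θ t * (Y t : ℂ)) -
        ∫ t in T..(2 * T), θ (t + m * h) * (Y (t + m * h) : ℂ)) +
      ∫ t in T..(2 * T), ∑ m ∈ Finset.range M, θ (t + m * h) * (Y (t + m * h) : ℂ) := by
    rw [intervalIntegral.integral_finsetSum hprod, Finset.sum_sub_distrib, Finset.sum_const,
      Finset.card_range, nsmul_eq_mul]
    ring
  have hfin : (M : ℝ) * ‖∫ t in T..(2 * T), θ t * (Y t : ℂ)‖ ≤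
      M * (τ * B * T + M * h / τ) +
        M * ((η + δ / τ + τ * B / 2 + (δ + K * ρ) / (2 * τ)) * T) := by
    have h1 : (M : ℝ) * ‖∫ t in T..(2 * T), θ t * (Y t : ℂ)‖ =
        ‖(M : ℂ) * ∫ t in T..(2 * T), θ t * (Y t : ℂ)‖ := by
      rw [norm_mul, Complex.norm_natCast]
    rw [h1, hsum]
    refine (norm_add_le _ _).trans (add_le_add ?_ hint)
    refine (norm_sum_le _ _).trans ((Finset.sum_le_sum hsh).trans ?_)
    rw [Finset.sum_const, Finset.card_range, nsmul_eq_mul]
  rw [← mul_add] at hfin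
  have hfin2 := le_of_mul_le_mul_left hfin hM0
  refine hfin2.trans (le_of_eq ?_)
  ring

end Pool.Agent.H493.EN
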