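import Pool.Agent.H493.EN.Stm

set_option autoImplicit false

/-! MOL: Lipschitz functions are uniform limits of continuously differentiable functions with the
same Lipschitz constant (helper870). -/

open Complex Filter Topology Set MeasureTheory ProbabilityTheory
open scoped BoundedContinuousFunction RealInnerProductSpace NNReal Convolution

namespace Pool.Agent.H493.EN

namespace MOLL

variable {n : ℕ}

theorem lip_conv (φ : ContDiffBump (0 : EuclideanSpace ℝ (Fin n)))
    (F : EuclideanSpace ℝ (Fin n) → ℝ) (L : ℝ≥0) (hF : LipschitzWith L F) :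
    LipschitzWith L (φ.normed volume ⋆[ContinuousLinearMap.lsmul ℝ ℝ, volume] F) := by
  have hc : ConvolutionExists (φ.normed volume) F (ContinuousLinearMap.lsmul ℝ ℝ) volume :=
    φ.hasCompactSupport_normed.convolutionExists_left _ φ.continuous_normed
      hF.continuous.locallyIntegrable
  refine LipschitzWith.of_dist_le_mul fun x x' => ?_
  rw [Real.dist_eq, convolution_def, convolution_def, ← integral_sub (hc x) (hc x'),
    ← Real.norm_eq_abs]
  have h1 : ∫ y, (L : ℝ) * dist x x' * φ.normed volume y = L * dist x x' := by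
    rw [integral_const_mul, φ.integral_normed, mul_one]
  refine (norm_integral_le_of_norm_le (φ.integrable_normed.const_mul (L * dist x x'))
    (Eventually.of_forall fun y => ?_)).trans h1.le
  rw [ContinuousLinearMap.lsmul_apply, ContinuousLinearMap.lsmul_apply, ← smul_sub, norm_smul,
    Real.norm_eq_abs, abs_of_nonneg (φ.nonneg_normed y), mul_comm]
  refine mul_le_mul_of_nonneg_right ?_ (φ.nonneg_normed y)
  have h2 := hF.dist_le_mul (x - y) (x' - y)
  rw [dist_sub_right, Real.dist_eq] at h2
  exact h2

end MOLL

open MOLL in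
theorem t_MOL : S_MOL := by
  intro n F L hF ε hε
  have hL : (0 : ℝ) < (L : ℝ) + 1 := by
    have := L.coe_nonneg
    linarith
  have hr : 0 < ε / ((L : ℝ) + 1) := div_pos hε hL
  let φ : ContDiffBump (0 : EuclideanSpace ℝ (Fin n)) :=
    ⟨ε / ((L : ℝ) + 1) / 2, ε / ((L : ℝ) + 1), half_pos hr, half_lt_self hr⟩
  have hro : φ.rOut = ε / ((L : ℝ) + 1) := rfl
  refine ⟨φ.normed volume ⋆[ContinuousLinearMap.lsmul ℝ ℝ, volume] F, ?_, lip_conv φ F L hF, ?_⟩
  · exact φ.hasCompactSupport_normed.contDiff_convolution_left _ φ.contDiff_normed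
      hF.continuous.locallyIntegrable
  · intro x
    have h := φ.dist_normed_convolution_le (μ := volume) (x₀ := x) (ε := ε)
      hF.continuous.aestronglyMeasurable (fun y hy => ?_)
    · rw [Real.dist_eq] at h
      exact h
    · have h1 := hF.dist_le_mul y x
      rw [Metric.mem_ball, hro] at hy
      have h2 : (L : ℝ) * dist y x ≤ L * (ε / ((L : ℝ) + 1)) :=
        mul_le_mul_of_nonneg_left hy.le L.coe_nonneg
      have h3 : (L : ℝ) * (ε / ((L : ℝ) + 1)) ≤ ε := by
        rw [← mul_div_assoc, div_le_iff₀ hL]
        nlinarith [L.coe_nonneg]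
      linarith

end Pool.Agent.H493.EN
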