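import Pool.Agent.H493.EN.Expo
import Pool.Agent.H493.EN.GAU1
import Pool.Agent.H493.EN.MOL
import Pool.Agent.H493.EN.GAU
import Pool.Agent.H493.EN.GLO2
import Pool.Agent.H493.EN.QG2

set_option autoImplicit false

/-! The entropy principle for a field which is asymptotically Gaussian at consecutive points. -/

open Complex Filter Topology Set MeasureTheory ProbabilityTheory
open scoped BoundedContinuousFunction RealInnerProductSpace NNReal

namespace Pool.Agent.H493.EN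

theorem p_GAU2 : S_GAU := t_GAU t_GAU1 t_MOL

/-- the vector of `M` blocks -/
noncomputable def vecB {k M : ℕ} (x : Fin M → EuclideanSpace ℝ (Fin k)) : EuclideanSpace ℝ (Fin (k * M)) :=
  WithLp.toLp 2 fun a => x (finProdFinEquiv.symm a).2 (finProdFinEquiv.symm a).1

lemma blk_vecB {k M : ℕ} (x : Fin M → EuclideanSpace ℝ (Fin k)) (m : Fin M) : blk m (vecB x) = x m := by
  unfold blk vecB
  simp

lemma vecB_cont {k M : ℕ} : Continuous (vecB (k := k) (M := M)) := by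
  unfold vecB
  refine (PiLp.continuous_toLp 2 _).comp ?_
  refine continuous_pi fun a => ?_
  have h1 : Continuous fun x : Fin M → EuclideanSpace ℝ (Fin k) => x (finProdFinEquiv.symm a).2 :=
    continuous_apply _
  have h2 : Continuous fun y : EuclideanSpace ℝ (Fin k) => y (finProdFinEquiv.symm a).1 := by fun_prop
  exact h2.comp h1

/-- the Gaussian data: covariance matrices of the field at `M` consecutive points -/
structure Gs (k : ℕ) (Λ : ℝ) (S₁ : Matrix (Fin k) (Fin k) ℝ)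
    (S : ∀ M : ℕ, Matrix (Fin (k * M)) (Fin (k * M)) ℝ) : Prop where
  lam : 0 < Λ
  psd1 : S₁.PosSemidef
  psd : ∀ M, (S M).PosSemidef
  qf : ∀ M (u : Fin (k * M) → ℝ), ∑ i, ∑ j, u i * u j * S M i j ≤ Λ * ∑ i, u i ^ 2
  diag : ∀ M (m : Fin M) (i j : Fin k), S M (finProdFinEquiv (i, m)) (finProdFinEquiv (j, m)) = S₁ i j

/-- the field `X s T t` observed along the scale `s = h T` -/
structure Obs (k : ℕ) (S₁ : Matrix (Fin k) (Fin k) ℝ) (S : ∀ M : ℕ, Matrix (Fin (k * M)) (Fin (k * M)) ℝ)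
    (X : ℝ → ℝ → ℝ → EuclideanSpace ℝ (Fin k)) (h : ℝ → ℝ) : Prop where
  pos : ∀ᶠ T : ℝ in atTop, 0 < h T
  zero : Tendsto (fun T => h T / T) atTop (𝓝 0)
  meas : ∀ᶠ T : ℝ in atTop, ∀ m : ℕ,
    AEStronglyMeasurable (fun t => X (h T) T (t + m * h T)) (volume.restrict (Ioc T (2 * T)))
  int2 : ∀ᶠ T : ℝ in atTop, ∀ m : ℕ,
    IntervalIntegrable (fun t => ‖X (h T) T (t + m * h T)‖ ^ 2) volume T (2 * T)
  weak : ∀ (M : ℕ) (Φ : EuclideanSpace ℝ (Fin (k * M)) →ᵇ ℝ),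
    Tendsto (fun T : ℝ => 1 / T * ∫ t in T..(2 * T), Φ (vecB fun m : Fin M => X (h T) T (t + (m : ℕ) * h T)))
      atTop (𝓝 (∫ x, Φ x ∂(multivariateGaussian 0 (S M))))
  sec : ∀ m : ℕ, Tendsto (fun T : ℝ => 1 / T * ∫ t in T..(2 * T), ‖X (h T) T (t + m * h T)‖ ^ 2) atTop
    (𝓝 (∫ x, ‖x‖ ^ 2 ∂(multivariateGaussian 0 S₁)))

lemma charG2 {n : ℕ} {S : Matrix (Fin n) (Fin n) ℝ} (hS : S.PosSemidef) (u : EuclideanSpace ℝ (Fin n)) :
    charFun (multivariateGaussian 0 S) u = cexp (-((∑ i, ∑ j, u i * u j * S i j : ℝ) : ℂ) / 2) := by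
  rw [charFun_multivariateGaussian hS]
  congr 1
  have : (u.ofLp ⬝ᵥ S.mulVec u.ofLp) = ∑ i, ∑ j, u i * u j * S i j := by
    simp only [dotProduct, Matrix.mulVec, Finset.mul_sum]
    exact Finset.sum_congr rfl fun i _ => Finset.sum_congr rfl fun j _ => by ring
  rw [this]
  simp
  ring

section

variable {k : ℕ} {Λ : ℝ} {S₁ : Matrix (Fin k) (Fin k) ℝ} {S : ∀ M : ℕ, Matrix (Fin (k * M)) (Fin (k * M)) ℝ}

/-- the law of a block -/
theorem Gs.law (hG : Gs k Λ S₁ S) {M : ℕ} (m : Fin M) :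
    (multivariateGaussian 0 (S M)).map (blk (k := k) m) = multivariateGaussian 0 S₁ := by
  have : IsProbabilityMeasure ((multivariateGaussian 0 (S M)).map (blk (k := k) m)) :=
    Measure.isProbabilityMeasure_map (blk_cont m).aemeasurable
  refine Measure.ext_of_charFun ?_
  funext u
  rw [charG2 hG.psd1, charFun_apply, integral_map (blk_cont m).aemeasurable (by fun_prop)]
  have e : ∀ x, cexp ((⟪blk m x, u⟫ : ℝ) * I) = cexp ((⟪x, emb m u⟫ : ℝ) * I) := fun x => by rw [inner_blk]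
  simp_rw [e]
  rw [← charFun_apply, charG2 (hG.psd M)]
  congr 3
  rw [Complex.ofReal_inj, sum_ab]
  refine Finset.sum_congr rfl fun i _ => ?_
  rw [Finset.sum_eq_single m]
  · rw [sum_ab]
    refine Finset.sum_congr rfl fun j _ => ?_
    rw [Finset.sum_eq_single m]
    · rw [hG.diag]
      unfold emb
      simp
    · intro b _ hb
      unfold emb
      simp [hb]
    · simp
  · intro b _ hb
    refine Finset.sum_eq_zero fun a _ => ?_
    unfold emb
    simp [hb]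
  · simp

lemma Gs.mean (hG : Gs k Λ S₁ S) {ψ : EuclideanSpace ℝ (Fin k) → ℝ} {L : ℝ≥0} (hψ : LipschitzWith L ψ) {M : ℕ}
    (r : Fin M → ℝ) : ∫ x, Rp ψ (∫ y, ψ y ∂(multivariateGaussian 0 S₁)) r x ∂(multivariateGaussian 0 (S M)) = 0 := by
  have hi : ∀ m : Fin M, Integrable (fun x => ψ (blk m x)) (multivariateGaussian 0 (S M)) := by
    intro m
    have h2 := lip_int hψ (multivariateGaussian 0 S₁)
    rw [← hG.law m] at h2
    exact h2.comp_measurable (blk_cont m).measurable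
  unfold Rp
  have hi2 : ∀ m ∈ (Finset.univ : Finset (Fin M)), Integrable (fun x => r m * (ψ (blk m x) -
      ∫ y, ψ y ∂(multivariateGaussian 0 S₁))) (multivariateGaussian 0 (S M)) :=
    fun m _ => ((hi m).sub (integrable_const _)).const_mul _
  rw [integral_finsetSum _ hi2]
  refine Finset.sum_eq_zero fun m _ => ?_
  rw [integral_const_mul, integral_sub (hi m) (integrable_const _), integral_const, probReal_univ, one_smul]
  have h3 : ∫ x, ψ (blk m x) ∂(multivariateGaussian 0 (S M)) = ∫ y, ψ y ∂(multivariateGaussian 0 S₁) := by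
    rw [← hG.law m, integral_map (blk_cont m).aemeasurable hψ.continuous.aestronglyMeasurable]
  rw [h3, sub_self, mul_zero]

/-- concentration for the pattern sums on the Gaussian side -/
lemma Gs.conc (hG : Gs k Λ S₁ S) {M : ℕ} (hM : 1 ≤ M) {ψ : EuclideanSpace ℝ (Fin k) → ℝ} {L : ℝ≥0} (hL : 0 < L)
    (hψ : LipschitzWith L ψ) {p : Fin M → ℂ} (hp : ∀ m, ‖p m‖ ≤ 1) {δ : ℝ} (hδ : 0 ≤ δ) :
    (multivariateGaussian 0 (S M)).real {x | δ ≤ ‖Gp ψ (∫ y, ψ y ∂(multivariateGaussian 0 S₁)) p x‖} ≤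
      4 * Real.exp (-(δ ^ 2 / (2 * Real.pi ^ 2 * L ^ 2 * M * Λ))) := by
  set μ := multivariateGaussian 0 (S M) with hμ
  set c := ∫ y, ψ y ∂(multivariateGaussian 0 S₁) with hc
  have hM0 : (0 : ℝ) < M := by exact_mod_cast hM
  have one : ∀ r : Fin M → ℝ, (∀ m, |r m| ≤ 1) →
      μ.real {x | δ / 2 ≤ Rp ψ c r x} ≤ Real.exp (-(δ ^ 2 / (2 * Real.pi ^ 2 * L ^ 2 * M * Λ))) := by
    intro r hr
    have h2 := p_GAU2 (k * M) (S M) (hG.psd M) Λ hG.lam (hG.qf M) (Rp ψ c r) (L * NNReal.sqrt M)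
      (mul_pos hL (by rw [NNReal.sqrt_pos]; exact_mod_cast hM)) (Rp_lip hψ c hr) (hG.mean hψ r)
      (δ / 2) (by positivity)
    refine h2.trans (le_of_eq ?_)
    congr 2
    have h3 : ((L * NNReal.sqrt M : ℝ≥0) : ℝ) ^ 2 = (L : ℝ) ^ 2 * M := by
      push_cast
      rw [mul_pow, Real.sq_sqrt hM0.le]
    rw [h3]
    have hL' : (0 : ℝ) < L := by exact_mod_cast hL
    have := Real.pi_pos
    have := hG.lam
    field_simp
  have neg : ∀ r : Fin M → ℝ, ∀ x, Rp (k := k) ψ c (fun m => -r m) x = -Rp ψ c r x := by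
    intro r x
    unfold Rp
    rw [← Finset.sum_neg_distrib]
    exact Finset.sum_congr rfl fun m _ => by ring
  have hre : ∀ m, |(p m).re| ≤ 1 := fun m => (Complex.abs_re_le_norm _).trans (hp m)
  have him : ∀ m, |(p m).im| ≤ 1 := fun m => (Complex.abs_im_le_norm _).trans (hp m)
  have hsub : {x | δ ≤ ‖Gp ψ c p x‖} ⊆ (({x | δ / 2 ≤ Rp ψ c (fun m => (p m).re) x} ∪
      {x | δ / 2 ≤ Rp ψ c (fun m => -(p m).re) x}) ∪ {x | δ / 2 ≤ Rp ψ c (fun m => (p m).im) x}) ∪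
      {x | δ / 2 ≤ Rp ψ c (fun m => -(p m).im) x} := by
    intro x hx
    have h2 : δ ≤ ‖Gp ψ c p x‖ := hx
    have h3 := Complex.norm_le_abs_re_add_abs_im (Gp ψ c p x)
    rw [Gp_re, Gp_im] at h3
    by_contra h4
    have hnm : ∀ {r : Fin M → ℝ}, x ∉ {x | δ / 2 ≤ Rp ψ c r x} → Rp ψ c r x < δ / 2 := fun {r} h => not_le.1 h
    rw [mem_union, mem_union, mem_union, not_or, not_or, not_or] at h4
    obtain ⟨⟨⟨h5, h6⟩, h7⟩, h8⟩ := h4
    replace h5 := hnm h5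
    replace h6 := hnm h6
    replace h7 := hnm h7
    replace h8 := hnm h8
    rw [neg] at h6 h8
    have h9 : |Rp ψ c (fun m => (p m).re) x| < δ / 2 := abs_lt.2 ⟨by linarith, h5⟩
    have h10 : |Rp ψ c (fun m => (p m).im) x| < δ / 2 := abs_lt.2 ⟨by linarith, h7⟩
    linarith
  have e := (measureReal_mono hsub (measure_ne_top μ _)).trans ((measureReal_union_le _ _).trans
    (add_le_add ((measureReal_union_le _ _).trans (add_le_add ((measureReal_union_le _ _).trans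
      (add_le_add (one _ hre) (one _ (fun m => by rw [abs_neg]; exact hre m)))) (one _ him)))
      (one _ (fun m => by rw [abs_neg]; exact him m))))
  linarith

end

/-- Markov's inequality on an interval -/
lemma markov2 {a b : ℝ} (hab : a ≤ b) {G : ℝ → ℝ} (hG : IntervalIntegrable G volume a b) (h0 : ∀ t, 0 ≤ G t)
    {c : ℝ} (hc : 0 < c) :
    volume {t | t ∈ Icc a b ∧ c ≤ G t} ≤ ENNReal.ofReal ((∫ t in a..b, G t) / c) := by
  rw [intervalIntegrable_iff, uIoc_of_le hab] at hG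
  have hG' : Integrable G (volume.restrict (Icc a b)) := by
    have h1 : IntegrableOn G (Icc a b) volume := by rwa [integrableOn_Icc_iff_integrableOn_Ioc]
    exact h1
  have h1 : ∫ t in a..b, G t = ∫ t in Icc a b, G t := by
    rw [intervalIntegral.integral_of_le hab, integral_Icc_eq_integral_Ioc]
  have h2 : 0 ≤ᵐ[volume.restrict (Icc a b)] G := Filter.Eventually.of_forall h0
  rw [h1, ENNReal.ofReal_div_of_pos hc, ofReal_integral_eq_lintegral_ofReal hG' h2]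
  have h3 : {t | t ∈ Icc a b ∧ c ≤ G t} ⊆ Icc a b := fun t ht => ht.1
  rw [← Measure.restrict_eq_self volume h3]
  refine (measure_mono ?_).trans (meas_ge_le_lintegral_div
    (hG'.aestronglyMeasurable.aemeasurable.ennreal_ofReal) (by simpa using hc) ENNReal.ofReal_ne_top)
  intro t ht
  exact ENNReal.ofReal_le_ofReal ht.2

section

variable {k : ℕ} {Λ : ℝ} {S₁ : Matrix (Fin k) (Fin k) ℝ} {S : ∀ M : ℕ, Matrix (Fin (k * M)) (Fin (k * M)) ℝ}
  {X : ℝ → ℝ → ℝ → EuclideanSpace ℝ (Fin k)} {h : ℝ → ℝ}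

/-- the centred function along the field -/
noncomputable def Yg (X : ℝ → ℝ → ℝ → EuclideanSpace ℝ (Fin k)) (S₁ : Matrix (Fin k) (Fin k) ℝ)
    (ψ : EuclideanSpace ℝ (Fin k) → ℝ) (s T t : ℝ) : ℝ :=
  ψ (X s T t) - ∫ y, ψ y ∂(multivariateGaussian 0 S₁)

/-- the second moment of the limit law -/
noncomputable def m2 (S₁ : Matrix (Fin k) (Fin k) ℝ) : ℝ := ∫ x, ‖x‖ ^ 2 ∂(multivariateGaussian 0 S₁)

lemma m2_nonneg (S₁ : Matrix (Fin k) (Fin k) ℝ) : 0 ≤ m2 S₁ := integral_nonneg fun _ => sq_nonneg _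

/-- the constant in the second moments -/
noncomputable def BG (S₁ : Matrix (Fin k) (Fin k) ℝ) (ψ : EuclideanSpace ℝ (Fin k) → ℝ) (L : ℝ) : ℝ :=
  2 * L ^ 2 * (m2 S₁ + 1) + 2 * (ψ 0 - ∫ y, ψ y ∂(multivariateGaussian 0 S₁)) ^ 2

lemma BG_nonneg (S₁ : Matrix (Fin k) (Fin k) ℝ) (ψ : EuclideanSpace ℝ (Fin k) → ℝ) (L : ℝ) : 0 ≤ BG S₁ ψ L := by
  unfold BG
  have := m2_nonneg S₁
  positivity

lemma lip_sq2 {ψ : EuclideanSpace ℝ (Fin k) → ℝ} {L : ℝ≥0} (hψ : LipschitzWith L ψ) (c : ℝ)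
    (x : EuclideanSpace ℝ (Fin k)) : (ψ x - c) ^ 2 ≤ 2 * (L : ℝ) ^ 2 * ‖x‖ ^ 2 + 2 * (ψ 0 - c) ^ 2 := by
  have h2 := hψ.dist_le_mul x 0
  rw [Real.dist_eq, dist_zero_right] at h2
  have h3 : (ψ x - ψ 0) ^ 2 ≤ (L * ‖x‖) ^ 2 := by
    rw [← sq_abs (ψ x - ψ 0)]
    exact pow_le_pow_left₀ (abs_nonneg _) h2 2
  nlinarith [sq_nonneg ((ψ x - ψ 0) - (ψ 0 - c))]

lemma Obs.Y_meas (hO : Obs k S₁ S X h) {ψ : EuclideanSpace ℝ (Fin k) → ℝ} (hψ : Continuous ψ) :
    ∀ᶠ T : ℝ in atTop, ∀ m : ℕ, AEStronglyMeasurable (fun t => Yg X S₁ ψ (h T) T (t + m * h T))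
      (volume.restrict (Ioc T (2 * T))) := by
  filter_upwards [hO.meas] with T h1 m
  unfold Yg
  exact (hψ.comp_aestronglyMeasurable (h1 m)).sub aestronglyMeasurable_const

lemma Obs.Y_int2 (hO : Obs k S₁ S X h) {ψ : EuclideanSpace ℝ (Fin k) → ℝ} {L : ℝ≥0} (hψ : LipschitzWith L ψ) :
    ∀ᶠ T : ℝ in atTop, ∀ m : ℕ, IntervalIntegrable (fun t => Yg X S₁ ψ (h T) T (t + m * h T) ^ 2) volume
      T (2 * T) := by
  filter_upwards [hO.Y_meas hψ.continuous, hO.int2, eventually_gt_atTop (0 : ℝ)] with T h1 h2 h3 m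
  have hT : T ≤ 2 * T := by linarith
  have h4 : IntervalIntegrable (fun t => 2 * (L : ℝ) ^ 2 * ‖X (h T) T (t + m * h T)‖ ^ 2 +
      2 * (ψ 0 - ∫ y, ψ y ∂(multivariateGaussian 0 S₁)) ^ 2) volume T (2 * T) :=
    ((h2 m).const_mul _).add intervalIntegrable_const
  refine h4.mono_fun ?_ (Filter.Eventually.of_forall fun t => ?_)
  · rw [uIoc_of_le hT]
    exact (h1 m).pow 2
  · change ‖Yg X S₁ ψ (h T) T (t + m * h T) ^ 2‖ ≤ ‖2 * (L : ℝ) ^ 2 * ‖X (h T) T (t + m * h T)‖ ^ 2 +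
      2 * (ψ 0 - ∫ y, ψ y ∂(multivariateGaussian 0 S₁)) ^ 2‖
    rw [Real.norm_eq_abs, Real.norm_eq_abs, abs_of_nonneg (sq_nonneg _)]
    exact (lip_sq2 hψ _ _).trans (le_abs_self _)

lemma int1_of_int2 {a b : ℝ} {G : ℝ → ℝ} (hab : a ≤ b) (hm : AEStronglyMeasurable G (volume.restrict (Ioc a b)))
    (h2 : IntervalIntegrable (fun t => G t ^ 2) volume a b) : IntervalIntegrable G volume a b := by
  have h4 : IntervalIntegrable (fun t => 1 / 2 * G t ^ 2 + 1 / 2) volume a b :=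
    (h2.const_mul _).add intervalIntegrable_const
  refine h4.mono_fun (by rwa [uIoc_of_le hab]) (Filter.Eventually.of_forall fun t => ?_)
  change ‖G t‖ ≤ ‖1 / 2 * G t ^ 2 + 1 / 2‖
  rw [Real.norm_eq_abs, Real.norm_eq_abs]
  refine le_trans ?_ (le_abs_self _)
  nlinarith [sq_nonneg (|G t| - 1), sq_abs (G t)]

lemma Obs.Y_int (hO : Obs k S₁ S X h) {ψ : EuclideanSpace ℝ (Fin k) → ℝ} {L : ℝ≥0} (hψ : LipschitzWith L ψ) :
    ∀ᶠ T : ℝ in atTop, ∀ m : ℕ, IntervalIntegrable (fun t => Yg X S₁ ψ (h T) T (t + m * h T)) volume T (2 * T) := by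
  filter_upwards [hO.Y_meas hψ.continuous, hO.Y_int2 hψ, eventually_gt_atTop (0 : ℝ)] with T h1 h2 h3 m
  exact int1_of_int2 (by linarith) (h1 m) (h2 m)

lemma Obs.Y_sec (hO : Obs k S₁ S X h) {ψ : EuclideanSpace ℝ (Fin k) → ℝ} {L : ℝ≥0} (hψ : LipschitzWith L ψ) (M : ℕ) :
    ∀ᶠ T : ℝ in atTop, ∀ m ≤ M, ∫ t in T..(2 * T), Yg X S₁ ψ (h T) T (t + m * h T) ^ 2 ≤ BG S₁ ψ L * T := by
  have h2 : ∀ᶠ T : ℝ in atTop, ∀ m ∈ Finset.range (M + 1),
      1 / T * ∫ t in T..(2 * T), ‖X (h T) T (t + m * h T)‖ ^ 2 < m2 S₁ + 1 := by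
    rw [Finset.eventually_all]
    exact fun m _ => (hO.sec m).eventually (gt_mem_nhds (by unfold m2; linarith))
  filter_upwards [h2, hO.int2, hO.Y_int2 hψ, eventually_gt_atTop (0 : ℝ)] with T h3 h4 h5 h6 m hm
  have hT : T ≤ 2 * T := by linarith
  have h7 : ∫ t in T..(2 * T), Yg X S₁ ψ (h T) T (t + m * h T) ^ 2 ≤ ∫ t in T..(2 * T), (2 * (L : ℝ) ^ 2 *
      ‖X (h T) T (t + m * h T)‖ ^ 2 + 2 * (ψ 0 - ∫ y, ψ y ∂(multivariateGaussian 0 S₁)) ^ 2) :=
    intervalIntegral.integral_mono_on hT (h5 m) (((h4 m).const_mul _).add intervalIntegrable_const)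
      fun t _ => lip_sq2 hψ _ _
  refine h7.trans ?_
  rw [intervalIntegral.integral_add ((h4 m).const_mul _) intervalIntegrable_const, intervalIntegral.integral_const_mul,
    intervalIntegral.integral_const, smul_eq_mul]
  unfold BG
  have h8 := h3 m (Finset.mem_range.2 (by omega))
  rw [one_div, inv_mul_eq_div, div_lt_iff₀ h6] at h8
  have h9 : 2 * (L : ℝ) ^ 2 * ∫ t in T..(2 * T), ‖X (h T) T (t + m * h T)‖ ^ 2 ≤
      2 * (L : ℝ) ^ 2 * ((m2 S₁ + 1) * T) := by gcongr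
  linarith

lemma Gp_vecB (ψ : EuclideanSpace ℝ (Fin k) → ℝ) (s T : ℝ) {M : ℕ} (p : Fin M → ℂ) (t : ℝ) :
    Gp ψ (∫ y, ψ y ∂(multivariateGaussian 0 S₁)) p (vecB fun m : Fin M => X s T (t + (m : ℕ) * s)) =
      ∑ m : Fin M, p m * ((Yg X S₁ ψ s T (t + (m : ℕ) * s) : ℝ) : ℂ) := by
  unfold Gp Yg
  exact Finset.sum_congr rfl fun m _ => by rw [blk_vecB]

/-- the cut-off function of a pattern sum -/
noncomputable def PhiG {n : ℕ} (G : EuclideanSpace ℝ (Fin n) → ℂ) (δ : ℝ) (x : EuclideanSpace ℝ (Fin n)) : ℝ :=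
  min 1 (max 0 (‖G x‖ / (δ / 2) - 1))

/-- one pattern -/
lemma Obs.one (hG : Gs k Λ S₁ S) (hO : Obs k S₁ S X h) {M : ℕ} (hM : 1 ≤ M)
    {ψ : EuclideanSpace ℝ (Fin k) → ℝ} {L : ℝ≥0} (hL : 0 < L) (hψ : LipschitzWith L ψ) {p : Fin M → ℂ}
    (hp : ∀ m, ‖p m‖ ≤ 1) {δ η : ℝ} (hδ : 0 < δ) (hη : 0 < η) :
    ∀ᶠ T : ℝ in atTop, volume {t | t ∈ Icc T (2 * T) ∧
        δ ≤ ‖∑ m : Fin M, p m * ((Yg X S₁ ψ (h T) T (t + (m : ℕ) * h T) : ℝ) : ℂ)‖} ≤
      ENNReal.ofReal ((4 * Real.exp (-((δ / 2) ^ 2 / (2 * Real.pi ^ 2 * L ^ 2 * M * Λ))) + η) * T) := by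
  set c := ∫ y, ψ y ∂(multivariateGaussian 0 S₁) with hc
  set μ := multivariateGaussian 0 (S M) with hμ
  have hcont : Continuous (PhiG (Gp ψ c p) δ) := by
    unfold PhiG
    have := Gp_cont (M := M) hψ.continuous c p
    fun_prop
  have hb0 : ∀ x, 0 ≤ PhiG (Gp ψ c p) δ x := fun x => le_min zero_le_one (le_max_left _ _)
  have hb1 : ∀ x, PhiG (Gp ψ c p) δ x ≤ 1 := fun x => min_le_left _ _
  let Φ : EuclideanSpace ℝ (Fin (k * M)) →ᵇ ℝ := BoundedContinuousFunction.ofNormedAddCommGroup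
    (PhiG (Gp ψ c p) δ) hcont 1 (fun x => by rw [Real.norm_eq_abs, abs_of_nonneg (hb0 x)]; exact hb1 x)
  have hlim := hO.weak M Φ
  have hΦ : ∫ x, Φ x ∂μ ≤ 4 * Real.exp (-((δ / 2) ^ 2 / (2 * Real.pi ^ 2 * L ^ 2 * M * Λ))) := by
    have h2 := hG.conc hM hL hψ hp (δ := δ / 2) (by positivity)
    refine le_trans ?_ h2
    have hms : MeasurableSet {x | δ / 2 ≤ ‖Gp ψ c p x‖} :=
      measurableSet_le measurable_const (Gp_cont hψ.continuous c p).norm.measurable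
    rw [← integral_indicator_one hms]
    refine integral_mono (Φ.integrable _) ((integrable_const (1 : ℝ)).indicator hms) fun x => ?_
    by_cases hx : δ / 2 ≤ ‖Gp ψ c p x‖
    · rw [indicator_of_mem (show x ∈ {x | δ / 2 ≤ ‖Gp ψ c p x‖} from hx)]
      exact hb1 x
    · rw [indicator_of_notMem (show x ∉ {x | δ / 2 ≤ ‖Gp ψ c p x‖} from hx)]
      change PhiG (Gp ψ c p) δ x ≤ 0
      unfold PhiG
      push Not at hx
      have h3 : ‖Gp ψ c p x‖ / (δ / 2) - 1 ≤ 0 := by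
        rw [sub_nonpos, div_le_one (by positivity)]
        exact hx.le
      rw [max_eq_left h3]
      exact min_le_right _ _
  have hlt : ∫ x, Φ x ∂μ < 4 * Real.exp (-((δ / 2) ^ 2 / (2 * Real.pi ^ 2 * L ^ 2 * M * Λ))) + η := by linarith
  filter_upwards [hlim.eventually (gt_mem_nhds hlt), hO.meas, eventually_ge_atTop (3 : ℝ)] with T h2 h3 h5
  have hT : T ≤ 2 * T := by linarith
  have hint : IntervalIntegrable (fun t => Φ (vecB fun m : Fin M => X (h T) T (t + (m : ℕ) * h T))) volume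
      T (2 * T) := by
    rw [intervalIntegrable_iff, uIoc_of_le hT]
    have h6 : AEStronglyMeasurable (fun t => Φ (vecB fun m : Fin M => X (h T) T (t + (m : ℕ) * h T)))
        (volume.restrict (Ioc T (2 * T))) := by
      have h7 : AEMeasurable (fun t => fun m : Fin M => X (h T) T (t + (m : ℕ) * h T))
          (volume.restrict (Ioc T (2 * T))) := aemeasurable_pi_lambda _ fun m => (h3 m).aemeasurable
      exact (Φ.continuous.comp vecB_cont).comp_aestronglyMeasurable h7.aestronglyMeasurable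
    refine Integrable.mono' (integrable_const (1 : ℝ)) h6 (Filter.Eventually.of_forall fun t => ?_)
    change ‖PhiG (Gp ψ c p) δ _‖ ≤ 1
    rw [Real.norm_eq_abs, abs_of_nonneg (hb0 _)]
    exact hb1 _
  have h6 := markov2 hT hint (fun t => hb0 _) one_pos
  rw [div_one] at h6
  refine (measure_mono ?_).trans (h6.trans (ENNReal.ofReal_le_ofReal ?_))
  · intro t ht
    refine ⟨ht.1, ?_⟩
    change 1 ≤ PhiG (Gp ψ c p) δ _
    unfold PhiG
    rw [Gp_vecB ψ]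
    have h7 := ht.2
    refine le_min le_rfl (le_max_of_le_right ?_)
    rw [le_sub_iff_add_le, le_div_iff₀ (by positivity)]
    linarith
  · rw [one_div, inv_mul_eq_div, div_lt_iff₀ (by linarith)] at h2
    exact h2.le

/-- **all patterns** -/
theorem Obs.expo (hG : Gs k Λ S₁ S) (hO : Obs k S₁ S X h) {M : ℕ} (hM : 1 ≤ M)
    {ψ : EuclideanSpace ℝ (Fin k) → ℝ} {L : ℝ≥0} (hL : 0 < L) (hψ : LipschitzWith L ψ) {ε : ℝ} (hε : 0 < ε) :
    ∀ᶠ T : ℝ in atTop, ∀ p : ℕ → ℂ, (∀ m, ‖p m‖ ≤ 1) → volume {t | t ∈ Icc T (2 * T) ∧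
        ε * M ≤ ‖∑ m ∈ Finset.range M, p m * ((Yg X S₁ ψ (h T) T (t + m * h T) : ℝ) : ℂ)‖} ≤
      ENNReal.ofReal (5 * Real.exp (-(ε ^ 2 * M / (32 * Real.pi ^ 2 * L ^ 2 * Λ))) * T) := by
  have hM0 : (0 : ℝ) < M := by exact_mod_cast hM
  have hL' : (0 : ℝ) < L := by exact_mod_cast hL
  have hΛ := hG.lam
  set δ : ℝ := ε * M / 2 with hδ
  have hδ0 : 0 < δ := by positivity
  set e := Real.exp (-(ε ^ 2 * M / (32 * Real.pi ^ 2 * L ^ 2 * Λ))) with he
  have he0 : 0 < e := Real.exp_pos _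
  have hee : Real.exp (-((δ / 2) ^ 2 / (2 * Real.pi ^ 2 * L ^ 2 * M * Λ))) = e := by
    rw [he, hδ]
    congr 2
    have := Real.pi_pos
    field_simp
    ring
  have hB := BG_nonneg S₁ ψ L
  set ρ : ℝ := ε * e / (2 * (BG S₁ ψ L + 1)) with hρ
  have hρ0 : 0 < ρ := by positivity
  obtain ⟨N, hN1, hN2, hN3⟩ := (isCompact_closedBall (0 : Fin M → ℂ) 1).finite_cover_balls hρ0
  have hev : ∀ᶠ T : ℝ in atTop, ∀ q ∈ N, volume {t | t ∈ Icc T (2 * T) ∧
        δ ≤ ‖∑ m : Fin M, q m * ((Yg X S₁ ψ (h T) T (t + (m : ℕ) * h T) : ℝ) : ℂ)‖} ≤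
      ENNReal.ofReal ((4 * e + e / 2) * T) := by
    rw [Filter.eventually_all_finite hN2]
    intro q hq'
    have hq1 : ∀ m, ‖q m‖ ≤ 1 := by
      have := hN1 hq'
      rw [mem_closedBall_zero_iff] at this
      exact fun m => (norm_le_pi_norm q m).trans this
    have := Obs.one hG hO hM hL hψ hq1 hδ0 (η := e / 2) (by positivity)
    rwa [hee] at this
  filter_upwards [hev, hO.Y_int hψ, hO.Y_int2 hψ, hO.Y_sec hψ M, eventually_ge_atTop (3 : ℝ)]
    with T h2 h3 h3' h4 h5 p hp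
  have hT : T ≤ 2 * T := by linarith
  have hpc : (fun m : Fin M => p m) ∈ Metric.closedBall (0 : Fin M → ℂ) 1 := by
    rw [mem_closedBall_zero_iff, pi_norm_le_iff_of_nonneg zero_le_one]
    exact fun m => hp m
  obtain ⟨q, hqN, hqb⟩ := mem_iUnion₂.1 (hN3 hpc)
  have hqd : ∀ m : Fin M, ‖p m - q m‖ ≤ ρ := by
    intro m
    rw [Metric.mem_ball, dist_eq_norm] at hqb
    exact (norm_le_pi_norm _ m).trans hqb.le
  set Q : ℝ → ℝ := fun t => ρ * ∑ m : Fin M, |Yg X S₁ ψ (h T) T (t + (m : ℕ) * h T)| with hQ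
  have iA : ∀ m : Fin M, IntervalIntegrable (fun t => |Yg X S₁ ψ (h T) T (t + (m : ℕ) * h T)|) volume T (2 * T) :=
    fun m => (h3 m).abs
  have hQi : IntervalIntegrable Q volume T (2 * T) := by
    have h6 := (IntervalIntegrable.sum Finset.univ fun m (_ : m ∈ Finset.univ) => iA m).const_mul ρ
    refine h6.congr fun t _ => ?_
    simp [hQ, Finset.sum_apply]
  have hQ0 : ∀ t, 0 ≤ Q t := fun t =>
    mul_nonneg hρ0.le (Finset.sum_nonneg fun m _ => abs_nonneg _)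
  have h6 := markov2 hT hQi hQ0 hδ0
  have h7 : ∫ t in T..(2 * T), Q t ≤ ρ * (M * ((BG S₁ ψ L + 1) / 2 * T)) := by
    rw [hQ]
    simp only
    rw [intervalIntegral.integral_const_mul, intervalIntegral.integral_finsetSum fun m _ => iA m]
    refine mul_le_mul_of_nonneg_left ?_ hρ0.le
    calc ∑ m : Fin M, ∫ t in T..(2 * T), |Yg X S₁ ψ (h T) T (t + (m : ℕ) * h T)|
        ≤ ∑ m : Fin M, (BG S₁ ψ L + 1) / 2 * T := by
          refine Finset.sum_le_sum fun m _ => ?_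
          have h8 : ∫ t in T..(2 * T), |Yg X S₁ ψ (h T) T (t + (m : ℕ) * h T)| ≤
              ∫ t in T..(2 * T), (1 / 2 * Yg X S₁ ψ (h T) T (t + (m : ℕ) * h T) ^ 2 + 1 / 2) := by
            refine intervalIntegral.integral_mono_on hT (iA m)
              (((h3' m).const_mul _).add intervalIntegrable_const) fun t _ => ?_
            nlinarith [sq_nonneg (|Yg X S₁ ψ (h T) T (t + (m : ℕ) * h T)| - 1),
                sq_abs (Yg X S₁ ψ (h T) T (t + (m : ℕ) * h T))]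
          rw [intervalIntegral.integral_add ((h3' m).const_mul _) intervalIntegrable_const,
            intervalIntegral.integral_const_mul, intervalIntegral.integral_const, smul_eq_mul] at h8
          have h9 := h4 m m.2.le
          linarith
      _ = _ := by
          rw [Finset.sum_const, Finset.card_univ, Fintype.card_fin, nsmul_eq_mul]
  have h8 : (∫ t in T..(2 * T), Q t) / δ ≤ e / 2 * T := by
    rw [div_le_iff₀ hδ0]
    refine h7.trans (le_of_eq ?_)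
    rw [hρ, hδ]
    field_simp
  have hsub : {t | t ∈ Icc T (2 * T) ∧
      ε * M ≤ ‖∑ m ∈ Finset.range M, p m * ((Yg X S₁ ψ (h T) T (t + m * h T) : ℝ) : ℂ)‖} ⊆
      {t | t ∈ Icc T (2 * T) ∧ δ ≤ ‖∑ m : Fin M, q m * ((Yg X S₁ ψ (h T) T (t + (m : ℕ) * h T) : ℝ) : ℂ)‖} ∪
      {t | t ∈ Icc T (2 * T) ∧ δ ≤ Q t} := by
    intro t ht
    by_contra h9
    rw [mem_union, not_or] at h9
    obtain ⟨h10, h11⟩ := h9
    have h12 : ‖∑ m : Fin M, q m * ((Yg X S₁ ψ (h T) T (t + (m : ℕ) * h T) : ℝ) : ℂ)‖ < δ := by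
      by_contra h
      exact h10 ⟨ht.1, not_lt.1 h⟩
    have h13 : Q t < δ := by
      by_contra h
      exact h11 ⟨ht.1, not_lt.1 h⟩
    have h14 := ht.2
    rw [Finset.sum_range (fun m => p m * ((Yg X S₁ ψ (h T) T (t + m * h T) : ℝ) : ℂ))] at h14
    have h15 : ‖∑ m : Fin M, p m * ((Yg X S₁ ψ (h T) T (t + (m : ℕ) * h T) : ℝ) : ℂ)‖ ≤
        ‖∑ m : Fin M, q m * ((Yg X S₁ ψ (h T) T (t + (m : ℕ) * h T) : ℝ) : ℂ)‖ + Q t := by
      have h16 : ∑ m : Fin M, p m * ((Yg X S₁ ψ (h T) T (t + (m : ℕ) * h T) : ℝ) : ℂ) =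
          ∑ m : Fin M, q m * ((Yg X S₁ ψ (h T) T (t + (m : ℕ) * h T) : ℝ) : ℂ) +
          ∑ m : Fin M, (p m - q m) * ((Yg X S₁ ψ (h T) T (t + (m : ℕ) * h T) : ℝ) : ℂ) := by
        rw [← Finset.sum_add_distrib]
        exact Finset.sum_congr rfl fun m _ => by ring
      rw [h16]
      refine (norm_add_le _ _).trans (add_le_add le_rfl ?_)
      refine (norm_sum_le _ _).trans ?_
      rw [hQ]
      simp only
      rw [Finset.mul_sum]
      refine Finset.sum_le_sum fun m _ => ?_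
      rw [norm_mul, Complex.norm_real, Real.norm_eq_abs]
      exact mul_le_mul_of_nonneg_right (hqd m) (abs_nonneg _)
    linarith
  refine (measure_mono hsub).trans ((measure_union_le _ _).trans ((add_le_add (h2 q hqN) (h6.trans
    (ENNReal.ofReal_le_ofReal h8))).trans ?_))
  rw [← ENNReal.ofReal_add (by positivity) (by positivity)]
  exact ENNReal.ofReal_le_ofReal (by linarith)

end

end Pool.Agent.H493.EN
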