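import Pool.Agent.H493.EN.Stm

set_option autoImplicit false

/-! The orbits of a system of zero entropy follow few patterns. -/

open Complex Filter Topology Set MeasureTheory ProbabilityTheory
open scoped BoundedContinuousFunction RealInnerProductSpace NNReal

namespace Pool.Agent.H493.EN

namespace CORDL

/-- the exceptional set -/
theorem vol_le (N M : ℕ) (h : ℝ) (a : ℕ → ℝ) {D : ℝ} (hh : 0 < h)
    (hD : (N + 1) * M * h ≤ D) :
    volume (⋃ n ∈ Finset.range (N + 1), Icc (a n - M * h) (a n)) ≤ ENNReal.ofReal D := by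
  refine (measure_biUnion_finset_le _ _).trans ?_
  have h1 : ∀ n ∈ Finset.range (N + 1), volume (Icc (a n - M * h) (a n)) =
      ENNReal.ofReal (M * h) := by
    intro n _
    rw [Real.volume_Icc]
    congr 1
    ring
  rw [Finset.sum_congr rfl h1, Finset.sum_const, Finset.card_range, nsmul_eq_mul]
  have h2 : ((N + 1 : ℕ) : ENNReal) = ENNReal.ofReal ((N + 1 : ℕ) : ℝ) := by
    rw [ENNReal.ofReal_natCast]
  rw [h2, ← ENNReal.ofReal_mul (by positivity)]
  apply ENNReal.ofReal_le_ofReal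
  push_cast
  rw [← mul_assoc]
  exact hD

/-- the window of a point -/
theorem window (N : ℕ) (a : ℕ → ℝ) {t : ℝ} (h0 : a 0 ≤ t) (hN : t < a N) :
    ∃ n < N, a n ≤ t ∧ t < a (n + 1) := by
  induction N with
  | zero => linarith
  | succ N ih =>
    rcases lt_or_ge t (a N) with h | h
    · obtain ⟨n, hn, h1⟩ := ih h
      exact ⟨n, by omega, h1⟩
    · exact ⟨N, by omega, h, hN⟩

end CORDL

open CORDL

theorem t_CORD : S_CORD := by
  intro Y _ _ S hS F hF hF1 κ δ hκ hδ
  classical
  -- uniform continuity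
  obtain ⟨ε₀, hε₀, hunif⟩ := Metric.uniformContinuous_iff.1
    (CompactSpace.uniformContinuous_of_continuous hF) (δ / 2) (by positivity)
  -- a net of the circle
  obtain ⟨V₀, hV₀s, hV₀f, hV₀⟩ := (isCompact_sphere (0 : ℂ) 1).finite_cover_balls
    (e := δ / 2) (by positivity)
  obtain ⟨V, hV⟩ : ∃ V : Finset ℂ, (V : Set ℂ) = V₀ := ⟨hV₀f.toFinset, hV₀f.coe_toFinset⟩
  obtain ⟨M₁, hM₁⟩ := hS (ε₀ / 2) (κ / 2) (by positivity) (by positivity)
  have hexp : ∀ᶠ M : ℕ in atTop, (V.card : ℝ) + 1 ≤ Real.exp (κ / 2 * M) := by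
    have h1 : Tendsto (fun M : ℕ => κ / 2 * (M : ℝ)) atTop atTop :=
      tendsto_natCast_atTop_atTop.const_mul_atTop (by positivity)
    exact (Real.tendsto_exp_atTop.comp h1).eventually_ge_atTop _
  obtain ⟨M₂, hM₂⟩ := eventually_atTop.1 hexp
  refine ⟨max M₁ M₂, fun M hM T h N a y u θ hT hh hNM haT haN _ hu hθ0 hθN hθ => ?_⟩
  obtain ⟨A, hAc, hA⟩ := hM₁ M ((le_max_left _ _).trans hM)
  have hQ := hM₂ M ((le_max_right _ _).trans hM)
  have hVn : ∀ v ∈ V, ‖v‖ ≤ 1 := by
    intro v hv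
    have h1 : v ∈ V₀ := by rw [← hV]; exact hv
    have h2 := hV₀s h1
    rw [mem_sphere_zero_iff_norm] at h2
    exact h2.le
  refine ⟨insert (fun _ => 0) ((V ×ˢ A).image fun q => fun m : ℕ => q.1 * F (S^[m] q.2)),
    ⋃ n ∈ Finset.range (N + 1), Icc (a n - M * h) (a n), ?_, ?_, vol_le N M h a hh hNM, ?_⟩
  · have h1 : (insert (fun _ => (0 : ℂ)) ((V ×ˢ A).image fun q =>
        fun m : ℕ => q.1 * F (S^[m] q.2))).card ≤ V.card * A.card + 1 := by
      refine (Finset.card_insert_le _ _).trans ?_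
      have := Finset.card_image_le (s := V ×ˢ A)
        (f := fun q => fun m : ℕ => q.1 * F (S^[m] q.2))
      rw [Finset.card_product] at this
      omega
    have h2 : (((insert (fun _ => (0 : ℂ)) ((V ×ˢ A).image fun q =>
        fun m : ℕ => q.1 * F (S^[m] q.2))).card : ℕ) : ℝ) ≤ (V.card : ℝ) * A.card + 1 := by
      exact_mod_cast h1
    refine h2.trans ?_
    have h3 : Real.exp (κ * M) = Real.exp (κ / 2 * M) * Real.exp (κ / 2 * M) := by
      rw [← Real.exp_add]; congr 1; ring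
    have h4 : 1 ≤ Real.exp (κ / 2 * M) := Real.one_le_exp (by positivity)
    rw [h3]
    have h5 : (V.card : ℝ) * A.card ≤ V.card * Real.exp (κ / 2 * M) :=
      mul_le_mul_of_nonneg_left hAc (Nat.cast_nonneg _)
    have h6 : ((V.card : ℝ) + 1) * Real.exp (κ / 2 * M) ≤
        Real.exp (κ / 2 * M) * Real.exp (κ / 2 * M) :=
      mul_le_mul_of_nonneg_right hQ (Real.exp_pos _).le
    linarith
  · intro p hp m
    rcases Finset.mem_insert.1 hp with h1 | h1
    · rw [h1]; simp
    · obtain ⟨q, hq, h2⟩ := Finset.mem_image.1 h1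
      rw [← h2]
      show ‖q.1 * F (S^[m] q.2)‖ ≤ 1
      rw [norm_mul]
      exact mul_le_one₀ (hVn _ (Finset.mem_product.1 hq).1) (norm_nonneg _) (hF1 _)
  · intro t ht htE
    have hnotin : ∀ n ≤ N, ¬ (a n - M * h ≤ t ∧ t ≤ a n) := by
      intro n hn h1
      apply htE
      exact mem_biUnion (show n ∈ (Finset.range (N + 1) : Set ℕ) by
        rw [Finset.mem_coe, Finset.mem_range]; omega) h1
    have hmh : ∀ m : ℕ, m < M → 0 ≤ (m : ℝ) * h ∧ (m : ℝ) * h ≤ M * h := by
      intro m hm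
      have : (m : ℝ) ≤ M := by exact_mod_cast hm.le
      exact ⟨by positivity, mul_le_mul_of_nonneg_right this hh.le⟩
    have hzero : (∀ m < M, θ (t + m * h) = 0) →
        ∃ p ∈ insert (fun _ => (0 : ℂ)) ((V ×ˢ A).image fun q =>
          fun m : ℕ => q.1 * F (S^[m] q.2)),
          ∑ m ∈ Finset.range M, ‖θ (t + m * h) - p m‖ ≤ δ * M := by
      intro h0
      refine ⟨fun _ => 0, Finset.mem_insert_self _ _, ?_⟩
      rw [Finset.sum_eq_zero]
      · positivity
      · intro m hm
        rw [h0 m (Finset.mem_range.1 hm), sub_zero, norm_zero]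
    rcases le_or_gt (a N) t with h1 | h1
    · exact hzero fun m hm => hθN _ (by linarith [(hmh m hm).1])
    rcases lt_or_ge t (a 0) with h2 | h2
    · refine hzero fun m hm => hθ0 _ ⟨by linarith [(hmh m hm).1, ht.1], ?_⟩
      have h3 := hnotin 0 (Nat.zero_le _)
      have h4 : t < a 0 - M * h := by
        by_contra hcon
        exact h3 ⟨not_lt.1 hcon, h2.le⟩
      linarith [(hmh m hm).2]
    obtain ⟨n, hn, h3, h4⟩ := window N a h2 h1
    have h5 : t < a (n + 1) - M * h := by
      by_contra hcon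
      exact hnotin (n + 1) hn ⟨not_lt.1 hcon, h4.le⟩
    -- the orbit
    have ht0 : 0 ≤ t / h := div_nonneg (by linarith [ht.1]) hh.le
    set z : Y := S^[⌊t / h⌋₊] (y n) with hz
    have h6 : ∀ m < M, θ (t + m * h) = u n * F (S^[m] z) := by
      intro m hm
      rw [hθ n hn (t + m * h) ⟨by linarith [(hmh m hm).1], by linarith [(hmh m hm).2]⟩]
      have h7 : (t + m * h) / h = t / h + (m : ℝ) := by
        field_simp
      rw [h7, Nat.floor_add_natCast ht0, add_comm, Function.iterate_add_apply]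
    obtain ⟨b, hb, hzb⟩ := hA z
    have hun : u n ∈ Metric.sphere (0 : ℂ) 1 := by
      rw [mem_sphere_zero_iff_norm]; exact hu n
    obtain ⟨v, hv, huv⟩ := mem_iUnion₂.1 (hV₀ hun)
    have hv' : v ∈ V := by
      have : v ∈ (V : Set ℂ) := by rw [hV]; exact hv
      exact this
    refine ⟨fun m => v * F (S^[m] b), Finset.mem_insert_of_mem
      (Finset.mem_image.2 ⟨(v, b), Finset.mem_product.2 ⟨hv', hb⟩, rfl⟩), ?_⟩
    have h8 : ∀ m ∈ Finset.range M, ‖θ (t + m * h) - v * F (S^[m] b)‖ ≤ δ := by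
      intro m hm
      have hm' := Finset.mem_range.1 hm
      rw [h6 m hm']
      have e1 : u n * F (S^[m] z) - v * F (S^[m] b) =
          u n * (F (S^[m] z) - F (S^[m] b)) + (u n - v) * F (S^[m] b) := by ring
      rw [e1]
      refine (norm_add_le _ _).trans ?_
      rw [norm_mul, norm_mul, hu n, one_mul]
      have h9 : ‖F (S^[m] z) - F (S^[m] b)‖ ≤ δ / 2 := by
        rw [← dist_eq_norm]
        refine (hunif (lt_of_le_of_lt (hzb m hm') (by linarith))).le
      have h10 : ‖u n - v‖ ≤ δ / 2 := by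
        rw [← dist_eq_norm]
        exact (Metric.mem_ball.1 huv).le
      have h11 : ‖u n - v‖ * ‖F (S^[m] b)‖ ≤ δ / 2 * 1 :=
        mul_le_mul h10 (hF1 _) (norm_nonneg _) (by positivity)
      linarith
    refine (Finset.sum_le_sum h8).trans (le_of_eq ?_)
    rw [Finset.sum_const, Finset.card_range, nsmul_eq_mul, mul_comm]

end Pool.Agent.H493.EN
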