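import Pool.Agent.H493.EN.Stm

/-!
# Slowly varying functions follow few patterns (helper328, for helper493)
-/

set_option autoImplicit false

open Complex Filter Topology Set MeasureTheory

namespace Pool.Agent.H493.EN

namespace SLOWL

/-- the sum of the increments -/
lemma telescope (θ : ℝ → ℂ) (t h : ℝ) (m : ℕ) :
    ‖θ (t + m * h) - θ t‖ ≤ ∑ i ∈ Finset.range m, ‖θ (t + i * h + h) - θ (t + i * h)‖ := by
  induction m with
  | zero => simp
  | succ m ih =>
    rw [Finset.sum_range_succ]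
    have e : θ (t + ((m + 1 : ℕ) : ℝ) * h) - θ t =
        (θ (t + m * h + h) - θ (t + m * h)) + (θ (t + m * h) - θ t) := by
      have : t + ((m + 1 : ℕ) : ℝ) * h = t + m * h + h := by
        push_cast
        ring
      rw [this]
      ring
    rw [e]
    refine (norm_add_le _ _).trans ?_
    linarith

/-- the exceptional set -/
lemma markov {T h δ δ' : ℝ} {M : ℕ} (hM : 1 ≤ M) (hT : 0 < T) (hh : 0 ≤ h) (hδ : 0 < δ)
    {θ : ℝ → ℂ} (hθ : Measurable θ) (hθ1 : ∀ t, ‖θ t‖ ≤ 1)
    (hw : ∫ t in T..(2 * T), ‖θ (t + h) - θ t‖ ≤ δ' * T) (hδ' : δ' = δ ^ 2 / (4 * M)) :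
    volume {t | t ∈ Icc T (2 * T - M * h) ∧
      δ / 2 ≤ ∑ i ∈ Finset.range M, ‖θ (t + i * h + h) - θ (t + i * h)‖} ≤
      ENNReal.ofReal (δ / 2 * T) := by
  have hM0 : (0 : ℝ) < M := by exact_mod_cast hM
  set w : ℝ → ℝ := fun t => ‖θ (t + h) - θ t‖ with hwdef
  have hwm : Measurable w := ((hθ.comp (measurable_add_const h)).sub hθ).norm
  have hw0 : ∀ t, 0 ≤ w t := fun t => norm_nonneg _
  have hw2 : ∀ t, w t ≤ 2 := fun t => (norm_sub_le _ _).trans (by linarith [hθ1 (t + h), hθ1 t])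
  have hint : IntegrableOn w (Icc T (2 * T)) := by
    refine Measure.integrableOn_of_bounded (M := 2) ?_ hwm.aestronglyMeasurable ?_
    · rw [Real.volume_Icc]
      exact ENNReal.ofReal_ne_top
    · refine Eventually.of_forall fun t => ?_
      rw [Real.norm_of_nonneg (hw0 t)]
      exact hw2 t
  have hI : ∫⁻ t in Icc T (2 * T), ENNReal.ofReal (w t) ≤ ENNReal.ofReal (δ' * T) := by
    rw [← ofReal_integral_eq_lintegral_ofReal hint (Eventually.of_forall hw0),
      integral_Icc_eq_integral_Ioc, ← intervalIntegral.integral_of_le (by linarith)]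
    exact ENNReal.ofReal_le_ofReal hw
  have hshift : ∀ i ∈ Finset.range M,
      ∫⁻ t in Icc T (2 * T - M * h), ENNReal.ofReal (w (t + i * h)) ≤
        ENNReal.ofReal (δ' * T) := by
    intro i hi
    rw [Finset.mem_range] at hi
    refine le_trans ?_ hI
    rw [← lintegral_indicator measurableSet_Icc, ← lintegral_indicator measurableSet_Icc,
      ← lintegral_add_right_eq_self (fun t => (Icc T (2 * T)).indicator
        (fun t => ENNReal.ofReal (w t)) t) ((i : ℝ) * h)]
    refine lintegral_mono fun t => ?_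
    by_cases ht : t ∈ Icc T (2 * T - M * h)
    · have hi' : (i : ℝ) * h ≤ M * h := by
        have : (i : ℝ) ≤ M := by exact_mod_cast hi.le
        gcongr
      have hi0 : 0 ≤ (i : ℝ) * h := by positivity
      have ht' : t + i * h ∈ Icc T (2 * T) := ⟨by linarith [ht.1], by linarith [ht.2]⟩
      rw [indicator_of_mem ht, indicator_of_mem ht']
    · rw [indicator_of_notMem ht]
      exact bot_le
  set f : ℝ → ENNReal := fun t => ∑ i ∈ Finset.range M, ENNReal.ofReal (w (t + i * h)) with hf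
  have hfm : ∀ i : ℕ, Measurable fun t : ℝ => ENNReal.ofReal (w (t + i * h)) := fun i =>
    (hwm.comp (measurable_add_const _)).ennreal_ofReal
  have hfi : ∫⁻ t in Icc T (2 * T - M * h), f t ≤ ENNReal.ofReal (M * (δ' * T)) := by
    rw [hf, lintegral_finsetSum _ fun i _ => hfm i]
    refine (Finset.sum_le_sum hshift).trans ?_
    rw [Finset.sum_const, Finset.card_range, nsmul_eq_mul, ENNReal.ofReal_mul hM0.le,
      ENNReal.ofReal_natCast]
  have hmk := mul_meas_ge_le_lintegral₀ (μ := volume.restrict (Icc T (2 * T - M * h)))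
    (Finset.measurable_sum _ fun i _ => hfm i).aemeasurable (ENNReal.ofReal (δ / 2)) (f := f)
  have hset : volume {t | t ∈ Icc T (2 * T - M * h) ∧
      δ / 2 ≤ ∑ i ∈ Finset.range M, ‖θ (t + i * h + h) - θ (t + i * h)‖} ≤
      (volume.restrict (Icc T (2 * T - M * h))) {t | ENNReal.ofReal (δ / 2) ≤ f t} := by
    rw [Measure.restrict_apply' measurableSet_Icc]
    refine measure_mono ?_
    rintro t ⟨ht, ht2⟩
    refine ⟨?_, ht⟩
    have e : f t = ENNReal.ofReal (∑ i ∈ Finset.range M, w (t + i * h)) :=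
      (ENNReal.ofReal_sum_of_nonneg fun i _ => hw0 _).symm
    show ENNReal.ofReal (δ / 2) ≤ f t
    rw [e]
    exact ENNReal.ofReal_le_ofReal ht2
  refine hset.trans ?_
  have hd0 : ENNReal.ofReal (δ / 2) ≠ 0 := by
    rw [Ne, ENNReal.ofReal_eq_zero, not_le]
    positivity
  have h1 := hmk.trans hfi
  have h2 : ENNReal.ofReal (M * (δ' * T)) = ENNReal.ofReal (δ / 2) * ENNReal.ofReal (δ / 2 * T) := by
    rw [← ENNReal.ofReal_mul (by positivity), hδ']
    congr 1
    field_simp
    ring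
  rw [h2] at h1
  exact (ENNReal.mul_le_mul_iff_right hd0 ENNReal.ofReal_ne_top).1 h1

end SLOWL

open SLOWL in
theorem t_SLOW : S_SLOW := by
  classical
  intro κ δ hκ hδ
  obtain ⟨V, hV, hVf, hVc⟩ := (isCompact_closedBall (0 : ℂ) 1).finite_cover_balls
    (show 0 < δ / 2 by positivity)
  set W := hVf.toFinset with hW
  obtain ⟨M₀, hM₀⟩ := exists_nat_ge ((W.card : ℝ) / κ)
  refine ⟨M₀ + 1, fun M hM => ⟨δ ^ 2 / (4 * M), ?_, ?_⟩⟩
  · have : (0 : ℝ) < M := by exact_mod_cast (show 0 < M by omega)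
    positivity
  intro T h θ hT hh hMh hθ hθ1 hw
  have hM1 : 1 ≤ M := by omega
  have hM0 : (0 : ℝ) < M := by exact_mod_cast hM1
  refine ⟨W.image (fun v => (fun _ : ℕ => v)), {t | t ∈ Icc T (2 * T - M * h) ∧
      δ / 2 ≤ ∑ i ∈ Finset.range M, ‖θ (t + i * h + h) - θ (t + i * h)‖} ∪
      Icc (2 * T - M * h) (2 * T), ?_, ?_, ?_, ?_⟩
  · have h1 : ((W.image (fun v => (fun _ : ℕ => v))).card : ℝ) ≤ W.card := by
      exact_mod_cast Finset.card_image_le
    have h2 : (W.card : ℝ) ≤ κ * M₀ := by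
      rw [div_le_iff₀ hκ] at hM₀
      linarith
    have h3 : κ * M₀ ≤ κ * M := by
      have : (M₀ : ℝ) ≤ M := by exact_mod_cast (show M₀ ≤ M by omega)
      gcongr
    have h4 := Real.add_one_le_exp (κ * M)
    linarith
  · intro p hp m
    obtain ⟨v, hv, rfl⟩ := Finset.mem_image.1 hp
    have h1 := hV (hVf.mem_toFinset.1 hv)
    simpa using h1
  · refine (measure_union_le _ _).trans ?_
    have h1 := markov hM1 hT hh hδ hθ hθ1 hw rfl
    rw [Real.volume_Icc]
    refine (add_le_add_left h1 _).trans ?_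
    rw [← ENNReal.ofReal_add (by positivity) (by
      have : 0 ≤ (M : ℝ) * h := by positivity
      linarith)]
    apply ENNReal.ofReal_le_ofReal
    linarith
  · intro t ht htE
    rw [mem_union, not_or] at htE
    obtain ⟨h1, h2⟩ := htE
    have ht1 : t < 2 * T - M * h := by
      by_contra hcon
      exact h2 ⟨not_lt.1 hcon, ht.2⟩
    have h3 : ∑ i ∈ Finset.range M, ‖θ (t + i * h + h) - θ (t + i * h)‖ < δ / 2 := by
      by_contra hcon
      exact h1 ⟨⟨ht.1, ht1.le⟩, not_lt.1 hcon⟩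
    have h4 : θ t ∈ Metric.closedBall (0 : ℂ) 1 := by
      rw [mem_closedBall_zero_iff]
      exact hθ1 t
    obtain ⟨v, hv, hv2⟩ := mem_iUnion₂.1 (hVc h4)
    rw [Metric.mem_ball, dist_eq_norm] at hv2
    refine ⟨fun _ => v, Finset.mem_image.2 ⟨v, hVf.mem_toFinset.2 hv, rfl⟩, ?_⟩
    have h5 : ∀ m ∈ Finset.range M, ‖θ (t + m * h) - v‖ ≤ δ := by
      intro m hm
      rw [Finset.mem_range] at hm
      have h6 : ∑ i ∈ Finset.range m, ‖θ (t + i * h + h) - θ (t + i * h)‖ ≤
          ∑ i ∈ Finset.range M, ‖θ (t + i * h + h) - θ (t + i * h)‖ := by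
        refine Finset.sum_le_sum_of_subset_of_nonneg ?_ fun _ _ _ => norm_nonneg _
        exact Finset.range_subset_range.2 hm.le
      have h7 : ‖θ (t + m * h) - v‖ ≤ ‖θ (t + m * h) - θ t‖ + ‖θ t - v‖ :=
        norm_sub_le_norm_sub_add_norm_sub _ _ _
      have h8 := telescope θ t h m
      linarith
    refine (Finset.sum_le_sum h5).trans ?_
    rw [Finset.sum_const, Finset.card_range, nsmul_eq_mul]
    linarith

end Pool.Agent.H493.EN
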