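import Pool.Agent.H493.EN.Ent
import Pool.Agent.H493.EN.CORD
import Pool.Agent.H493.EN.SLOW

set_option autoImplicit false

/-! Corollaries of the entropy principle: systems of zero entropy on windows, slowly varying functions. -/

open Complex Filter Topology Set MeasureTheory ProbabilityTheory
open scoped BoundedContinuousFunction RealInnerProductSpace NNReal

namespace Pool.Agent.H493.EN

open Pool.Agent.H203.ME Pool.Agent.H493.DC

section

variable {k : ℕ} {f : Fin k → ℝ → ℝ}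

/-- **slowly varying functions** -/
theorem slow (hf : ∀ j, ContDiff ℝ 2 (f j)) (hs : ∀ j, HasCompactSupport (f j))
    {h : ℝ → ℝ} (h0 : Tendsto h atTop (𝓝 0)) (h1 : Tendsto (fun T => h T * Real.log T) atTop atTop)
    {ψ : EuclideanSpace ℝ (Fin k) → ℝ} {C : ℝ} (hψ : Continuous ψ) (hC : ∀ x, |ψ x| ≤ C * (1 + ‖x‖ ^ 2)) {ε : ℝ}
    (hε : 0 < ε) : ∃ δ : ℝ, 0 < δ ∧ ∀ᶠ T : ℝ in atTop, ∀ θ : ℝ → ℂ, Measurable θ → (∀ t, ‖θ t‖ ≤ 1) →
      ∫ t in T..(2 * T), ‖θ (t + h T) - θ t‖ ≤ δ * T →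
      ‖∫ t in T..(2 * T), θ t * (Yf f h ψ T t : ℂ)‖ ≤ ε * T := by
  obtain ⟨κ, δ, M₀, hκ, hδ, hM⟩ := zeroEnt hf hs h0 h1 hψ hC hε
  obtain ⟨M₁, hM₁⟩ := t_SLOW κ δ hκ hδ
  obtain ⟨δ', hδ', hS⟩ := hM₁ (max M₀ M₁) (le_max_right _ _)
  refine ⟨δ', hδ', ?_⟩
  have hMh : ∀ᶠ T : ℝ in atTop, ((max M₀ M₁ : ℕ) : ℝ) * h T < δ / 2 := by
    have : Tendsto (fun T => ((max M₀ M₁ : ℕ) : ℝ) * h T) atTop (𝓝 (((max M₀ M₁ : ℕ) : ℝ) * 0)) := h0.const_mul _
    rw [mul_zero] at this
    exact this.eventually (gt_mem_nhds (by positivity))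
  filter_upwards [hM _ (le_max_left M₀ M₁), hMh, pos_ev h1, eventually_ge_atTop (1 : ℝ)] with T h2 h3 h4 h5 θ hθ hθ1 hθs
  refine h2 θ hθ hθ1 (hS T (h T) θ (by linarith) h4.le ?_ hθ hθ1 hθs)
  nlinarith

/-- the weight attached to windows, points and unimodular constants -/
noncomputable def wgt {Y : Type} (S : Y → Y) (F : Y → ℂ) (h : ℝ) (N : ℕ) (a : ℕ → ℝ) (y : ℕ → Y) (u : ℕ → ℂ)
    (t : ℝ) : ℂ :=
  ∑ n ∈ Finset.range N, (Ico (a n) (a (n + 1))).indicator (fun t => u n * F (S^[⌊t / h⌋₊] (y n))) t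

lemma a_mono {N : ℕ} {a : ℕ → ℝ} (ha : ∀ n < N, a n ≤ a (n + 1)) : ∀ n m, n ≤ m → m ≤ N → a n ≤ a m := by
  intro n m hnm
  induction m, hnm using Nat.le_induction with
  | base => exact fun _ => le_rfl
  | succ m hnm ih => exact fun hm => (ih (by omega)).trans (ha m (by omega))

lemma wgt_meas {Y : Type} (S : Y → Y) (F : Y → ℂ) (h : ℝ) (N : ℕ) (a : ℕ → ℝ) (y : ℕ → Y) (u : ℕ → ℂ) :
    Measurable (wgt S F h N a y u) := by
  unfold wgt
  refine Finset.measurable_sum _ fun n _ => ?_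
  refine Measurable.indicator ?_ measurableSet_Ico
  refine measurable_const.mul ?_
  have h1 : Measurable fun t : ℝ => ⌊t / h⌋₊ := Nat.measurable_floor.comp (measurable_id.div_const h)
  exact (measurable_from_nat (f := fun i => F (S^[i] (y n)))).comp h1

lemma wgt_mem {Y : Type} (S : Y → Y) (F : Y → ℂ) (h : ℝ) {N : ℕ} {a : ℕ → ℝ} (ha : ∀ n < N, a n ≤ a (n + 1))
    (y : ℕ → Y) (u : ℕ → ℂ) {n : ℕ} (hn : n < N) {t : ℝ} (ht : t ∈ Ico (a n) (a (n + 1))) :
    wgt S F h N a y u t = u n * F (S^[⌊t / h⌋₊] (y n)) := by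
  unfold wgt
  rw [Finset.sum_eq_single n]
  · rw [indicator_of_mem ht]
  · intro m hm hmn
    rw [Finset.mem_range] at hm
    refine indicator_of_notMem ?_ _
    intro hm2
    rcases lt_or_gt_of_ne hmn with h1 | h1
    · have := a_mono ha (m + 1) n h1 hn.le
      linarith [hm2.2, ht.1]
    · have := a_mono ha (n + 1) m h1 hm.le
      linarith [hm2.1, ht.2]
  · intro h1
    exact absurd (Finset.mem_range.2 hn) h1

lemma wgt_out {Y : Type} (S : Y → Y) (F : Y → ℂ) (h : ℝ) {N : ℕ} {a : ℕ → ℝ}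
    (y : ℕ → Y) (u : ℕ → ℂ) {t : ℝ} (ht : ∀ n < N, t ∉ Ico (a n) (a (n + 1))) :
    wgt S F h N a y u t = 0 := by
  unfold wgt
  exact Finset.sum_eq_zero fun n hn => indicator_of_notMem (ht n (Finset.mem_range.1 hn)) _

lemma wgt_bd {Y : Type} (S : Y → Y) {F : Y → ℂ} (hF : ∀ y, ‖F y‖ ≤ 1) (h : ℝ) {N : ℕ} {a : ℕ → ℝ}
    (ha : ∀ n < N, a n ≤ a (n + 1)) (y : ℕ → Y) {u : ℕ → ℂ} (hu : ∀ n, ‖u n‖ = 1) (t : ℝ) :
    ‖wgt S F h N a y u t‖ ≤ 1 := by
  by_cases h1 : ∃ n < N, t ∈ Ico (a n) (a (n + 1))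
  · obtain ⟨n, hn, ht⟩ := h1
    rw [wgt_mem S F h ha y u hn ht, norm_mul, hu, one_mul]
    exact hF _
  · push Not at h1
    rw [wgt_out S F h y u h1]
    simp

/-- **systems of zero entropy**, with a new point on every window -/
theorem momo (hf : ∀ j, ContDiff ℝ 2 (f j)) (hs : ∀ j, HasCompactSupport (f j))
    {h : ℝ → ℝ} (h0 : Tendsto h atTop (𝓝 0)) (h1 : Tendsto (fun T => h T * Real.log T) atTop atTop)
    {ψ : EuclideanSpace ℝ (Fin k) → ℝ} {C : ℝ} (hψ : Continuous ψ) (hC : ∀ x, |ψ x| ≤ C * (1 + ‖x‖ ^ 2))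
    {Y : Type} [MetricSpace Y] [CompactSpace Y] {S : Y → Y} (hS : ZeroEntropy S) {F : Y → ℂ} (hF : Continuous F)
    {W : ℝ → ℝ} (hW : Tendsto (fun T => W T * h T / T) atTop (𝓝 0)) {ε : ℝ} (hε : 0 < ε) :
    ∀ᶠ T : ℝ in atTop, ∀ (N : ℕ) (a : ℕ → ℝ) (y : ℕ → Y), (N : ℝ) ≤ W T → T ≤ a 0 → a N ≤ 2 * T →
      (∀ n < N, a n ≤ a (n + 1)) →
      ∑ n ∈ Finset.range N, ‖∫ t in (a n)..(a (n + 1)), F (S^[⌊t / h T⌋₊] (y n)) * (Yf f h ψ T t : ℂ)‖ ≤ ε * T := by
  -- normalisation
  obtain ⟨R, hR0, hR⟩ : ∃ R : ℝ, 0 < R ∧ ∀ y, ‖F y‖ ≤ R := by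
    obtain ⟨R, hR⟩ := (isCompact_univ (X := Y)).exists_bound_of_continuousOn hF.continuousOn
    exact ⟨|R| + 1, by positivity, fun y => (hR y (mem_univ y)).trans ((le_abs_self R).trans (by linarith))⟩
  set F' : Y → ℂ := fun y => F y / R with hF'
  have hF'c : Continuous F' := hF.div_const _
  have hF'1 : ∀ y, ‖F' y‖ ≤ 1 := by
    intro y
    rw [hF']
    simp only
    rw [norm_div, Complex.norm_real, Real.norm_eq_abs, abs_of_pos hR0, div_le_one hR0]
    exact hR y
  obtain ⟨κ, δ, M₀, hκ, hδ, hM⟩ := zeroEnt hf hs h0 h1 hψ hC (ε := ε / R) (by positivity)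
  obtain ⟨M₁, hM₁⟩ := t_CORD Y S hS F' hF'c hF'1 κ δ hκ hδ
  set M : ℕ := max M₀ M₁ with hMdef
  have hW2 : ∀ᶠ T : ℝ in atTop, M * (W T * h T / T) + M * h T < δ := by
    have h2 : Tendsto (fun T => M * (W T * h T / T) + M * h T) atTop (𝓝 (M * 0 + M * 0)) :=
      (hW.const_mul _).add (h0.const_mul _)
    rw [mul_zero, add_zero] at h2
    exact h2.eventually (gt_mem_nhds hδ)
  have hcont : ∀ᶠ T : ℝ in atTop, ContinuousOn (Yf f h ψ T) (Icc T (2 * T)) := by
    filter_upwards [cont_ev hf hs h0 h1, eventually_ge_atTop (3 : ℝ)] with T h2 h3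
    exact (hψ.comp_continuousOn ((h2 _).mono (Icc_subset_Icc h3 le_rfl))).sub continuousOn_const
  filter_upwards [hM M (le_max_left _ _), hW2, pos_ev h1, eventually_ge_atTop (1 : ℝ), hcont]
    with T h2 h3 h4 h5 h6 N a y hN ha0 haN ha
  have hT : (0 : ℝ) < T := by linarith
  have hTT : T ≤ 2 * T := by linarith
  set J : ℕ → ℂ := fun n => ∫ t in (a n)..(a (n + 1)), F' (S^[⌊t / h T⌋₊] (y n)) * (Yf f h ψ T t : ℂ) with hJ
  set u : ℕ → ℂ := fun n => if J n = 0 then 1 else (starRingEnd ℂ) (J n) / (‖J n‖ : ℂ) with hu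
  have hu1 : ∀ n, ‖u n‖ = 1 := by
    intro n
    rw [hu]
    simp only
    split_ifs with h7
    · simp
    · rw [norm_div, RCLike.norm_conj, Complex.norm_real, norm_norm, div_self (norm_ne_zero_iff.2 h7)]
  have huJ : ∀ n, u n * J n = (‖J n‖ : ℂ) := by
    intro n
    rw [hu]
    simp only
    split_ifs with h7
    · rw [h7]; simp
    · have h8 : ((‖J n‖ : ℝ) : ℂ) ≠ 0 := by
        rw [Ne, Complex.ofReal_eq_zero]
        exact norm_ne_zero_iff.2 h7
      rw [div_mul_eq_mul_div, mul_comm, Complex.mul_conj, Complex.normSq_eq_norm_sq]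
      field_simp
      push_cast
      ring
  have hNT : ((N : ℝ) + 1) * M * h T ≤ δ * T := by
    have h7 : (N : ℝ) * (M * h T) ≤ W T * (M * h T) := mul_le_mul_of_nonneg_right hN (by positivity)
    have h8 : (M * (W T * h T / T) + M * h T) * T = W T * (M * h T) + M * h T * T := by
      field_simp
    have h9 : (M * (W T * h T / T) + M * h T) * T ≤ δ * T := mul_le_mul_of_nonneg_right h3.le hT.le
    have h10 : M * h T ≤ M * h T * T := by
      have : 0 ≤ M * h T * (T - 1) := by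
        have : 0 ≤ T - 1 := by linarith
        positivity
      linarith
    linarith
  have hfol : Follows T (h T) M κ δ (wgt S F' (h T) N a y u) := by
    refine hM₁ M (le_max_right _ _) T (h T) N a y u _ hT h4 hNT ha0 haN ha hu1 ?_ ?_ ?_
    · intro t ht
      refine wgt_out _ _ _ _ _ fun n hn h7 => ?_
      have := a_mono ha 0 n (Nat.zero_le _) hn.le
      linarith [h7.1, ht.2]
    · intro t ht
      refine wgt_out _ _ _ _ _ fun n hn h7 => ?_
      have := a_mono ha (n + 1) N hn le_rfl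
      linarith [h7.2]
    · intro n hn t ht
      exact wgt_mem _ _ _ ha _ _ hn ht
  have key := h2 _ (wgt_meas S F' (h T) N a y u) (wgt_bd S hF'1 (h T) ha y hu1) hfol
  -- the integral of the weight
  have hIcc : ∀ n < N, Icc (a n) (a (n + 1)) ⊆ Icc T (2 * T) := fun n hn =>
    Icc_subset_Icc (ha0.trans (a_mono ha 0 n (Nat.zero_le _) hn.le)) ((a_mono ha (n + 1) N hn le_rfl).trans haN)
  have hint : ∀ n < N, IntervalIntegrable (fun t => u n * F' (S^[⌊t / h T⌋₊] (y n)) * (Yf f h ψ T t : ℂ)) volume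
      (a n) (a (n + 1)) := by
    intro n hn
    have h8 : IntervalIntegrable (fun t => (Yf f h ψ T t : ℂ)) volume (a n) (a (n + 1)) := by
      apply ContinuousOn.intervalIntegrable
      rw [uIcc_of_le (ha n hn)]
      exact Complex.continuous_ofReal.comp_continuousOn (h6.mono (hIcc n hn))
    rw [intervalIntegrable_iff] at h8 ⊢
    have h9 : Measurable fun t : ℝ => ⌊t / h T⌋₊ := Nat.measurable_floor.comp (measurable_id.div_const (h T))
    refine h8.bdd_mul (c := 1) ?_ (Filter.Eventually.of_forall fun t => ?_)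
    · exact (measurable_const.mul ((measurable_from_nat (f := fun i => F' (S^[i] (y n)))).comp
        h9)).aestronglyMeasurable
    · rw [norm_mul, hu1, one_mul]
      exact hF'1 _
  have hwin : ∀ n < N, ∫ t in (a n)..(a (n + 1)), wgt S F' (h T) N a y u t * (Yf f h ψ T t : ℂ) = (‖J n‖ : ℂ) := by
    intro n hn
    rw [← huJ, hJ]
    simp only
    rw [← intervalIntegral.integral_const_mul]
    rw [intervalIntegral.integral_of_le (ha n hn), intervalIntegral.integral_of_le (ha n hn),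
      ← integral_Ico_eq_integral_Ioc, ← integral_Ico_eq_integral_Ioc]
    refine setIntegral_congr_fun measurableSet_Ico fun t ht => ?_
    rw [wgt_mem S F' (h T) ha y u hn ht, mul_assoc]
  have hintw : ∀ n < N, IntervalIntegrable (fun t => wgt S F' (h T) N a y u t * (Yf f h ψ T t : ℂ)) volume
      (a n) (a (n + 1)) := by
    intro n hn
    have h8 : IntervalIntegrable (fun t => (Yf f h ψ T t : ℂ)) volume (a n) (a (n + 1)) := by
      apply ContinuousOn.intervalIntegrable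
      rw [uIcc_of_le (ha n hn)]
      exact Complex.continuous_ofReal.comp_continuousOn (h6.mono (hIcc n hn))
    rw [intervalIntegrable_iff] at h8 ⊢
    exact h8.bdd_mul (c := 1) (wgt_meas S F' (h T) N a y u).aestronglyMeasurable
      (Filter.Eventually.of_forall (wgt_bd S hF'1 (h T) ha y hu1))
  have hsum := intervalIntegral.sum_integral_adjacent_intervals (f := fun t => wgt S F' (h T) N a y u t *
    (Yf f h ψ T t : ℂ)) (μ := volume) (a := a) (n := N) hintw
  have hzero1 : ∫ t in T..(a 0), wgt S F' (h T) N a y u t * (Yf f h ψ T t : ℂ) = 0 := by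
    rw [intervalIntegral.integral_of_le ha0, ← integral_Ico_eq_integral_Ioc]
    rw [setIntegral_congr_fun measurableSet_Ico (g := fun _ => (0 : ℂ))]
    · simp
    · intro t ht
      simp only
      rw [wgt_out, zero_mul]
      intro n hn h7
      have := a_mono ha 0 n (Nat.zero_le _) hn.le
      linarith [h7.1, ht.2]
  have hzero2 : ∫ t in (a N)..(2 * T), wgt S F' (h T) N a y u t * (Yf f h ψ T t : ℂ) = 0 := by
    rw [intervalIntegral.integral_of_le haN, ← integral_Ico_eq_integral_Ioc]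
    rw [setIntegral_congr_fun measurableSet_Ico (g := fun _ => (0 : ℂ))]
    · simp
    · intro t ht
      simp only
      rw [wgt_out, zero_mul]
      intro n hn h7
      have := a_mono ha (n + 1) N hn le_rfl
      linarith [h7.2, ht.1]
  have hIntAll : IntervalIntegrable (fun t => wgt S F' (h T) N a y u t * (Yf f h ψ T t : ℂ)) volume T (2 * T) := by
    have h8 : IntervalIntegrable (fun t => (Yf f h ψ T t : ℂ)) volume T (2 * T) := by
      apply ContinuousOn.intervalIntegrable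
      rw [uIcc_of_le hTT]
      exact Complex.continuous_ofReal.comp_continuousOn h6
    rw [intervalIntegrable_iff] at h8 ⊢
    exact h8.bdd_mul (c := 1) (wgt_meas S F' (h T) N a y u).aestronglyMeasurable
      (Filter.Eventually.of_forall (wgt_bd S hF'1 (h T) ha y hu1))
  have ha0N : a 0 ≤ a N := a_mono ha 0 N (Nat.zero_le _) le_rfl
  have hsub : ∀ p q : ℝ, T ≤ p → p ≤ q → q ≤ 2 * T →
      IntervalIntegrable (fun t => wgt S F' (h T) N a y u t * (Yf f h ψ T t : ℂ)) volume p q := by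
    intro p q hp hpq hq'
    refine hIntAll.mono_set ?_
    rw [uIcc_of_le hpq, uIcc_of_le hTT]
    exact Icc_subset_Icc hp hq'
  have htot : ∫ t in T..(2 * T), wgt S F' (h T) N a y u t * (Yf f h ψ T t : ℂ) =
      ∑ n ∈ Finset.range N, (‖J n‖ : ℂ) := by
    rw [← intervalIntegral.integral_add_adjacent_intervals (hsub T (a 0) le_rfl ha0 (ha0N.trans haN))
      (hsub (a 0) (2 * T) ha0 (ha0N.trans haN) le_rfl),
      ← intervalIntegral.integral_add_adjacent_intervals (hsub (a 0) (a N) ha0 ha0N haN)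
      (hsub (a N) (2 * T) (ha0.trans ha0N) haN le_rfl), hzero1, hzero2, zero_add, add_zero, ← hsum]
    exact Finset.sum_congr rfl fun n hn => hwin n (Finset.mem_range.1 hn)
  rw [htot, ← Complex.ofReal_sum, Complex.norm_real, Real.norm_eq_abs,
    abs_of_nonneg (Finset.sum_nonneg fun n _ => norm_nonneg _)] at key
  have hJF : ∀ n, ‖∫ t in (a n)..(a (n + 1)), F (S^[⌊t / h T⌋₊] (y n)) * (Yf f h ψ T t : ℂ)‖ = R * ‖J n‖ := by
    intro n
    have h7 : (∫ t in (a n)..(a (n + 1)), F (S^[⌊t / h T⌋₊] (y n)) * (Yf f h ψ T t : ℂ)) = (R : ℂ) * J n := by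
      rw [hJ]
      simp only
      rw [← intervalIntegral.integral_const_mul]
      refine intervalIntegral.integral_congr fun t _ => ?_
      simp only [hF']
      have : (R : ℂ) ≠ 0 := by exact_mod_cast hR0.ne'
      field_simp
    rw [h7, norm_mul, Complex.norm_real, Real.norm_eq_abs, abs_of_pos hR0]
  simp_rw [hJF]
  rw [← Finset.mul_sum]
  calc R * ∑ n ∈ Finset.range N, ‖J n‖ ≤ R * (ε / R * T) := by gcongr
    _ = ε * T := by field_simp

end

end Pool.Agent.H493.EN
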