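import Pool.Agent.H493.EN.AB
import Pool.Agent.H493.EN.Cor

set_option autoImplicit false

/-! The entropy principle for an abstract field; corollaries. -/

open Complex Filter Topology Set MeasureTheory ProbabilityTheory
open scoped BoundedContinuousFunction RealInnerProductSpace NNReal

namespace Pool.Agent.H493.EN

section

variable {k : ℕ} {Λ : ℝ} {S₁ : Matrix (Fin k) (Fin k) ℝ} {S : ∀ M : ℕ, Matrix (Fin (k * M)) (Fin (k * M)) ℝ}
  {X : ℝ → ℝ → ℝ → EuclideanSpace ℝ (Fin k)}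

/-- **entropy bound** -/
theorem Gs.ent (hG : Gs k Λ S₁ S)
    {ψ : EuclideanSpace ℝ (Fin k) → ℝ} {L : ℝ≥0} (hL : 0 < L) (hψ : LipschitzWith L ψ) {κ ε : ℝ} (hκ : 0 ≤ κ)
    (hε : 0 < ε) : ∃ (δ : ℝ) (M₀ : ℕ), 0 < δ ∧ ∀ M : ℕ, M₀ ≤ M → ∀ (X : ℝ → ℝ → ℝ → EuclideanSpace ℝ (Fin k))
      (h : ℝ → ℝ), Obs k S₁ S X h → ∀ᶠ T : ℝ in atTop, ∀ θ : ℝ → ℂ, Measurable θ →
      (∀ t, ‖θ t‖ ≤ 1) → Follows T (h T) M κ δ θ →
      ‖∫ t in T..(2 * T), θ t * (Yg X S₁ ψ (h T) T t : ℂ)‖ ≤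
        (L * Real.sqrt (32 * Real.pi ^ 2 * Λ * κ) + ε) * T := by
  have hΛ := hG.lam
  have hL' : (0 : ℝ) < L := by exact_mod_cast hL
  have hpi := Real.pi_pos
  set c₀ : ℝ := 1 / (32 * Real.pi ^ 2 * L ^ 2 * Λ) with hc₀
  have hc0 : 0 < c₀ := by positivity
  set s : ℝ := L * Real.sqrt (32 * Real.pi ^ 2 * Λ * κ) with hs'
  have hs0 : 0 ≤ s := by positivity
  have hs2 : c₀ * s ^ 2 = κ := by
    rw [hs', mul_pow, Real.sq_sqrt (by positivity), hc₀]
    field_simp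
  set η : ℝ := s + ε / 2 with hη
  have hη0 : 0 < η := by positivity
  have hηκ : κ + c₀ * (ε ^ 2 / 4) ≤ c₀ * η ^ 2 := by
    rw [hη, ← hs2]
    have : 0 ≤ c₀ * (s * ε) := by positivity
    nlinarith
  set B := BG S₁ ψ L with hB
  have hB0 : 0 ≤ B := BG_nonneg S₁ ψ L
  set τ : ℝ := ε / (12 * (B + 1)) with hτ
  have hτ0 : 0 < τ := by positivity
  set δ : ℝ := ε * τ / 12 with hδ
  have hδ0 : 0 < δ := by positivity
  -- the exponential
  have hlim : Tendsto (fun M : ℕ => 5 * Real.exp (-(c₀ * (ε ^ 2 / 4) * M)) / (2 * τ)) atTop (𝓝 0) := by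
    have h2 : Tendsto (fun M : ℕ => c₀ * (ε ^ 2 / 4) * (M : ℝ)) atTop atTop :=
      tendsto_natCast_atTop_atTop.const_mul_atTop (by positivity)
    have h3 := (Real.tendsto_exp_neg_atTop_nhds_zero.comp h2).const_mul 5
    have h4 := h3.div_const (2 * τ)
    simpa using h4
  obtain ⟨M₁, hM₁⟩ := eventually_atTop.1 (hlim.eventually (gt_mem_nhds (show (0 : ℝ) < ε / 8 by positivity)))
  refine ⟨δ, max M₁ 1, hδ0, fun M hM X h hO => ?_⟩
  have hM1 : 1 ≤ M := (le_max_right _ _).trans hM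
  have hMp : (0 : ℝ) < M := by exact_mod_cast hM1
  have hMe := hM₁ M ((le_max_left _ _).trans hM)
  have hMh : ∀ᶠ T : ℝ in atTop, M * (h T / T) < min (τ * (ε / 8)) 1 := by
    have : Tendsto (fun T => M * (h T / T)) atTop (𝓝 (M * 0)) := hO.zero.const_mul _
    rw [mul_zero] at this
    exact this.eventually (gt_mem_nhds (by positivity))
  filter_upwards [hO.expo hG hM1 hL hψ hη0, hO.Y_int hψ, hO.Y_int2 hψ,
    hO.Y_sec hψ M, hO.pos, hMh, eventually_ge_atTop (1 : ℝ)] with T h2 h3 h3' h4 h5 h6 h7 θ hθ hθ1 hθP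
  have hT : (0 : ℝ) < T := by linarith
  have h8 : M * h T ≤ τ * (ε / 8) * T := by
    have := (h6.trans_le (min_le_left _ _)).le
    rwa [← mul_div_assoc, div_le_iff₀ hT] at this
  have h9 : M * h T ≤ T := by
    have := (h6.trans_le (min_le_right _ _)).le
    rwa [← mul_div_assoc, div_le_iff₀ hT, one_mul] at this
  have key := glo2 T (h T) M (Yg X S₁ ψ (h T) T) B τ η (5 * Real.exp (-(η ^ 2 * M / (32 * Real.pi ^ 2 * L ^ 2 * Λ))))
    δ (Real.exp (κ * M)) hT h5.le hM1 h9 hB0 hτ0 hη0.le (by positivity) hδ0.le (fun m _ => h3 m) (fun m _ => h3' m)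
    h4 h2 θ hθ hθ1 hθP
  refine key.trans ?_
  have e1 : Real.exp (κ * M) * (5 * Real.exp (-(η ^ 2 * M / (32 * Real.pi ^ 2 * L ^ 2 * Λ)))) ≤
      5 * Real.exp (-(c₀ * (ε ^ 2 / 4) * M)) := by
    have h10 : Real.exp (κ * M) * (5 * Real.exp (-(η ^ 2 * M / (32 * Real.pi ^ 2 * L ^ 2 * Λ)))) =
        5 * Real.exp (κ * M - c₀ * η ^ 2 * M) := by
      rw [sub_eq_add_neg, Real.exp_add, hc₀]
      have : -(1 / (32 * Real.pi ^ 2 * (L : ℝ) ^ 2 * Λ) * η ^ 2 * M) =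
          -(η ^ 2 * M / (32 * Real.pi ^ 2 * L ^ 2 * Λ)) := by ring
      rw [this]
      ring
    rw [h10]
    refine mul_le_mul_of_nonneg_left (Real.exp_le_exp.2 ?_) (by norm_num)
    have := mul_le_mul_of_nonneg_right hηκ hMp.le
    linarith
  have e2 : 3 / 2 * τ * B ≤ ε / 8 := by
    have : τ * (B + 1) = ε / 12 := by
      rw [hτ]
      field_simp
    nlinarith
  have e3 : δ / τ = ε / 12 := by
    rw [hδ]
    field_simp
  have e4 : (δ + Real.exp (κ * M) * (5 * Real.exp (-(η ^ 2 * M / (32 * Real.pi ^ 2 * L ^ 2 * Λ))))) / (2 * τ) ≤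
      ε / 24 + ε / 8 := by
    rw [add_div]
    refine add_le_add (le_of_eq ?_) (le_trans ?_ hMe.le)
    · rw [hδ]
      field_simp
      ring
    · gcongr
  have e5 : M * h T / τ ≤ ε / 8 * T := by
    rw [div_le_iff₀ hτ0]
    linarith
  have e6 : (η + δ / τ + 3 / 2 * τ * B +
      (δ + Real.exp (κ * M) * (5 * Real.exp (-(η ^ 2 * M / (32 * Real.pi ^ 2 * L ^ 2 * Λ))))) / (2 * τ)) * T ≤
      (s + ε / 2 + ε / 12 + ε / 8 + (ε / 24 + ε / 8)) * T := by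
    refine mul_le_mul_of_nonneg_right ?_ hT.le
    rw [e3]
    linarith
  calc _ ≤ (s + ε / 2 + ε / 12 + ε / 8 + (ε / 24 + ε / 8)) * T + ε / 8 * T := add_le_add e6 e5
    _ = (s + ε) * T := by ring

/-- second moments of Gaussian vectors -/
lemma gauss_int2 (S₁ : Matrix (Fin k) (Fin k) ℝ) :
    Integrable (fun x : EuclideanSpace ℝ (Fin k) => ‖x‖ ^ 2) (multivariateGaussian 0 S₁) := by
  have := (IsGaussian.memLp_two_id (μ := multivariateGaussian 0 S₁)).integrable_norm_pow (by norm_num)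
  simpa using this

/-- weak convergence of one block -/
lemma Obs.weak1 (hG : Gs k Λ S₁ S) {h : ℝ → ℝ} (hO : Obs k S₁ S X h) (φ : EuclideanSpace ℝ (Fin k) →ᵇ ℝ) :
    Tendsto (fun T : ℝ => 1 / T * ∫ t in T..(2 * T), φ (X (h T) T t)) atTop
      (𝓝 (∫ x, φ x ∂(multivariateGaussian 0 S₁))) := by
  let Φ : EuclideanSpace ℝ (Fin (k * 1)) →ᵇ ℝ := φ.compContinuous ⟨blk (0 : Fin 1), blk_cont _⟩
  have h1 := hO.weak 1 Φ
  have h2 : ∫ x, Φ x ∂(multivariateGaussian 0 (S 1)) = ∫ x, φ x ∂(multivariateGaussian 0 S₁) := by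
    rw [← hG.law (0 : Fin 1), integral_map (blk_cont _).aemeasurable φ.continuous.aestronglyMeasurable]
    rfl
  rw [h2] at h1
  refine h1.congr fun T => ?_
  congr 1
  refine intervalIntegral.integral_congr fun t _ => ?_
  change φ (blk (0 : Fin 1) (vecB fun m : Fin 1 => X (h T) T (t + (m : ℕ) * h T))) = _
  rw [blk_vecB]
  simp

/-- Lipschitz approximation -/
lemma Gs.lipc (hG : Gs k Λ S₁ S) (ψ : EuclideanSpace ℝ (Fin k) → ℝ) (C : ℝ) (hψ : Continuous ψ)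
    (hC : ∀ x, |ψ x| ≤ C * (1 + ‖x‖ ^ 2)) (ε : ℝ) (hε : 0 < ε) :
    ∃ (L : ℝ≥0) (g : EuclideanSpace ℝ (Fin k) → ℝ), 0 < L ∧ LipschitzWith L g ∧
      (∀ (X : ℝ → ℝ → ℝ → EuclideanSpace ℝ (Fin k)) (h : ℝ → ℝ), Obs k S₁ S X h →
        ∀ᶠ T : ℝ in atTop, ∫ t in T..(2 * T), |ψ (X (h T) T t) - g (X (h T) T t)| ≤ ε * T) ∧
      |∫ x, ψ x ∂(multivariateGaussian 0 S₁) - ∫ x, g x ∂(multivariateGaussian 0 S₁)| ≤ ε := by
  obtain ⟨L, g, hL, hg, h1, h2⟩ := qg2 k (multivariateGaussian 0 S₁) (gauss_int2 S₁) ψ C hψ hC ε hε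
  refine ⟨L, g, hL, hg, fun X h hO => ?_, h2⟩
  refine h1 (fun T t => X (h T) T t) ?_ ?_ (hO.weak1 hG) ?_
  · filter_upwards [hO.meas] with T h3
    have := h3 0
    simpa using this
  · filter_upwards [hO.int2] with T h3
    have := h3 0
    simpa using this
  · have := hO.sec 0
    simpa using this

/-- **zero entropy**: functions of quadratic growth -/
theorem Gs.zeroEnt (hG : Gs k Λ S₁ S)
    {ψ : EuclideanSpace ℝ (Fin k) → ℝ} {C : ℝ} (hψ : Continuous ψ) (hC : ∀ x, |ψ x| ≤ C * (1 + ‖x‖ ^ 2)) {ε : ℝ}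
    (hε : 0 < ε) : ∃ (κ δ : ℝ) (M₀ : ℕ), 0 < κ ∧ 0 < δ ∧ ∀ M : ℕ, M₀ ≤ M →
      ∀ (X : ℝ → ℝ → ℝ → EuclideanSpace ℝ (Fin k)) (h : ℝ → ℝ), Obs k S₁ S X h → ∀ᶠ T : ℝ in atTop, ∀ θ : ℝ → ℂ,
      Measurable θ → (∀ t, ‖θ t‖ ≤ 1) → Follows T (h T) M κ δ θ →
      ‖∫ t in T..(2 * T), θ t * (Yg X S₁ ψ (h T) T t : ℂ)‖ ≤ ε * T := by
  have hΛ := hG.lam
  set ν := multivariateGaussian 0 S₁ with hν
  obtain ⟨L, g, hL, hg, hgD, hg2⟩ := hG.lipc ψ C hψ hC (ε / 4) (by positivity)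
  have hL' : (0 : ℝ) < L := by exact_mod_cast hL
  have hpi := Real.pi_pos
  set κ : ℝ := (ε / 4 / L) ^ 2 / (32 * Real.pi ^ 2 * Λ) with hκ
  have hκ0 : 0 < κ := by positivity
  obtain ⟨δ, M₀, hδ, hM⟩ := hG.ent hL hg hκ0.le (ε := ε / 4) (by positivity)
  refine ⟨κ, δ, M₀, hκ0, hδ, fun M hMM X h hO => ?_⟩
  have hk2 : L * Real.sqrt (32 * Real.pi ^ 2 * Λ * κ) = ε / 4 := by
    have : 32 * Real.pi ^ 2 * Λ * κ = (ε / 4 / L) ^ 2 := by
      rw [hκ]
      field_simp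
    rw [this, Real.sqrt_sq (by positivity)]
    field_simp
  filter_upwards [hM M hMM X h hO, hgD X h hO, hO.meas, hO.int2, eventually_ge_atTop (1 : ℝ)]
    with T h3 h4 h5 h5' h6 θ hθ hθ1 hθP
  have hT : T ≤ 2 * T := by linarith
  have h7 := h3 θ hθ hθ1 hθP
  rw [hk2] at h7
  have hm0 : AEStronglyMeasurable (fun t => X (h T) T t) (volume.restrict (Ioc T (2 * T))) := by simpa using h5 0
  have hi0 : IntervalIntegrable (fun t => ‖X (h T) T t‖ ^ 2) volume T (2 * T) := by simpa using h5' 0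
  -- integrability of a function of quadratic growth along the field
  have quad : ∀ {φ : EuclideanSpace ℝ (Fin k) → ℝ} {D : ℝ}, Continuous φ → (∀ x, |φ x| ≤ D * (1 + ‖x‖ ^ 2)) →
      IntervalIntegrable (fun t => φ (X (h T) T t)) volume T (2 * T) := by
    intro φ D hφ hD
    have h8 : IntervalIntegrable (fun t => D * (1 + ‖X (h T) T t‖ ^ 2)) volume T (2 * T) :=
      (intervalIntegrable_const.add hi0).const_mul _
    refine h8.mono_fun ?_ (Filter.Eventually.of_forall fun t => ?_)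
    · rw [uIoc_of_le hT]
      exact hφ.comp_aestronglyMeasurable hm0
    · change ‖φ (X (h T) T t)‖ ≤ ‖D * (1 + ‖X (h T) T t‖ ^ 2)‖
      rw [Real.norm_eq_abs, Real.norm_eq_abs]
      exact (hD _).trans (le_abs_self _)
  have hgq : ∀ x, |g x| ≤ (|g 0| + L) * (1 + ‖x‖ ^ 2) := by
    intro x
    have h8 := hg.dist_le_mul x 0
    rw [Real.dist_eq, dist_zero_right] at h8
    have h9 : |g x| ≤ |g 0| + |g x - g 0| := by
      have := abs_add_le (g 0) (g x - g 0)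
      rwa [add_sub_cancel] at this
    have h10 : ‖x‖ ≤ 1 + ‖x‖ ^ 2 := by nlinarith [sq_nonneg (‖x‖ - 1), norm_nonneg x]
    have h11 : (L : ℝ) * ‖x‖ ≤ L * (1 + ‖x‖ ^ 2) := mul_le_mul_of_nonneg_left h10 hL'.le
    have h12 : 0 ≤ |g 0| * ‖x‖ ^ 2 := by positivity
    linarith
  have iψ := quad hψ hC
  have ig := quad hg.continuous hgq
  have cψ : IntervalIntegrable (Yg X S₁ ψ (h T) T) volume T (2 * T) := iψ.sub intervalIntegrable_const
  have cg : IntervalIntegrable (Yg X S₁ g (h T) T) volume T (2 * T) := ig.sub intervalIntegrable_const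
  have icont : ∀ {G : ℝ → ℝ}, IntervalIntegrable G volume T (2 * T) →
      IntervalIntegrable (fun t => θ t * (G t : ℂ)) volume T (2 * T) := fun hG' =>
    GLOL.ii_mul _ _ _ hG' _ hθ hθ1
  have id : IntervalIntegrable (fun t => |ψ (X (h T) T t) - g (X (h T) T t)|) volume T (2 * T) := (iψ.sub ig).abs
  have h8 : ∫ t in T..(2 * T), θ t * (Yg X S₁ ψ (h T) T t : ℂ) =
      (∫ t in T..(2 * T), θ t * (Yg X S₁ g (h T) T t : ℂ)) +
      ∫ t in T..(2 * T), θ t * ((Yg X S₁ ψ (h T) T t - Yg X S₁ g (h T) T t : ℝ) : ℂ) := by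
    rw [← intervalIntegral.integral_add (icont cg)
      (icont (G := fun t => Yg X S₁ ψ (h T) T t - Yg X S₁ g (h T) T t) (cψ.sub cg))]
    refine intervalIntegral.integral_congr fun t _ => ?_
    push_cast
    ring
  have h9 : ‖∫ t in T..(2 * T), θ t * ((Yg X S₁ ψ (h T) T t - Yg X S₁ g (h T) T t : ℝ) : ℂ)‖ ≤
      ∫ t in T..(2 * T), (|ψ (X (h T) T t) - g (X (h T) T t)| + ε / 4) := by
    refine intervalIntegral.norm_integral_le_of_norm_le hT ?_ (id.add intervalIntegrable_const)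
    refine Filter.Eventually.of_forall fun t _ => ?_
    rw [norm_mul, Complex.norm_real, Real.norm_eq_abs]
    have h10 : |Yg X S₁ ψ (h T) T t - Yg X S₁ g (h T) T t| ≤ |ψ (X (h T) T t) - g (X (h T) T t)| + ε / 4 := by
      unfold Yg
      have h11 : ψ (X (h T) T t) - (∫ y, ψ y ∂ν) - (g (X (h T) T t) - ∫ y, g y ∂ν) =
          (ψ (X (h T) T t) - g (X (h T) T t)) - ((∫ y, ψ y ∂ν) - ∫ y, g y ∂ν) := by ring
      rw [h11]
      exact (abs_sub _ _).trans (add_le_add le_rfl hg2)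
    calc ‖θ t‖ * |Yg X S₁ ψ (h T) T t - Yg X S₁ g (h T) T t| ≤ 1 * |Yg X S₁ ψ (h T) T t - Yg X S₁ g (h T) T t| := by
          have := hθ1 t
          gcongr
      _ ≤ _ := by rw [one_mul]; exact h10
  rw [intervalIntegral.integral_add id intervalIntegrable_const, intervalIntegral.integral_const, smul_eq_mul] at h9
  rw [h8]
  refine (norm_add_le _ _).trans ?_
  linarith

end

end Pool.Agent.H493.EN
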