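import Mathlib

set_option autoImplicit false

/-! Averages over offsets. -/

open Complex Filter Topology Set MeasureTheory

namespace Pool.Agent.H493.EN

/-- (OFF) the mean over the offsets of the modulus of a discrete sum is an integral against a weight of modulus at most one.
Proof.  `n₀ = ⌈T/s⌉₊`, `n₁ = ⌊2T/s⌋₊` (if `n₁ ≤ n₀` the sum is empty, take `θ = 0`).  For `n₀ ≤ n < n₁` the cell
`[ns, (n+1)s)` is contained in `[T, 2T]`.  `G x = ∑_{n₀ ≤ n < n₁} w n Y((n+x)s)` is integrable on `[0,1]`; let `G'` be a measurable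
function with `G' = G` almost everywhere on `[0,1]` (`AEStronglyMeasurable.mk`), `u x = conj (G' x)/‖G' x‖` if `G' x ≠ 0` and
`1` otherwise: measurable, `‖u‖ = 1`, `u G = ‖G‖` almost everywhere on `[0,1]`.  Put `θ t = u (Int.fract (t/s)) w ⌊t/s⌋₊` for
`n₀ s ≤ t < n₁ s`, `0` otherwise.  Then `∫_T^{2T} θ Y = ∑_{n₀ ≤ n < n₁} ∫_{ns}^{(n+1)s} θ Y = s ∫_0^1 u(x) G(x) dx
= s ∫_0^1 ‖G‖`.  (`t/s = n + x` has integer part `n` and fractional part `x` for `t = (n + x) s`, `0 ≤ x < 1`.) -/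
def S_OFF : Prop := ∀ (T s : ℝ) (Y : ℝ → ℝ) (w : ℕ → ℂ), 0 < T → 0 < s → IntervalIntegrable Y volume T (2 * T) →
  (∀ n, ‖w n‖ ≤ 1) → ∃ (θ u : ℝ → ℂ), Measurable θ ∧ (∀ t, ‖θ t‖ ≤ 1) ∧ (∀ x, ‖u x‖ = 1) ∧
    (∀ t, (⌈T / s⌉₊ : ℝ) * s ≤ t → t < (⌊2 * T / s⌋₊ : ℝ) * s → θ t = u (Int.fract (t / s)) * w ⌊t / s⌋₊) ∧
    (∀ t, t < (⌈T / s⌉₊ : ℝ) * s → θ t = 0) ∧ (∀ t, (⌊2 * T / s⌋₊ : ℝ) * s ≤ t → θ t = 0) ∧
    ∫ t in T..(2 * T), θ t * (Y t : ℂ) =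
      ((s * ∫ x in (0 : ℝ)..1, ‖∑ n ∈ Finset.Ico ⌈T / s⌉₊ ⌊2 * T / s⌋₊, w n * (Y ((n + x) * s) : ℂ)‖ : ℝ) : ℂ)

end Pool.Agent.H493.EN
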