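import Mathlib

set_option autoImplicit false

/-! From all scales `h(T)` to uniformity in the scale. -/

open Filter Topology Set

namespace Pool.Agent.H493.EN

/-- a statement which holds for large `T` along every scale `h(T) → 0`, `h(T) log T → ∞` holds uniformly for the
scales between `K / log T` and `1 / K` -/
theorem unif {P : ℝ → ℝ → Prop} (H : ∀ h : ℝ → ℝ, Tendsto h atTop (𝓝 0) →
    Tendsto (fun T => h T * Real.log T) atTop atTop → ∀ᶠ T in atTop, P T (h T)) :
    ∃ K : ℝ, 1 ≤ K ∧ ∀ T : ℝ, K ≤ T → ∀ s : ℝ, K ≤ s * Real.log T → s ≤ 1 / K → P T s := by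
  set F : Filter (ℝ × ℝ) := (comap Prod.fst atTop ⊓ comap (fun p : ℝ × ℝ => p.2 * Real.log p.1) atTop) ⊓
    comap Prod.snd (𝓝 0) with hF
  have key : ∀ᶠ p in F, P p.1 p.2 := by
    by_contra hn
    rw [not_eventually] at hn
    obtain ⟨ns, hns, hnP⟩ := exists_seq_forall_of_frequently hn
    have t1 : Tendsto (fun n => (ns n).1) atTop atTop :=
      tendsto_comap.comp (hns.mono_right (inf_le_left.trans inf_le_left))
    have t2 : Tendsto (fun n => (ns n).2 * Real.log (ns n).1) atTop atTop := by
      have : Tendsto ns atTop (comap (fun p : ℝ × ℝ => p.2 * Real.log p.1) atTop) :=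
        hns.mono_right (inf_le_left.trans inf_le_right)
      exact tendsto_comap.comp this
    have t3 : Tendsto (fun n => (ns n).2) atTop (𝓝 0) :=
      tendsto_comap.comp (hns.mono_right inf_le_right)
    obtain ⟨φ, hφ, hφ2⟩ := strictMono_subseq_of_tendsto_atTop t1
    have tφ : Tendsto φ atTop atTop := hφ.tendsto_atTop
    classical
    set h : ℝ → ℝ := fun T => if hT : ∃ n, (ns (φ n)).1 = T then (ns (φ hT.choose)).2 else
      1 / Real.sqrt (Real.log T) with hh
    have hval : ∀ n, h (ns (φ n)).1 = (ns (φ n)).2 := by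
      intro n
      have hT : ∃ m, (ns (φ m)).1 = (ns (φ n)).1 := ⟨n, rfl⟩
      rw [hh]
      simp only
      rw [dif_pos hT]
      have h1 := hT.choose_spec
      have h2 : hT.choose = n := hφ2.injective h1
      rw [h2]
    -- transfer of eventual properties
    have tr : ∀ G : ℝ → ℝ → Prop, (∀ᶠ n in atTop, G (ns n).1 (ns n).2) →
        (∀ᶠ T in atTop, G T (1 / Real.sqrt (Real.log T))) → ∀ᶠ T in atTop, G T (h T) := by
      intro G h1 h2
      obtain ⟨n₀, hn₀⟩ := eventually_atTop.1 (tφ.eventually h1)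
      filter_upwards [h2, eventually_gt_atTop (ns (φ n₀)).1] with T h3 h4
      by_cases hT : ∃ n, (ns (φ n)).1 = T
      · obtain ⟨n, rfl⟩ := hT
        rw [hval]
        refine hn₀ n ?_
        by_contra h5
        push Not at h5
        have := hφ2 h5
        simp only [Function.comp] at this
        linarith
      · rw [hh]
        simp only
        rw [dif_neg hT]
        exact h3
    have l1 : Tendsto (fun T : ℝ => Real.sqrt (Real.log T)) atTop atTop :=
      Real.tendsto_sqrt_atTop.comp Real.tendsto_log_atTop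
    have d0 : Tendsto (fun T : ℝ => 1 / Real.sqrt (Real.log T)) atTop (𝓝 0) := by
      simp only [one_div]
      exact l1.inv_tendsto_atTop
    have d1 : Tendsto (fun T : ℝ => 1 / Real.sqrt (Real.log T) * Real.log T) atTop atTop := by
      refine l1.congr' ?_
      filter_upwards [eventually_gt_atTop (1 : ℝ)] with T hT
      have h5 := Real.log_pos hT
      have h6 : Real.sqrt (Real.log T) * Real.sqrt (Real.log T) = Real.log T := Real.mul_self_sqrt h5.le
      have h7 : Real.sqrt (Real.log T) ≠ 0 := (Real.sqrt_pos.2 h5).ne'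
      field_simp
      nlinarith
    have c0 : Tendsto h atTop (𝓝 0) := by
      rw [tendsto_def]
      intro U hU
      exact tr (fun _ s => s ∈ U) (t3 hU) (d0 hU)
    have c1 : Tendsto (fun T => h T * Real.log T) atTop atTop := by
      rw [tendsto_def]
      intro U hU
      exact tr (fun T s => s * Real.log T ∈ U) (t2 hU) (d1 hU)
    obtain ⟨T₀, hT₀⟩ := eventually_atTop.1 (H h c0 c1)
    obtain ⟨n, hn⟩ := ((t1.comp tφ).eventually (eventually_ge_atTop T₀)).exists
    have h5 := hT₀ _ hn
    simp only [Function.comp] at h5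
    rw [hval] at h5
    exact hnP _ h5
  -- extract the constant
  rw [hF, eventually_inf] at key
  obtain ⟨U, hU, V, hV, hUV⟩ := key
  rw [mem_inf_iff] at hU
  obtain ⟨U1, hU1, U2, hU2, rfl⟩ := hU
  obtain ⟨W1, hW1, hW1'⟩ := mem_comap.1 hU1
  obtain ⟨W2, hW2, hW2'⟩ := mem_comap.1 hU2
  obtain ⟨W3, hW3, hW3'⟩ := mem_comap.1 hV
  obtain ⟨A, hA⟩ := mem_atTop_sets.1 hW1
  obtain ⟨B, hB⟩ := mem_atTop_sets.1 hW2
  obtain ⟨c, hc, hc'⟩ := Metric.mem_nhds_iff.1 hW3
  refine ⟨max (max 1 A) (max B (2 / c)), (le_max_left _ _).trans (le_max_left _ _), fun T hT s hs1 hs2 => ?_⟩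
  set K := max (max 1 A) (max B (2 / c)) with hK
  have k1 : 1 ≤ K := (le_max_left _ _).trans (le_max_left _ _)
  have k2 : A ≤ K := (le_max_right _ _).trans (le_max_left _ _)
  have k3 : B ≤ K := (le_max_left _ _).trans (le_max_right _ _)
  have k4 : 2 / c ≤ K := (le_max_right _ _).trans (le_max_right _ _)
  have hK0 : 0 < K := by linarith
  have hs0 : 0 < s := by
    by_contra h
    push Not at h
    have h6 : 0 ≤ Real.log T := Real.log_nonneg (k1.trans hT)
    nlinarith
  have hsc : s < c := by
    have h6 : 1 / K ≤ c / 2 := by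
      rw [div_le_div_iff₀ hK0 two_pos]
      rw [div_le_iff₀ hc] at k4
      linarith
    linarith
  refine hUV (T, s) ⟨⟨hW1' (hA T (k2.trans hT)), hW2' (hB _ (k3.trans hs1))⟩, hW3' (hc' ?_)⟩
  simp only [Metric.mem_ball, dist_zero_right, Real.norm_eq_abs, abs_of_pos hs0]
  exact hsc

end Pool.Agent.H493.EN
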