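import Pool.Agent.H493.EN.AC
import Pool.Agent.H493.EN.Uni
import Pool.Agent.H493.EN.Stv

set_option autoImplicit false

/-! Uniform versions of the entropy principle for an abstract field. -/

open Complex Filter Topology Set MeasureTheory ProbabilityTheory
open scoped BoundedContinuousFunction RealInnerProductSpace NNReal

namespace Pool.Agent.H493.EN

/-- few patterns for functions which follow orbits of a system of zero entropy -/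
theorem orb {Y : Type} [MetricSpace Y] [CompactSpace Y] {S : Y → Y} (hS : ZeroEntropy S)
    {F : Y → ℂ} (hF : Continuous F) (hF1 : ∀ y, ‖F y‖ ≤ 1) {κ δ : ℝ} (hκ : 0 < κ) (hδ : 0 < δ) :
    ∃ M₀ : ℕ, ∀ M : ℕ, M₀ ≤ M → ∀ (T h : ℝ) (θ : ℝ → ℂ) (E : Set ℝ), volume E ≤ ENNReal.ofReal (δ * T) →
      (∀ t ∈ Icc T (2 * T), t ∉ E → (∀ m < M, θ (t + m * h) = 0) ∨
        ∃ (u : ℂ) (z : Y), ‖u‖ = 1 ∧ ∀ m < M, θ (t + m * h) = u * F (S^[m] z)) →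
      Follows T h M κ δ θ := by
  classical
  -- uniform continuity
  obtain ⟨ε₀, hε₀, hunif⟩ := Metric.uniformContinuous_iff.1
    (CompactSpace.uniformContinuous_of_continuous hF) (δ / 2) (by positivity)
  -- a net of the circle
  obtain ⟨V₀, hV₀s, hV₀f, hV₀⟩ := (isCompact_sphere (0 : ℂ) 1).finite_cover_balls
    (e := δ / 2) (by positivity)
  obtain ⟨V, hV⟩ : ∃ V : Finset ℂ, (V : Set ℂ) = V₀ := ⟨hV₀f.toFinset, hV₀f.coe_toFinset⟩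
  obtain ⟨M₁, hM₁⟩ := hS (ε₀ / 2) (κ / 2) (by positivity) (by positivity)
  have hexp : ∀ᶠ M : ℕ in atTop, (V.card : ℝ) + 1 ≤ Real.exp (κ / 2 * M) := by
    have h1 : Tendsto (fun M : ℕ => κ / 2 * (M : ℝ)) atTop atTop :=
      tendsto_natCast_atTop_atTop.const_mul_atTop (by positivity)
    exact (Real.tendsto_exp_atTop.comp h1).eventually_ge_atTop _
  obtain ⟨M₂, hM₂⟩ := eventually_atTop.1 hexp
  refine ⟨max M₁ M₂, fun M hM T h θ E hE hθ => ?_⟩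
  obtain ⟨A, hAc, hA⟩ := hM₁ M ((le_max_left _ _).trans hM)
  have hQ := hM₂ M ((le_max_right _ _).trans hM)
  have hVn : ∀ v ∈ V, ‖v‖ ≤ 1 := by
    intro v hv
    have h1 : v ∈ V₀ := by rw [← hV]; exact hv
    have h2 := hV₀s h1
    rw [mem_sphere_zero_iff_norm] at h2
    exact h2.le
  refine ⟨insert (fun _ => 0) ((V ×ˢ A).image fun q => fun m : ℕ => q.1 * F (S^[m] q.2)),
    E, ?_, ?_, hE, ?_⟩
  · have h1 : (insert (fun _ => (0 : ℂ)) ((V ×ˢ A).image fun q =>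
        fun m : ℕ => q.1 * F (S^[m] q.2))).card ≤ V.card * A.card + 1 := by
      refine (Finset.card_insert_le _ _).trans ?_
      have := Finset.card_image_le (s := V ×ˢ A)
        (f := fun q => fun m : ℕ => q.1 * F (S^[m] q.2))
      rw [Finset.card_product] at this
      omega
    have h2 : (((insert (fun _ => (0 : ℂ)) ((V ×ˢ A).image fun q =>
        fun m : ℕ => q.1 * F (S^[m] q.2))).card : ℕ) : ℝ) ≤ (V.card : ℝ) * A.card + 1 := by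
      exact_mod_cast h1
    refine h2.trans ?_
    have h3 : Real.exp (κ * M) = Real.exp (κ / 2 * M) * Real.exp (κ / 2 * M) := by
      rw [← Real.exp_add]; congr 1; ring
    have h4 : 1 ≤ Real.exp (κ / 2 * M) := Real.one_le_exp (by positivity)
    rw [h3]
    have h5 : (V.card : ℝ) * A.card ≤ V.card * Real.exp (κ / 2 * M) :=
      mul_le_mul_of_nonneg_left hAc (Nat.cast_nonneg _)
    have h6 : ((V.card : ℝ) + 1) * Real.exp (κ / 2 * M) ≤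
        Real.exp (κ / 2 * M) * Real.exp (κ / 2 * M) :=
      mul_le_mul_of_nonneg_right hQ (Real.exp_pos _).le
    linarith
  · intro p hp m
    rcases Finset.mem_insert.1 hp with h1 | h1
    · rw [h1]; simp
    · obtain ⟨q, hq, h2⟩ := Finset.mem_image.1 h1
      rw [← h2]
      change ‖q.1 * F (S^[m] q.2)‖ ≤ 1
      rw [norm_mul]
      exact mul_le_one₀ (hVn _ (Finset.mem_product.1 hq).1) (norm_nonneg _) (hF1 _)
  · intro t ht htE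
    rcases hθ t ht htE with h0 | ⟨u, z, hu, h6⟩
    · refine ⟨fun _ => 0, Finset.mem_insert_self _ _, ?_⟩
      rw [Finset.sum_eq_zero]
      · positivity
      · intro m hm
        rw [h0 m (Finset.mem_range.1 hm), sub_zero, norm_zero]
    obtain ⟨b, hb, hzb⟩ := hA z
    have hun : u ∈ Metric.sphere (0 : ℂ) 1 := by
      rw [mem_sphere_zero_iff_norm]; exact hu
    obtain ⟨v, hv, huv⟩ := mem_iUnion₂.1 (hV₀ hun)
    have hv' : v ∈ V := by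
      have : v ∈ (V : Set ℂ) := by rw [hV]; exact hv
      exact this
    refine ⟨fun m => v * F (S^[m] b), Finset.mem_insert_of_mem
      (Finset.mem_image.2 ⟨(v, b), Finset.mem_product.2 ⟨hv', hb⟩, rfl⟩), ?_⟩
    have h8 : ∀ m ∈ Finset.range M, ‖θ (t + m * h) - v * F (S^[m] b)‖ ≤ δ := by
      intro m hm
      have hm' := Finset.mem_range.1 hm
      rw [h6 m hm']
      have e1 : u * F (S^[m] z) - v * F (S^[m] b) =
          u * (F (S^[m] z) - F (S^[m] b)) + (u - v) * F (S^[m] b) := by ring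
      rw [e1]
      refine (norm_add_le _ _).trans ?_
      rw [norm_mul, norm_mul, hu, one_mul]
      have h9 : ‖F (S^[m] z) - F (S^[m] b)‖ ≤ δ / 2 := by
        rw [← dist_eq_norm]
        refine (hunif (lt_of_le_of_lt (hzb m hm') (by linarith))).le
      have h10 : ‖u - v‖ ≤ δ / 2 := by
        rw [← dist_eq_norm]
        exact (Metric.mem_ball.1 huv).le
      have h11 : ‖u - v‖ * ‖F (S^[m] b)‖ ≤ δ / 2 * 1 :=
        mul_le_mul h10 (hF1 _) (norm_nonneg _) (by positivity)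
      linarith
    refine (Finset.sum_le_sum h8).trans (le_of_eq ?_)
    rw [Finset.sum_const, Finset.card_range, nsmul_eq_mul, mul_comm]

section

variable {k : ℕ} {Λ : ℝ} {S₁ : Matrix (Fin k) (Fin k) ℝ} {S : ∀ M : ℕ, Matrix (Fin (k * M)) (Fin (k * M)) ℝ}
  {X : ℝ → ℝ → ℝ → EuclideanSpace ℝ (Fin k)}

/-- the field is asymptotically Gaussian along all mesoscopic scales -/
def Fam (k : ℕ) (S₁ : Matrix (Fin k) (Fin k) ℝ) (S : ∀ M : ℕ, Matrix (Fin (k * M)) (Fin (k * M)) ℝ)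
    (X : ℝ → ℝ → ℝ → EuclideanSpace ℝ (Fin k)) : Prop :=
  ∀ h : ℝ → ℝ, Tendsto h atTop (𝓝 0) → Tendsto (fun T => h T * Real.log T) atTop atTop → Obs k S₁ S X h

/-- exponential inequality -/
theorem expoU (hG : Gs k Λ S₁ S) (hX : Fam k S₁ S X) {M : ℕ} (hM : 1 ≤ M)
    {ψ : EuclideanSpace ℝ (Fin k) → ℝ} {L : ℝ≥0} (hL : 0 < L) (hψ : LipschitzWith L ψ) {ε : ℝ} (hε : 0 < ε) :
    ∃ K : ℝ, 1 ≤ K ∧ ∀ T : ℝ, K ≤ T → ∀ s : ℝ, K ≤ s * Real.log T → s ≤ 1 / K →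
      ∀ P : Finset (ℕ → ℂ), (∀ p ∈ P, ∀ m, ‖p m‖ ≤ 1) → volume {t | t ∈ Icc T (2 * T) ∧ ∃ p ∈ P,
        ε * M ≤ ‖∑ m ∈ Finset.range M, p m * ((Yg X S₁ ψ s T (t + m * s) : ℝ) : ℂ)‖} ≤
      ENNReal.ofReal (5 * P.card * Real.exp (-(ε ^ 2 * M / (32 * Real.pi ^ 2 * L ^ 2 * Λ))) * T) := by
  obtain ⟨K, hK, h1⟩ := unif (P := fun T s => 0 < T ∧ ∀ p : ℕ → ℂ, (∀ m, ‖p m‖ ≤ 1) →
    volume {t | t ∈ Icc T (2 * T) ∧ ε * M ≤ ‖∑ m ∈ Finset.range M, p m * ((Yg X S₁ ψ s T (t + m * s) : ℝ) : ℂ)‖} ≤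
      ENNReal.ofReal (5 * Real.exp (-(ε ^ 2 * M / (32 * Real.pi ^ 2 * L ^ 2 * Λ))) * T))
    fun h h0 h1 => (eventually_gt_atTop 0).and ((hX h h0 h1).expo hG hM hL hψ hε)
  refine ⟨K, hK, fun T hT s hs1 hs2 P hP => ?_⟩
  obtain ⟨hT0, h2⟩ := h1 T hT s hs1 hs2
  have h3 : {t | t ∈ Icc T (2 * T) ∧ ∃ p ∈ P,
        ε * M ≤ ‖∑ m ∈ Finset.range M, p m * ((Yg X S₁ ψ s T (t + m * s) : ℝ) : ℂ)‖} =
      ⋃ p ∈ P, {t | t ∈ Icc T (2 * T) ∧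
        ε * M ≤ ‖∑ m ∈ Finset.range M, p m * ((Yg X S₁ ψ s T (t + m * s) : ℝ) : ℂ)‖} := by
    ext t
    simp only [mem_iUnion]
    constructor
    · rintro ⟨ht, p, hp, hq⟩
      exact ⟨p, hp, ht, hq⟩
    · rintro ⟨p, hp, ht, hq⟩
      exact ⟨ht, p, hp, hq⟩
  rw [h3]
  refine (measure_biUnion_finset_le P _).trans ((Finset.sum_le_sum fun p hp => h2 p (hP p hp)).trans ?_)
  rw [Finset.sum_const, nsmul_eq_mul]
  have : ((P.card : ℕ) : ENNReal) = ENNReal.ofReal (P.card : ℝ) := by rw [ENNReal.ofReal_natCast]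
  rw [this, ← ENNReal.ofReal_mul (Nat.cast_nonneg _)]
  apply ENNReal.ofReal_le_ofReal
  rw [← mul_assoc, ← mul_assoc]
  rw [mul_comm (P.card : ℝ) 5]

/-- entropy bound -/
theorem entU (hG : Gs k Λ S₁ S) (hX : Fam k S₁ S X)
    {ψ : EuclideanSpace ℝ (Fin k) → ℝ} {L : ℝ≥0} (hL : 0 < L) (hψ : LipschitzWith L ψ) {κ ε : ℝ} (hκ : 0 ≤ κ)
    (hε : 0 < ε) : ∃ (δ : ℝ) (M₀ : ℕ), 0 < δ ∧ ∀ M : ℕ, M₀ ≤ M → ∃ K : ℝ, 1 ≤ K ∧ ∀ T : ℝ, K ≤ T →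
      ∀ s : ℝ, K ≤ s * Real.log T → s ≤ 1 / K → ∀ θ : ℝ → ℂ, Measurable θ →
      (∀ t, ‖θ t‖ ≤ 1) → Follows T s M κ δ θ →
      ‖∫ t in T..(2 * T), θ t * (Yg X S₁ ψ s T t : ℂ)‖ ≤
        (L * Real.sqrt (32 * Real.pi ^ 2 * Λ * κ) + ε) * T := by
  obtain ⟨δ, M₀, hδ, h1⟩ := hG.ent hL hψ hκ hε
  exact ⟨δ, M₀, hδ, fun M hM => unif (P := fun T s => ∀ θ : ℝ → ℂ, Measurable θ →
      (∀ t, ‖θ t‖ ≤ 1) → Follows T s M κ δ θ → ‖∫ t in T..(2 * T), θ t * (Yg X S₁ ψ s T t : ℂ)‖ ≤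
        (L * Real.sqrt (32 * Real.pi ^ 2 * Λ * κ) + ε) * T) fun h h0 h2 => h1 M hM X h (hX h h0 h2)⟩

/-- zero entropy -/
theorem zeroU (hG : Gs k Λ S₁ S) (hX : Fam k S₁ S X)
    {ψ : EuclideanSpace ℝ (Fin k) → ℝ} {C : ℝ} (hψ : Continuous ψ) (hC : ∀ x, |ψ x| ≤ C * (1 + ‖x‖ ^ 2)) {ε : ℝ}
    (hε : 0 < ε) : ∃ (κ δ : ℝ) (M₀ : ℕ), 0 < κ ∧ 0 < δ ∧ ∀ M : ℕ, M₀ ≤ M → ∃ K : ℝ, 1 ≤ K ∧ ∀ T : ℝ, K ≤ T →
      ∀ s : ℝ, K ≤ s * Real.log T → s ≤ 1 / K → ∀ θ : ℝ → ℂ,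
      Measurable θ → (∀ t, ‖θ t‖ ≤ 1) → Follows T s M κ δ θ →
      ‖∫ t in T..(2 * T), θ t * (Yg X S₁ ψ s T t : ℂ)‖ ≤ ε * T := by
  obtain ⟨κ, δ, M₀, hκ, hδ, h1⟩ := hG.zeroEnt hψ hC hε
  exact ⟨κ, δ, M₀, hκ, hδ, fun M hM => unif (P := fun T s => ∀ θ : ℝ → ℂ, Measurable θ →
      (∀ t, ‖θ t‖ ≤ 1) → Follows T s M κ δ θ → ‖∫ t in T..(2 * T), θ t * (Yg X S₁ ψ s T t : ℂ)‖ ≤ ε * T)
      fun h h0 h2 => h1 M hM X h (hX h h0 h2)⟩

/-- slowly varying functions -/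
theorem slowU (hG : Gs k Λ S₁ S) (hX : Fam k S₁ S X)
    {ψ : EuclideanSpace ℝ (Fin k) → ℝ} {C : ℝ} (hψ : Continuous ψ) (hC : ∀ x, |ψ x| ≤ C * (1 + ‖x‖ ^ 2)) {ε : ℝ}
    (hε : 0 < ε) : ∃ K : ℝ, 1 ≤ K ∧ ∀ T : ℝ, K ≤ T → ∀ s : ℝ, K ≤ s * Real.log T → s ≤ 1 / K → ∀ θ : ℝ → ℂ,
      Measurable θ → (∀ t, ‖θ t‖ ≤ 1) → ∫ t in T..(2 * T), ‖θ (t + s) - θ t‖ ≤ T / K →
      ‖∫ t in T..(2 * T), θ t * (Yg X S₁ ψ s T t : ℂ)‖ ≤ ε * T := by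
  obtain ⟨κ, δ, M₀, hκ, hδ, h1⟩ := zeroU hG hX hψ hC hε
  obtain ⟨M₁, h2⟩ := t_SLOW κ δ hκ hδ
  set M := max M₀ M₁ with hM
  obtain ⟨K, hK, h3⟩ := h1 M (le_max_left _ _)
  obtain ⟨δ', hδ', h4⟩ := h2 M (le_max_right _ _)
  have hMp : (0 : ℝ) ≤ M := Nat.cast_nonneg _
  set K' : ℝ := max (max K (1 / δ')) (2 * M / δ) with hK'
  have k1 : K ≤ K' := (le_max_left _ _).trans (le_max_left _ _)
  have k2 : 1 / δ' ≤ K' := (le_max_right _ _).trans (le_max_left _ _)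
  have k3 : 2 * M / δ ≤ K' := le_max_right _ _
  have hK0 : 0 < K := by linarith
  have hK'0 : 0 < K' := by linarith
  refine ⟨K', hK.trans k1, fun T hT s hs1 hs2 θ hθ hθ1 hθs => ?_⟩
  have hT1 : 1 ≤ T := (hK.trans k1).trans hT
  have hs0 : 0 ≤ s := by
    by_contra h
    push Not at h
    have h6 : 0 ≤ Real.log T := Real.log_nonneg hT1
    nlinarith
  refine h3 T (k1.trans hT) s (k1.trans hs1) (hs2.trans (one_div_le_one_div_of_le hK0 k1)) θ hθ hθ1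
    (h4 T s θ (by linarith) hs0 ?_ hθ hθ1 (hθs.trans ?_))
  · have h5 : s * K' ≤ 1 := by rwa [le_div_iff₀ hK'0] at hs2
    have h6 : 2 * M ≤ K' * δ := by rwa [div_le_iff₀ hδ] at k3
    have h7 : 2 * (M * s) ≤ δ := by
      calc 2 * (M * s) = (2 * M) * s := by ring
        _ ≤ K' * δ * s := mul_le_mul_of_nonneg_right h6 hs0
        _ = (s * K') * δ := by ring
        _ ≤ 1 * δ := mul_le_mul_of_nonneg_right h5 hδ.le
        _ = δ := one_mul _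
    nlinarith
  · rw [div_le_iff₀ hK'0]
    have h6 : 1 ≤ K' * δ' := by rwa [div_le_iff₀ hδ'] at k2
    have : 0 ≤ T * (K' * δ' - 1) := by
      have : 0 ≤ K' * δ' - 1 := by linarith
      positivity
    nlinarith

end

end Pool.Agent.H493.EN
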