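import Pool.Agent.H493.EN.Stc

set_option autoImplicit false

/-! (ADF) the smoothed steps are admissible, and their variance converges. -/

open Complex Filter Topology Set MeasureTheory

namespace Pool.Agent.H493.EN

open Pool.Agent.H203.ME

namespace ADFL

theorem FF_eq (F : ℝ → ℝ) : FF F = ftw F := rfl

/-- elementary positivity -/
theorem pos {h : ℝ → ℝ} (hL : Tendsto (fun T => h T * Real.log T) atTop atTop) :
    ∀ᶠ T : ℝ in atTop, 0 < Real.log T ∧ 0 < h T := by
  filter_upwards [Real.tendsto_log_atTop.eventually_gt_atTop 0, hL.eventually_gt_atTop 0]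
    with T h1 h2
  exact ⟨h1, (pos_iff_pos_of_mul_pos h2).2 h1⟩

theorem width {s : ℝ} (hs : 0 < s) (n : ℕ) : 0 < s / 2 ^ n ∧ s / 2 ^ n ≤ s := by
  refine ⟨by positivity, ?_⟩
  apply div_le_self hs.le
  exact one_le_pow₀ (by norm_num)

end ADFL

open ADFL in
theorem t_ADF (hV : S_STV) (hA : S_STA) (hT : S_STT) : S_ADF := by
  intro ι _ a c h0 h N hh hL hS
  obtain ⟨CV, hCV, HV⟩ := hV ι a c h0
  obtain ⟨CA, hCA, HA⟩ := hA ι a c h0
  obtain ⟨CT, hCT, HT⟩ := hT ι a c h0
  have e_pos := pos hL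
  have e_s : ∀ᶠ T : ℝ in atTop, 0 < sgm (h T) T := hS.s0.eventually_gt_atTop 0
  have e_C : ∀ᶠ T : ℝ in atTop, h T * CA < 1 := by
    have h1 : Tendsto (fun T => h T * CA) atTop (𝓝 (0 * CA)) := hh.mul_const CA
    rw [zero_mul] at h1
    exact h1.eventually_lt_const one_pos
  have l_inv : Tendsto (fun T => (sgm (h T) T)⁻¹) atTop (𝓝 0) :=
    tendsto_inv_atTop_zero.comp hS.s0
  have l_inv2 : Tendsto (fun T => 1 / sgm (h T) T ^ 2) atTop (𝓝 0) := by
    have h1 := l_inv.pow 2
    rw [zero_pow two_ne_zero] at h1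
    refine h1.congr fun T => ?_
    rw [inv_pow, one_div]
  have l_lg := hS.lg
  -- the variance
  set Va : ℝ → ℝ := fun T =>
    ∫ ξ in Ioi (0 : ℝ), ξ * ‖ftw (Ft a c (h T) (h T / 2 ^ N T) (sgm (h T) T)) ξ‖ ^ 2 with hVa
  have l_va : Tendsto Va atTop (𝓝 (QQ a c * Real.pi ^ 2)) := by
    have h1 : Tendsto (fun T => Va T -
        QQ a c * (Real.log (h T / (h T / 2 ^ N T)) / sgm (h T) T ^ 2)) atTop (𝓝 0) := by
      have h2 : Tendsto (fun T => CV * (1 / sgm (h T) T ^ 2)) atTop (𝓝 0) := by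
        have := l_inv2.const_mul CV
        rwa [mul_zero] at this
      refine squeeze_zero_norm' ?_ h2
      filter_upwards [e_pos, e_s] with T hp hs
      obtain ⟨w1, w2⟩ := width hp.2 (N T)
      have h3 := HV (h T) (h T / 2 ^ N T) (sgm (h T) T) w1 w2 hs
      rw [Real.norm_eq_abs]
      have h4 : Va T - QQ a c * (Real.log (h T / (h T / 2 ^ N T)) / sgm (h T) T ^ 2) =
          (∫ ξ in Ioi (0 : ℝ),
            ξ * ‖ftw (Ft a c (h T) (h T / 2 ^ N T) (sgm (h T) T)) ξ‖ ^ 2) -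
          (∑ i, ∑ j, if a i = a j then c i * c j else 0) *
            Real.log (h T / (h T / 2 ^ N T)) / sgm (h T) T ^ 2 := by
        rw [mul_div_assoc]
        rfl
      rw [h4]
      refine h3.trans (le_of_eq ?_)
      rw [mul_one_div]
    have h2 := h1.add (l_lg.const_mul (QQ a c))
    rw [zero_add] at h2
    refine h2.congr fun T => ?_
    ring
  refine ⟨⟨|QQ a c| * Real.pi ^ 2 + 1, by positivity, fun η hη => ?_⟩, ?_⟩
  · have hlt : QQ a c * Real.pi ^ 2 < |QQ a c| * Real.pi ^ 2 + 1 := by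
      have := mul_le_mul_of_nonneg_right (le_abs_self (QQ a c)) (sq_nonneg Real.pi)
      linarith
    have e_va := l_va.eventually_lt_const hlt
    have e_l1 : ∀ᶠ T : ℝ in atTop, CA * h T / sgm (h T) T < η := by
      have h1 : Tendsto (fun T => CA * h T * (sgm (h T) T)⁻¹) atTop (𝓝 (CA * 0 * 0)) :=
        (hh.const_mul CA).mul l_inv
      rw [mul_zero] at h1
      exact h1.eventually_lt_const hη
    have e_l2 : ∀ᶠ T : ℝ in atTop,
        CA * ((h T / 2 ^ N T * Real.log T) * sgm (h T) T)⁻¹ < η := by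
      have h1 : Tendsto (fun T => (h T / 2 ^ N T * Real.log T) * sgm (h T) T) atTop atTop :=
        hS.inf.atTop_mul_atTop₀ hS.s0
      have h2 := (tendsto_inv_atTop_zero.comp h1).const_mul CA
      rw [mul_zero] at h2
      exact h2.eventually_lt_const hη
    have e_tv : ∀ᶠ T : ℝ in atTop,
        CT * h T * (1 + Real.log (h T / (h T / 2 ^ N T))) / sgm (h T) T ^ 2 < η := by
      have h1 : Tendsto (fun T => CT * h T * (1 / sgm (h T) T ^ 2 +
          Real.log (h T / (h T / 2 ^ N T)) / sgm (h T) T ^ 2)) atTop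
          (𝓝 (CT * 0 * (0 + Real.pi ^ 2))) := (hh.const_mul CT).mul (l_inv2.add l_lg)
      rw [mul_zero, zero_mul] at h1
      filter_upwards [h1.eventually_lt_const hη] with T h2
      refine lt_of_eq_of_lt ?_ h2
      ring
    filter_upwards [e_pos, e_s, e_C, e_va, e_l1, e_l2, e_tv] with T hp hs hC h1 h2 h3 h4
    obtain ⟨w1, w2⟩ := width hp.2 (N T)
    obtain ⟨a1, a2, a3, a4, a5⟩ := HA (h T) (h T / 2 ^ N T) (sgm (h T) T) w1 w2 hC.le hs
    refine ⟨⟨a1, fun x hx => a2 x (by linarith)⟩, a4.trans h2.le, a5.trans ?_, h1.le, ?_⟩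
    · have h5 : CA / (h T / 2 ^ N T * sgm (h T) T) =
          CA * ((h T / 2 ^ N T * Real.log T) * sgm (h T) T)⁻¹ * Real.log T := by
        have := hp.1.ne'
        have := w1.ne'
        have := hs.ne'
        field_simp
      rw [h5]
      exact mul_le_mul_of_nonneg_right h3.le hp.1.le
    · exact (HT (h T) (h T / 2 ^ N T) (sgm (h T) T) w1 w2 hs).trans h4.le
  · have h1 := l_va.const_mul (1 / (2 * Real.pi ^ 2))
    have h2 : 1 / (2 * Real.pi ^ 2) * (QQ a c * Real.pi ^ 2) = QQ a c / 2 := by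
      have := Real.pi_ne_zero
      field_simp
    rw [h2] at h1
    exact h1

end Pool.Agent.H493.EN
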