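import Pool.Agent.H493.EN.AD

set_option autoImplicit false

/-! Systems of zero entropy: windows with free starting points, and discrete sums over offsets. -/

open Complex Filter Topology Set MeasureTheory ProbabilityTheory
open scoped BoundedContinuousFunction RealInnerProductSpace NNReal

namespace Pool.Agent.H493.EN

/-- reduction of a sum over windows to one weighted integral -/
theorem win_le {Y : Type} (S : Y → Y) {F : Y → ℂ} (hF1 : ∀ y, ‖F y‖ ≤ 1) {s T : ℝ} (hT0 : 0 < T) {N : ℕ} {a : ℕ → ℝ}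
    (y : ℕ → Y) (ha0 : T ≤ a 0) (haN : a N ≤ 2 * T) (ha : ∀ n < N, a n ≤ a (n + 1)) {Z : ℝ → ℝ}
    (hZ : IntervalIntegrable Z volume T (2 * T)) {B : ℝ}
    (hB : ∀ u : ℕ → ℂ, (∀ n, ‖u n‖ = 1) → ‖∫ t in T..(2 * T), wgt S F s N a y u t * (Z t : ℂ)‖ ≤ B) :
    ∑ n ∈ Finset.range N, ‖∫ t in (a n)..(a (n + 1)), F (S^[⌊t / s⌋₊] (y n)) * (Z t : ℂ)‖ ≤ B := by
  have hTT : T ≤ 2 * T := by linarith
  set J : ℕ → ℂ := fun n => ∫ t in (a n)..(a (n + 1)), F (S^[⌊t / s⌋₊] (y n)) * (Z t : ℂ) with hJ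
  set u : ℕ → ℂ := fun n => if J n = 0 then 1 else (starRingEnd ℂ) (J n) / (‖J n‖ : ℂ) with hu
  have hu1 : ∀ n, ‖u n‖ = 1 := by
    intro n
    rw [hu]
    simp only
    split_ifs with h7
    · simp
    · rw [norm_div, RCLike.norm_conj, Complex.norm_real, norm_norm, div_self (norm_ne_zero_iff.2 h7)]
  have huJ : ∀ n, u n * J n = (‖J n‖ : ℂ) := by
    intro n
    rw [hu]
    simp only
    split_ifs with h7
    · rw [h7]; simp
    · have h8 : ((‖J n‖ : ℝ) : ℂ) ≠ 0 := by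
        rw [Ne, Complex.ofReal_eq_zero]
        exact norm_ne_zero_iff.2 h7
      rw [div_mul_eq_mul_div, mul_comm, Complex.mul_conj, Complex.normSq_eq_norm_sq]
      field_simp
      push_cast
      ring
  have key := hB u hu1
  have hwin : ∀ n < N, ∫ t in (a n)..(a (n + 1)), wgt S F s N a y u t * (Z t : ℂ) = (‖J n‖ : ℂ) := by
    intro n hn
    rw [← huJ, hJ]
    simp only
    rw [← intervalIntegral.integral_const_mul]
    rw [intervalIntegral.integral_of_le (ha n hn), intervalIntegral.integral_of_le (ha n hn),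
      ← integral_Ico_eq_integral_Ioc, ← integral_Ico_eq_integral_Ioc]
    refine setIntegral_congr_fun measurableSet_Ico fun t ht => ?_
    rw [wgt_mem S F s ha y u hn ht, mul_assoc]
  have hIntAll : IntervalIntegrable (fun t => wgt S F s N a y u t * (Z t : ℂ)) volume T (2 * T) :=
    GLOL.ii_mul _ _ _ hZ _ (wgt_meas S F s N a y u) (wgt_bd S hF1 s ha y hu1)
  have hsub : ∀ p q : ℝ, T ≤ p → p ≤ q → q ≤ 2 * T →
      IntervalIntegrable (fun t => wgt S F s N a y u t * (Z t : ℂ)) volume p q := by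
    intro p q hp hpq hq'
    refine hIntAll.mono_set ?_
    rw [uIcc_of_le hpq, uIcc_of_le hTT]
    exact Icc_subset_Icc hp hq'
  have hintw : ∀ n < N, IntervalIntegrable (fun t => wgt S F s N a y u t * (Z t : ℂ)) volume
      (a n) (a (n + 1)) := fun n hn => hsub _ _ (ha0.trans (a_mono ha 0 n (Nat.zero_le _) hn.le)) (ha n hn)
        ((a_mono ha (n + 1) N hn le_rfl).trans haN)
  have hsum := intervalIntegral.sum_integral_adjacent_intervals (f := fun t => wgt S F s N a y u t *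
    (Z t : ℂ)) (μ := volume) (a := a) (n := N) hintw
  have hzero1 : ∫ t in T..(a 0), wgt S F s N a y u t * (Z t : ℂ) = 0 := by
    rw [intervalIntegral.integral_of_le ha0, ← integral_Ico_eq_integral_Ioc]
    rw [setIntegral_congr_fun measurableSet_Ico (g := fun _ => (0 : ℂ))]
    · simp
    · intro t ht
      simp only
      rw [wgt_out, zero_mul]
      intro n hn h7
      have := a_mono ha 0 n (Nat.zero_le _) hn.le
      linarith [h7.1, ht.2]
  have hzero2 : ∫ t in (a N)..(2 * T), wgt S F s N a y u t * (Z t : ℂ) = 0 := by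
    rw [intervalIntegral.integral_of_le haN, ← integral_Ico_eq_integral_Ioc]
    rw [setIntegral_congr_fun measurableSet_Ico (g := fun _ => (0 : ℂ))]
    · simp
    · intro t ht
      simp only
      rw [wgt_out, zero_mul]
      intro n hn h7
      have := a_mono ha (n + 1) N hn le_rfl
      linarith [h7.2, ht.1]
  have ha0N : a 0 ≤ a N := a_mono ha 0 N (Nat.zero_le _) le_rfl
  have htot : ∫ t in T..(2 * T), wgt S F s N a y u t * (Z t : ℂ) = ∑ n ∈ Finset.range N, (‖J n‖ : ℂ) := by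
    rw [← intervalIntegral.integral_add_adjacent_intervals (hsub T (a 0) le_rfl ha0 (ha0N.trans haN))
      (hsub (a 0) (2 * T) ha0 (ha0N.trans haN) le_rfl),
      ← intervalIntegral.integral_add_adjacent_intervals (hsub (a 0) (a N) ha0 ha0N haN)
      (hsub (a N) (2 * T) (ha0.trans ha0N) haN le_rfl), hzero1, hzero2, zero_add, add_zero, ← hsum]
    exact Finset.sum_congr rfl fun n hn => hwin n (Finset.mem_range.1 hn)
  rw [htot, ← Complex.ofReal_sum, Complex.norm_real, Real.norm_eq_abs,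
    abs_of_nonneg (Finset.sum_nonneg fun n _ => norm_nonneg _)] at key
  exact key

section

variable {k : ℕ} {Λ : ℝ} {S₁ : Matrix (Fin k) (Fin k) ℝ} {S : ∀ M : ℕ, Matrix (Fin (k * M)) (Fin (k * M)) ℝ}
  {X : ℝ → ℝ → ℝ → EuclideanSpace ℝ (Fin k)}

lemma quad_int {T : ℝ} (hT : T ≤ 2 * T) {X₀ : ℝ → EuclideanSpace ℝ (Fin k)}
    (hm : AEStronglyMeasurable X₀ (volume.restrict (Ioc T (2 * T))))
    (hi : IntervalIntegrable (fun t => ‖X₀ t‖ ^ 2) volume T (2 * T)) {φ : EuclideanSpace ℝ (Fin k) → ℝ} {D : ℝ}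
    (hφ : Continuous φ) (hD : ∀ x, |φ x| ≤ D * (1 + ‖x‖ ^ 2)) (c : ℝ) :
    IntervalIntegrable (fun t => φ (X₀ t) - c) volume T (2 * T) := by
  have h8 : IntervalIntegrable (fun t => D * (1 + ‖X₀ t‖ ^ 2)) volume T (2 * T) :=
    (intervalIntegrable_const.add hi).const_mul _
  refine IntervalIntegrable.sub (h8.mono_fun ?_ (Filter.Eventually.of_forall fun t => ?_)) intervalIntegrable_const
  · rw [uIoc_of_le hT]
    exact hφ.comp_aestronglyMeasurable hm
  · change ‖φ (X₀ t)‖ ≤ ‖D * (1 + ‖X₀ t‖ ^ 2)‖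
    rw [Real.norm_eq_abs, Real.norm_eq_abs]
    exact (hD _).trans (le_abs_self _)

/-- integrability along the family -/
lemma intU (hX : Fam k S₁ S X) {ψ : EuclideanSpace ℝ (Fin k) → ℝ} {C : ℝ} (hψ : Continuous ψ)
    (hC : ∀ x, |ψ x| ≤ C * (1 + ‖x‖ ^ 2)) : ∃ K : ℝ, 1 ≤ K ∧ ∀ T : ℝ, K ≤ T → ∀ s : ℝ, K ≤ s * Real.log T → s ≤ 1 / K →
      IntervalIntegrable (Yg X S₁ ψ s T) volume T (2 * T) := by
  refine unif (P := fun T s => IntervalIntegrable (Yg X S₁ ψ s T) volume T (2 * T)) fun h h0 h1 => ?_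
  have hO := hX h h0 h1
  filter_upwards [hO.meas, hO.int2, eventually_gt_atTop (0 : ℝ)] with T h2 h3 h4
  exact quad_int (by linarith) (by simpa using h2 0) (by simpa using h3 0) hψ hC _

lemma norm_F {Y : Type} [MetricSpace Y] [CompactSpace Y] {F : Y → ℂ} (hF : Continuous F) :
    ∃ R : ℝ, 0 < R ∧ ∀ y, ‖F y‖ ≤ R := by
  obtain ⟨R, hR⟩ := (isCompact_univ (X := Y)).exists_bound_of_continuousOn hF.continuousOn
  exact ⟨|R| + 1, by positivity, fun y => (hR y (mem_univ y)).trans ((le_abs_self R).trans (by linarith))⟩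

/-- **systems of zero entropy**, with a new point on every window -/
theorem momoU (hG : Gs k Λ S₁ S) (hX : Fam k S₁ S X)
    {ψ : EuclideanSpace ℝ (Fin k) → ℝ} {C : ℝ} (hψ : Continuous ψ) (hC : ∀ x, |ψ x| ≤ C * (1 + ‖x‖ ^ 2))
    {Y : Type} [MetricSpace Y] [CompactSpace Y] {Q : Y → Y} (hQ : ZeroEntropy Q) {F : Y → ℂ} (hF : Continuous F)
    {ε : ℝ} (hε : 0 < ε) : ∃ K : ℝ, 1 ≤ K ∧ ∀ T : ℝ, K ≤ T → ∀ s : ℝ, K ≤ s * Real.log T → s ≤ 1 / K →
      ∀ (N : ℕ) (a : ℕ → ℝ) (y : ℕ → Y), K * (N * s) ≤ T → T ≤ a 0 → a N ≤ 2 * T → (∀ n < N, a n ≤ a (n + 1)) →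
      ∑ n ∈ Finset.range N, ‖∫ t in (a n)..(a (n + 1)), F (Q^[⌊t / s⌋₊] (y n)) * (Yg X S₁ ψ s T t : ℂ)‖ ≤ ε * T := by
  obtain ⟨R, hR0, hR⟩ := norm_F hF
  set F' : Y → ℂ := fun y => F y / R with hF'
  have hF'c : Continuous F' := hF.div_const _
  have hF'1 : ∀ y, ‖F' y‖ ≤ 1 := by
    intro y
    rw [hF']
    simp only
    rw [norm_div, Complex.norm_real, Real.norm_eq_abs, abs_of_pos hR0, div_le_one hR0]
    exact hR y
  obtain ⟨κ, δ, M₀, hκ, hδ, h1⟩ := zeroU hG hX hψ hC (ε := ε / R) (by positivity)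
  obtain ⟨M₁, h2⟩ := orb hQ hF'c hF'1 hκ hδ
  set M := max M₀ M₁ with hM
  obtain ⟨K, hK, h3⟩ := h1 M (le_max_left _ _)
  obtain ⟨K₁, hK₁, h4⟩ := intU hX hψ hC
  have hMp : (0 : ℝ) ≤ M := Nat.cast_nonneg _
  set K' : ℝ := max (max K K₁) (2 * M / δ) with hK'
  have k1 : K ≤ K' := (le_max_left _ _).trans (le_max_left _ _)
  have k2 : K₁ ≤ K' := (le_max_right _ _).trans (le_max_left _ _)
  have k3 : 2 * M / δ ≤ K' := le_max_right _ _
  have hK0 : 0 < K := by linarith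
  have hK10 : 0 < K₁ := by linarith
  have hK'0 : 0 < K' := by linarith
  refine ⟨K', hK.trans k1, fun T hT s hs1 hs2 N a y hN ha0 haN ha => ?_⟩
  have hT1 : 1 ≤ T := (hK.trans k1).trans hT
  have hT0 : 0 < T := by linarith
  have hs0 : 0 < s := by
    by_contra h
    push Not at h
    have h6 : 0 ≤ Real.log T := Real.log_nonneg hT1
    nlinarith
  have hi := h4 T (k2.trans hT) s (k2.trans hs1) (hs2.trans (one_div_le_one_div_of_le hK10 k2))
  have h6 : 2 * M ≤ K' * δ := by rwa [div_le_iff₀ hδ] at k3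
  have hMs : 2 * (M * s) ≤ δ := by
    have h5 : s * K' ≤ 1 := by rwa [le_div_iff₀ hK'0] at hs2
    calc 2 * (M * s) = (2 * M) * s := by ring
      _ ≤ K' * δ * s := mul_le_mul_of_nonneg_right h6 hs0.le
      _ = (s * K') * δ := by ring
      _ ≤ 1 * δ := mul_le_mul_of_nonneg_right h5 hδ.le
      _ = δ := one_mul _
  have hNs : 2 * (N * (M * s)) ≤ δ * T := by
    calc 2 * (N * (M * s)) = (2 * M) * (N * s) := by ring
      _ ≤ (K' * δ) * (N * s) := mul_le_mul_of_nonneg_right h6 (by positivity)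
      _ = δ * (K' * (N * s)) := by ring
      _ ≤ δ * T := mul_le_mul_of_nonneg_left hN hδ.le
  have hD : ((N : ℝ) + 1) * M * s ≤ δ * T := by nlinarith
  have main : ∑ n ∈ Finset.range N, ‖∫ t in (a n)..(a (n + 1)), F' (Q^[⌊t / s⌋₊] (y n)) *
      (Yg X S₁ ψ s T t : ℂ)‖ ≤ ε / R * T := by
    refine win_le Q hF'1 hT0 y ha0 haN ha hi fun u hu => ?_
    refine h3 T (k1.trans hT) s (k1.trans hs1) (hs2.trans (one_div_le_one_div_of_le hK0 k1)) _
      (wgt_meas Q F' s N a y u) (wgt_bd Q hF'1 s ha y hu) ?_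
    refine h2 M (le_max_right _ _) T s _ (⋃ n ∈ Finset.range (N + 1), Icc (a n - M * s) (a n))
      (CORDL.vol_le N M s a hs0 hD) fun t ht htE => ?_
    have hnotin : ∀ n ≤ N, ¬ (a n - M * s ≤ t ∧ t ≤ a n) := by
      intro n hn h1
      apply htE
      exact mem_biUnion (show n ∈ (Finset.range (N + 1) : Set ℕ) by
        rw [Finset.mem_coe, Finset.mem_range]; omega) h1
    have hmh : ∀ m : ℕ, m < M → 0 ≤ (m : ℝ) * s ∧ (m : ℝ) * s ≤ M * s := by
      intro m hm
      have : (m : ℝ) ≤ M := by exact_mod_cast hm.le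
      exact ⟨by positivity, mul_le_mul_of_nonneg_right this hs0.le⟩
    rcases le_or_gt (a N) t with h7 | h7
    · left
      intro m hm
      refine wgt_out _ _ _ _ _ fun n hn h8 => ?_
      have := a_mono ha (n + 1) N hn le_rfl
      linarith [h8.2, (hmh m hm).1]
    rcases lt_or_ge t (a 0) with h8 | h8
    · left
      intro m hm
      refine wgt_out _ _ _ _ _ fun n hn h9 => ?_
      have h10 : t < a 0 - M * s := by
        by_contra hcon
        exact hnotin 0 (Nat.zero_le _) ⟨not_lt.1 hcon, h8.le⟩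
      have := a_mono ha 0 n (Nat.zero_le _) hn.le
      linarith [h9.1, (hmh m hm).2]
    right
    obtain ⟨n, hn, h9, h10⟩ := CORDL.window N a h8 h7
    have h11 : t < a (n + 1) - M * s := by
      by_contra hcon
      exact hnotin (n + 1) hn ⟨not_lt.1 hcon, h10.le⟩
    have ht0 : 0 ≤ t / s := div_nonneg (by linarith [ht.1]) hs0.le
    refine ⟨u n, Q^[⌊t / s⌋₊] (y n), hu n, fun m hm => ?_⟩
    rw [wgt_mem Q F' s ha y u hn ⟨by linarith [(hmh m hm).1], by linarith [(hmh m hm).2]⟩]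
    have h12 : (t + m * s) / s = t / s + (m : ℝ) := by field_simp
    rw [h12, Nat.floor_add_natCast ht0, add_comm, Function.iterate_add_apply]
  have hJF : ∀ n, ‖∫ t in (a n)..(a (n + 1)), F (Q^[⌊t / s⌋₊] (y n)) * (Yg X S₁ ψ s T t : ℂ)‖ =
      R * ‖∫ t in (a n)..(a (n + 1)), F' (Q^[⌊t / s⌋₊] (y n)) * (Yg X S₁ ψ s T t : ℂ)‖ := by
    intro n
    have h7 : (∫ t in (a n)..(a (n + 1)), F (Q^[⌊t / s⌋₊] (y n)) * (Yg X S₁ ψ s T t : ℂ)) =
        (R : ℂ) * ∫ t in (a n)..(a (n + 1)), F' (Q^[⌊t / s⌋₊] (y n)) * (Yg X S₁ ψ s T t : ℂ) := by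
      rw [← intervalIntegral.integral_const_mul]
      refine intervalIntegral.integral_congr fun t _ => ?_
      simp only [hF']
      have : (R : ℂ) ≠ 0 := by exact_mod_cast hR0.ne'
      field_simp
    rw [h7, norm_mul, Complex.norm_real, Real.norm_eq_abs, abs_of_pos hR0]
  simp_rw [hJF]
  rw [← Finset.mul_sum]
  calc _ ≤ R * (ε / R * T) := mul_le_mul_of_nonneg_left main hR0.le
    _ = ε * T := by field_simp

end

end Pool.Agent.H493.EN
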