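import Pool.Agent.H493.EN.Stz

/-!
# The prime side is linear and covariant under shifts
-/

set_option autoImplicit false

open Complex Filter Topology Set MeasureTheory

namespace Pool.Agent.H493.EN

open Pool.Agent.H203.ME

namespace BLIL

theorem FF_lin {ι : Type} [Fintype ι] (F : ι → ℝ → ℝ) (c : ι → ℝ) (hF : ∀ i, C2c (F i)) (ξ : ℝ) :
    FF (fun x => ∑ i, c i * F i x) ξ = ∑ i, (c i : ℂ) * FF (F i) ξ := by
  have h1 : ∀ i, Integrable (fun s : ℝ => (c i : ℂ) *
      ((F i s : ℂ) * cexp (-(((ξ * s : ℝ) : ℂ) * I)))) := fun i =>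
    (VARL.int_mul (hF i).cd.continuous (BBIL.hcs (hF i)) _ (VARL.cont_e ξ)).const_mul _
  have h2 : FF (fun x => ∑ i, c i * F i x) ξ =
      ∫ s : ℝ, ∑ i, (c i : ℂ) * ((F i s : ℂ) * cexp (-(((ξ * s : ℝ) : ℂ) * I))) := by
    unfold FF
    congr 1
    funext s
    push_cast
    rw [Finset.sum_mul]
    exact Finset.sum_congr rfl fun i _ => by ring
  rw [h2, integral_finsetSum _ (fun i _ => h1 i)]
  refine Finset.sum_congr rfl fun i _ => ?_
  rw [integral_const_mul]
  rfl

theorem FF_sh (F : ℝ → ℝ) (a ξ : ℝ) :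
    FF (fun x => F (x - a)) ξ = cexp (-(((ξ * a : ℝ) : ℂ) * I)) * FF F ξ := by
  unfold FF
  rw [← integral_const_mul]
  rw [← integral_sub_right_eq_self (fun s : ℝ => cexp (-(((ξ * a : ℝ) : ℂ) * I)) *
    ((F s : ℂ) * cexp (-(((ξ * s : ℝ) : ℂ) * I)))) a]
  congr 1
  funext s
  have : cexp (-(((ξ * s : ℝ) : ℂ) * I)) =
      cexp (-(((ξ * a : ℝ) : ℂ) * I)) * cexp (-(((ξ * (s - a) : ℝ) : ℂ) * I)) := by
    rw [← Complex.exp_add]
    congr 1
    push_cast
    ring
  rw [this]
  ring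

theorem summ {R : ℝ} (hR : 1 ≤ R) (F : ℝ → ℝ) (t : ℝ) : Summable (fun n : ℕ =>
    ((ArithmeticFunction.vonMangoldt n / Real.sqrt n * cR R (Real.log n) : ℝ) : ℂ) *
      FF F (Real.log n) * ee n t) := by
  refine Summable.of_norm_bounded ((BBIL.coef_summable hR).mul_right (∫ x : ℝ, |F x|))
    fun n => ?_
  rw [norm_mul, norm_mul, BBIL.norm_ee, mul_one, Complex.norm_real, Real.norm_eq_abs]
  exact mul_le_mul_of_nonneg_left (VARL.le_l1 _) (abs_nonneg _)

end BLIL

theorem t_BLI : S_BLI := by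
  refine ⟨?_, ?_⟩
  · intro ι _ F c hF R t hR
    unfold BB
    have h1 : ∀ n : ℕ,
        ((ArithmeticFunction.vonMangoldt n / Real.sqrt n * cR R (Real.log n) : ℝ) : ℂ) *
          FF (fun x => ∑ i, c i * F i x) (Real.log n) * ee n t =
        ∑ i, (c i : ℂ) *
          (((ArithmeticFunction.vonMangoldt n / Real.sqrt n * cR R (Real.log n) : ℝ) : ℂ) *
            FF (F i) (Real.log n) * ee n t) := by
      intro n
      rw [BLIL.FF_lin F c hF, Finset.mul_sum, Finset.sum_mul]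
      exact Finset.sum_congr rfl fun i _ => by ring
    rw [tsum_congr h1, Summable.tsum_finsetSum (fun i _ => (BLIL.summ hR (F i) t).mul_left _),
      Complex.re_sum, Finset.mul_sum]
    refine Finset.sum_congr rfl fun i _ => ?_
    rw [tsum_mul_left, Complex.re_ofReal_mul]
    ring
  · intro F a R t
    unfold BB
    congr 2
    refine tsum_congr fun n => ?_
    rw [BLIL.FF_sh, BBIL.ee_add]
    ring

end Pool.Agent.H493.EN
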