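import Pool.Agent.H493.EN.Stc

set_option autoImplicit false

/-! Characteristic functions of the counts of zeros in windows with sharp ends. -/

open Complex Filter Topology Set MeasureTheory

namespace Pool.Agent.H493.EN

open Pool.Agent.H203.ME

namespace CHFL

lemma amgm {x δ : ℝ} (hδ : 0 < δ) : |x| ≤ δ / 2 + 1 / (2 * δ) * x ^ 2 := by
  have h1 : 0 ≤ (|x| - δ) ^ 2 := sq_nonneg _
  have h2 : |x| ^ 2 = x ^ 2 := sq_abs x
  have h3 : 2 * δ * |x| ≤ x ^ 2 + δ ^ 2 := by nlinarith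
  have h4 : |x| = 1 / (2 * δ) * (2 * δ * |x|) := by field_simp
  have h5 : δ / 2 + 1 / (2 * δ) * x ^ 2 = 1 / (2 * δ) * (x ^ 2 + δ ^ 2) := by field_simp; ring
  rw [h4, h5]
  exact mul_le_mul_of_nonneg_left h3 (by positivity)

lemma key {G A : ℝ → ℝ} {T δ M : ℝ} (hT0 : 0 < T) (hδ : 0 < δ)
    (hGm : AEStronglyMeasurable G (volume.restrict (Ioc T (2 * T))))
    (hGb : ∀ t, T ≤ t → t ≤ 2 * T → |G t| ≤ M) (hA : ContinuousOn A (Icc T (2 * T))) :
    ‖(1 / T : ℂ) * (∫ t in T..(2 * T), cexp (I * (G t : ℂ))) -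
      (1 / T : ℂ) * (∫ t in T..(2 * T), cexp (I * (A t : ℂ)))‖ ≤
      δ / 2 + 1 / (2 * δ) * (1 / T * ∫ t in T..(2 * T), (G t - A t) ^ 2) := by
  have hTle : T ≤ 2 * T := by linarith
  have hAm : AEStronglyMeasurable A (volume.restrict (Ioc T (2 * T))) :=
    (hA.mono Ioc_subset_Icc_self).aestronglyMeasurable measurableSet_Ioc
  obtain ⟨M', hM'⟩ : ∃ M', ∀ t ∈ Icc T (2 * T), |A t| ≤ M' := by
    obtain ⟨M', h⟩ := isCompact_Icc.exists_bound_of_continuousOn hA
    exact ⟨M', fun t ht => by simpa using h t ht⟩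
  have hDm : AEStronglyMeasurable (fun t => G t - A t) (volume.restrict (Ioc T (2 * T))) := hGm.sub hAm
  have hDb : ∀ t ∈ Ioc T (2 * T), |G t - A t| ≤ M + M' := by
    intro t ht
    have h1 := hGb t ht.1.le ht.2
    have h2 := hM' t ⟨ht.1.le, ht.2⟩
    rw [abs_le] at h1 h2 ⊢
    constructor <;> linarith [h1.1, h1.2, h2.1, h2.2]
  have hI2 : IntervalIntegrable (fun t => (G t - A t) ^ 2) volume T (2 * T) := by
    rw [intervalIntegrable_iff_integrableOn_Ioc_of_le hTle]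
    refine Integrable.of_bound (hDm.pow 2) ((M + M') ^ 2) ?_
    rw [ae_restrict_iff' measurableSet_Ioc]
    refine ae_of_all _ fun t ht => ?_
    rw [Real.norm_eq_abs, abs_pow]
    exact pow_le_pow_left₀ (abs_nonneg _) (hDb t ht) 2
  have hIe : ∀ g : ℝ → ℝ, AEStronglyMeasurable g (volume.restrict (Ioc T (2 * T))) →
      IntervalIntegrable (fun t => cexp (I * (g t : ℂ))) volume T (2 * T) := by
    intro g hg
    rw [intervalIntegrable_iff_integrableOn_Ioc_of_le hTle]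
    refine Integrable.of_bound ?_ 1 (ae_of_all _ fun t => ?_)
    · exact (show Continuous fun x : ℝ => cexp (I * (x : ℂ)) by fun_prop).comp_aestronglyMeasurable hg
    · rw [mul_comm]
      exact (Complex.norm_exp_ofReal_mul_I _).le
  rw [← mul_sub, ← intervalIntegral.integral_sub (hIe G hGm) (hIe A hAm), norm_mul]
  have h1 : ‖(1 / T : ℂ)‖ = 1 / T := by
    rw [norm_div, norm_one, Complex.norm_real, Real.norm_eq_abs, abs_of_pos hT0]
  rw [h1]
  have h2 : ‖∫ t in T..(2 * T), (cexp (I * (G t : ℂ)) - cexp (I * (A t : ℂ)))‖ ≤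
      ∫ t in T..(2 * T), (δ / 2 + 1 / (2 * δ) * (G t - A t) ^ 2) := by
    refine intervalIntegral.norm_integral_le_of_norm_le hTle ?_ ?_
    · exact ae_of_all _ fun t _ => (exp_diff _ _).trans (amgm hδ)
    · exact (intervalIntegrable_const).add (hI2.const_mul _)
  have h3 : ∫ t in T..(2 * T), (δ / 2 + 1 / (2 * δ) * (G t - A t) ^ 2) =
      T * (δ / 2) + 1 / (2 * δ) * ∫ t in T..(2 * T), (G t - A t) ^ 2 := by
    rw [intervalIntegral.integral_add intervalIntegrable_const (hI2.const_mul _),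
      intervalIntegral.integral_const, intervalIntegral.integral_const_mul, smul_eq_mul]
    ring
  rw [h3] at h2
  calc 1 / T * ‖∫ t in T..(2 * T), (cexp (I * (G t : ℂ)) - cexp (I * (A t : ℂ)))‖ ≤
      1 / T * (T * (δ / 2) + 1 / (2 * δ) * ∫ t in T..(2 * T), (G t - A t) ^ 2) :=
        mul_le_mul_of_nonneg_left h2 (by positivity)
    _ = _ := by field_simp

end CHFL

open CHFL

theorem t_CHF (hS : S_SCL) (hA : S_ADF) (hC : S_STC) (hM : S_MEF) : S_CHF := by
  intro ι _ a c hc h hh1 hh2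
  obtain ⟨N, hN⟩ := hS h hh1 hh2
  obtain ⟨⟨V, hV, hAdm⟩, hsg⟩ := hA ι a c hc h N hh1 hh2 hN
  obtain ⟨C, hC0, hC⟩ := hC ι a c hc
  obtain ⟨K, hK0, hM⟩ := hM ι a c hc
  -- step one
  have h1 : Tendsto (fun T : ℝ => cexp (-((sg (Ft a c (h T) (h T / 2 ^ N T) (sgm (h T) T)) : ℝ) : ℂ) / 2)) atTop
      (𝓝 (cexp (-((QQ a c / 2 : ℝ) : ℂ) / 2))) := by
    refine (Complex.continuous_exp.tendsto _).comp ?_
    exact (((Complex.continuous_ofReal.tendsto _).comp hsg).neg).div_const 2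
  have h2 : Tendsto (fun T : ℝ => (1 / T : ℂ) *
      (∫ t in T..(2 * T), cexp (I * (XF (Ft a c (h T) (h T / 2 ^ N T) (sgm (h T) T)) T t : ℂ))) -
      cexp (-((sg (Ft a c (h T) (h T / 2 ^ N T) (sgm (h T) T)) : ℝ) : ℂ) / 2)) atTop (𝓝 0) := by
    rw [NormedAddGroup.tendsto_nhds_zero]
    intro ε hε
    obtain ⟨η, T0, hη, -, hT0, hM⟩ := p_MAIN V (ε / 2) hV (by positivity)
    filter_upwards [hAdm η hη, eventually_ge_atTop T0] with T hT1 hT2
    exact (hM T hT2 _ hT1).trans_lt (by linarith)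
  -- positivity of the scale
  have hpos : ∀ᶠ T : ℝ in atTop, 0 < h T := by
    filter_upwards [hh2.eventually_gt_atTop 0, eventually_gt_atTop (1 : ℝ)] with T hT1 hT2
    have := Real.log_pos hT2
    exact (pos_iff_pos_of_mul_pos hT1).2 this
  have hσ : ∀ᶠ T : ℝ in atTop, 0 < sgm (h T) T := hN.s0.eventually_gt_atTop 0
  have hw : ∀ᶠ T : ℝ in atTop, h T / 2 ^ N T ≤ h T := by
    filter_upwards [hpos] with T hT
    exact div_le_self hT.le (one_le_pow₀ (by norm_num))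
  have hD := hC h (fun T => h T / 2 ^ N T) (fun T => sgm (h T) T) hh1 hN.inf hw hσ
  -- the points
  have hpt : ∀ᶠ T : ℝ in atTop, ∀ i, |a i * h T| ≤ 1 / 2 := by
    rw [eventually_all]
    intro i
    have h3 : Tendsto (fun T => |a i * h T|) atTop (𝓝 0) := by
      have := (hh1.const_mul (a i)).abs
      simpa using this
    exact (h3.eventually (gt_mem_nhds (show (0 : ℝ) < 1 / 2 by norm_num))).mono fun T hT => hT.le
  -- step two
  have h3 : Tendsto (fun T : ℝ => (1 / T : ℂ) *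
      (∫ t in T..(2 * T), cexp (I * (XF (F0 a c (h T) (sgm (h T) T)) T t : ℂ))) -
      (1 / T : ℂ) *
      (∫ t in T..(2 * T), cexp (I * (XF (Ft a c (h T) (h T / 2 ^ N T) (sgm (h T) T)) T t : ℂ)))) atTop (𝓝 0) := by
    rw [NormedAddGroup.tendsto_nhds_zero]
    intro ε hε
    have h4 : Tendsto (fun T => C * ((h T / 2 ^ N T * Real.log T) ^ 2 / sgm (h T) T ^ 2)) atTop (𝓝 0) := by
      simpa using hN.sm.const_mul C
    have h5 := h4.eventually (gt_mem_nhds (show (0 : ℝ) < ε ^ 2 / 2 by positivity))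
    filter_upwards [hD, hpos, hσ, hpt, h5, hAdm 1 one_pos, eventually_ge_atTop (100 : ℝ)] with T hT1 hT2 hT3 hT4 hT5
      hT6 hT7
    obtain ⟨hm, hb⟩ := hM (h T) (sgm (h T) T) T hT7 hT2 hT4 hT3
    have h6 := key (by linarith : 0 < T) hε hm hb (XF_contOn hT6.c2 (T := T) (b := 2 * T) (by linarith : (3 : ℝ) ≤ T))
    refine h6.trans_lt ?_
    have h7 : 1 / T * ∫ t in T..(2 * T), (XF (F0 a c (h T) (sgm (h T) T)) T t -
        XF (Ft a c (h T) (h T / 2 ^ N T) (sgm (h T) T)) T t) ^ 2 < ε ^ 2 / 2 := by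
      refine lt_of_le_of_lt ?_ hT5
      have hT0 : 0 < T := by linarith
      calc 1 / T * ∫ t in T..(2 * T), (XF (F0 a c (h T) (sgm (h T) T)) T t -
        XF (Ft a c (h T) (h T / 2 ^ N T) (sgm (h T) T)) T t) ^ 2 ≤
          1 / T * (C * T * (h T / 2 ^ N T * Real.log T) ^ 2 / sgm (h T) T ^ 2) :=
            mul_le_mul_of_nonneg_left hT1 (by positivity)
        _ = _ := by field_simp
    have h8 : 1 / (2 * ε) * (1 / T * ∫ t in T..(2 * T), (XF (F0 a c (h T) (sgm (h T) T)) T t -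
        XF (Ft a c (h T) (h T / 2 ^ N T) (sgm (h T) T)) T t) ^ 2) < 1 / (2 * ε) * (ε ^ 2 / 2) :=
      mul_lt_mul_of_pos_left h7 (by positivity)
    have h9 : 1 / (2 * ε) * (ε ^ 2 / 2) = ε / 4 := by field_simp; norm_num
    rw [h9] at h8
    linarith
  have h10 := (h3.add h2).add h1
  rw [zero_add, zero_add] at h10
  exact h10.congr fun T => by ring

end Pool.Agent.H493.EN
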