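import Pool.Agent.H493.EN.Stc

set_option autoImplicit false

/-! (EDG) short pieces of the mean square of the prime side (by helper722). -/

open Complex Filter Topology Set MeasureTheory

namespace Pool.Agent.H493.EN

open Pool.Agent.H203.ME

namespace EDGL

/-- the square of `B` on a short interval -/
lemma sq_short (B Y : ℝ → ℝ) (hB : Continuous B) (hY : Continuous Y) {T p M : ℝ}
    (h1 : T ≤ p) (h2 : p + 1 ≤ 2 * T) (hM : ∀ t, Y t ^ 2 ≤ M) :
    ∫ t in p..(p + 1), B t ^ 2 ≤ 2 * (∫ t in T..(2 * T), (B t - Y t) ^ 2) + 2 * M := by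
  have i1 : IntervalIntegrable (fun t => B t ^ 2) volume p (p + 1) :=
    Continuous.intervalIntegrable (by fun_prop) _ _
  have i2 : IntervalIntegrable (fun t => 2 * (B t - Y t) ^ 2) volume p (p + 1) :=
    Continuous.intervalIntegrable (by fun_prop) _ _
  have i3 : IntervalIntegrable (fun t => 2 * Y t ^ 2) volume p (p + 1) :=
    Continuous.intervalIntegrable (by fun_prop) _ _
  have h3 : ∫ t in p..(p + 1), B t ^ 2 ≤ ∫ t in p..(p + 1), (2 * (B t - Y t) ^ 2 + 2 * Y t ^ 2) := by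
    refine intervalIntegral.integral_mono_on (by linarith) i1 (i2.add i3) (fun t _ => ?_)
    nlinarith [sq_nonneg (B t - 2 * Y t)]
  rw [intervalIntegral.integral_add i2 i3, intervalIntegral.integral_const_mul,
    intervalIntegral.integral_const_mul] at h3
  have h4 : ∫ t in p..(p + 1), (B t - Y t) ^ 2 ≤ ∫ t in T..(2 * T), (B t - Y t) ^ 2 :=
    intervalIntegral.integral_mono_interval h1 (by linarith) h2
      (Eventually.of_forall fun t => sq_nonneg _)
      (Continuous.intervalIntegrable (by fun_prop) _ _)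
  have h5 : ∫ t in p..(p + 1), Y t ^ 2 ≤ M := by
    calc ∫ t in p..(p + 1), Y t ^ 2 ≤ ∫ _ in p..(p + 1), M :=
          intervalIntegral.integral_mono_on (by linarith)
            (Continuous.intervalIntegrable (by fun_prop) _ _) (by simp) (fun t _ => hM t)
      _ = M := by
          rw [intervalIntegral.integral_const, smul_eq_mul]
          ring
  linarith

end EDGL

theorem t_EDG : S_EDG := by
  obtain ⟨C, hC, hP⟩ := t_PRM t_VAR
  intro V ε hV hε
  obtain ⟨ε1, hε1⟩ : ∃ ε1, ε1 = min (1 / 8) (ε / (8 * C * (V + 1))) := ⟨_, rfl⟩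
  have hε10 : 0 < ε1 := by rw [hε1]; positivity
  have hε18 : ε1 ≤ 1 / 8 := by rw [hε1]; exact min_le_left _ _
  have hε1d : ε1 ≤ ε / (8 * C * (V + 1)) := by rw [hε1]; exact min_le_right _ _
  obtain ⟨TP, hTP, hP⟩ := hP ε1 hε10 (by linarith)
  obtain ⟨η, hη⟩ : ∃ η, η = min 1 (ε * ε1 ^ 2 / (8 * C)) := ⟨_, rfl⟩
  have hη0 : 0 < η := by rw [hη]; positivity
  have hη1 : η ≤ 1 := by rw [hη]; exact min_le_left _ _
  have hηd : η ≤ ε * ε1 ^ 2 / (8 * C) := by rw [hη]; exact min_le_right _ _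
  refine ⟨η, max TP (max 64 (64 / ε ^ 2)), hη0, hη1, ?_, fun T hT F hF p hp1 hp2 => ?_⟩
  · have h1 : (64 : ℝ) ≤ max TP (max 64 (64 / ε ^ 2)) :=
      (le_max_left _ _).trans (le_max_right _ _)
    linarith
  have hTP' : TP ≤ T := (le_max_left _ _).trans hT
  have hT10 : 64 ≤ T := ((le_max_left _ _).trans (le_max_right _ _)).trans hT
  have hT64 : 64 / ε ^ 2 ≤ T := ((le_max_right _ _).trans (le_max_right _ _)).trans hT
  have hT0 : 0 < T := by linarith
  have hP := hP T hTP' η V F hη0 hη1 hV.le hF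
  have hN : ((⌊T ^ ε1⌋₊ : ℕ) : ℝ) ^ 2 ≤ Real.sqrt T := by
    have h1 : ((⌊T ^ ε1⌋₊ : ℕ) : ℝ) ≤ T ^ (1 / 4 : ℝ) := (Nat.floor_le (by positivity)).trans
      (Real.rpow_le_rpow_of_exponent_le (by linarith) (by linarith))
    calc ((⌊T ^ ε1⌋₊ : ℕ) : ℝ) ^ 2 ≤ (T ^ (1 / 4 : ℝ)) ^ 2 :=
          pow_le_pow_left₀ (Nat.cast_nonneg _) h1 2
      _ = Real.sqrt T := by
          rw [← Real.rpow_natCast, ← Real.rpow_mul hT0.le, Real.sqrt_eq_rpow]
          norm_num
  have hsq : 8 / ε ≤ Real.sqrt T := by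
    apply Real.le_sqrt_of_sq_le
    rw [div_pow]
    norm_num
    exact hT64
  have hsT : 2 * Real.sqrt T ≤ ε / 4 * T := by
    have h1 : Real.sqrt T * Real.sqrt T = T := Real.mul_self_sqrt hT0.le
    have h2 : 8 ≤ ε * Real.sqrt T := by
      rw [div_le_iff₀ hε] at hsq
      linarith
    have h3 : 8 * Real.sqrt T ≤ ε * Real.sqrt T * Real.sqrt T :=
      mul_le_mul_of_nonneg_right h2 (Real.sqrt_nonneg T)
    rw [mul_assoc, h1] at h3
    linarith
  have hL4 : 4 ≤ Real.log T := by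
    rw [Real.le_log_iff_exp_le hT0]
    have h1 : Real.exp 4 = Real.exp 1 ^ 4 := by
      rw [← Real.exp_nat_mul]
      norm_num
    have h2 : Real.exp 1 ^ 4 ≤ (2.7182818286 : ℝ) ^ 4 :=
      pow_le_pow_left₀ (Real.exp_pos 1).le Real.exp_one_lt_d9.le 4
    have h3 : (2.7182818286 : ℝ) ^ 4 ≤ 64 := by norm_num
    rw [h1]
    exact (h2.trans h3).trans hT10
  have n1 : 2 * (C * T * (η ^ 2 / ε1 ^ 2)) ≤ ε / 4 * T := by
    have h1 : η ^ 2 ≤ η := by nlinarith
    have h2 : η ^ 2 / ε1 ^ 2 ≤ ε / (8 * C) := by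
      rw [div_le_iff₀ (by positivity)]
      calc η ^ 2 ≤ η := h1
        _ ≤ ε * ε1 ^ 2 / (8 * C) := hηd
        _ = ε / (8 * C) * ε1 ^ 2 := by ring
    calc 2 * (C * T * (η ^ 2 / ε1 ^ 2)) ≤ 2 * (C * T * (ε / (8 * C))) := by gcongr
      _ = ε / 4 * T := by field_simp; ring
  have n2 : 2 * (C * T * (ε1 ^ 4 * (V + 1))) ≤ ε / 4 * T := by
    have h5 : ε1 ^ 4 ≤ ε1 := by
      have : ε1 ^ 3 ≤ 1 := pow_le_one₀ hε10.le (by linarith)
      calc ε1 ^ 4 = ε1 ^ 3 * ε1 := by ring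
        _ ≤ 1 * ε1 := by gcongr
        _ = ε1 := one_mul _
    calc 2 * (C * T * (ε1 ^ 4 * (V + 1))) ≤
        2 * (C * T * (ε / (8 * C * (V + 1)) * (V + 1))) := by
          have := h5.trans hε1d
          gcongr
      _ = ε / 4 * T := by field_simp; ring
  have hBc := t_BBC F hF.c2 (Real.log T / 4) (by linarith)
  have hYc := Y1_cont F ⌊T ^ ε1⌋₊
  have hs := EDGL.sq_short (BB F (Real.log T / 4)) (Y1 F ⌊T ^ ε1⌋₊) hBc hYc
    (M := ((⌊T ^ ε1⌋₊ : ℕ) : ℝ) ^ 2) hp1 hp2 (fun t => by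
      rw [← sq_abs]
      exact pow_le_pow_left₀ (abs_nonneg _) (BBVL.Y1_le F _ t (hF.l1.trans hη1)) 2)
  have n3 : C * T * (η ^ 2 / ε1 ^ 2 + ε1 ^ 4 * (V + 1)) =
      C * T * (η ^ 2 / ε1 ^ 2) + C * T * (ε1 ^ 4 * (V + 1)) := by ring
  rw [n3] at hP
  have hεT : 0 < ε * T := by positivity
  linarith

end Pool.Agent.H493.EN
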