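import Pool.Agent.H493.EN.Stw

set_option autoImplicit false

/-! Fourier transform of the smoothed steps (S_FTE). -/

open Complex Filter Topology Set MeasureTheory
open scoped FourierTransform

namespace Pool.Agent.H493.EN

namespace FTEL

lemma ftw_eq (g : ℝ → ℝ) (u : ℝ) :
    ftw g u = 𝓕 (fun x : ℝ => (g x : ℂ)) (u / (2 * Real.pi)) := by
  rw [Real.fourier_real_eq_integral_exp_smul]
  unfold ftw
  refine integral_congr_ae (Eventually.of_forall fun x => ?_)
  show (g x : ℂ) * cexp (-(((u * x : ℝ) : ℂ) * I)) =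
    cexp (((-2 * Real.pi * x * (u / (2 * Real.pi)) : ℝ) : ℂ) * I) • (g x : ℂ)
  have h1 : -2 * Real.pi * x * (u / (2 * Real.pi)) = -(u * x) := by
    have := Real.pi_pos.ne'
    field_simp
  rw [h1, smul_eq_mul, mul_comm, ofReal_neg, neg_mul]

lemma integ {g : ℝ → ℝ} (hg : Continuous g) (hc : HasCompactSupport g) :
    Integrable (fun x : ℝ => (g x : ℂ)) :=
  (hg.integrable_of_hasCompactSupport hc).ofReal

lemma ftw_deriv {g : ℝ → ℝ} (hg : ContDiff ℝ 1 g) (hc : HasCompactSupport g) (u : ℝ) :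
    ftw (deriv g) u = ((u : ℂ) * I) * ftw g u := by
  have hd : Differentiable ℝ g := hg.differentiable (by norm_num)
  have h1 : ∀ x, HasDerivAt (fun x : ℝ => (g x : ℂ)) ((deriv g x : ℝ) : ℂ) x := fun x =>
    (hd x).hasDerivAt.ofReal_comp
  have h2 : deriv (fun x : ℝ => (g x : ℂ)) = fun x : ℝ => ((deriv g x : ℝ) : ℂ) :=
    funext fun x => (h1 x).deriv
  have h3 : Integrable (deriv (fun x : ℝ => (g x : ℂ))) := by
    rw [h2]
    exact integ (hg.continuous_deriv (by norm_num)) hc.deriv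
  have h4 := Real.fourier_deriv (integ hg.continuous hc) (fun x => (h1 x).differentiableAt) h3
  rw [ftw_eq, ftw_eq, ← h2, h4]
  show (2 * (Real.pi : ℂ) * I * ((u / (2 * Real.pi) : ℝ) : ℂ)) •
    𝓕 (fun x : ℝ => (g x : ℂ)) (u / (2 * Real.pi)) = _
  rw [smul_eq_mul]
  congr 1
  have := Real.pi_pos.ne'
  have h5 : (Real.pi : ℂ) ≠ 0 := by exact_mod_cast this
  push_cast
  field_simp

lemma ftw_hasDeriv {g : ℝ → ℝ} (hg : Continuous g) (hc : HasCompactSupport g) (u : ℝ) :
    HasDerivAt (ftw g) (-I * ftw (fun x => x * g x) u) u := by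
  have h0 : HasCompactSupport (fun x => x * g x) := hc.mul_left
  have h0c : Continuous (fun x => x * g x) := continuous_id.mul hg
  have h1 : Integrable (fun x : ℝ => x • ((g x : ℝ) : ℂ)) := by
    have h2 : (fun x : ℝ => x • ((g x : ℝ) : ℂ)) = fun x : ℝ => ((x * g x : ℝ) : ℂ) := by
      funext x
      rw [Complex.real_smul, ofReal_mul]
    rw [h2]
    exact integ h0c h0
  have h3 := Real.hasDerivAt_fourier (integ hg hc) h1 (u / (2 * Real.pi))
  have h4 : HasDerivAt (fun u : ℝ => u / (2 * Real.pi)) (1 / (2 * Real.pi)) u :=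
    (hasDerivAt_id u).div_const _
  have h5 := h3.scomp u h4
  have h6 : ftw g = (𝓕 (fun x : ℝ => (g x : ℂ))) ∘ (fun u : ℝ => u / (2 * Real.pi)) :=
    funext fun u => ftw_eq g u
  rw [h6]
  have h7 : -I * ftw (fun x => x * g x) u = (1 / (2 * Real.pi)) •
      𝓕 (fun x : ℝ => (-2 * Real.pi * I * x) • ((g x : ℝ) : ℂ)) (u / (2 * Real.pi)) := by
    have h8 : (fun x : ℝ => (-2 * Real.pi * I * x) • ((g x : ℝ) : ℂ)) =
        fun x : ℝ => (-2 * Real.pi * I) * ((x * g x : ℝ) : ℂ) := by
      funext x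
      rw [smul_eq_mul, ofReal_mul]
      ring
    rw [h8, Real.fourier_real_eq_integral_exp_smul, ftw_eq,
      Real.fourier_real_eq_integral_exp_smul]
    have h9 : ∀ x : ℝ, cexp (((-2 * Real.pi * x * (u / (2 * Real.pi)) : ℝ) : ℂ) * I) •
        ((-2 * Real.pi * I) * ((x * g x : ℝ) : ℂ)) = (-2 * Real.pi * I) *
        (cexp (((-2 * Real.pi * x * (u / (2 * Real.pi)) : ℝ) : ℂ) * I) • ((x * g x : ℝ) : ℂ)) := by
      intro x
      rw [smul_eq_mul, smul_eq_mul]
      ring
    simp_rw [h9]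
    rw [integral_const_mul, Complex.real_smul]
    obtain ⟨E, hE⟩ : ∃ E : ℂ, E = ∫ v : ℝ, cexp (((-2 * Real.pi * v * (u / (2 * Real.pi)) : ℝ) : ℂ)
      * I) • ((v * g v : ℝ) : ℂ) := ⟨_, rfl⟩
    rw [← hE]
    have h10 : (Real.pi : ℂ) ≠ 0 := by exact_mod_cast Real.pi_pos.ne'
    push_cast
    field_simp
  rw [h7]
  exact h5

lemma ftw_norm (g : ℝ → ℝ) (u : ℝ) : ‖ftw g u‖ ≤ ∫ x, |g x| := by
  unfold ftw
  refine (norm_integral_le_integral_norm _).trans (le_of_eq ?_)
  refine integral_congr_ae (Eventually.of_forall fun x => ?_)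
  show ‖(g x : ℂ) * cexp (-(((u * x : ℝ) : ℂ) * I))‖ = |g x|
  rw [norm_mul, norm_real, Real.norm_eq_abs]
  have : -(((u * x : ℝ) : ℂ) * I) = ((-(u * x) : ℝ) : ℂ) * I := by
    push_cast
    ring
  rw [this, norm_exp_ofReal_mul_I, mul_one]

lemma ftw_decay {g : ℝ → ℝ} (hg : ContDiff ℝ 2 g) (hc : HasCompactSupport g) (u : ℝ) :
    ‖ftw g u‖ ≤ ((∫ x, |g x|) + ∫ x, |deriv (deriv g) x|) / (1 + u ^ 2) := by
  have h1 := ftw_norm g u
  have hg1 : ContDiff ℝ 1 (deriv g) := by
    have h2 : ContDiff ℝ (1 + 1) g := hg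
    exact (contDiff_succ_iff_deriv.1 h2).2.2
  have h2 : ftw (deriv (deriv g)) u = ((u : ℂ) * I) * (((u : ℂ) * I) * ftw g u) := by
    rw [ftw_deriv hg1 hc.deriv, ftw_deriv (hg.of_le (by norm_num)) hc]
  have h3 := ftw_norm (deriv (deriv g)) u
  rw [h2] at h3
  simp only [norm_mul, norm_I, mul_one, norm_real, Real.norm_eq_abs] at h3
  rw [← mul_assoc, abs_mul_abs_self] at h3
  rw [le_div_iff₀ (by positivity)]
  nlinarith

/-- the derivative of the smooth step -/
noncomputable def pp : ℝ → ℝ := deriv Real.smoothTransition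

lemma pp_smooth : ContDiff ℝ 2 pp := by
  have h : ContDiff ℝ (2 + 1) Real.smoothTransition := by
    have h3 : ContDiff ℝ ((3 : ℕ) : WithTop ℕ∞) Real.smoothTransition :=
      Real.smoothTransition.contDiff (n := ((3 : ℕ) : ℕ∞))
    exact h3.of_le (by norm_num)
  exact (contDiff_succ_iff_deriv.1 h).2.2

lemma st_diff : Differentiable ℝ Real.smoothTransition :=
  (Real.smoothTransition.contDiff (n := 1)).differentiable (by norm_num)

lemma pp_zero {x : ℝ} (hx : x ∉ Icc (0 : ℝ) 1) : pp x = 0 := by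
  have h1 : x < 0 ∨ 1 < x := by
    by_contra h
    push Not at h
    exact hx ⟨h.1, h.2⟩
  rcases h1 with h | h
  · have h2 : Real.smoothTransition =ᶠ[𝓝 x] fun _ => 0 := by
      filter_upwards [gt_mem_nhds h] with y hy
      exact Real.smoothTransition.zero_of_nonpos hy.le
    show deriv Real.smoothTransition x = 0
    rw [h2.deriv_eq, deriv_const]
  · have h2 : Real.smoothTransition =ᶠ[𝓝 x] fun _ => 1 := by
      filter_upwards [lt_mem_nhds h] with y hy
      exact Real.smoothTransition.one_of_one_le hy.le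
    show deriv Real.smoothTransition x = 0
    rw [h2.deriv_eq, deriv_const]

lemma pp_supp : HasCompactSupport pp :=
  HasCompactSupport.intro isCompact_Icc fun _ hx => pp_zero hx

lemma pp_nonneg (x : ℝ) : 0 ≤ pp x := Real.smoothTransition.monotone.deriv_nonneg

lemma pp_cont : Continuous pp := pp_smooth.continuous

lemma pp_int : Integrable pp := pp_cont.integrable_of_hasCompactSupport pp_supp

lemma pp_integral : ∫ x, pp x = 1 := by
  have h1 : ∫ x, pp x = ∫ x in Icc (0 : ℝ) 1, pp x :=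
    (setIntegral_eq_integral_of_forall_compl_eq_zero fun x hx => pp_zero hx).symm
  rw [h1, integral_Icc_eq_integral_Ioc, ← intervalIntegral.integral_of_le zero_le_one]
  have h2 : ∫ x in (0 : ℝ)..1, pp x = Real.smoothTransition 1 - Real.smoothTransition 0 :=
    intervalIntegral.integral_deriv_eq_sub (fun x _ => st_diff x)
      (pp_cont.intervalIntegrable _ _)
  rw [h2, Real.smoothTransition.one, Real.smoothTransition.zero, sub_zero]

lemma pp_abs : ∫ x, |pp x| = 1 := by
  rw [← pp_integral]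
  refine integral_congr_ae (Eventually.of_forall fun x => ?_)
  exact abs_of_nonneg (pp_nonneg x)

lemma pp_sub (u : ℝ) : ‖ftw pp u - 1‖ ≤ |u| := by
  have hi : Integrable (fun x : ℝ => (pp x : ℂ) * cexp (-(((u * x : ℝ) : ℂ) * I))) := by
    have h1 : Continuous (fun x : ℝ => (pp x : ℂ) * cexp (-(((u * x : ℝ) : ℂ) * I))) := by
      have := pp_cont
      fun_prop
    refine h1.integrable_of_hasCompactSupport (HasCompactSupport.intro isCompact_Icc
      (K := Icc (0 : ℝ) 1) fun x hx => ?_)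
    rw [pp_zero hx, ofReal_zero, zero_mul]
  have hi2 : Integrable (fun x : ℝ => (pp x : ℂ)) := pp_int.ofReal
  have h1 : (1 : ℂ) = ∫ x : ℝ, (pp x : ℂ) := by
    have h0 : ∫ x : ℝ, (pp x : ℂ) = ((∫ x, pp x : ℝ) : ℂ) := integral_ofReal
    rw [h0, pp_integral, ofReal_one]
  have h2 : ftw pp u - 1 = ∫ x, ((pp x : ℂ) * cexp (-(((u * x : ℝ) : ℂ) * I)) - (pp x : ℂ)) := by
    rw [integral_sub hi hi2, ← h1]
    rfl
  rw [h2]
  have h3 : |u| = ∫ x, pp x * |u| := by
    rw [integral_mul_const, pp_integral, one_mul]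
  rw [h3]
  refine norm_integral_le_of_norm_le (pp_int.mul_const _) (Eventually.of_forall fun x => ?_)
  have h4 : (pp x : ℂ) * cexp (-(((u * x : ℝ) : ℂ) * I)) - (pp x : ℂ) =
      (pp x : ℂ) * (cexp (I * ((-(u * x) : ℝ) : ℂ)) - 1) := by
    have : -(((u * x : ℝ) : ℂ) * I) = I * ((-(u * x) : ℝ) : ℂ) := by
      push_cast
      ring
    rw [this]
    ring
  rw [h4, norm_mul, norm_real, Real.norm_eq_abs, abs_of_nonneg (pp_nonneg x)]
  by_cases hx : x ∈ Icc (0 : ℝ) 1
  · refine mul_le_mul_of_nonneg_left ?_ (pp_nonneg x)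
    refine (Real.norm_exp_I_mul_ofReal_sub_one_le).trans ?_
    rw [norm_neg, Real.norm_eq_abs, abs_mul]
    have h5 : |x| ≤ 1 := by
      rw [abs_of_nonneg hx.1]
      exact hx.2
    calc |u| * |x| ≤ |u| * 1 := mul_le_mul_of_nonneg_left h5 (abs_nonneg u)
      _ = |u| := mul_one _
  · rw [pp_zero hx, zero_mul, zero_mul]

lemma ftw_scale (g : ℝ → ℝ) (b w ξ : ℝ) (hw : 0 < w) :
    ftw (fun x => g ((x - b) / w)) ξ =
      (w : ℂ) * (cexp (-(((ξ * b : ℝ) : ℂ) * I)) * ftw g (w * ξ)) := by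
  unfold ftw
  let h : ℝ → ℂ := fun y => (g y : ℂ) * cexp (-(((ξ * (w * y + b) : ℝ) : ℂ) * I))
  have h1 : ∀ x : ℝ, (g ((x - b) / w) : ℂ) * cexp (-(((ξ * x : ℝ) : ℂ) * I)) =
      h ((x - b) / w) := by
    intro x
    show _ = (g ((x - b) / w) : ℂ) * cexp (-(((ξ * (w * ((x - b) / w) + b) : ℝ) : ℂ) * I))
    have : w * ((x - b) / w) + b = x := by
      field_simp
      ring
    rw [this]
  simp_rw [h1]
  have h2 : ∫ x : ℝ, h ((x - b) / w) = ∫ x : ℝ, h (x / w) :=
    integral_sub_right_eq_self (μ := volume) (fun x : ℝ => h (x / w)) b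
  rw [h2, Measure.integral_comp_div h w, abs_of_pos hw, Complex.real_smul]
  refine congrArg (fun z : ℂ => (w : ℂ) * z) ?_
  rw [← integral_const_mul]
  refine integral_congr_ae (Eventually.of_forall fun y => ?_)
  show (g y : ℂ) * cexp (-(((ξ * (w * y + b) : ℝ) : ℂ) * I)) =
    cexp (-(((ξ * b : ℝ) : ℂ) * I)) * ((g y : ℂ) * cexp (-(((w * ξ * y : ℝ) : ℂ) * I)))
  have : -(((ξ * (w * y + b) : ℝ) : ℂ) * I) =
      -(((ξ * b : ℝ) : ℂ) * I) + -(((w * ξ * y : ℝ) : ℂ) * I) := by
    push_cast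
    ring
  rw [this, Complex.exp_add]
  ring

lemma Ft_supp {ι : Type} [Fintype ι] (a c : ι → ℝ) (s w σ : ℝ) (hc : ∑ i, c i = 0)
    (hw : 0 < w) : HasCompactSupport (Ft a c s w σ) := by
  set R : ℝ := (∑ i, |a i * s|) + w with hR
  have hai : ∀ i, |a i * s| ≤ ∑ i, |a i * s| := fun i =>
    Finset.single_le_sum (f := fun i => |a i * s|) (fun _ _ => abs_nonneg _) (Finset.mem_univ i)
  refine HasCompactSupport.intro (isCompact_Icc (a := -R) (b := R)) fun x hx => ?_
  have h1 : x < -R ∨ R < x := by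
    by_contra h
    push Not at h
    exact hx ⟨h.1, h.2⟩
  unfold Ft
  rcases h1 with h | h
  · have h2 : ∀ i, c i * Real.smoothTransition ((x - a i * s) / w) = 0 := by
      intro i
      rw [Real.smoothTransition.zero_of_nonpos, mul_zero]
      have h3 := hai i
      have h4 := neg_abs_le (a i * s)
      exact div_nonpos_of_nonpos_of_nonneg (by linarith) hw.le
    simp only [h2, Finset.sum_const_zero, zero_div]
  · have h2 : ∀ i, c i * Real.smoothTransition ((x - a i * s) / w) = c i := by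
      intro i
      rw [Real.smoothTransition.one_of_one_le, mul_one]
      have h3 := hai i
      have h4 := le_abs_self (a i * s)
      rw [le_div_iff₀ hw]
      linarith
    simp only [h2, hc, zero_div]

lemma Ft_deriv {ι : Type} [Fintype ι] (a c : ι → ℝ) (s w σ : ℝ) (x : ℝ) :
    HasDerivAt (Ft a c s w σ) ((∑ i, c i * (pp ((x - a i * s) / w) * (1 / w))) / σ) x := by
  have h1 : ∀ i, HasDerivAt (fun x => c i * Real.smoothTransition ((x - a i * s) / w))
      (c i * (pp ((x - a i * s) / w) * (1 / w))) x := by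
    intro i
    have h2 : HasDerivAt (fun x : ℝ => (x - a i * s) / w) (1 / w) x :=
      ((hasDerivAt_id x).sub_const _).div_const _
    have h3 : HasDerivAt Real.smoothTransition (pp ((x - a i * s) / w)) ((x - a i * s) / w) :=
      (st_diff _).hasDerivAt
    exact (h3.comp x h2).const_mul _
  exact (HasDerivAt.fun_sum fun i _ => h1 i).div_const σ

lemma Ft_smooth {ι : Type} [Fintype ι] (a c : ι → ℝ) (s w σ : ℝ) :
    ContDiff ℝ 1 (Ft a c s w σ) := by
  unfold Ft
  refine ContDiff.div_const (ContDiff.sum fun i _ => contDiff_const.mul ?_) σ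
  exact (Real.smoothTransition.contDiff (n := 1)).comp
    ((contDiff_id.sub contDiff_const).div_const w)

end FTEL

open FTEL in
theorem t_FTE : S_FTE := by
  have hxs : ContDiff ℝ 2 (fun x : ℝ => x * pp x) := contDiff_id.mul pp_smooth
  have hxc : HasCompactSupport (fun x : ℝ => x * pp x) := pp_supp.mul_left
  have hder : ∀ u, HasDerivAt (ftw pp) (-I * ftw (fun x => x * pp x) u) u := fun u =>
    ftw_hasDeriv pp_cont pp_supp u
  have hderiv : deriv (ftw pp) = fun u => -I * ftw (fun x => x * pp x) u :=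
    funext fun u => (hder u).deriv
  set C1 : ℝ := (∫ x, |pp x|) + ∫ x, |deriv (deriv pp) x| with hC1
  set C2 : ℝ := (∫ x : ℝ, |x * pp x|) + ∫ x, |deriv (deriv fun x : ℝ => x * pp x) x| with hC2
  have hC1n : 0 ≤ C1 := add_nonneg (integral_nonneg fun _ => abs_nonneg _)
    (integral_nonneg fun _ => abs_nonneg _)
  have hC2n : 0 ≤ C2 := add_nonneg (integral_nonneg fun _ => abs_nonneg _)
    (integral_nonneg fun _ => abs_nonneg _)
  refine ⟨ftw pp, C1 + C2 + 1, by positivity, fun u => (hder u).differentiableAt, ?_, ?_, pp_sub,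
    ?_, ?_, ?_⟩
  · rw [hderiv]
    have h1 : Differentiable ℝ (ftw fun x => x * pp x) := fun u =>
      (ftw_hasDeriv hxs.continuous hxc u).differentiableAt
    exact continuous_const.mul h1.continuous
  · intro u
    exact (ftw_norm pp u).trans (le_of_eq pp_abs)
  · intro u
    refine (ftw_decay pp_smooth pp_supp u).trans ?_
    exact div_le_div_of_nonneg_right (by linarith) (by positivity)
  · intro u
    rw [hderiv]
    show ‖-I * ftw (fun x => x * pp x) u‖ ≤ _
    rw [norm_mul, norm_neg, norm_I, one_mul]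
    refine (ftw_decay hxs hxc u).trans ?_
    exact div_le_div_of_nonneg_right (by linarith) (by positivity)
  · intro ι _ a c s w σ hc hw hσ ξ hξ
    have h1 := ftw_deriv (Ft_smooth a c s w σ) (Ft_supp a c s w σ hc hw) ξ
    have h2 : deriv (Ft a c s w σ) = fun x =>
        (∑ i, c i * (pp ((x - a i * s) / w) * (1 / w))) / σ :=
      funext fun x => (Ft_deriv a c s w σ x).deriv
    have h3 : ftw (deriv (Ft a c s w σ)) ξ =
        (∑ i, (c i : ℂ) * cexp (-(((ξ * (a i * s) : ℝ) : ℂ) * I))) * ftw pp (w * ξ) / σ := by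
      rw [h2]
      have h4 : ∀ i, Integrable (fun x : ℝ => (pp ((x - a i * s) / w) : ℂ) *
          cexp (-(((ξ * x : ℝ) : ℂ) * I))) := by
        intro i
        have h5 : Continuous (fun x : ℝ => (pp ((x - a i * s) / w) : ℂ) *
          cexp (-(((ξ * x : ℝ) : ℂ) * I))) := by
          have := pp_cont
          fun_prop
        refine h5.integrable_of_hasCompactSupport (HasCompactSupport.intro
          (isCompact_Icc (a := a i * s) (b := a i * s + w)) fun x hx => ?_)
        rw [pp_zero, ofReal_zero, zero_mul]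
        rintro ⟨h6, h7⟩
        rw [le_div_iff₀ hw] at h6
        rw [div_le_iff₀ hw] at h7
        exact hx ⟨by linarith, by linarith⟩
      have h5 : ftw (fun x => (∑ i, c i * (pp ((x - a i * s) / w) * (1 / w))) / σ) ξ =
          ∑ i, ((c i : ℂ) / (w * σ)) * ftw (fun x => pp ((x - a i * s) / w)) ξ := by
        unfold ftw
        simp_rw [← integral_const_mul]
        rw [← integral_finsetSum _ fun i _ => (h4 i).const_mul _]
        refine integral_congr_ae (Eventually.of_forall fun x => ?_)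
        show (((∑ i, c i * (pp ((x - a i * s) / w) * (1 / w))) / σ : ℝ) : ℂ) *
          cexp (-(((ξ * x : ℝ) : ℂ) * I)) = ∑ i, ((c i : ℂ) / (w * σ)) *
            ((pp ((x - a i * s) / w) : ℂ) * cexp (-(((ξ * x : ℝ) : ℂ) * I)))
        push_cast
        rw [Finset.sum_div, Finset.sum_mul]
        refine Finset.sum_congr rfl fun i _ => ?_
        have h8 : (w : ℂ) ≠ 0 := by exact_mod_cast hw.ne'
        have h9 : (σ : ℂ) ≠ 0 := by exact_mod_cast hσ.ne'
        field_simp
      rw [h5, Finset.sum_mul, Finset.sum_div]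
      refine Finset.sum_congr rfl fun i _ => ?_
      rw [ftw_scale pp (a i * s) w ξ hw]
      have h8 : (w : ℂ) ≠ 0 := by exact_mod_cast hw.ne'
      have h9 : (σ : ℂ) ≠ 0 := by exact_mod_cast hσ.ne'
      field_simp
    rw [h3] at h1
    have h8 : (ξ : ℂ) ≠ 0 := by exact_mod_cast hξ
    have h9 : (σ : ℂ) ≠ 0 := by exact_mod_cast hσ.ne'
    have h10 : (((σ * ξ : ℝ) : ℂ)) * I ≠ 0 := by
      rw [ofReal_mul]
      exact mul_ne_zero (mul_ne_zero h9 h8) I_ne_zero
    rw [eq_div_iff h10]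
    have h11 : (∑ i, (c i : ℂ) * cexp (-(((ξ * (a i * s) : ℝ) : ℂ) * I))) * ftw pp (w * ξ) =
        σ * (((ξ : ℂ) * I) * ftw (Ft a c s w σ) ξ) := by
      rw [← h1]
      generalize (∑ i, (c i : ℂ) * cexp (-(((ξ * (a i * s) : ℝ) : ℂ) * I))) * ftw pp (w * ξ) = X
      field_simp
    rw [h11, ofReal_mul]
    ring

end Pool.Agent.H493.EN
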