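import Pool.Agent.H493.EN.Stz

set_option autoImplicit false

/-! Sharp and smoothed steps are close in mean square. -/

open Complex Filter Topology Set MeasureTheory

namespace Pool.Agent.H493.EN

open Pool.Agent.H203.ME

namespace STCL

/-- the zeros of a window, as a real sum -/
lemma XF_eq' {F : ℝ → ℝ} (hF : ∀ x : ℝ, 1 ≤ |x| → F x = 0) {U1 U2 T t : ℝ} (hU : 1 ≤ U1) (h1 : U1 + 1 ≤ t)
    (h2 : t ≤ U2 - 1) :
    XF F T t = (∑ s ∈ H370.Zf riemannZeta U1 U2, (mz s : ℝ) * F (s.im - t)) -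
      Real.log T / (2 * Real.pi) * ∫ x : ℝ, F x := by
  unfold XF
  congr 1
  have hZ : ∀ s : ℂ, s ∈ H370.Zf riemannZeta U1 U2 ↔ s ∈ H370.zset riemannZeta U1 U2 := fun s =>
    H370.mem_Zf H370.good_zeta hU
  rw [finsum_mem_eq_sum_of_inter_support_eq]
  ext s
  simp only [mem_inter_iff, Function.mem_support, SetLike.mem_coe, hZ]
  constructor
  · rintro ⟨⟨ha, hb, hc⟩, hd⟩
    refine ⟨⟨hb, hc, ?_, ?_, ha⟩, hd⟩
    · by_contra h
      push Not at h
      exact hd (by rw [hF _ (by rw [le_abs]; right; linarith), mul_zero])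
    · by_contra h
      push Not at h
      exact hd (by rw [hF _ (by rw [le_abs]; left; linarith), mul_zero])
  · rintro ⟨⟨ha, hb, hc, hd, he⟩, hf⟩
    exact ⟨⟨he, ha, hb⟩, hf⟩

/-- the cutoff -/
noncomputable def be (x : ℝ) : ℝ := LLNL.bu (-1) 2 1 x

lemma be_nonneg (x : ℝ) : 0 ≤ be x := LLNL.bu_nonneg _ _ _ _

lemma be_le (x : ℝ) : be x ≤ 1 := LLNL.bu_le _ _ _ _

lemma be_one {x : ℝ} (h1 : 0 ≤ x) (h2 : x ≤ 1) : be x = 1 :=
  LLNL.bu_one one_pos (by linarith) (by linarith)

lemma be_cd : ContDiff ℝ 2 be := LLNL.bu_cd _ _ _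

lemma be_cs : HasCompactSupport be := LLNL.bu_cs one_pos

lemma be_zero {x : ℝ} (h : 2 ≤ |x|) : be x = 0 := by
  rcases le_abs.1 h with h | h
  · exact LLNL.bu_right one_pos h
  · exact LLNL.bu_left one_pos (by linarith)

lemma be_c2 {w : ℝ} (hw : 0 < w) (hw2 : w ≤ 1 / 2) : C2c (fun x => be (x / w)) := by
  refine ⟨be_cd.comp (by fun_prop), fun x hx => be_zero ?_⟩
  rw [abs_div, abs_of_pos hw, le_div_iff₀ hw]
  linarith

lemma step_le {b w x : ℝ} (hw : 0 < w) :
    |(Ioi b).indicator (fun _ => (1 : ℝ)) x - Real.smoothTransition ((x - b) / w)| ≤ be ((x - b) / w) := by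
  rcases le_or_gt x b with h | h
  · rw [indicator_of_notMem (by simpa using h),
      Real.smoothTransition.zero_of_nonpos (div_nonpos_of_nonpos_of_nonneg (by linarith) hw.le)]
    simp only [sub_zero, abs_zero]
    exact be_nonneg _
  · rw [indicator_of_mem (by exact h)]
    rcases le_or_gt (x - b) w with h2 | h2
    · rw [be_one (div_nonneg (by linarith) hw.le) ((div_le_one hw).2 h2)]
      have h3 := Real.smoothTransition.nonneg ((x-b)/w)
      have h4 := Real.smoothTransition.le_one ((x-b)/w)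
      rw [abs_le]
      constructor <;> linarith
    · rw [Real.smoothTransition.one_of_one_le ((one_le_div hw).2 h2.le)]
      simp only [sub_self, abs_zero]
      exact be_nonneg _

lemma int_gen {F : ℝ → ℝ} {M : ℝ} (hm : Measurable F) (hb : ∀ x, |F x| ≤ M)
    (hv : ∀ x : ℝ, 1 ≤ |x| → F x = 0) : Integrable F := by
  have h1 : IntegrableOn F (Icc (-1) 1) :=
    Measure.integrableOn_of_bounded (M := M) (by simp) hm.aestronglyMeasurable
      (ae_of_all _ fun x => by rw [Real.norm_eq_abs]; exact hb x)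
  rw [integrableOn_iff_integrable_of_support_subset] at h1
  · exact h1
  intro x hx
  by_contra h
  apply hx
  apply hv
  by_contra h3
  push Not at h3
  exact h ⟨by linarith [(abs_lt.1 h3).1], by linarith [(abs_lt.1 h3).2]⟩

section

variable {ι : Type} [Fintype ι] {a c : ι → ℝ} {s w σ : ℝ}

lemma F0_v (hc : ∑ i, c i = 0) (ha : ∀ i, |a i * s| ≤ 1 / 2) (x : ℝ) (hx : 1 ≤ |x|) : F0 a c s σ x = 0 := by
  unfold F0
  rcases le_abs.1 hx with h | h
  · have h1 : ∀ i, c i * (Ioi (a i * s)).indicator (fun _ => (1 : ℝ)) x = c i := by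
      intro i
      rw [indicator_of_mem (by
        have := (abs_le.1 (ha i)).2
        show a i * s < x
        linarith), mul_one]
    simp_rw [h1, hc, zero_div]
  · have h1 : ∀ i, c i * (Ioi (a i * s)).indicator (fun _ => (1 : ℝ)) x = 0 := by
      intro i
      rw [indicator_of_notMem (by
        have := (abs_le.1 (ha i)).1
        show ¬ (a i * s < x)
        linarith), mul_zero]
    simp_rw [h1]
    simp

lemma Ft_v (hc : ∑ i, c i = 0) (hw : 0 < w) (hw2 : w ≤ 1 / 2) (ha : ∀ i, |a i * s| ≤ 1 / 2) (x : ℝ) (hx : 1 ≤ |x|) :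
    Ft a c s w σ x = 0 := by
  unfold Ft
  rcases le_abs.1 hx with h | h
  · have h1 : ∀ i, c i * Real.smoothTransition ((x - a i * s) / w) = c i := by
      intro i
      have := (abs_le.1 (ha i)).2
      rw [Real.smoothTransition.one_of_one_le ((one_le_div hw).2 (by linarith)), mul_one]
    simp_rw [h1, hc, zero_div]
  · have h1 : ∀ i, c i * Real.smoothTransition ((x - a i * s) / w) = 0 := by
      intro i
      have := (abs_le.1 (ha i)).1
      rw [Real.smoothTransition.zero_of_nonpos (div_nonpos_of_nonpos_of_nonneg (by linarith) hw.le), mul_zero]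
    simp_rw [h1]
    simp

lemma F0_i (hc : ∑ i, c i = 0) (ha : ∀ i, |a i * s| ≤ 1 / 2) : Integrable (F0 a c s σ) := by
  refine int_gen (M := (∑ i, |c i|) / |σ|) ?_ ?_ (F0_v hc ha)
  · unfold F0
    exact (Finset.measurable_fun_sum _ fun i _ =>
      (measurable_const.indicator measurableSet_Ioi).const_mul _).div_const _
  · intro x
    unfold F0
    rw [abs_div]
    refine div_le_div_of_nonneg_right ((Finset.abs_sum_le_sum_abs _ _).trans
      (Finset.sum_le_sum fun i _ => ?_)) (abs_nonneg _)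
    rw [abs_mul]
    refine mul_le_of_le_one_right (abs_nonneg _) ?_
    by_cases h : x ∈ Ioi (a i * s)
    · rw [indicator_of_mem h]; simp
    · rw [indicator_of_notMem h]; simp

lemma Ft_i (hc : ∑ i, c i = 0) (hw : 0 < w) (hw2 : w ≤ 1 / 2) (ha : ∀ i, |a i * s| ≤ 1 / 2) :
    Integrable (Ft a c s w σ) := by
  refine int_gen (M := (∑ i, |c i|) / |σ|) ?_ ?_ (Ft_v hc hw hw2 ha)
  · unfold Ft
    have : Continuous Real.smoothTransition := Real.smoothTransition.continuous
    exact (Continuous.measurable (by fun_prop))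
  · intro x
    unfold Ft
    rw [abs_div]
    refine div_le_div_of_nonneg_right ((Finset.abs_sum_le_sum_abs _ _).trans
      (Finset.sum_le_sum fun i _ => ?_)) (abs_nonneg _)
    rw [abs_mul]
    refine mul_le_of_le_one_right (abs_nonneg _) ?_
    rw [abs_of_nonneg (Real.smoothTransition.nonneg _)]
    exact Real.smoothTransition.le_one _

lemma diff_le (hw : 0 < w) (hσ : 0 < σ) (x : ℝ) :
    |F0 a c s σ x - Ft a c s w σ x| ≤ (∑ i, |c i| * be ((x - a i * s) / w)) / σ := by
  unfold F0 Ft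
  rw [← sub_div, abs_div, abs_of_pos hσ, ← Finset.sum_sub_distrib]
  refine div_le_div_of_nonneg_right ((Finset.abs_sum_le_sum_abs _ _).trans
      (Finset.sum_le_sum fun i _ => ?_)) hσ.le
  rw [← mul_sub, abs_mul]
  exact mul_le_mul_of_nonneg_left (step_le hw) (abs_nonneg _)

/-- the pointwise bound -/
lemma pw (hc : ∑ i, c i = 0) (hw : 0 < w) (hw2 : w ≤ 1 / 2) (hσ : 0 < σ) (ha : ∀ i, |a i * s| ≤ 1 / 2)
    {T t : ℝ} (hT : 10 ≤ T) (ht1 : T ≤ t) :
    |XF (F0 a c s σ) T t - XF (Ft a c s w σ) T t| ≤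
      (∑ i, |c i| * (XF (fun x => be (x / w)) T (t + a i * s) +
        2 * (Real.log T / (2 * Real.pi) * ∫ x : ℝ, be (x / w)))) / σ := by
  have hbc := be_c2 hw hw2
  have hL : 0 ≤ Real.log T / (2 * Real.pi) := by
    have := Real.log_nonneg (show (1 : ℝ) ≤ T by linarith)
    positivity
  rw [XF_eq' (F0_v hc ha) (U1 := t - 2) (U2 := t + 2) (by linarith) (by linarith) (by linarith),
    XF_eq' (Ft_v hc hw hw2 ha) (U1 := t - 2) (U2 := t + 2) (by linarith) (by linarith) (by linarith)]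
  have hX : ∀ i, XF (fun x => be (x / w)) T (t + a i * s) =
      (∑ z ∈ H370.Zf riemannZeta (t - 2) (t + 2), (mz z : ℝ) * be ((z.im - (t + a i * s)) / w)) -
      Real.log T / (2 * Real.pi) * ∫ x : ℝ, be (x / w) := by
    intro i
    have h1 := (abs_le.1 (ha i)).1
    have h2 := (abs_le.1 (ha i)).2
    exact XF_eq' hbc.supp (U1 := t - 2) (U2 := t + 2) (by linarith) (by linarith) (by linarith)
  simp_rw [hX]
  set Z := H370.Zf riemannZeta (t - 2) (t + 2) with hZ
  set J := ∫ x : ℝ, be (x / w) with hJ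
  set L := Real.log T / (2 * Real.pi) with hLd
  have e1 : |∑ z ∈ Z, (mz z : ℝ) * F0 a c s σ (z.im - t) - ∑ z ∈ Z, (mz z : ℝ) * Ft a c s w σ (z.im - t)| ≤
      (∑ i, |c i| * ∑ z ∈ Z, (mz z : ℝ) * be ((z.im - (t + a i * s)) / w)) / σ := by
    rw [← Finset.sum_sub_distrib]
    refine (Finset.abs_sum_le_sum_abs _ _).trans ?_
    have h1 : (∑ i, |c i| * ∑ z ∈ Z, (mz z : ℝ) * be ((z.im - (t + a i * s)) / w)) / σ =
        ∑ z ∈ Z, (mz z : ℝ) * ((∑ i, |c i| * be ((z.im - t - a i * s) / w)) / σ) := by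
      rw [Finset.sum_div]
      simp_rw [Finset.mul_sum, Finset.sum_div, Finset.mul_sum]
      rw [Finset.sum_comm]
      refine Finset.sum_congr rfl fun z _ => Finset.sum_congr rfl fun i _ => ?_
      rw [sub_sub]
      ring
    rw [h1]
    refine Finset.sum_le_sum fun z _ => ?_
    rw [← mul_sub, abs_mul, abs_of_nonneg (Nat.cast_nonneg _)]
    exact mul_le_mul_of_nonneg_left (diff_le hw hσ _) (Nat.cast_nonneg _)
  have hbi : ∀ i, Integrable (fun x => be ((x - a i * s) / w)) := fun i =>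
    hbc.int.comp_sub_right (a i * s)
  have e2 : |(∫ x : ℝ, F0 a c s σ x) - ∫ x : ℝ, Ft a c s w σ x| ≤ (∑ i, |c i| * J) / σ := by
    rw [← integral_sub (F0_i hc ha) (Ft_i hc hw hw2 ha)]
    refine (abs_integral_le_integral_abs).trans ?_
    have h1 : (∑ i, |c i| * J) / σ = ∫ x : ℝ, (∑ i, |c i| * be ((x - a i * s) / w)) / σ := by
      rw [integral_div, integral_finsetSum _ fun i _ => (hbi i).const_mul _]
      congr 1
      refine Finset.sum_congr rfl fun i _ => ?_
      rw [integral_const_mul, integral_sub_right_eq_self (fun x => be (x / w)) (a i * s)]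
    rw [h1]
    refine integral_mono ((F0_i hc ha).sub (Ft_i hc hw hw2 ha)).abs
      ((integrable_finsetSum _ fun i _ => (hbi i).const_mul _).div_const _) fun x => diff_le hw hσ x
  have e3 : ∀ x1 x2 y1 y2 : ℝ, |x1 - L * y1 - (x2 - L * y2)| ≤ |x1 - x2| + L * |y1 - y2| := by
    intro x1 x2 y1 y2
    have : x1 - L * y1 - (x2 - L * y2) = (x1 - x2) - L * (y1 - y2) := by ring
    rw [this]
    refine (abs_sub _ _).trans ?_
    rw [abs_mul, abs_of_nonneg hL]
  refine (e3 _ _ _ _).trans ?_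
  refine (add_le_add e1 (mul_le_mul_of_nonneg_left e2 hL)).trans (le_of_eq ?_)
  rw [mul_div_assoc', ← add_div, Finset.mul_sum, ← Finset.sum_add_distrib]
  congr 1
  refine Finset.sum_congr rfl fun i _ => ?_
  ring

end

lemma NN_sum' {a b : ℝ} (ha : 1 ≤ a) :
    (H370.NN riemannZeta a b : ℝ) = ∑ s ∈ H370.Zf riemannZeta a b, (mz s : ℝ) := by
  rw [H370.NN_eq H370.good_zeta ha]
  push_cast
  rfl

/-- size of the statistic -/
lemma XF_bd' : ∃ C : ℝ, 0 < C ∧ ∀ (F : ℝ → ℝ), C2c F → (∀ x, |F x| ≤ 1) → |∫ x : ℝ, F x| ≤ 3 → ∀ T t : ℝ,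
    100 ≤ T → T - 1 ≤ t → t ≤ 2 * T + 1 → |XF F T t| ≤ C * Real.log T := by
  obtain ⟨C, hC, hz⟩ := H370.zcount H370.good_zeta
  refine ⟨2 * C + 1, by positivity, fun F hF hB e4 T t hT h1 h2 => ?_⟩
  have hL : 1 ≤ Real.log T := by
    rw [Real.le_log_iff_exp_le (by linarith)]
    linarith [Real.exp_one_lt_d9]
  rw [XF_eq hF (U1 := t - 1) (U2 := t + 1) (by linarith) (by linarith) (by linarith)]
  have e1 : |∑ s ∈ H370.Zf riemannZeta (t - 1) (t + 1), (mz s : ℝ) * F (s.im - t)| ≤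
      (H370.NN riemannZeta (t - 1) (t + 1) : ℝ) := by
    refine (Finset.abs_sum_le_sum_abs _ _).trans ?_
    rw [NN_sum' (by linarith)]
    refine Finset.sum_le_sum fun s _ => ?_
    rw [abs_mul, abs_of_nonneg (Nat.cast_nonneg _)]
    exact mul_le_of_le_one_right (Nat.cast_nonneg _) (hB _)
  have e2 := hz t (by linarith)
  have e3 : Real.log t ≤ 2 * Real.log T := by
    have h3 : Real.log t ≤ Real.log (T ^ 2) := Real.log_le_log (by linarith) (by nlinarith)
    rw [Real.log_pow] at h3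
    exact_mod_cast h3
  have e5 : |Real.log T / (2 * Real.pi) * ∫ x : ℝ, F x| ≤ Real.log T := by
    rw [abs_mul, abs_of_nonneg (by positivity)]
    have hpi := Real.pi_gt_three
    calc Real.log T / (2 * Real.pi) * |∫ x : ℝ, F x| ≤ Real.log T / (2 * Real.pi) * 3 := by gcongr
      _ = Real.log T * (3 / (2 * Real.pi)) := by field_simp
      _ ≤ Real.log T * 1 := by
          gcongr
          rw [div_le_one (by positivity)]
          linarith
      _ = _ := by ring
  have e6 : (H370.NN riemannZeta (t - 1) (t + 1) : ℝ) ≤ C * (2 * Real.log T) :=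
    e2.trans (mul_le_mul_of_nonneg_left e3 hC.le)
  calc _ ≤ _ := abs_sub _ _
    _ ≤ C * (2 * Real.log T) + Real.log T := add_le_add (e1.trans e6) e5
    _ = _ := by ring

/-- the mean square over a shifted range -/
lemma shift_bd {w : ℝ} (hw : 0 < w) (hw2 : w ≤ 1 / 2) {T V C b : ℝ} (hT : 100 ≤ T) (hb : |b| ≤ 1 / 2)
    (hbd : ∀ t, T - 1 ≤ t → t ≤ 2 * T + 1 → |XF (fun x => be (x / w)) T t| ≤ C * Real.log T)
    (hV : ∫ t in T..(2 * T), (XF (fun x => be (x / w)) T t) ^ 2 ≤ V * T) :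
    ∫ t in T..(2 * T), (XF (fun x => be (x / w)) T (t + b)) ^ 2 ≤ 2 * (C * Real.log T) ^ 2 + V * T := by
  have hbc := be_c2 hw hw2
  have hXc : ContinuousOn (XF (fun x => be (x / w)) T) (Icc (T - 1) (2 * T + 1)) := XF_contOn hbc (by linarith)
  have h1 := (abs_le.1 hb).1
  have h2 := (abs_le.1 hb).2
  rw [intervalIntegral.integral_comp_add_right (fun u => (XF (fun x => be (x / w)) T u) ^ 2) b]
  have ii : ∀ u v : ℝ, T - 1 ≤ u → u ≤ v → v ≤ 2 * T + 1 →
      IntervalIntegrable (fun t => (XF (fun x => be (x / w)) T t) ^ 2) volume u v := by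
    intro u v hu huv hv
    apply ContinuousOn.intervalIntegrable
    rw [uIcc_of_le huv]
    exact (hXc.mono (Icc_subset_Icc hu hv)).pow 2
  have e1 : ∫ t in (T + b)..(2 * T + b), (XF (fun x => be (x / w)) T t) ^ 2 ≤
      ∫ t in (T - 1)..(2 * T + 1), (XF (fun x => be (x / w)) T t) ^ 2 := by
    refine intervalIntegral.integral_mono_interval (by linarith) (by linarith) (by linarith)
      (ae_of_all _ fun t => sq_nonneg _) (ii _ _ le_rfl (by linarith) le_rfl)
  have hpiece : ∀ u v : ℝ, T - 1 ≤ u → u ≤ v → v ≤ 2 * T + 1 → v - u = 1 →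
      ∫ t in u..v, (XF (fun x => be (x / w)) T t) ^ 2 ≤ (C * Real.log T) ^ 2 := by
    intro u v hu huv hv huv2
    have h2 := intervalIntegral.integral_mono_on huv (ii u v hu huv hv)
      (intervalIntegrable_const (c := (C * Real.log T) ^ 2) (μ := volume) (a := u) (b := v))
      (fun t ht => by
        rw [← sq_abs]
        exact pow_le_pow_left₀ (abs_nonneg _) (hbd t (hu.trans ht.1) (ht.2.trans hv)) 2)
    rw [intervalIntegral.integral_const, smul_eq_mul, huv2, one_mul] at h2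
    exact h2
  have hsplit : ∫ t in (T - 1)..(2 * T + 1), (XF (fun x => be (x / w)) T t) ^ 2 =
      (∫ t in (T - 1)..T, (XF (fun x => be (x / w)) T t) ^ 2) +
      (∫ t in T..(2 * T), (XF (fun x => be (x / w)) T t) ^ 2) +
      ∫ t in (2 * T)..(2 * T + 1), (XF (fun x => be (x / w)) T t) ^ 2 := by
    rw [intervalIntegral.integral_add_adjacent_intervals (ii _ _ le_rfl (by linarith) (by linarith))
      (ii _ _ (by linarith) (by linarith) (by linarith)),
      intervalIntegral.integral_add_adjacent_intervals (ii _ _ le_rfl (by linarith) (by linarith))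
      (ii _ _ (by linarith) (by linarith) le_rfl)]
  have p1 := hpiece (T - 1) T le_rfl (by linarith) (by linarith) (by ring)
  have p2 := hpiece (2 * T) (2 * T + 1) (by linarith) (by linarith) le_rfl (by ring)
  rw [hsplit] at e1
  linarith

section

variable {ι : Type} [Fintype ι] {a c : ι → ℝ} {s w σ : ℝ}

lemma main (hc : ∑ i, c i = 0) (hw : 0 < w) (hw2 : w ≤ 1 / 2) (hσ : 0 < σ) (ha : ∀ i, |a i * s| ≤ 1 / 2)
    {T V C : ℝ} (hT : 100 ≤ T) (hV0 : 0 ≤ V)
    (hbd : ∀ t, T - 1 ≤ t → t ≤ 2 * T + 1 → |XF (fun x => be (x / w)) T t| ≤ C * Real.log T)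
    (hV : ∫ t in T..(2 * T), (XF (fun x => be (x / w)) T t) ^ 2 ≤ V * T)
    (hL1 : 1 ≤ w * Real.log T) (hL2 : Real.log T ^ 2 ≤ T) :
    ∫ t in T..(2 * T), (XF (F0 a c s σ) T t - XF (Ft a c s w σ) T t) ^ 2 ≤
      (∑ i, |c i|) ^ 2 * (4 * C ^ 2 + 2 * V + 2 * (∫ x, be x) ^ 2) * T * (w * Real.log T) ^ 2 / σ ^ 2 := by
  have hbc := be_c2 hw hw2
  have hXc : ContinuousOn (XF (fun x => be (x / w)) T) (Icc (T - 1) (2 * T + 1)) := XF_contOn hbc (by linarith)
  obtain ⟨A, hA⟩ : ∃ A, A = ∑ i, |c i| := ⟨_, rfl⟩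
  obtain ⟨J, hJ⟩ : ∃ J, J = ∫ x, be x := ⟨_, rfl⟩
  obtain ⟨K, hK⟩ : ∃ K, K = 2 * (Real.log T / (2 * Real.pi) * ∫ x : ℝ, be (x / w)) := ⟨_, rfl⟩
  have hA0 : 0 ≤ A := by rw [hA]; positivity
  have hKe : K = w * Real.log T * J / Real.pi := by
    have h1 := Measure.integral_comp_div be w
    rw [abs_of_pos hw, smul_eq_mul, ← hJ] at h1
    rw [hK, h1]
    have := Real.pi_pos
    field_simp
  have hK2 : K ^ 2 ≤ (w * Real.log T) ^ 2 * J ^ 2 := by
    rw [hKe, div_pow, ← mul_pow]
    refine div_le_self (sq_nonneg _) ?_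
    have := Real.pi_gt_three
    nlinarith
  rw [← hA, ← hJ]
  have hT2 : T ≤ 2 * T := by linarith
  have hXi : ∀ i, ContinuousOn (fun t => XF (fun x => be (x / w)) T (t + a i * s)) (Icc T (2 * T)) := by
    intro i
    have h1 := (abs_le.1 (ha i)).1
    have h2 := (abs_le.1 (ha i)).2
    refine hXc.comp (by fun_prop) fun t ht => ?_
    exact ⟨by linarith [ht.1], by linarith [ht.2]⟩
  have iXi : ∀ i, IntervalIntegrable (fun t => (XF (fun x => be (x / w)) T (t + a i * s)) ^ 2) volume T (2 * T) := by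
    intro i
    apply ContinuousOn.intervalIntegrable
    rw [uIcc_of_le hT2]
    exact (hXi i).pow 2
  -- the majorant
  have hpt : ∀ t, T ≤ t → t ≤ 2 * T → (XF (F0 a c s σ) T t - XF (Ft a c s w σ) T t) ^ 2 ≤
      A / σ ^ 2 * ∑ i, |c i| * (2 * (XF (fun x => be (x / w)) T (t + a i * s)) ^ 2 + 2 * K ^ 2) := by
    intro t h1 h2
    have h3 := pw hc hw hw2 hσ ha (T := T) (t := t) (by linarith) h1
    rw [← hK] at h3
    have h4 := pow_le_pow_left₀ (abs_nonneg _) h3 2
    rw [sq_abs] at h4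
    refine h4.trans ?_
    rw [div_pow, div_mul_eq_mul_div]
    refine div_le_div_of_nonneg_right ?_ (sq_nonneg _)
    have h5 := Finset.sum_sq_le_sum_mul_sum_of_sq_le_mul Finset.univ
      (r := fun i => |c i| * (XF (fun x => be (x / w)) T (t + a i * s) + K)) (f := fun i => |c i|)
      (g := fun i => |c i| * (XF (fun x => be (x / w)) T (t + a i * s) + K) ^ 2)
      (fun i _ => abs_nonneg _) (fun i _ => by positivity) (fun i _ => le_of_eq (by ring))
    refine h5.trans ?_
    rw [← hA]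
    refine mul_le_mul_of_nonneg_left (Finset.sum_le_sum fun i _ => ?_) hA0
    refine mul_le_mul_of_nonneg_left ?_ (abs_nonneg _)
    nlinarith [sq_nonneg (XF (fun x => be (x / w)) T (t + a i * s) - K)]
  have iM : IntervalIntegrable (fun t => A / σ ^ 2 * ∑ i, |c i| *
      (2 * (XF (fun x => be (x / w)) T (t + a i * s)) ^ 2 + 2 * K ^ 2)) volume T (2 * T) := by
    apply ContinuousOn.intervalIntegrable
    rw [uIcc_of_le hT2]
    refine continuousOn_const.mul (continuousOn_finsetSum _ fun i _ => ?_)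
    exact continuousOn_const.mul ((continuousOn_const.mul ((hXi i).pow 2)).add continuousOn_const)
  have e1 : ∫ t in T..(2 * T), (XF (F0 a c s σ) T t - XF (Ft a c s w σ) T t) ^ 2 ≤
      ∫ t in T..(2 * T), A / σ ^ 2 * ∑ i, |c i| *
        (2 * (XF (fun x => be (x / w)) T (t + a i * s)) ^ 2 + 2 * K ^ 2) := by
    rw [intervalIntegral.integral_of_le hT2, intervalIntegral.integral_of_le hT2]
    refine integral_mono_of_nonneg (ae_of_all _ fun t => sq_nonneg _) iM.1 ?_
    filter_upwards [ae_restrict_mem measurableSet_Ioc] with t ht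
    exact hpt t ht.1.le ht.2
  refine e1.trans ?_
  have iterm : ∀ i ∈ (Finset.univ : Finset ι), IntervalIntegrable (fun t => |c i| *
      (2 * (XF (fun x => be (x / w)) T (t + a i * s)) ^ 2 + 2 * K ^ 2)) volume T (2 * T) := fun i _ =>
    (((iXi i).const_mul 2).add intervalIntegrable_const).const_mul _
  rw [intervalIntegral.integral_const_mul, intervalIntegral.integral_finsetSum iterm]
  have e2 : ∀ i ∈ (Finset.univ : Finset ι), ∫ t in T..(2 * T), |c i| *
      (2 * (XF (fun x => be (x / w)) T (t + a i * s)) ^ 2 + 2 * K ^ 2) ≤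
      |c i| * (2 * (2 * (C * Real.log T) ^ 2 + V * T) + 2 * K ^ 2 * T) := by
    intro i _
    rw [intervalIntegral.integral_const_mul, intervalIntegral.integral_add ((iXi i).const_mul 2)
      intervalIntegrable_const, intervalIntegral.integral_const_mul, intervalIntegral.integral_const,
      smul_eq_mul]
    refine mul_le_mul_of_nonneg_left ?_ (abs_nonneg _)
    have := shift_bd hw hw2 hT (ha i) hbd hV
    linarith
  have e3 : A / σ ^ 2 * ∑ i, |c i| * (2 * (2 * (C * Real.log T) ^ 2 + V * T) + 2 * K ^ 2 * T) =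
      A ^ 2 * (4 * C ^ 2 * Real.log T ^ 2 + 2 * V * T + 2 * K ^ 2 * T) / σ ^ 2 := by
    rw [← Finset.sum_mul, ← hA]
    ring
  have hAs : 0 ≤ A / σ ^ 2 := by positivity
  refine (mul_le_mul_of_nonneg_left (Finset.sum_le_sum e2) hAs).trans ?_
  rw [e3]
  refine div_le_div_of_nonneg_right ?_ (sq_nonneg _)
  have e4 : A ^ 2 * (4 * C ^ 2 + 2 * V + 2 * J ^ 2) * T * (w * Real.log T) ^ 2 =
      A ^ 2 * ((4 * C ^ 2 + 2 * V + 2 * J ^ 2) * (T * (w * Real.log T) ^ 2)) := by ring
  rw [e4]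
  refine mul_le_mul_of_nonneg_left ?_ (sq_nonneg A)
  have hT0 : 0 ≤ T := by linarith
  have hsq : 1 ≤ (w * Real.log T) ^ 2 := one_le_pow₀ hL1
  have f1 : 4 * C ^ 2 * Real.log T ^ 2 ≤ 4 * C ^ 2 * (T * (w * Real.log T) ^ 2) := by
    refine mul_le_mul_of_nonneg_left ?_ (by positivity)
    have g1 : T * 1 ≤ T * (w * Real.log T) ^ 2 := mul_le_mul_of_nonneg_left hsq hT0
    linarith
  have f2 : 2 * V * T ≤ 2 * V * (T * (w * Real.log T) ^ 2) := by
    refine mul_le_mul_of_nonneg_left ?_ (by positivity)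
    have g1 : T * 1 ≤ T * (w * Real.log T) ^ 2 := mul_le_mul_of_nonneg_left hsq hT0
    linarith
  have f3 : 2 * K ^ 2 * T ≤ 2 * J ^ 2 * (T * (w * Real.log T) ^ 2) := by
    calc 2 * K ^ 2 * T = K ^ 2 * (2 * T) := by ring
      _ ≤ (w * Real.log T) ^ 2 * J ^ 2 * (2 * T) := mul_le_mul_of_nonneg_right hK2 (by linarith)
      _ = _ := by ring
  have f4 := add_le_add (add_le_add f1 f2) f3
  refine f4.trans (le_of_eq ?_)
  ring

end

end STCL

open STCL in
theorem t_STC (hS : S_SEC) : S_STC := by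
  intro ι _ a c hc
  obtain ⟨C1, hC1, hX⟩ := XF_bd'
  obtain ⟨V, hVd⟩ : ∃ V, V = |cv be be| + 1 := ⟨_, rfl⟩
  have hV0 : 0 < V := by rw [hVd]; positivity
  refine ⟨(∑ i, |c i|) ^ 2 * (4 * C1 ^ 2 + 2 * V + 2 * (∫ x, be x) ^ 2) + 1, by positivity, ?_⟩
  intro s w σ hs hw hws hσ
  have hpos : ∀ᶠ T in atTop, 0 < w T := by
    filter_upwards [hw.eventually (eventually_gt_atTop 0), eventually_gt_atTop (1 : ℝ)] with T h2 h3
    have h4 := Real.log_pos h3
    by_contra h5
    push Not at h5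
    nlinarith
  have hw0 : Tendsto w atTop (𝓝 0) :=
    squeeze_zero' (hpos.mono fun T h => h.le) hws hs
  have hlim := hS be be be_cd be_cs be_cd be_cs w hw0 hw
  have hl2 : Tendsto (fun x : ℝ => Real.log x ^ 2 / x) atTop (𝓝 0) :=
    (Real.isLittleO_pow_log_id_atTop (n := 2)).tendsto_div_nhds_zero
  have ha : ∀ᶠ T in atTop, ∀ i, |a i * s T| ≤ 1 / 2 := by
    rw [eventually_all]
    intro i
    have h1 : Tendsto (fun T => |a i * s T|) atTop (𝓝 0) := by
      have := (hs.const_mul (a i)).abs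
      simpa using this
    exact (h1.eventually (gt_mem_nhds (show (0 : ℝ) < 1 / 2 by norm_num))).mono fun T h => h.le
  filter_upwards [hpos, hw0.eventually (gt_mem_nhds (show (0 : ℝ) < 1 / 2 by norm_num)),
    hlim.eventually (gt_mem_nhds (show cv be be < V by rw [hVd]; linarith [le_abs_self (cv be be)])),
    hl2.eventually (gt_mem_nhds (show (0 : ℝ) < 1 by norm_num)), ha, hσ, eventually_ge_atTop (100 : ℝ),
    hw.eventually (eventually_ge_atTop 1)] with T h1 h2 h3 h4 h5 h6 h7 h8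
  have hT : 0 < T := by linarith
  have hV : ∫ t in T..(2 * T), (XF (fun x => be (x / w T)) T t) ^ 2 ≤ V * T := by
    have h9 : (∫ t in T..(2 * T), (XF (fun x => be (x / w T)) T t) ^ 2) =
        T * (1 / T * ∫ t in T..(2 * T), XF (fun x => be (x / w T)) T t * XF (fun x => be (x / w T)) T t) := by
      rw [← mul_assoc, mul_one_div_cancel hT.ne', one_mul]
      simp_rw [sq]
    rw [h9, mul_comm V T]
    exact mul_le_mul_of_nonneg_left h3.le hT.le
  have hbc := be_c2 h1 h2.le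
  have hJ3 : |∫ x : ℝ, be (x / w T)| ≤ 3 := by
    have g1 := Measure.integral_comp_div be (w T)
    rw [abs_of_pos h1, smul_eq_mul] at g1
    rw [g1, abs_mul, abs_of_pos h1]
    have g2 : ∫ x, be x ≤ 2 - (-1) := LLNL.bu_int_le one_pos (by norm_num)
    have g3 : 0 ≤ ∫ x, be x := integral_nonneg be_nonneg
    rw [abs_of_nonneg g3]
    nlinarith
  have hbd := hX _ hbc (fun x => by rw [abs_of_nonneg (be_nonneg _)]; exact be_le _) hJ3 T
  have hL2 : Real.log T ^ 2 ≤ T := by
    rw [div_lt_one hT] at h4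
    exact h4.le
  have hm := main (a := a) hc h1 h2.le h6 h5 h7 hV0.le (fun t g1 g2 => hbd t h7 g1 g2) hV h8 hL2
  refine hm.trans (div_le_div_of_nonneg_right ?_ (sq_nonneg _))
  refine mul_le_mul_of_nonneg_right (mul_le_mul_of_nonneg_right ?_ hT.le) (sq_nonneg _)
  linarith

end Pool.Agent.H493.EN
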