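import Pool.Agent.H493.EN.Stc
import Pool.Agent.H493.EN.STC

set_option autoImplicit false

/-! Measurability and a crude bound of the number of zeros in a window (helper441). -/

open Complex Filter Topology Set MeasureTheory

namespace Pool.Agent.H493.EN

open Pool.Agent.H203.ME

namespace MEFL

variable {ι : Type} [Fintype ι] {a c : ι → ℝ} {s σ : ℝ}

lemma F0_m : Measurable (F0 a c s σ) := by
  unfold F0
  exact (Finset.measurable_fun_sum _ fun i _ =>
    (measurable_const.indicator measurableSet_Ioi).const_mul _).div_const _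

lemma F0_b (hσ : 0 < σ) (x : ℝ) : |F0 a c s σ x| ≤ (∑ i, |c i|) / σ := by
  unfold F0
  rw [abs_div, abs_of_pos hσ]
  refine div_le_div_of_nonneg_right ((Finset.abs_sum_le_sum_abs _ _).trans
    (Finset.sum_le_sum fun i _ => ?_)) hσ.le
  rw [abs_mul]
  refine mul_le_of_le_one_right (abs_nonneg _) ?_
  by_cases h : x ∈ Ioi (a i * s)
  · rw [indicator_of_mem h]; simp
  · rw [indicator_of_notMem h]; simp

lemma F0_int (hc : ∑ i, c i = 0) (ha : ∀ i, |a i * s| ≤ 1 / 2) (hσ : 0 < σ) :
    |∫ x : ℝ, F0 a c s σ x| ≤ (∑ i, |c i|) / σ * 2 := by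
  have h1 : ∫ x in Icc (-1 : ℝ) 1, F0 a c s σ x = ∫ x : ℝ, F0 a c s σ x := by
    refine setIntegral_eq_integral_of_forall_compl_eq_zero fun x hx => ?_
    refine STCL.F0_v hc ha x ?_
    by_contra h
    push Not at h
    exact hx ⟨by linarith [(abs_lt.1 h).1], by linarith [(abs_lt.1 h).2]⟩
  rw [← h1, ← Real.norm_eq_abs]
  have h2 := norm_setIntegral_le_of_norm_le_const (μ := volume) (s := Icc (-1 : ℝ) 1)
    (f := F0 a c s σ) (C := (∑ i, |c i|) / σ) (by simp) (fun x _ => by
      rw [Real.norm_eq_abs]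
      exact F0_b hσ x)
  refine h2.trans (le_of_eq ?_)
  congr 1
  rw [measureReal_def, Real.volume_Icc]
  norm_num

end MEFL

open MEFL in
theorem t_MEF : S_MEF := by
  intro ι _ a c hc
  obtain ⟨C, hC, hz⟩ := H370.zcount H370.good_zeta
  obtain ⟨A, hA⟩ : ∃ A, A = ∑ i, |c i| := ⟨_, rfl⟩
  have hA0 : 0 ≤ A := by rw [hA]; positivity
  refine ⟨A * (2 * C + 1) + 1, by positivity, ?_⟩
  intro s σ T hT hs ha hσ
  have hL : 1 ≤ Real.log T := by
    rw [Real.le_log_iff_exp_le (by linarith)]
    linarith [Real.exp_one_lt_d9]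
  constructor
  · have h1 : AEStronglyMeasurable (fun t => (∑ z ∈ H370.Zf riemannZeta (T - 1) (2 * T + 1),
        (mz z : ℝ) * F0 a c s σ (z.im - t)) - Real.log T / (2 * Real.pi) * ∫ x : ℝ, F0 a c s σ x)
        (volume.restrict (Ioc T (2 * T))) := by
      refine Measurable.aestronglyMeasurable ?_
      refine Measurable.sub_const ?_ _
      refine Finset.measurable_fun_sum _ fun z _ => ?_
      exact (F0_m.comp (measurable_const.sub measurable_id)).const_mul _
    refine h1.congr ?_
    filter_upwards [ae_restrict_mem measurableSet_Ioc] with t ht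
    exact (STCL.XF_eq' (STCL.F0_v hc ha) (by linarith) (by linarith [ht.1]) (by linarith [ht.2])).symm
  · intro t h1 h2
    rw [STCL.XF_eq' (STCL.F0_v hc ha) (U1 := t - 1) (U2 := t + 1) (by linarith) (by linarith)
      (by linarith)]
    have hM0 : 0 ≤ A / σ := by positivity
    have e1 : |∑ z ∈ H370.Zf riemannZeta (t - 1) (t + 1), (mz z : ℝ) * F0 a c s σ (z.im - t)| ≤
        (H370.NN riemannZeta (t - 1) (t + 1) : ℝ) * (A / σ) := by
      refine (Finset.abs_sum_le_sum_abs _ _).trans ?_
      rw [STCL.NN_sum' (by linarith), Finset.sum_mul]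
      refine Finset.sum_le_sum fun z _ => ?_
      rw [abs_mul, abs_of_nonneg (Nat.cast_nonneg _)]
      refine mul_le_mul_of_nonneg_left ?_ (Nat.cast_nonneg _)
      rw [hA]
      exact F0_b hσ _
    have e2 := hz t (by linarith)
    have e3 : Real.log t ≤ 2 * Real.log T := by
      have h3 : Real.log t ≤ Real.log (T ^ 2) := Real.log_le_log (by linarith) (by nlinarith)
      rw [Real.log_pow] at h3
      exact_mod_cast h3
    have e6 : (H370.NN riemannZeta (t - 1) (t + 1) : ℝ) ≤ C * (2 * Real.log T) :=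
      e2.trans (mul_le_mul_of_nonneg_left e3 hC.le)
    have e4 : |∫ x : ℝ, F0 a c s σ x| ≤ A / σ * 2 := by
      rw [hA]
      exact F0_int hc ha hσ
    have e5 : |Real.log T / (2 * Real.pi) * ∫ x : ℝ, F0 a c s σ x| ≤ Real.log T * (A / σ) := by
      have hpi := Real.pi_gt_three
      rw [abs_mul, abs_of_nonneg (by positivity)]
      calc Real.log T / (2 * Real.pi) * |∫ x : ℝ, F0 a c s σ x|
          ≤ Real.log T / (2 * Real.pi) * (A / σ * 2) := by gcongr
        _ = Real.log T * (A / σ) * (1 / Real.pi) := by field_simp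
        _ ≤ Real.log T * (A / σ) * 1 := by
            gcongr
            rw [div_le_one (by positivity)]
            linarith
        _ = _ := by ring
    calc _ ≤ _ := abs_sub _ _
      _ ≤ C * (2 * Real.log T) * (A / σ) + Real.log T * (A / σ) :=
          add_le_add (e1.trans (mul_le_mul_of_nonneg_right e6 hM0)) e5
      _ = A * (2 * C + 1) * Real.log T / σ := by ring
      _ ≤ (A * (2 * C + 1) + 1) * Real.log T / σ := by
          gcongr
          linarith

end Pool.Agent.H493.EN
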