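import Pool.Agent.H493.EN.Stc

set_option autoImplicit false

/-! Numbers of zeros in windows: second moments (helper539). -/

open Complex Filter Topology Set MeasureTheory

namespace Pool.Agent.H493.EN

open Pool.Agent.H203.ME

namespace SCFL

lemma logT2 : ∀ᶠ T in (atTop : Filter ℝ), 4 ≤ Real.log T ∧ 4 * Real.log T + 2 ≤ T ∧ 100 ≤ T := by
  have h1 : Tendsto (fun x : ℝ => Real.log x ^ 1 / x) atTop (𝓝 0) := by
    have := (Real.isLittleO_pow_log_id_atTop (n := 1)).tendsto_div_nhds_zero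
    exact this
  filter_upwards [Real.tendsto_log_atTop.eventually (eventually_ge_atTop 4),
    h1.eventually (gt_mem_nhds (show (0 : ℝ) < 1 / 8 by norm_num)), eventually_ge_atTop (100 : ℝ)]
    with T a b c
  refine ⟨a, ?_, c⟩
  have hT : (0 : ℝ) < T := by linarith
  rw [div_lt_iff₀ hT, pow_one] at b
  linarith

/-- cutting off short pieces -/
lemma mid (B : ℝ → ℝ → ℝ) (v : ℝ) (hBc : ∀ᶠ T : ℝ in atTop, Continuous (B T))
    (h1 : Tendsto (fun T : ℝ => 1 / T * ∫ t in (T + 2 * Real.log T)..(2 * T - 2 * Real.log T),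
      (B T t) ^ 2) atTop (𝓝 v))
    (h2 : ∀ ε : ℝ, 0 < ε → ∀ᶠ T : ℝ in atTop, ∀ p : ℝ, T ≤ p → p + 1 ≤ 2 * T →
      ∫ t in p..(p + 1), (B T t) ^ 2 ≤ ε * T) :
    Tendsto (fun T : ℝ => 1 / T * ∫ t in (T + 2 * Real.log T + 1)..(2 * T - 2 * Real.log T - 1),
      (B T t) ^ 2) atTop (𝓝 v) := by
  have key : Tendsto (fun T : ℝ => (1 / T * ∫ t in (T + 2 * Real.log T)..(2 * T - 2 * Real.log T),
      (B T t) ^ 2) - (1 / T * ∫ t in (T + 2 * Real.log T + 1)..(2 * T - 2 * Real.log T - 1),
      (B T t) ^ 2)) atTop (𝓝 0) := by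
    rw [Metric.tendsto_nhds]
    intro ε hε
    filter_upwards [hBc, logT2, h2 (ε / 4) (by positivity)] with T a b c
    obtain ⟨b1, b2, b3⟩ := b
    have hT : (0 : ℝ) < T := by linarith
    have ii : ∀ u v : ℝ, IntervalIntegrable (fun t => (B T t) ^ 2) volume u v :=
      fun u v => (a.pow 2).intervalIntegrable _ _
    have hsplit : ∫ t in (T + 2 * Real.log T)..(2 * T - 2 * Real.log T), (B T t) ^ 2 =
        (∫ t in (T + 2 * Real.log T)..(T + 2 * Real.log T + 1), (B T t) ^ 2) +
        (∫ t in (T + 2 * Real.log T + 1)..(2 * T - 2 * Real.log T - 1), (B T t) ^ 2) +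
        ∫ t in (2 * T - 2 * Real.log T - 1)..(2 * T - 2 * Real.log T), (B T t) ^ 2 := by
      rw [intervalIntegral.integral_add_adjacent_intervals (ii _ _) (ii _ _),
        intervalIntegral.integral_add_adjacent_intervals (ii _ _) (ii _ _)]
    have p1 := c (T + 2 * Real.log T) (by linarith) (by linarith)
    have p2 := c (2 * T - 2 * Real.log T - 1) (by linarith) (by linarith)
    rw [sub_add_cancel] at p2
    have n1 : 0 ≤ ∫ t in (T + 2 * Real.log T)..(T + 2 * Real.log T + 1), (B T t) ^ 2 :=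
      intervalIntegral.integral_nonneg (by linarith) fun t _ => sq_nonneg _
    have n2 : 0 ≤ ∫ t in (2 * T - 2 * Real.log T - 1)..(2 * T - 2 * Real.log T), (B T t) ^ 2 :=
      intervalIntegral.integral_nonneg (by linarith) fun t _ => sq_nonneg _
    rw [Real.dist_eq, sub_zero, ← mul_sub, hsplit, abs_mul, abs_of_pos (show 0 < 1 / T by positivity)]
    have h3 : ∀ x y z : ℝ, x + y + z - y = x + z := fun x y z => by ring
    rw [h3, abs_of_nonneg (add_nonneg n1 n2)]
    calc 1 / T * _ ≤ 1 / T * (ε / 4 * T + ε / 4 * T) := by gcongr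
      _ = ε / 2 := by field_simp; ring
      _ < ε := by linarith
  have h4 := h1.sub key
  rw [sub_zero] at h4
  refine h4.congr fun T => ?_
  ring

/-- bounded measurable functions -/
lemma bdint {f : ℝ → ℝ} {T M : ℝ} (hm : AEStronglyMeasurable f (volume.restrict (Ioc T (2 * T))))
    (hb : ∀ t : ℝ, T ≤ t → t ≤ 2 * T → |f t| ≤ M) : ∀ u v : ℝ, T ≤ u → u ≤ v → v ≤ 2 * T →
      IntervalIntegrable f volume u v := by
  intro u v hu huv hv
  have h1 : IntegrableOn f (Ioc T (2 * T)) volume :=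
    Integrable.of_bound hm M
      ((ae_restrict_iff' measurableSet_Ioc).2 (ae_of_all _ fun t ht => hb t ht.1.le ht.2))
  exact (intervalIntegrable_iff_integrableOn_Ioc_of_le huv).2 (h1.mono_set (Ioc_subset_Ioc hu hv))

/-- the comparison -/
lemma lim2 (G A B : ℝ → ℝ → ℝ) (v : ℝ) (M : ℝ → ℝ)
    (hGm : ∀ᶠ T : ℝ in atTop, AEStronglyMeasurable (G T) (volume.restrict (Ioc T (2 * T))))
    (hGb : ∀ᶠ T : ℝ in atTop, ∀ t : ℝ, T ≤ t → t ≤ 2 * T → |G T t| ≤ M T)
    (hMl : Tendsto (fun T : ℝ => 2 * (2 * Real.log T + 1) * M T ^ 2 / T) atTop (𝓝 0))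
    (hAc : ∀ᶠ T : ℝ in atTop, ContinuousOn (A T) (Icc T (2 * T)))
    (hBc : ∀ᶠ T : ℝ in atTop, Continuous (B T))
    (h1 : Tendsto (fun T : ℝ => 1 / T * ∫ t in (T + 2 * Real.log T)..(2 * T - 2 * Real.log T),
      (B T t) ^ 2) atTop (𝓝 v))
    (h2 : ∀ ε : ℝ, 0 < ε → ∀ᶠ T : ℝ in atTop, ∀ p : ℝ, T ≤ p → p + 1 ≤ 2 * T →
      ∫ t in p..(p + 1), (B T t) ^ 2 ≤ ε * T)
    (h3 : Tendsto (fun T : ℝ => 1 / T * ∫ t in (T + 2 * Real.log T + 1)..(2 * T - 2 * Real.log T - 1),
      (A T t + B T t) ^ 2) atTop (𝓝 0))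
    (h4 : Tendsto (fun T : ℝ => 1 / T * ∫ t in T..(2 * T), (G T t - A T t) ^ 2) atTop (𝓝 0)) :
    Tendsto (fun T : ℝ => 1 / T * ∫ t in T..(2 * T), (G T t) ^ 2) atTop (𝓝 v) := by
  have hB := mid B v hBc h1 h2
  -- the middle
  have key : Tendsto (fun T : ℝ => (1 / T * ∫ t in (T + 2 * Real.log T + 1)..(2 * T - 2 * Real.log T - 1),
      (G T t) ^ 2) - (1 / T * ∫ t in (T + 2 * Real.log T + 1)..(2 * T - 2 * Real.log T - 1),
      (B T t) ^ 2)) atTop (𝓝 0) := by
    rw [Metric.tendsto_nhds]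
    intro ε hε
    obtain ⟨δ, hδ⟩ : ∃ δ, δ = ε / (4 * (|v| + 1)) := ⟨_, rfl⟩
    have hδ0 : 0 < δ := by rw [hδ]; positivity
    have hδ1 : δ * (|v| + 1) = ε / 4 := by
      rw [hδ]
      field_simp
    have hE2 : Tendsto (fun T : ℝ => (1 + 1 / δ) * (2 * (1 / T * ∫ t in T..(2 * T), (G T t - A T t) ^ 2) +
        2 * (1 / T * ∫ t in (T + 2 * Real.log T + 1)..(2 * T - 2 * Real.log T - 1),
          (A T t + B T t) ^ 2))) atTop (𝓝 0) := by
      have := ((h4.const_mul 2).add (h3.const_mul 2)).const_mul (1 + 1 / δ)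
      simpa using this
    filter_upwards [hGm, hGb, hAc, hBc, logT2,
      hB.eventually (gt_mem_nhds (show v < |v| + 1 by linarith [le_abs_self v])),
      hE2.eventually (gt_mem_nhds (show (0 : ℝ) < ε / 4 by positivity))] with T gm gb ac bc b d e
    obtain ⟨b1, b2, b3⟩ := b
    have hT : (0 : ℝ) < T := by linarith
    have hab : T + 2 * Real.log T + 1 ≤ 2 * T - 2 * Real.log T - 1 := by linarith
    have hTa : T ≤ T + 2 * Real.log T + 1 := by linarith
    have hbT : 2 * T - 2 * Real.log T - 1 ≤ 2 * T := by linarith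
    obtain ⟨MA, hMA⟩ := isCompact_Icc.exists_bound_of_continuousOn ac
    have am : AEStronglyMeasurable (A T) (volume.restrict (Ioc T (2 * T))) :=
      (ac.mono Ioc_subset_Icc_self).aestronglyMeasurable measurableSet_Ioc
    have hM0 : 0 ≤ M T := (abs_nonneg _).trans (gb T le_rfl (by linarith))
    have iG := bdint (f := fun t => (G T t) ^ 2) (gm.pow 2) (M := M T ^ 2) (fun t ht1 ht2 => by
      change |G T t ^ 2| ≤ _
      rw [abs_pow]
      exact pow_le_pow_left₀ (abs_nonneg _) (gb t ht1 ht2) 2)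
    have iGA := bdint (f := fun t => (G T t - A T t) ^ 2) ((gm.sub am).pow 2) (M := (M T + MA) ^ 2) (fun t ht1 ht2 => by
      change |(G T t - A T t) ^ 2| ≤ _
      rw [abs_pow]
      refine pow_le_pow_left₀ (abs_nonneg _) ?_ 2
      have h5 := hMA t ⟨ht1, ht2⟩
      rw [Real.norm_eq_abs] at h5
      exact (abs_sub _ _).trans (add_le_add (gb t ht1 ht2) h5))
    have iG' := iG _ _ hTa hab hbT
    have iGA' := iGA _ _ hTa hab hbT
    have iB : IntervalIntegrable (fun t => (B T t) ^ 2) volume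
        (T + 2 * Real.log T + 1) (2 * T - 2 * Real.log T - 1) := (bc.pow 2).intervalIntegrable _ _
    have iE : IntervalIntegrable (fun t => (A T t + B T t) ^ 2) volume
        (T + 2 * Real.log T + 1) (2 * T - 2 * Real.log T - 1) := by
      apply ContinuousOn.intervalIntegrable
      rw [uIcc_of_le hab]
      exact ((ac.mono (Icc_subset_Icc hTa hbT)).add bc.continuousOn).pow 2
    have hGAle : ∫ t in (T + 2 * Real.log T + 1)..(2 * T - 2 * Real.log T - 1), (G T t - A T t) ^ 2 ≤
        ∫ t in T..(2 * T), (G T t - A T t) ^ 2 := by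
      refine intervalIntegral.integral_mono_interval hTa hab hbT ?_ (iGA _ _ le_rfl (by linarith) le_rfl)
      exact ae_of_all _ fun t => sq_nonneg _
    rw [Real.dist_eq, sub_zero, ← mul_sub, abs_mul, abs_of_pos (show 0 < 1 / T by positivity),
      ← intervalIntegral.integral_sub iG' iB]
    have hpt : ∀ t : ℝ, |(G T t) ^ 2 - (B T t) ^ 2| ≤
        (1 + 1 / δ) * (2 * (G T t - A T t) ^ 2 + 2 * (A T t + B T t) ^ 2) + δ * (B T t) ^ 2 := by
      intro t
      refine (SECL.sq_diff _ _ δ hδ0).trans ?_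
      have h6 : (G T t + B T t) ^ 2 ≤ 2 * (G T t - A T t) ^ 2 + 2 * (A T t + B T t) ^ 2 := by
        nlinarith [sq_nonneg ((G T t - A T t) - (A T t + B T t))]
      have h7 : 0 ≤ 1 + 1 / δ := by positivity
      have h8 := mul_le_mul_of_nonneg_left h6 h7
      linarith
    have h5 : |∫ t in (T + 2 * Real.log T + 1)..(2 * T - 2 * Real.log T - 1),
        ((G T t) ^ 2 - (B T t) ^ 2)| ≤
        (1 + 1 / δ) * (2 * (∫ t in T..(2 * T), (G T t - A T t) ^ 2) +
          2 * ∫ t in (T + 2 * Real.log T + 1)..(2 * T - 2 * Real.log T - 1), (A T t + B T t) ^ 2) +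
        δ * ∫ t in (T + 2 * Real.log T + 1)..(2 * T - 2 * Real.log T - 1), (B T t) ^ 2 := by
      refine (intervalIntegral.abs_integral_le_integral_abs hab).trans ?_
      have h6 : ∫ t in (T + 2 * Real.log T + 1)..(2 * T - 2 * Real.log T - 1),
          |(G T t) ^ 2 - (B T t) ^ 2| ≤
          (1 + 1 / δ) * (2 * (∫ t in (T + 2 * Real.log T + 1)..(2 * T - 2 * Real.log T - 1),
            (G T t - A T t) ^ 2) +
          2 * ∫ t in (T + 2 * Real.log T + 1)..(2 * T - 2 * Real.log T - 1), (A T t + B T t) ^ 2) +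
          δ * ∫ t in (T + 2 * Real.log T + 1)..(2 * T - 2 * Real.log T - 1), (B T t) ^ 2 := by
        rw [← intervalIntegral.integral_const_mul, ← intervalIntegral.integral_const_mul,
          ← intervalIntegral.integral_const_mul,
          ← intervalIntegral.integral_add (iGA'.const_mul _) (iE.const_mul _),
          ← intervalIntegral.integral_const_mul,
          ← intervalIntegral.integral_add (((iGA'.const_mul _).add (iE.const_mul _)).const_mul _)
            (iB.const_mul _)]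
        exact intervalIntegral.integral_mono_on hab (iG'.sub iB).abs
          ((((iGA'.const_mul _).add (iE.const_mul _)).const_mul _).add (iB.const_mul _))
          fun t _ => hpt t
      refine h6.trans ?_
      have h7 : 0 ≤ 1 + 1 / δ := by positivity
      have h8 := mul_le_mul_of_nonneg_left hGAle h7
      linarith
    calc 1 / T * _ ≤ 1 / T * ((1 + 1 / δ) * (2 * (∫ t in T..(2 * T), (G T t - A T t) ^ 2) +
          2 * ∫ t in (T + 2 * Real.log T + 1)..(2 * T - 2 * Real.log T - 1), (A T t + B T t) ^ 2) +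
        δ * ∫ t in (T + 2 * Real.log T + 1)..(2 * T - 2 * Real.log T - 1), (B T t) ^ 2) := by gcongr
      _ = (1 + 1 / δ) * (2 * (1 / T * ∫ t in T..(2 * T), (G T t - A T t) ^ 2) +
          2 * (1 / T * ∫ t in (T + 2 * Real.log T + 1)..(2 * T - 2 * Real.log T - 1),
            (A T t + B T t) ^ 2)) +
        δ * (1 / T * ∫ t in (T + 2 * Real.log T + 1)..(2 * T - 2 * Real.log T - 1),
          (B T t) ^ 2) := by ring
      _ ≤ ε / 4 + δ * (|v| + 1) := by
          refine add_le_add e.le ?_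
          exact mul_le_mul_of_nonneg_left d.le hδ0.le
      _ < ε := by rw [hδ1]; linarith
  -- the ends
  have ends : Tendsto (fun T : ℝ => (1 / T * ∫ t in T..(2 * T), (G T t) ^ 2) -
      (1 / T * ∫ t in (T + 2 * Real.log T + 1)..(2 * T - 2 * Real.log T - 1), (G T t) ^ 2))
      atTop (𝓝 0) := by
    refine squeeze_zero_norm' ?_ hMl
    filter_upwards [hGm, hGb, logT2] with T gm gb b
    obtain ⟨b1, b2, b3⟩ := b
    have hT : (0 : ℝ) < T := by linarith
    have iG := bdint (f := fun t => (G T t) ^ 2) (gm.pow 2) (M := M T ^ 2) (fun t ht1 ht2 => by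
      change |G T t ^ 2| ≤ _
      rw [abs_pow]
      exact pow_le_pow_left₀ (abs_nonneg _) (gb t ht1 ht2) 2)
    have hbd : ∀ t : ℝ, T ≤ t → t ≤ 2 * T → (G T t) ^ 2 ≤ M T ^ 2 := by
      intro t ht1 ht2
      rw [← sq_abs]
      exact pow_le_pow_left₀ (abs_nonneg _) (gb t ht1 ht2) 2
    have hpiece : ∀ u v : ℝ, T ≤ u → u ≤ v → v ≤ 2 * T → v - u = 2 * Real.log T + 1 →
        0 ≤ ∫ t in u..v, (G T t) ^ 2 ∧
        ∫ t in u..v, (G T t) ^ 2 ≤ (2 * Real.log T + 1) * M T ^ 2 := by
      intro u v hu huv hv huv2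
      refine ⟨intervalIntegral.integral_nonneg huv fun t _ => sq_nonneg _, ?_⟩
      have h2 := intervalIntegral.integral_mono_on huv (iG u v hu huv hv)
        (intervalIntegrable_const (c := M T ^ 2) (μ := volume) (a := u) (b := v))
        (fun t ht => hbd t (hu.trans ht.1) (ht.2.trans hv))
      rw [intervalIntegral.integral_const, smul_eq_mul, huv2] at h2
      exact h2
    have hsplit : ∫ t in T..(2 * T), (G T t) ^ 2 =
        (∫ t in T..(T + 2 * Real.log T + 1), (G T t) ^ 2) +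
        (∫ t in (T + 2 * Real.log T + 1)..(2 * T - 2 * Real.log T - 1), (G T t) ^ 2) +
        ∫ t in (2 * T - 2 * Real.log T - 1)..(2 * T), (G T t) ^ 2 := by
      have i1 := iG T (T + 2 * Real.log T + 1) le_rfl (by linarith) (by linarith)
      have i2 := iG (T + 2 * Real.log T + 1) (2 * T - 2 * Real.log T - 1) (by linarith) (by linarith)
        (by linarith)
      have i3 := iG (2 * T - 2 * Real.log T - 1) (2 * T) (by linarith) (by linarith) le_rfl
      have i4 := iG T (2 * T - 2 * Real.log T - 1) le_rfl (by linarith) (by linarith)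
      have e1 := intervalIntegral.integral_add_adjacent_intervals i1 i2
      have e2 := intervalIntegral.integral_add_adjacent_intervals i4 i3
      change _ = (∫ t in T..(T + 2 * Real.log T + 1), (fun t => G T t ^ 2) t) +
        (∫ t in (T + 2 * Real.log T + 1)..(2 * T - 2 * Real.log T - 1), (fun t => G T t ^ 2) t) +
        ∫ t in (2 * T - 2 * Real.log T - 1)..(2 * T), (fun t => G T t ^ 2) t
      linarith
    obtain ⟨p1, p2⟩ := hpiece T (T + 2 * Real.log T + 1) le_rfl (by linarith) (by linarith) (by ring)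
    obtain ⟨q1, q2⟩ := hpiece (2 * T - 2 * Real.log T - 1) (2 * T) (by linarith) (by linarith) le_rfl
      (by ring)
    rw [Real.norm_eq_abs, ← mul_sub, hsplit, abs_mul, abs_of_pos (show 0 < 1 / T by positivity)]
    have h3 : ∀ x y z : ℝ, x + y + z - y = x + z := fun x y z => by ring
    rw [h3, abs_of_nonneg (add_nonneg p1 q1)]
    calc 1 / T * _ ≤ 1 / T * ((2 * Real.log T + 1) * M T ^ 2 +
          (2 * Real.log T + 1) * M T ^ 2) := by gcongr
      _ = _ := by ring
  have h5 := (ends.add key).add hB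
  rw [zero_add, zero_add] at h5
  refine h5.congr fun T => ?_
  ring

end SCFL

open SCFL in
theorem t_SCF (hS : S_SCL) (hA : S_ADF) (hC : S_STC) (hL : S_STL) (hE : S_EDG) (hM : S_MEF) :
    S_SCF := by
  intro ι _ a c hc h h0 h1
  obtain ⟨N, hN⟩ := hS h h0 h1
  obtain ⟨⟨V, hV, hAd⟩, hsg⟩ := hA ι a c hc h N h0 h1 hN
  obtain ⟨C1, hC1, hstc⟩ := hC ι a c hc
  obtain ⟨C2, K, T0, hC2, hK, hT0, hstl⟩ := hL ι a c hc
  obtain ⟨C3, hC3, hmef⟩ := hM ι a c hc
  have hpos := SECL.pos_ev h1
  have hσ0 : ∀ᶠ T : ℝ in atTop, 0 < sgm (h T) T := hN.s0.eventually (eventually_gt_atTop 0)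
  have hai : ∀ᶠ T : ℝ in atTop, ∀ i, |a i * h T| ≤ 1 / 2 := by
    rw [eventually_all]
    intro i
    have h2 : Tendsto (fun T => |a i * h T|) atTop (𝓝 0) := by
      have := (h0.const_mul (a i)).abs
      simpa using this
    filter_upwards [h2.eventually (gt_mem_nhds (show (0 : ℝ) < 1 / 2 by norm_num))] with T hT
    exact hT.le
  refine lim2 (fun T t => XF (F0 a c (h T) (sgm (h T) T)) T t)
    (fun T t => XF (Ft a c (h T) (h T / 2 ^ N T) (sgm (h T) T)) T t)
    (fun T t => BB (Ft a c (h T) (h T / 2 ^ N T) (sgm (h T) T)) (Real.log T / 4) t) (QQ a c / 2)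
    (fun T => C3 * Real.log T / sgm (h T) T) ?_ ?_ ?_ ?_ ?_ ?_ ?_ ?_ ?_
  · filter_upwards [hpos, hσ0, hai, logT2] with T a1 a2 a3 a4
    exact (hmef (h T) (sgm (h T) T) T a4.2.2 a1 a3 a2).1
  · filter_upwards [hpos, hσ0, hai, logT2] with T a1 a2 a3 a4
    exact (hmef (h T) (sgm (h T) T) T a4.2.2 a1 a3 a2).2
  · have hl3 : Tendsto (fun x : ℝ => 6 * C3 ^ 2 * (Real.log x ^ 3 / x)) atTop (𝓝 0) := by
      have h2 := (Real.isLittleO_pow_log_id_atTop (n := 3)).tendsto_div_nhds_zero
      have h3 := h2.const_mul (6 * C3 ^ 2)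
      rw [mul_zero] at h3
      exact h3
    refine squeeze_zero' ?_ ?_ hl3
    · filter_upwards [logT2] with T a4
      obtain ⟨b1, b2, b3⟩ := a4
      have hT : (0 : ℝ) < T := by linarith
      positivity
    · filter_upwards [logT2, hN.s0.eventually (eventually_ge_atTop 1)] with T a4 a5
      obtain ⟨b1, b2, b3⟩ := a4
      have hT : (0 : ℝ) < T := by linarith
      have h2 : (C3 * Real.log T / sgm (h T) T) ^ 2 ≤ (C3 * Real.log T) ^ 2 := by
        apply pow_le_pow_left₀ (by positivity)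
        exact div_le_self (by positivity) a5
      have h3 : 2 * (2 * Real.log T + 1) * (C3 * Real.log T / sgm (h T) T) ^ 2 ≤
          (6 * Real.log T) * (C3 * Real.log T) ^ 2 :=
        mul_le_mul (by linarith) h2 (by positivity) (by positivity)
      calc _ ≤ (6 * Real.log T) * (C3 * Real.log T) ^ 2 / T := by gcongr
        _ = _ := by ring
  · filter_upwards [hAd 1 one_pos, logT2] with T a1 a4
    exact XF_contOn a1.c2 (by linarith [a4.2.2])
  · filter_upwards [hAd 1 one_pos, logT2] with T a1 a4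
    exact t_BBC _ a1.c2 _ (by linarith [a4.1])
  · rw [Metric.tendsto_nhds]
    intro ε hε
    obtain ⟨η, T1, hη, hη1, hT1, hB⟩ := t_BBV V (ε / 4) hV (by positivity)
    rw [Metric.tendsto_nhds] at hsg
    filter_upwards [hAd η hη, hsg (ε / 4) (by positivity), eventually_ge_atTop T1] with T a1 a2 a3
    have hT : (0 : ℝ) < T := by linarith
    have h2 := hB T a3 _ a1
    rw [Real.dist_eq] at a2 ⊢
    obtain ⟨I, hI⟩ : ∃ I : ℝ, I = ∫ t in (T + 2 * Real.log T)..(2 * T - 2 * Real.log T),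
      (BB (Ft a c (h T) (h T / 2 ^ N T) (sgm (h T) T)) (Real.log T / 4) t) ^ 2 := ⟨_, rfl⟩
    rw [← hI] at h2
    change |1 / T * (∫ t in (T + 2 * Real.log T)..(2 * T - 2 * Real.log T),
      (BB (Ft a c (h T) (h T / 2 ^ N T) (sgm (h T) T)) (Real.log T / 4) t) ^ 2) - QQ a c / 2| < ε
    rw [← hI]
    have h3 : 1 / T * I - QQ a c / 2 = 1 / T * (I - T * sg (Ft a c (h T) (h T / 2 ^ N T) (sgm (h T) T))) +
        (sg (Ft a c (h T) (h T / 2 ^ N T) (sgm (h T) T)) - QQ a c / 2) := by
      field_simp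
      ring
    rw [h3]
    refine (abs_add_le _ _).trans_lt ?_
    rw [abs_mul, abs_of_pos (show 0 < 1 / T by positivity)]
    have h4 : 1 / T * |I - T * sg (Ft a c (h T) (h T / 2 ^ N T) (sgm (h T) T))| ≤ ε / 4 := by
      calc 1 / T * _ ≤ 1 / T * (ε / 4 * T) := by gcongr
        _ = ε / 4 := by field_simp
    linarith
  · intro ε hε
    obtain ⟨η, T1, hη, hη1, hT1, hB⟩ := hE V ε hV hε
    filter_upwards [hAd η hη, eventually_ge_atTop T1] with T a1 a3
    exact hB T a3 _ a1
  · have h2 : Tendsto (fun T : ℝ => C2 * ((1 / (h T / 2 ^ N T * Real.log T) ^ 2 + h T ^ 2) /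
        sgm (h T) T ^ 2)) atTop (𝓝 0) := by
      have h3 : Tendsto (fun T : ℝ => 1 / (h T / 2 ^ N T * Real.log T) ^ 2) atTop (𝓝 0) := by
        have h4 : Tendsto (fun T : ℝ => (h T / 2 ^ N T * Real.log T) ^ 2) atTop atTop :=
          (tendsto_pow_atTop (by norm_num)).comp hN.inf
        exact tendsto_const_nhds.div_atTop h4
      have h5 : Tendsto (fun T : ℝ => h T ^ 2) atTop (𝓝 0) := by
        have := h0.pow 2
        simpa using this
      have h6 : Tendsto (fun T : ℝ => sgm (h T) T ^ 2) atTop atTop :=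
        (tendsto_pow_atTop (by norm_num)).comp hN.s0
      have := ((h3.add h5).div_atTop h6).const_mul C2
      simpa using this
    refine squeeze_zero' ?_ ?_ h2
    · filter_upwards [logT2] with T a4
      obtain ⟨b1, b2, b3⟩ := a4
      have hT : (0 : ℝ) < T := by linarith
      refine mul_nonneg (by positivity)
        (intervalIntegral.integral_nonneg (by linarith) fun t _ => sq_nonneg _)
    · filter_upwards [eventually_ge_atTop T0, hN.inf.eventually (eventually_ge_atTop K),
        h0.eventually (gt_mem_nhds (show (0 : ℝ) < 1 / K by positivity)), hσ0] with T a1 a2 a3 a4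
      have hT : (0 : ℝ) < T := by linarith
      have h3 := hstl T a1 (h T) (sgm (h T) T) (N T) a2 a3.le a4
      calc 1 / T * _ ≤ 1 / T * (C2 * T * (1 / (h T / 2 ^ N T * Real.log T) ^ 2 + h T ^ 2) /
            sgm (h T) T ^ 2) := by gcongr
        _ = _ := by field_simp
  · have h2 : Tendsto (fun T : ℝ => C1 * ((h T / 2 ^ N T * Real.log T) ^ 2 / sgm (h T) T ^ 2))
        atTop (𝓝 0) := by
      have := hN.sm.const_mul C1
      simpa using this
    refine squeeze_zero' ?_ ?_ h2
    · filter_upwards [logT2] with T a4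
      obtain ⟨b1, b2, b3⟩ := a4
      have hT : (0 : ℝ) < T := by linarith
      refine mul_nonneg (by positivity)
        (intervalIntegral.integral_nonneg (by linarith) fun t _ => sq_nonneg _)
    · have hws : ∀ᶠ T : ℝ in atTop, h T / 2 ^ N T ≤ h T := by
        filter_upwards [hpos] with T a1
        exact div_le_self a1.le (one_le_pow₀ (by norm_num))
      filter_upwards [hstc h (fun T => h T / 2 ^ N T) (fun T => sgm (h T) T) h0 hN.inf hws hσ0,
        logT2] with T a1 a4
      have hT : (0 : ℝ) < T := by linarith [a4.2.2]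
      calc 1 / T * _ ≤ 1 / T * (C1 * T * (h T / 2 ^ N T * Real.log T) ^ 2 / sgm (h T) T ^ 2) := by
            gcongr
        _ = _ := by field_simp

end Pool.Agent.H493.EN
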