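import Pool.Agent.H493.EN.Stc

set_option autoImplicit false

/-! (SCL) choice of the smoothing width. -/

open Complex Filter Topology Set MeasureTheory

namespace Pool.Agent.H493.EN

open Pool.Agent.H203.ME

namespace SCLL

/-- the width in units of `1 / log T` -/
noncomputable def rr (H : ℝ) : ℝ := Real.sqrt (Real.sqrt (Real.log H))

/-- the exponent -/
noncomputable def NN (H : ℝ) : ℕ := ⌊Real.logb 2 (H / rr H)⌋₊

theorem log_inf : Tendsto Real.log atTop atTop := Real.tendsto_log_atTop

theorem rr_inf : Tendsto rr atTop atTop :=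
  Real.tendsto_sqrt_atTop.comp (Real.tendsto_sqrt_atTop.comp Real.tendsto_log_atTop)

/-- the basic estimate -/
theorem basic : ∀ᶠ H : ℝ in atTop, 1 ≤ Real.log H ∧ 1 ≤ rr H ∧ rr H ≤ H / 2 ^ NN H ∧
    H / 2 ^ NN H ≤ 2 * rr H ∧ 0 < H := by
  filter_upwards [eventually_ge_atTop (Real.exp 1), eventually_gt_atTop (0 : ℝ)] with H hH hH0
  have h1 : 1 ≤ Real.log H := by
    rw [Real.le_log_iff_exp_le hH0]
    exact hH
  have h2 : 1 ≤ Real.sqrt (Real.log H) := by
    rw [Real.one_le_sqrt]
    exact h1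
  have h3 : 1 ≤ rr H := by
    unfold rr
    rw [Real.one_le_sqrt]
    exact h2
  have hr0 : 0 < rr H := by linarith
  have h4 : rr H ≤ H := by
    have e1 : Real.sqrt (Real.log H) ≤ Real.log H := by
      rw [Real.sqrt_le_left (by linarith)]
      nlinarith
    have e2 : rr H ≤ Real.sqrt (Real.log H) := by
      unfold rr
      rw [Real.sqrt_le_left (by linarith)]
      nlinarith
    have e3 : Real.log H ≤ H := by
      have := Real.log_le_sub_one_of_pos hH0
      linarith
    linarith
  have h5 : 1 ≤ H / rr H := by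
    rw [le_div_iff₀ hr0]
    linarith
  have h6 : 0 ≤ Real.logb 2 (H / rr H) := Real.logb_nonneg (by norm_num) h5
  have h7 : (NN H : ℝ) ≤ Real.logb 2 (H / rr H) := Nat.floor_le h6
  have h8 : Real.logb 2 (H / rr H) < (NN H : ℝ) + 1 := Nat.lt_floor_add_one _
  have hq : 0 < H / rr H := by positivity
  have h9 : (2 : ℝ) ^ NN H ≤ H / rr H := by
    have := (Real.le_logb_iff_rpow_le (b := 2) (by norm_num) hq).1 h7
    rwa [Real.rpow_natCast] at this
  have h10 : H / rr H ≤ 2 ^ NN H * 2 := by
    have := (Real.logb_lt_iff_lt_rpow (b := 2) (by norm_num) hq).1 h8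
    rw [Real.rpow_add_one (by norm_num), Real.rpow_natCast] at this
    exact this.le
  have hp : (0 : ℝ) < 2 ^ NN H := by positivity
  refine ⟨h1, h3, ?_, ?_, hH0⟩
  · rw [le_div_iff₀ hp]
    rw [le_div_iff₀ hr0] at h9
    linarith
  · rw [div_le_iff₀ hp]
    rw [div_le_iff₀ hr0] at h10
    linarith

theorem inf' : Tendsto (fun H : ℝ => H / 2 ^ NN H) atTop atTop :=
  tendsto_atTop_mono' _ (basic.mono fun _ h => h.2.2.1) rr_inf

theorem sq4 (H : ℝ) : rr H ^ 2 = Real.sqrt (Real.log H) := by
  unfold rr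
  rw [Real.sq_sqrt (Real.sqrt_nonneg _)]

theorem sm' : Tendsto (fun H : ℝ => (H / 2 ^ NN H) ^ 2 / (Real.sqrt (Real.log H) / Real.pi) ^ 2)
    atTop (𝓝 0) := by
  have h0 : Tendsto (fun H : ℝ => (4 * Real.pi ^ 2) / Real.sqrt (Real.log H)) atTop (𝓝 0) :=
    tendsto_const_nhds.div_atTop (Real.tendsto_sqrt_atTop.comp Real.tendsto_log_atTop)
  refine tendsto_of_tendsto_of_tendsto_of_le_of_le' tendsto_const_nhds h0 ?_ ?_
  · exact Eventually.of_forall fun H => by positivity
  · filter_upwards [basic] with H ⟨h1, h2, h3, h4, h5⟩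
    have hs : 1 ≤ Real.sqrt (Real.log H) := by
      rw [Real.one_le_sqrt]
      exact h1
    have hs0 : 0 < Real.sqrt (Real.log H) := by linarith
    have hpi := Real.pi_pos
    have e1 : (H / 2 ^ NN H) ^ 2 ≤ (2 * rr H) ^ 2 :=
      pow_le_pow_left₀ (by linarith) h4 2
    have e2 : (2 * rr H) ^ 2 = 4 * Real.sqrt (Real.log H) := by
      rw [mul_pow, sq4 H]
      ring
    have e3 : (4 * Real.pi ^ 2) / Real.sqrt (Real.log H) =
        (4 * Real.sqrt (Real.log H)) / (Real.sqrt (Real.log H) / Real.pi) ^ 2 := by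
      field_simp
    rw [e3]
    refine div_le_div_of_nonneg_right ?_ (by positivity)
    rw [← e2]
    exact e1

theorem lg' : Tendsto (fun H : ℝ => Real.log (2 ^ NN H) / (Real.sqrt (Real.log H) / Real.pi) ^ 2)
    atTop (𝓝 (Real.pi ^ 2)) := by
  have h0 : Tendsto (fun H : ℝ => Real.pi ^ 2 - (2 * Real.pi ^ 2) * (rr H / Real.log H)) atTop
      (𝓝 (Real.pi ^ 2)) := by
    have e : Tendsto (fun H : ℝ => rr H / Real.log H) atTop (𝓝 0) := by
      have e1 : Tendsto (fun H : ℝ => (Real.sqrt (Real.log H))⁻¹) atTop (𝓝 0) :=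
        tendsto_inv_atTop_zero.comp (Real.tendsto_sqrt_atTop.comp Real.tendsto_log_atTop)
      refine tendsto_of_tendsto_of_tendsto_of_le_of_le' tendsto_const_nhds e1 ?_ ?_
      · filter_upwards [basic] with H ⟨h1, h2, h3, h4, h5⟩
        positivity
      · filter_upwards [basic] with H ⟨h1, h2, h3, h4, h5⟩
        have hs : 1 ≤ Real.sqrt (Real.log H) := by
          rw [Real.one_le_sqrt]
          exact h1
        have e2 : rr H ≤ Real.sqrt (Real.log H) := by
          unfold rr
          rw [Real.sqrt_le_left (by linarith)]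
          nlinarith
        have e3 : Real.log H = Real.sqrt (Real.log H) * Real.sqrt (Real.log H) :=
          (Real.mul_self_sqrt (by linarith)).symm
        rw [div_le_iff₀ (by linarith)]
        have e4 : (Real.sqrt (Real.log H))⁻¹ * Real.log H = Real.sqrt (Real.log H) := by
          rw [e3, Real.sqrt_mul_self (by positivity), ← mul_assoc, inv_mul_cancel₀ (by positivity),
            one_mul]
        rw [e4]
        exact e2
    have h1 := (e.const_mul (2 * Real.pi ^ 2)).const_sub (Real.pi ^ 2)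
    rwa [mul_zero, sub_zero] at h1
  refine tendsto_of_tendsto_of_tendsto_of_le_of_le' h0 tendsto_const_nhds ?_ ?_
  · filter_upwards [basic] with H ⟨h1, h2, h3, h4, h5⟩
    have hp : (0 : ℝ) < 2 ^ NN H := by positivity
    have hpi := Real.pi_pos
    have hl0 : 0 < Real.log H := by linarith
    have e1 : Real.log (2 ^ NN H) = Real.log H - Real.log (H / 2 ^ NN H) := by
      rw [Real.log_div h5.ne' hp.ne']
      ring
    have e2 : Real.log (H / 2 ^ NN H) ≤ 2 * rr H := by
      have hq : 0 < H / 2 ^ NN H := by positivity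
      have := Real.log_le_sub_one_of_pos hq
      linarith
    have e3 : (Real.sqrt (Real.log H) / Real.pi) ^ 2 = Real.log H / Real.pi ^ 2 := by
      rw [div_pow, Real.sq_sqrt hl0.le]
    rw [e3, le_div_iff₀ (by positivity), e1]
    have e4 : (Real.pi ^ 2 - 2 * Real.pi ^ 2 * (rr H / Real.log H)) *
        (Real.log H / Real.pi ^ 2) = Real.log H - 2 * rr H := by
      field_simp
    rw [e4]
    linarith
  · filter_upwards [basic] with H ⟨h1, h2, h3, h4, h5⟩
    have hp : (0 : ℝ) < 2 ^ NN H := by positivity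
    have hpi := Real.pi_pos
    have hl0 : 0 < Real.log H := by linarith
    have e1 : Real.log (2 ^ NN H) = Real.log H - Real.log (H / 2 ^ NN H) := by
      rw [Real.log_div h5.ne' hp.ne']
      ring
    have e2 : 0 ≤ Real.log (H / 2 ^ NN H) := Real.log_nonneg (by linarith)
    have e3 : (Real.sqrt (Real.log H) / Real.pi) ^ 2 = Real.log H / Real.pi ^ 2 := by
      rw [div_pow, Real.sq_sqrt hl0.le]
    rw [e3, div_le_iff₀ (by positivity), e1]
    have e4 : Real.pi ^ 2 * (Real.log H / Real.pi ^ 2) = Real.log H := by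
      field_simp
    rw [e4]
    linarith

theorem s0' : Tendsto (fun H : ℝ => Real.sqrt (Real.log H) / Real.pi) atTop atTop :=
  (Real.tendsto_sqrt_atTop.comp Real.tendsto_log_atTop).atTop_div_const Real.pi_pos

end SCLL

theorem t_SCL : S_SCL := by
  intro h _ hH
  have hpos : ∀ᶠ T in atTop, 0 < h T * Real.log T := hH.eventually (eventually_gt_atTop 0)
  have hl : ∀ᶠ T : ℝ in atTop, 0 < Real.log T := Real.tendsto_log_atTop.eventually (eventually_gt_atTop 0)
  refine ⟨fun T => SCLL.NN (h T * Real.log T), ?_, ?_, ?_, ?_⟩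
  · have h1 := SCLL.inf'.comp hH
    refine h1.congr fun T => ?_
    show h T * Real.log T / 2 ^ SCLL.NN (h T * Real.log T) = _
    ring
  · have h1 := SCLL.sm'.comp hH
    refine h1.congr fun T => ?_
    show (h T * Real.log T / 2 ^ SCLL.NN (h T * Real.log T)) ^ 2 /
      (Real.sqrt (Real.log (h T * Real.log T)) / Real.pi) ^ 2 = _
    have e : h T * Real.log T / 2 ^ SCLL.NN (h T * Real.log T) =
      h T / 2 ^ SCLL.NN (h T * Real.log T) * Real.log T := by ring
    rw [e]
    rfl
  · have h1 := SCLL.lg'.comp hH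
    refine h1.congr' ?_
    filter_upwards [hpos, hl] with T h2 h3
    show Real.log (2 ^ SCLL.NN (h T * Real.log T)) /
      (Real.sqrt (Real.log (h T * Real.log T)) / Real.pi) ^ 2 = _
    have h4 : h T ≠ 0 := by
      intro h5
      rw [h5, zero_mul] at h2
      exact lt_irrefl _ h2
    have e : h T / (h T / 2 ^ SCLL.NN (h T * Real.log T)) = 2 ^ SCLL.NN (h T * Real.log T) := by
      field_simp
    rw [e]
    rfl
  · exact SCLL.s0'.comp hH

end Pool.Agent.H493.EN
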