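import Pool.Agent.H493.EN.Stw

set_option autoImplicit false

open Complex Filter Topology Set MeasureTheory

namespace Pool.Agent.H493.EN

namespace STAL

/-- second derivative of the smooth transition -/
noncomputable def S2 : ℝ → ℝ := deriv (deriv Real.smoothTransition)

lemma S_cd : ContDiff ℝ 3 Real.smoothTransition := by
  have h : ContDiff ℝ ((3 : ℕ∞) : WithTop ℕ∞) Real.smoothTransition := Real.smoothTransition.contDiff
  exact_mod_cast h

lemma S1_cd : ContDiff ℝ 2 (deriv Real.smoothTransition) := by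
  have h := S_cd
  have h3 : (3 : WithTop ℕ∞) = 2 + 1 := by norm_num
  rw [h3, contDiff_succ_iff_deriv] at h
  exact h.2.2

lemma S2_cd : ContDiff ℝ 1 S2 := by
  have h := S1_cd
  have h3 : (2 : WithTop ℕ∞) = 1 + 1 := by norm_num
  rw [h3, contDiff_succ_iff_deriv] at h
  exact h.2.2

lemma S2_cont : Continuous S2 := S2_cd.continuous

lemma S1_left {x : ℝ} (h : x < 0) : deriv Real.smoothTransition x = 0 := by
  have : Real.smoothTransition =ᶠ[𝓝 x] fun _ => (0 : ℝ) := by
    filter_upwards [Iio_mem_nhds h] with y hy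
    exact Real.smoothTransition.zero_of_nonpos (le_of_lt hy)
  rw [this.deriv_eq]; simp

lemma S1_right {x : ℝ} (h : 1 < x) : deriv Real.smoothTransition x = 0 := by
  have : Real.smoothTransition =ᶠ[𝓝 x] fun _ => (1 : ℝ) := by
    filter_upwards [Ioi_mem_nhds h] with y hy
    exact Real.smoothTransition.one_of_one_le (le_of_lt hy)
  rw [this.deriv_eq]; simp

lemma S2_left {x : ℝ} (h : x < 0) : S2 x = 0 := by
  have : deriv Real.smoothTransition =ᶠ[𝓝 x] fun _ => (0 : ℝ) := by
    filter_upwards [Iio_mem_nhds h] with y hy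
    exact S1_left hy
  unfold S2
  rw [this.deriv_eq]; simp

lemma S2_right {x : ℝ} (h : 1 < x) : S2 x = 0 := by
  have : deriv Real.smoothTransition =ᶠ[𝓝 x] fun _ => (0 : ℝ) := by
    filter_upwards [Ioi_mem_nhds h] with y hy
    exact S1_right hy
  unfold S2
  rw [this.deriv_eq]; simp

lemma S2_cpt : HasCompactSupport S2 := by
  apply HasCompactSupport.intro (isCompact_Icc (a := (0 : ℝ)) (b := 1))
  intro x hx
  simp only [Set.mem_Icc, not_and_or, not_le] at hx
  rcases hx with hx | hx
  · exact S2_left hx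
  · exact S2_right hx

lemma S2_int : Integrable S2 := S2_cont.integrable_of_hasCompactSupport S2_cpt

lemma int_scale (b w : ℝ) (hw : 0 < w) :
    ∫ x : ℝ, |S2 ((x - b) / w)| = w * ∫ x : ℝ, |S2 x| := by
  have h1 : ∫ x : ℝ, |S2 ((x - b) / w)| = ∫ x : ℝ, |S2 (x / w)| :=
    integral_sub_right_eq_self (fun y : ℝ => |S2 (y / w)|) b
  rw [h1]
  have h2 := Measure.integral_comp_div (fun y : ℝ => |S2 y|) w
  rw [h2, abs_of_pos hw, smul_eq_mul]

lemma int_able (b w : ℝ) (hw : 0 < w) : Integrable (fun x : ℝ => |S2 ((x - b) / w)|) := by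
  have h1 : Integrable (fun x : ℝ => |S2 x|) := S2_int.abs
  have h2 : Integrable (fun x : ℝ => |S2 (x / w)|) := h1.comp_div hw.ne'
  exact h2.comp_sub_right b

lemma d1 (b w x : ℝ) (hw : 0 < w) :
    HasDerivAt (fun x => Real.smoothTransition ((x - b) / w))
      (deriv Real.smoothTransition ((x - b) / w) / w) x := by
  have h0 : HasDerivAt Real.smoothTransition (deriv Real.smoothTransition ((x - b) / w))
      ((x - b) / w) :=
    ((S_cd.differentiable (by norm_num)) _).hasDerivAt
  have h1 : HasDerivAt (fun x : ℝ => (x - b) / w) (1 / w) x :=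
    ((hasDerivAt_id x).sub_const b).div_const w
  have := h0.comp x h1
  simpa [div_eq_mul_inv, Function.comp_def] using this

lemma d2 (b w x : ℝ) (hw : 0 < w) :
    HasDerivAt (fun x => deriv Real.smoothTransition ((x - b) / w))
      (S2 ((x - b) / w) / w) x := by
  have h0 : HasDerivAt (deriv Real.smoothTransition) (S2 ((x - b) / w))
      ((x - b) / w) :=
    ((S1_cd.differentiable (by norm_num)) _).hasDerivAt
  have h1 : HasDerivAt (fun x : ℝ => (x - b) / w) (1 / w) x :=
    ((hasDerivAt_id x).sub_const b).div_const w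
  have := h0.comp x h1
  simpa [div_eq_mul_inv, Function.comp_def] using this

variable {ι : Type} [Fintype ι]

lemma dF1 (a c : ι → ℝ) (s w σ : ℝ) (hw : 0 < w) :
    deriv (Ft a c s w σ) =
      fun x => (∑ i, c i * (deriv Real.smoothTransition ((x - a i * s) / w) / w)) / σ := by
  funext x
  apply HasDerivAt.deriv
  unfold Ft
  apply HasDerivAt.div_const
  apply HasDerivAt.fun_sum
  intro i _
  exact (d1 (a i * s) w x hw).const_mul (c i)

lemma dF2 (a c : ι → ℝ) (s w σ : ℝ) (hw : 0 < w) :
    deriv (deriv (Ft a c s w σ)) =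
      fun x => (∑ i, c i * (S2 ((x - a i * s) / w) / w / w)) / σ := by
  rw [dF1 a c s w σ hw]
  funext x
  apply HasDerivAt.deriv
  apply HasDerivAt.div_const
  apply HasDerivAt.fun_sum
  intro i _
  exact ((d2 (a i * s) w x hw).div_const w).const_mul (c i)

lemma cdF (a c : ι → ℝ) (s w σ : ℝ) : ContDiff ℝ 2 (Ft a c s w σ) := by
  unfold Ft
  apply ContDiff.div_const
  apply ContDiff.sum
  intro i _
  apply ContDiff.mul contDiff_const
  have h : ContDiff ℝ 2 Real.smoothTransition := S_cd.of_le (by norm_num)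
  exact h.comp ((contDiff_id.sub contDiff_const).div_const w)

lemma F_abs (a c : ι → ℝ) (s w σ : ℝ) (hσ : 0 < σ) (x : ℝ) :
    |Ft a c s w σ x| ≤ (∑ i, |c i|) / σ := by
  unfold Ft
  rw [abs_div, abs_of_pos hσ]
  apply div_le_div_of_nonneg_right _ hσ.le
  refine (Finset.abs_sum_le_sum_abs _ _).trans (Finset.sum_le_sum fun i _ => ?_)
  rw [abs_mul]
  have h1 := Real.smoothTransition.nonneg ((x - a i * s) / w)
  have h2 := Real.smoothTransition.le_one ((x - a i * s) / w)
  rw [abs_of_nonneg h1]
  have h3 := abs_nonneg (c i)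
  nlinarith

lemma F_zero (a c : ι → ℝ) (hc : ∑ i, c i = 0) (s w σ : ℝ) (hw : 0 < w) (hws : w ≤ s)
    (x : ℝ) (hx : (∑ i, |a i| + 1) * s ≤ |x|) : Ft a c s w σ x = 0 := by
  have hs : 0 < s := hw.trans_le hws
  have hai : ∀ i, |a i * s| ≤ (∑ i, |a i|) * s := by
    intro i
    rw [abs_mul, abs_of_pos hs]
    exact mul_le_mul_of_nonneg_right
      (Finset.single_le_sum (f := fun i => |a i|) (fun i _ => abs_nonneg _) (Finset.mem_univ i)) hs.le
  rcases le_total 0 x with h0 | h0
  · rw [abs_of_nonneg h0] at hx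
    have h : ∀ i, Real.smoothTransition ((x - a i * s) / w) = 1 := by
      intro i
      apply Real.smoothTransition.one_of_one_le
      rw [le_div_iff₀ hw]
      have := (abs_le.1 (hai i)).2
      nlinarith
    unfold Ft
    simp only [h, mul_one, hc, zero_div]
  · rw [abs_of_nonpos h0] at hx
    have h : ∀ i, Real.smoothTransition ((x - a i * s) / w) = 0 := by
      intro i
      apply Real.smoothTransition.zero_of_nonpos
      apply div_nonpos_of_nonpos_of_nonneg _ hw.le
      have := (abs_le.1 (hai i)).1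
      nlinarith
    unfold Ft
    simp only [h, mul_zero, Finset.sum_const_zero, zero_div]

lemma F_int (a c : ι → ℝ) (hc : ∑ i, c i = 0) (s w σ : ℝ) (hw : 0 < w) (hws : w ≤ s)
    (hσ : 0 < σ) :
    ∫ x : ℝ, |Ft a c s w σ x| ≤ 2 * (∑ i, |a i| + 1) * (∑ i, |c i|) * s / σ := by
  have hs : 0 < s := hw.trans_le hws
  set A := ∑ i, |a i| + 1 with hA
  have hA0 : 0 < A := by
    have : 0 ≤ ∑ i, |a i| := Finset.sum_nonneg fun i _ => abs_nonneg _
    linarith
  set B := ∑ i, |c i| with hB
  have hB0 : 0 ≤ B := Finset.sum_nonneg fun i _ => abs_nonneg _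
  have hAs : 0 < A * s := mul_pos hA0 hs
  have h1 : ∫ x : ℝ, |Ft a c s w σ x| = ∫ x in Icc (-(A * s)) (A * s), |Ft a c s w σ x| := by
    symm
    apply setIntegral_eq_integral_of_forall_compl_eq_zero
    intro x hx
    rw [F_zero a c hc s w σ hw hws x, abs_zero]
    simp only [Set.mem_Icc, not_and_or, not_le] at hx
    rcases hx with hx | hx
    · have := neg_le_abs x
      linarith
    · have := le_abs_self x
      linarith
  rw [h1]
  have h2 : ∫ x in Icc (-(A * s)) (A * s), |Ft a c s w σ x| ≤
      ∫ x in Icc (-(A * s)) (A * s), B / σ := by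
    apply setIntegral_mono_on
    · apply Continuous.integrableOn_Icc
      exact (cdF a c s w σ).continuous.abs
    · exact continuous_const.integrableOn_Icc
    · exact measurableSet_Icc
    · intro x _
      exact F_abs a c s w σ hσ x
  refine h2.trans (le_of_eq ?_)
  rw [setIntegral_const, smul_eq_mul, Real.volume_real_Icc_of_le (by linarith)]
  ring

lemma F2_int (a c : ι → ℝ) (s w σ : ℝ) (hw : 0 < w) (hσ : 0 < σ) :
    ∫ x : ℝ, |deriv (deriv (Ft a c s w σ)) x| ≤ (∑ i, |c i|) * (∫ x : ℝ, |S2 x|) / (w * σ) := by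
  rw [dF2 a c s w σ hw]
  have hint : Integrable (fun x : ℝ => (∑ i, |c i| * (|S2 ((x - a i * s) / w)| / w / w)) / σ) := by
    apply Integrable.div_const
    apply integrable_finset_sum
    intro i _
    exact (((int_able (a i * s) w hw).div_const w).div_const w).const_mul _
  have h1 : ∫ x : ℝ, |(∑ i, c i * (S2 ((x - a i * s) / w) / w / w)) / σ| ≤
      ∫ x : ℝ, (∑ i, |c i| * (|S2 ((x - a i * s) / w)| / w / w)) / σ := by
    apply integral_mono_of_nonneg
    · exact Filter.Eventually.of_forall fun x => abs_nonneg _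
    · exact hint
    · refine Filter.Eventually.of_forall fun x => ?_
      simp only
      rw [abs_div, abs_of_pos hσ]
      apply div_le_div_of_nonneg_right _ hσ.le
      refine (Finset.abs_sum_le_sum_abs _ _).trans (le_of_eq (Finset.sum_congr rfl fun i _ => ?_))
      rw [abs_mul, abs_div, abs_div, abs_of_pos hw]
  refine h1.trans (le_of_eq ?_)
  rw [integral_div, integral_finset_sum]
  · have : ∀ i : ι, ∫ x : ℝ, |c i| * (|S2 ((x - a i * s) / w)| / w / w) =
        |c i| * ((∫ x : ℝ, |S2 x|) / w) := by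
      intro i
      rw [integral_const_mul, integral_div, integral_div, int_scale _ w hw]
      field_simp
    simp only [this]
    rw [← Finset.sum_mul]
    field_simp
  · intro i _
    exact (((int_able (a i * s) w hw).div_const w).div_const w).const_mul _

end STAL

open STAL

theorem t_STA : S_STA := by
  intro ι _ a c hc
  have hA0 : 0 ≤ ∑ i, |a i| := Finset.sum_nonneg fun i _ => abs_nonneg _
  have hB0 : 0 ≤ ∑ i, |c i| := Finset.sum_nonneg fun i _ => abs_nonneg _
  have hK0 : 0 ≤ ∫ x : ℝ, |S2 x| := integral_nonneg fun x => abs_nonneg _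
  set A := ∑ i, |a i| with hA
  set B := ∑ i, |c i| with hB
  set K := ∫ x : ℝ, |S2 x| with hK
  have hAB : 0 ≤ 2 * (A + 1) * B := by positivity
  have hBK : 0 ≤ B * K := by positivity
  refine ⟨2 * (A + 1) + 2 * (A + 1) * B + B + B * K, by nlinarith, ?_⟩
  intro s w σ hw hws hsC hσ
  have hs : 0 < s := hw.trans_le hws
  refine ⟨cdF a c s w σ, ?_, ?_, ?_, ?_⟩
  · intro x hx
    apply F_zero a c hc s w σ hw hws
    rw [← hA]
    have : (A + 1) * s ≤ 1 / 2 := by nlinarith
    linarith
  · intro x
    refine (F_abs a c s w σ hσ x).trans ?_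
    apply div_le_div_of_nonneg_right _ hσ.le
    rw [← hB]
    nlinarith
  · refine (F_int a c hc s w σ hw hws hσ).trans ?_
    rw [← hA, ← hB]
    apply div_le_div_of_nonneg_right _ hσ.le
    apply mul_le_mul_of_nonneg_right _ hs.le
    nlinarith
  · refine (F2_int a c s w σ hw hσ).trans ?_
    rw [← hB, ← hK]
    apply div_le_div_of_nonneg_right _ (by positivity)
    nlinarith

end Pool.Agent.H493.EN
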