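import Pool.Agent.H493.EN.Stw

/-! The total variation bound for the transform of smoothed steps (helper441). -/

set_option autoImplicit false

open Complex Filter Topology Set MeasureTheory

namespace Pool.Agent.H493.EN

namespace STTL

/-- the explicit integrable majorant -/
lemma maj (s w C₀ : ℝ) (hw : 0 < w) (hws : w ≤ s) (hC : 0 ≤ C₀) :
    ∃ m : ℝ → ℝ, IntegrableOn m (Ioi 0) ∧
      ∫ ξ in Ioi (0 : ℝ), m ξ ≤ (6 + 6 * C₀) * s * (1 + Real.log (s / w)) ∧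
      ∀ ξ : ℝ, 0 < ξ → ∀ μ ρ : ℝ, 0 ≤ μ → μ ≤ 1 → μ ≤ s * ξ → 0 ≤ ρ → ρ ≤ 1 →
        ρ * (w * ξ) ^ 2 ≤ 1 → 3 * μ ^ 2 / ξ ^ 2 + 4 * C₀ * s * μ * ρ / ξ ≤ m ξ := by
  have hs : 0 < s := hw.trans_le hws
  have h1s : 0 < 1 / s := by positivity
  have h1w : 0 < 1 / w := by positivity
  have hsw : 1 / s ≤ 1 / w := one_div_le_one_div_of_le hw hws
  obtain ⟨f₁, hf₁⟩ : ∃ f : ℝ → ℝ, f = fun _ => (3 + 4 * C₀) * s ^ 2 := ⟨_, rfl⟩
  obtain ⟨f₂, hf₂⟩ : ∃ f : ℝ → ℝ, f = fun ξ => 3 * ξ ^ (-2 : ℝ) := ⟨_, rfl⟩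
  obtain ⟨f₃, hf₃⟩ : ∃ f : ℝ → ℝ, f = fun ξ => 4 * C₀ * s * (1 / ξ) := ⟨_, rfl⟩
  obtain ⟨f₄, hf₄⟩ : ∃ f : ℝ → ℝ, f = fun ξ => 4 * C₀ * s / w ^ 2 * ξ ^ (-3 : ℝ) := ⟨_, rfl⟩
  have i₁ : IntegrableOn f₁ (Ioc 0 (1 / s)) := by
    rw [hf₁]
    exact integrableOn_const measure_Ioc_lt_top.ne
  have i₂ : IntegrableOn f₂ (Ioi (1 / s)) := by
    rw [hf₂]
    exact (integrableOn_Ioi_rpow_of_lt (by norm_num) h1s).const_mul _
  have i₃ : IntegrableOn f₃ (Ioc (1 / s) (1 / w)) := by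
    rw [hf₃]
    have : ContinuousOn (fun ξ : ℝ => 4 * C₀ * s * (1 / ξ)) (Icc (1 / s) (1 / w)) := by
      refine continuousOn_const.mul (continuousOn_const.div continuousOn_id ?_)
      intro x hx
      exact (h1s.trans_le hx.1).ne'
    exact (this.integrableOn_Icc).mono_set Ioc_subset_Icc_self
  have i₄ : IntegrableOn f₄ (Ioi (1 / w)) := by
    rw [hf₄]
    exact (integrableOn_Ioi_rpow_of_lt (by norm_num) h1w).const_mul _
  have v₁ : ∫ ξ in Ioc 0 (1 / s), f₁ ξ = (3 + 4 * C₀) * s := by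
    rw [hf₁, setIntegral_const, smul_eq_mul]
    have : volume.real (Ioc 0 (1 / s)) = 1 / s := by
      rw [measureReal_def, Real.volume_Ioc, ENNReal.toReal_ofReal (by simpa using h1s.le)]
      ring
    rw [this]
    field_simp
  have v₂ : ∫ ξ in Ioi (1 / s), f₂ ξ = 3 * s := by
    rw [hf₂, integral_const_mul, integral_Ioi_rpow_of_lt (by norm_num) h1s]
    have e : (-2 : ℝ) + 1 = -1 := by norm_num
    rw [e, Real.rpow_neg_one]
    field_simp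
  have v₃ : ∫ ξ in Ioc (1 / s) (1 / w), f₃ ξ = 4 * C₀ * s * Real.log (s / w) := by
    rw [hf₃, integral_const_mul, ← intervalIntegral.integral_of_le hsw,
      integral_one_div_of_pos h1s h1w]
    congr 2
    field_simp
  have v₄ : ∫ ξ in Ioi (1 / w), f₄ ξ = 2 * C₀ * s := by
    rw [hf₄, integral_const_mul, integral_Ioi_rpow_of_lt (by norm_num) h1w]
    have e : (-3 : ℝ) + 1 = ((-2 : ℤ) : ℝ) := by norm_num
    rw [e, Real.rpow_intCast]
    have e2 : (1 / w) ^ (-2 : ℤ) = w ^ 2 := by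
      rw [one_div, inv_zpow', neg_neg]
      norm_cast
    rw [e2]
    push_cast
    field_simp
    norm_num
    ring
  have s₁ : Ioc 0 (1 / s) ⊆ Ioi (0 : ℝ) := fun x hx => hx.1
  have s₂ : Ioi (1 / s) ⊆ Ioi (0 : ℝ) := fun x hx => h1s.trans hx
  have s₃ : Ioc (1 / s) (1 / w) ⊆ Ioi (0 : ℝ) := fun x hx => h1s.trans hx.1
  have s₄ : Ioi (1 / w) ⊆ Ioi (0 : ℝ) := fun x hx => h1w.trans hx
  have j₁ : Integrable ((Ioc 0 (1 / s)).indicator f₁) :=
    (integrable_indicator_iff measurableSet_Ioc).2 i₁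
  have j₂ : Integrable ((Ioi (1 / s)).indicator f₂) :=
    (integrable_indicator_iff measurableSet_Ioi).2 i₂
  have j₃ : Integrable ((Ioc (1 / s) (1 / w)).indicator f₃) :=
    (integrable_indicator_iff measurableSet_Ioc).2 i₃
  have j₄ : Integrable ((Ioi (1 / w)).indicator f₄) :=
    (integrable_indicator_iff measurableSet_Ioi).2 i₄
  refine ⟨fun ξ => ((Ioc 0 (1 / s)).indicator f₁ ξ + (Ioi (1 / s)).indicator f₂ ξ) +
    ((Ioc (1 / s) (1 / w)).indicator f₃ ξ + (Ioi (1 / w)).indicator f₄ ξ),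
    ((j₁.add j₂).add (j₃.add j₄)).integrableOn, ?_, ?_⟩
  · have k₁₂ : IntegrableOn (fun ξ => (Ioc 0 (1 / s)).indicator f₁ ξ +
        (Ioi (1 / s)).indicator f₂ ξ) (Ioi 0) := (j₁.add j₂).integrableOn
    have k₃₄ : IntegrableOn (fun ξ => (Ioc (1 / s) (1 / w)).indicator f₃ ξ +
        (Ioi (1 / w)).indicator f₄ ξ) (Ioi 0) := (j₃.add j₄).integrableOn
    have e1 : ∫ ξ in Ioi (0 : ℝ), (((Ioc 0 (1 / s)).indicator f₁ ξ + (Ioi (1 / s)).indicator f₂ ξ) +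
        ((Ioc (1 / s) (1 / w)).indicator f₃ ξ + (Ioi (1 / w)).indicator f₄ ξ)) =
        ((3 + 4 * C₀) * s + 3 * s) + (4 * C₀ * s * Real.log (s / w) + 2 * C₀ * s) := by
      rw [integral_add k₁₂ k₃₄,
        integral_add j₁.integrableOn j₂.integrableOn, integral_add j₃.integrableOn j₄.integrableOn,
        setIntegral_indicator measurableSet_Ioc, setIntegral_indicator measurableSet_Ioi,
        setIntegral_indicator measurableSet_Ioc, setIntegral_indicator measurableSet_Ioi,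
        inter_eq_right.2 s₁, inter_eq_right.2 s₂, inter_eq_right.2 s₃, inter_eq_right.2 s₄,
        v₁, v₂, v₃, v₄]
    rw [e1]
    have hlog : 0 ≤ Real.log (s / w) := Real.log_nonneg ((one_le_div hw).2 hws)
    have h3 : 0 ≤ s * Real.log (s / w) := by positivity
    have h4 : 0 ≤ C₀ * (s * Real.log (s / w)) := by positivity
    nlinarith
  · intro ξ hξ μ ρ hμ0 hμ1 hμs hρ0 hρ1 hρw
    show 3 * μ ^ 2 / ξ ^ 2 + 4 * C₀ * s * μ * ρ / ξ ≤
      ((Ioc 0 (1 / s)).indicator f₁ ξ + (Ioi (1 / s)).indicator f₂ ξ) +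
        ((Ioc (1 / s) (1 / w)).indicator f₃ ξ + (Ioi (1 / w)).indicator f₄ ξ)
    have hr2 : ξ ^ (-2 : ℝ) = 1 / ξ ^ 2 := by
      rw [show (-2 : ℝ) = ((-2 : ℤ) : ℝ) by norm_num, Real.rpow_intCast, zpow_neg, one_div]
      norm_cast
    have hr3 : ξ ^ (-3 : ℝ) = 1 / ξ ^ 3 := by
      rw [show (-3 : ℝ) = ((-3 : ℤ) : ℝ) by norm_num, Real.rpow_intCast, zpow_neg, one_div]
      norm_cast
    by_cases h1 : ξ ≤ 1 / s
    · have n2 : ξ ∉ Ioi (1 / s) := fun h => absurd h (not_lt.2 h1)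
      have n3 : ξ ∉ Ioc (1 / s) (1 / w) := fun h => absurd h.1 (not_lt.2 h1)
      have n4 : ξ ∉ Ioi (1 / w) := fun h => absurd h (not_lt.2 (h1.trans hsw))
      rw [indicator_of_mem (show ξ ∈ Ioc 0 (1 / s) from ⟨hξ, h1⟩), indicator_of_notMem n2,
        indicator_of_notMem n3, indicator_of_notMem n4, hf₁]
      have e1 : 3 * μ ^ 2 / ξ ^ 2 ≤ 3 * s ^ 2 := by
        rw [div_le_iff₀ (by positivity)]
        have := pow_le_pow_left₀ hμ0 hμs 2
        nlinarith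
      have e2 : 4 * C₀ * s * μ * ρ / ξ ≤ 4 * C₀ * s * s := by
        rw [div_le_iff₀ hξ]
        have h5 : μ * ρ ≤ s * ξ := by
          calc μ * ρ ≤ (s * ξ) * 1 := mul_le_mul hμs hρ1 hρ0 (by positivity)
            _ = s * ξ := mul_one _
        have h6 : 0 ≤ 4 * C₀ * s := by positivity
        calc 4 * C₀ * s * μ * ρ = 4 * C₀ * s * (μ * ρ) := by ring
          _ ≤ 4 * C₀ * s * (s * ξ) := mul_le_mul_of_nonneg_left h5 h6
          _ = _ := by ring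
      show _ ≤ (3 + 4 * C₀) * s ^ 2 + 0 + (0 + 0)
      nlinarith
    · have h1' : 1 / s < ξ := not_le.1 h1
      have n1 : ξ ∉ Ioc 0 (1 / s) := fun h => h1 h.2
      have e1 : 3 * μ ^ 2 / ξ ^ 2 ≤ 3 * (1 / ξ ^ 2) := by
        rw [mul_one_div]
        apply div_le_div_of_nonneg_right _ (by positivity)
        have := pow_le_pow_left₀ hμ0 hμ1 2
        nlinarith
      have h6 : 0 ≤ 4 * C₀ * s := by positivity
      by_cases h2 : ξ ≤ 1 / w
      · have n4 : ξ ∉ Ioi (1 / w) := fun h => absurd h (not_lt.2 h2)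
        rw [indicator_of_notMem n1, indicator_of_mem (show ξ ∈ Ioi (1 / s) from h1'),
          indicator_of_mem (show ξ ∈ Ioc (1 / s) (1 / w) from ⟨h1', h2⟩), indicator_of_notMem n4,
          hf₂, hf₃]
        show _ ≤ 0 + 3 * ξ ^ (-2 : ℝ) + (4 * C₀ * s * (1 / ξ) + 0)
        rw [hr2]
        have e2 : 4 * C₀ * s * μ * ρ / ξ ≤ 4 * C₀ * s * (1 / ξ) := by
          rw [mul_one_div]
          apply div_le_div_of_nonneg_right _ hξ.le
          have h5 : μ * ρ ≤ 1 := mul_le_one₀ hμ1 hρ0 hρ1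
          calc 4 * C₀ * s * μ * ρ = 4 * C₀ * s * (μ * ρ) := by ring
            _ ≤ 4 * C₀ * s * 1 := mul_le_mul_of_nonneg_left h5 h6
            _ = _ := by ring
        linarith
      · have h2' : 1 / w < ξ := not_le.1 h2
        have n3 : ξ ∉ Ioc (1 / s) (1 / w) := fun h => h2 h.2
        rw [indicator_of_notMem n1, indicator_of_mem (show ξ ∈ Ioi (1 / s) from h1'),
          indicator_of_notMem n3, indicator_of_mem (show ξ ∈ Ioi (1 / w) from h2'), hf₂, hf₄]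
        show _ ≤ 0 + 3 * ξ ^ (-2 : ℝ) + (0 + 4 * C₀ * s / w ^ 2 * ξ ^ (-3 : ℝ))
        rw [hr2, hr3]
        have e2 : 4 * C₀ * s * μ * ρ / ξ ≤ 4 * C₀ * s / w ^ 2 * (1 / ξ ^ 3) := by
          rw [div_mul_div_comm, mul_one, div_le_div_iff₀ hξ (by positivity)]
          have h5 : μ * (ρ * (w * ξ) ^ 2) ≤ 1 := mul_le_one₀ hμ1 (by positivity) hρw
          calc 4 * C₀ * s * μ * ρ * (w ^ 2 * ξ ^ 3) = 4 * C₀ * s * ξ * (μ * (ρ * (w * ξ) ^ 2)) := by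
                ring
            _ ≤ 4 * C₀ * s * ξ * 1 := mul_le_mul_of_nonneg_left h5 (by positivity)
            _ = 4 * C₀ * s * ξ := mul_one _
        linarith

/-- exponentials -/
lemma exp_norm (θ : ℝ) : ‖cexp (-((θ : ℂ) * I))‖ = 1 := by
  have : -((θ : ℂ) * I) = ((-θ : ℝ) : ℂ) * I := by push_cast; ring
  rw [this, norm_exp_ofReal_mul_I]

lemma exp_sub (θ : ℝ) : ‖cexp (-((θ : ℂ) * I)) - 1‖ ≤ |θ| := by
  have : -((θ : ℂ) * I) = I * ((-θ : ℝ) : ℂ) := by push_cast; ring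
  rw [this]
  refine Real.norm_exp_I_mul_ofReal_sub_one_le.trans ?_
  rw [Real.norm_eq_abs, abs_neg]

section

variable {ι : Type} [Fintype ι] (a c : ι → ℝ)

/-- the exponential sum -/
noncomputable def AA (s ξ : ℝ) : ℂ := ∑ i, (c i : ℂ) * cexp (-(((ξ * (a i * s) : ℝ) : ℂ) * I))

lemma AA_le (s ξ : ℝ) : ‖AA a c s ξ‖ ≤ ∑ i, |c i| := by
  unfold AA
  refine (norm_sum_le _ _).trans (Finset.sum_le_sum fun i _ => ?_)
  rw [norm_mul, exp_norm, mul_one, Complex.norm_real, Real.norm_eq_abs]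

lemma AA_le' (hc : ∑ i, c i = 0) {s ξ : ℝ} (hs : 0 < s) (hξ : 0 < ξ) :
    ‖AA a c s ξ‖ ≤ (∑ i, |c i| * |a i|) * (s * ξ) := by
  have e : AA a c s ξ = ∑ i, (c i : ℂ) * (cexp (-(((ξ * (a i * s) : ℝ) : ℂ) * I)) - 1) := by
    have h0 : ∑ i, (c i : ℂ) = 0 := by
      rw [← Complex.ofReal_sum, hc, Complex.ofReal_zero]
    unfold AA
    simp only [mul_sub, mul_one]
    rw [Finset.sum_sub_distrib, h0, sub_zero]
  rw [e, Finset.sum_mul]
  refine (norm_sum_le _ _).trans (Finset.sum_le_sum fun i _ => ?_)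
  rw [norm_mul, Complex.norm_real, Real.norm_eq_abs]
  have h1 := exp_sub (ξ * (a i * s))
  have h2 : |ξ * (a i * s)| = |a i| * (s * ξ) := by
    rw [abs_mul, abs_mul, abs_of_pos hs, abs_of_pos hξ]
    ring
  rw [h2] at h1
  calc |c i| * ‖cexp (-(((ξ * (a i * s) : ℝ) : ℂ) * I)) - 1‖ ≤ |c i| * (|a i| * (s * ξ)) :=
        mul_le_mul_of_nonneg_left h1 (abs_nonneg _)
    _ = _ := by ring

lemma AA_deriv {s : ℝ} (hs : 0 < s) (ξ : ℝ) : ∃ D : ℂ, HasDerivAt (AA a c s) D ξ ∧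
    ‖D‖ ≤ (∑ i, |c i| * |a i|) * s := by
  refine ⟨∑ i, (c i : ℂ) * (cexp (-(((ξ * (a i * s) : ℝ) : ℂ) * I)) * (-(((a i * s : ℝ) : ℂ) * I))),
    ?_, ?_⟩
  · have h : ∀ i ∈ (Finset.univ : Finset ι), HasDerivAt
        (fun ξ : ℝ => (c i : ℂ) * cexp (-(((ξ * (a i * s) : ℝ) : ℂ) * I)))
        ((c i : ℂ) * (cexp (-(((ξ * (a i * s) : ℝ) : ℂ) * I)) * (-(((a i * s : ℝ) : ℂ) * I)))) ξ := by
      intro i _
      have h1 : HasDerivAt (fun ξ : ℝ => ξ * (a i * s)) (a i * s) ξ := by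
        simpa using (hasDerivAt_id ξ).mul_const (a i * s)
      have h2 := (h1.ofReal_comp.mul_const I).neg
      exact (h2.cexp).const_mul _
    exact HasDerivAt.fun_sum h
  · rw [Finset.sum_mul]
    refine (norm_sum_le _ _).trans (Finset.sum_le_sum fun i _ => ?_)
    rw [norm_mul, norm_mul, exp_norm, one_mul, norm_neg, norm_mul, norm_I, mul_one,
      Complex.norm_real, Complex.norm_real, Real.norm_eq_abs, Real.norm_eq_abs, abs_mul,
      abs_of_pos hs]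
    apply le_of_eq
    ring

end

/-- the real inequality -/
lemma real_ineq {α p p' K s w σ ξ μ ρ C₀ f f' : ℝ} (hσ : 0 < σ) (hξ : 0 < ξ) (hw : 0 < w)
    (hws : w ≤ s) (hα0 : 0 ≤ α) (hp0 : 0 ≤ p) (hp'0 : 0 ≤ p') (hK : 0 ≤ K) (hμ0 : 0 ≤ μ)
    (hμ1 : μ ≤ 1) (hα : α ≤ K * μ) (hp1 : p ≤ 1) (hp : p ≤ C₀ * ρ) (hp' : p' ≤ C₀ * ρ)
    (hC₀ρ : 0 ≤ C₀ * ρ) (hf0 : 0 ≤ f')
    (hf : f = α * p / (σ * ξ))
    (hf' : f' ≤ (K * s * p + α * (w * p')) / (σ * ξ) + α * p / (σ * ξ ^ 2)) :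
    f ^ 2 + 2 * ξ * f * f' ≤ K ^ 2 / σ ^ 2 * (3 * μ ^ 2 / ξ ^ 2 + 4 * C₀ * s * μ * ρ / ξ) := by
  have hf00 : 0 ≤ f := by rw [hf]; positivity
  have h1 : f ^ 2 + 2 * ξ * f * f' ≤ f ^ 2 + 2 * ξ * f *
      ((K * s * p + α * (w * p')) / (σ * ξ) + α * p / (σ * ξ ^ 2)) := by
    have : 0 ≤ 2 * ξ * f := by positivity
    have := mul_le_mul_of_nonneg_left hf' this
    linarith
  refine h1.trans ?_
  have h2 : f ^ 2 + 2 * ξ * f * ((K * s * p + α * (w * p')) / (σ * ξ) + α * p / (σ * ξ ^ 2)) =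
      (3 * (α * p) ^ 2 / ξ ^ 2 + (2 * K * s * (α * p * p) + 2 * w * (α * p * (α * p'))) / ξ) /
        σ ^ 2 := by
    rw [hf]
    field_simp
    ring
  have h3 : K ^ 2 / σ ^ 2 * (3 * μ ^ 2 / ξ ^ 2 + 4 * C₀ * s * μ * ρ / ξ) =
      (3 * (K * μ) ^ 2 / ξ ^ 2 + (4 * K ^ 2 * s * (μ * (C₀ * ρ))) / ξ) / σ ^ 2 := by
    field_simp
  rw [h2, h3]
  have hs : 0 < s := hw.trans_le hws
  have a1 : α * p ≤ K * μ := by
    calc α * p ≤ (K * μ) * 1 := mul_le_mul hα hp1 hp0 (by positivity)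
      _ = K * μ := mul_one _
  have a1' : (α * p) ^ 2 ≤ (K * μ) ^ 2 := pow_le_pow_left₀ (by positivity) a1 2
  have a2 : α * p * p ≤ K * μ * (C₀ * ρ) := mul_le_mul a1 hp hp0 (by positivity)
  have a3 : α * p' ≤ K * (C₀ * ρ) := by
    have : α ≤ K := hα.trans (by nlinarith)
    exact mul_le_mul this hp' hp'0 hK
  have a4 : α * p * (α * p') ≤ K * μ * (K * (C₀ * ρ)) :=
    mul_le_mul a1 a3 (by positivity) (by positivity)
  have b1 : 2 * K * s * (α * p * p) ≤ 2 * K * s * (K * μ * (C₀ * ρ)) :=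
    mul_le_mul_of_nonneg_left a2 (by positivity)
  have b2 : 2 * w * (α * p * (α * p')) ≤ 2 * s * (K * μ * (K * (C₀ * ρ))) :=
    mul_le_mul (by linarith) a4 (by positivity) (by positivity)
  apply div_le_div_of_nonneg_right _ (by positivity)
  apply add_le_add
  · apply div_le_div_of_nonneg_right _ (by positivity)
    linarith
  · apply div_le_div_of_nonneg_right _ hξ.le
    nlinarith

end STTL

open STTL in
theorem t_STT (h : S_FTE) : S_STT := by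
  obtain ⟨φ, C₀, hC₀, hφd, -, hφ1, -, hφ2, hφ3, hform⟩ := h
  intro ι _ a c hc
  obtain ⟨K, hK⟩ : ∃ K : ℝ, K = ∑ i, |c i| + ∑ i, |c i| * |a i| + 1 := ⟨_, rfl⟩
  have hK1 : 0 ≤ ∑ i, |c i| := Finset.sum_nonneg fun i _ => abs_nonneg _
  have hK2 : 0 ≤ ∑ i, |c i| * |a i| := Finset.sum_nonneg fun i _ => by positivity
  have hK0 : 0 < K := by rw [hK]; positivity
  refine ⟨K ^ 2 * (6 + 6 * C₀), by positivity, ?_⟩
  intro s w σ hw hws hσ
  have hs : 0 < s := hw.trans_le hws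
  obtain ⟨m, hm1, hm2, hm3⟩ := maj s w C₀ hw hws hC₀.le
  have hbound : ∀ ξ : ℝ, 0 < ξ → ‖ftw (Ft a c s w σ) ξ‖ ^ 2 +
      2 * ξ * ‖ftw (Ft a c s w σ) ξ‖ * ‖deriv (ftw (Ft a c s w σ)) ξ‖ ≤ K ^ 2 / σ ^ 2 * m ξ := by
    intro ξ hξ
    -- the function near `ξ`
    have hev : ftw (Ft a c s w σ) =ᶠ[𝓝 ξ] fun ξ : ℝ =>
        AA a c s ξ * φ (w * ξ) / ((σ * ξ : ℝ) * I) := by
      filter_upwards [lt_mem_nhds hξ] with x hx
      exact hform ι a c s w σ hc hw hσ x hx.ne'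
    have hval := hform ι a c s w σ hc hw hσ ξ hξ.ne'
    obtain ⟨D, hD, hDn⟩ := AA_deriv a c hs ξ
    have hφ' : HasDerivAt (fun ξ : ℝ => φ (w * ξ)) ((w : ℂ) * deriv φ (w * ξ)) ξ := by
      have h1 : HasDerivAt φ (deriv φ (w * ξ)) (w * ξ) := (hφd (w * ξ)).hasDerivAt
      have h2 : HasDerivAt (fun ξ : ℝ => w * ξ) w ξ := by
        simpa using (hasDerivAt_id ξ).const_mul w
      have h3 := h1.scomp ξ h2
      rw [Complex.real_smul] at h3
      exact h3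
    have hden : HasDerivAt (fun ξ : ℝ => ((σ * ξ : ℝ) : ℂ) * I) ((σ : ℂ) * I) ξ := by
      have h2 : HasDerivAt (fun ξ : ℝ => σ * ξ) σ ξ := by
        simpa using (hasDerivAt_id ξ).const_mul σ
      exact h2.ofReal_comp.mul_const I
    have hne : ((σ * ξ : ℝ) : ℂ) * I ≠ 0 := by
      refine mul_ne_zero ?_ I_ne_zero
      exact_mod_cast (by positivity : σ * ξ ≠ 0)
    have hder := (hD.mul hφ').div hden hne
    have hder' : deriv (ftw (Ft a c s w σ)) ξ =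
        ((D * φ (w * ξ) + AA a c s ξ * ((w : ℂ) * deriv φ (w * ξ))) * (((σ * ξ : ℝ) : ℂ) * I) -
          AA a c s ξ * φ (w * ξ) * ((σ : ℂ) * I)) / (((σ * ξ : ℝ) : ℂ) * I) ^ 2 := by
      rw [hev.deriv_eq]
      exact hder.deriv
    have hn1 : ‖((σ * ξ : ℝ) : ℂ) * I‖ = σ * ξ := by
      rw [norm_mul, norm_I, mul_one, Complex.norm_real, Real.norm_eq_abs,
        abs_of_pos (by positivity)]
    have hn2 : ‖(σ : ℂ) * I‖ = σ := by
      rw [norm_mul, norm_I, mul_one, Complex.norm_real, Real.norm_eq_abs, abs_of_pos hσ]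
    have hnw : ‖(w : ℂ)‖ = w := by
      rw [Complex.norm_real, Real.norm_eq_abs, abs_of_pos hw]
    have hA1 : ‖AA a c s ξ‖ ≤ K := (AA_le a c s ξ).trans (by rw [hK]; linarith)
    have hA2 : ‖AA a c s ξ‖ ≤ K * (s * ξ) := by
      refine (AA_le' a c hc hs hξ).trans (mul_le_mul_of_nonneg_right ?_ (by positivity))
      rw [hK]
      linarith
    have hDK : ‖D‖ ≤ K * s := by
      refine hDn.trans (mul_le_mul_of_nonneg_right ?_ hs.le)
      rw [hK]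
      linarith
    have hf : ‖ftw (Ft a c s w σ) ξ‖ = ‖AA a c s ξ‖ * ‖φ (w * ξ)‖ / (σ * ξ) := by
      rw [hval, norm_div, norm_mul, hn1]
      rfl
    have hf' : ‖deriv (ftw (Ft a c s w σ)) ξ‖ ≤
        (K * s * ‖φ (w * ξ)‖ + ‖AA a c s ξ‖ * (w * ‖deriv φ (w * ξ)‖)) / (σ * ξ) +
          ‖AA a c s ξ‖ * ‖φ (w * ξ)‖ / (σ * ξ ^ 2) := by
      rw [hder', norm_div, norm_pow, hn1]
      have h1 : ‖(D * φ (w * ξ) + AA a c s ξ * ((w : ℂ) * deriv φ (w * ξ))) *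
          (((σ * ξ : ℝ) : ℂ) * I) - AA a c s ξ * φ (w * ξ) * ((σ : ℂ) * I)‖ ≤
          (K * s * ‖φ (w * ξ)‖ + ‖AA a c s ξ‖ * (w * ‖deriv φ (w * ξ)‖)) * (σ * ξ) +
            ‖AA a c s ξ‖ * ‖φ (w * ξ)‖ * σ := by
        refine (norm_sub_le _ _).trans (add_le_add ?_ ?_)
        · rw [norm_mul, hn1]
          refine mul_le_mul_of_nonneg_right ?_ (by positivity)
          refine (norm_add_le _ _).trans (add_le_add ?_ ?_)
          · rw [norm_mul]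
            exact mul_le_mul_of_nonneg_right hDK (norm_nonneg _)
          · rw [norm_mul, norm_mul, hnw]
        · rw [norm_mul, norm_mul, hn2]
      have h2 : (K * s * ‖φ (w * ξ)‖ + ‖AA a c s ξ‖ * (w * ‖deriv φ (w * ξ)‖)) / (σ * ξ) +
          ‖AA a c s ξ‖ * ‖φ (w * ξ)‖ / (σ * ξ ^ 2) =
          ((K * s * ‖φ (w * ξ)‖ + ‖AA a c s ξ‖ * (w * ‖deriv φ (w * ξ)‖)) * (σ * ξ) +
            ‖AA a c s ξ‖ * ‖φ (w * ξ)‖ * σ) / (σ * ξ) ^ 2 := by
        field_simp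
      rw [h2]
      exact div_le_div_of_nonneg_right h1 (by positivity)
    obtain ⟨μ, hμ⟩ : ∃ μ : ℝ, μ = min 1 (s * ξ) := ⟨_, rfl⟩
    obtain ⟨ρ, hρ⟩ : ∃ ρ : ℝ, ρ = 1 / (1 + (w * ξ) ^ 2) := ⟨_, rfl⟩
    have hμ0 : 0 ≤ μ := by rw [hμ]; positivity
    have hμ1 : μ ≤ 1 := by rw [hμ]; exact min_le_left _ _
    have hμs : μ ≤ s * ξ := by rw [hμ]; exact min_le_right _ _
    have hρ0 : 0 ≤ ρ := by rw [hρ]; positivity
    have hρ1 : ρ ≤ 1 := by
      rw [hρ, div_le_one (by positivity)]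
      nlinarith [sq_nonneg (w * ξ)]
    have hρw : ρ * (w * ξ) ^ 2 ≤ 1 := by
      rw [hρ, one_div_mul_eq_div, div_le_one (by positivity)]
      linarith
    have hAμ : ‖AA a c s ξ‖ ≤ K * μ := by
      rw [hμ]
      rcases le_total 1 (s * ξ) with h1 | h1
      · rw [min_eq_left h1, mul_one]
        exact hA1
      · rw [min_eq_right h1]
        exact hA2
    have hp : ‖φ (w * ξ)‖ ≤ C₀ * ρ := by
      rw [hρ, mul_one_div]
      exact hφ2 _
    have hp' : ‖deriv φ (w * ξ)‖ ≤ C₀ * ρ := by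
      rw [hρ, mul_one_div]
      exact hφ3 _
    refine (real_ineq (K := K) (s := s) (w := w) (μ := μ) (ρ := ρ) (C₀ := C₀) hσ hξ hw hws
      (norm_nonneg _) (norm_nonneg _) (norm_nonneg _) hK0.le hμ0 hμ1 hAμ (hφ1 _) hp hp'
      (by positivity) (norm_nonneg _) hf hf').trans ?_
    exact mul_le_mul_of_nonneg_left (hm3 ξ hξ μ ρ hμ0 hμ1 hμs hρ0 hρ1 hρw) (by positivity)
  calc ∫ ξ in Ioi (0 : ℝ), (‖ftw (Ft a c s w σ) ξ‖ ^ 2 +
      2 * ξ * ‖ftw (Ft a c s w σ) ξ‖ * ‖deriv (ftw (Ft a c s w σ)) ξ‖)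
      ≤ ∫ ξ in Ioi (0 : ℝ), K ^ 2 / σ ^ 2 * m ξ := by
        refine integral_mono_of_nonneg ?_ (hm1.const_mul _) ?_
        · filter_upwards [ae_restrict_mem measurableSet_Ioi] with ξ hξ
          have hξ' : (0 : ℝ) < ξ := hξ
          show 0 ≤ _
          positivity
        · filter_upwards [ae_restrict_mem measurableSet_Ioi] with ξ hξ
          exact hbound ξ hξ
    _ = K ^ 2 / σ ^ 2 * ∫ ξ in Ioi (0 : ℝ), m ξ := integral_const_mul _ _
    _ ≤ K ^ 2 / σ ^ 2 * ((6 + 6 * C₀) * s * (1 + Real.log (s / w))) :=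
        mul_le_mul_of_nonneg_left hm2 (by positivity)
    _ = K ^ 2 * (6 + 6 * C₀) * s * (1 + Real.log (s / w)) / σ ^ 2 := by ring

end Pool.Agent.H493.EN
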