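import Pool.Agent.H493.EN.Stw

set_option autoImplicit false

/-! The variance of the smoothed steps (helper997). -/

open Complex Filter Topology Set MeasureTheory

namespace Pool.Agent.H493.EN

namespace STVL

theorem cos_int {b x0 x1 : ℝ} (hb : b ≠ 0) (h0 : 0 < x0) (h1 : x0 ≤ x1) :
    |∫ x in x0..x1, Real.cos (b * x) / x| ≤ 2 / (|b| * x0) := by
  have hb' : 0 < |b| := abs_pos.2 hb
  have hx1 : 0 < x1 := h0.trans_le h1
  have hpos : ∀ x ∈ uIcc x0 x1, 0 < x := by
    intro x hx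
    rw [uIcc_of_le h1] at hx
    exact h0.trans_le hx.1
  have hu : ∀ x ∈ uIcc x0 x1, HasDerivAt (fun x : ℝ => x⁻¹) (-(x ^ 2)⁻¹) x := fun x hx =>
    hasDerivAt_inv (hpos x hx).ne'
  have hv : ∀ x ∈ uIcc x0 x1, HasDerivAt (fun x : ℝ => Real.sin (b * x) / b) (Real.cos (b * x)) x := by
    intro x _
    have h2 : HasDerivAt (fun x : ℝ => b * x) b x := by
      simpa using (hasDerivAt_id x).const_mul b
    have h3 := (h2.sin).div_const b
    have e : Real.cos (b * x) * b / b = Real.cos (b * x) := by field_simp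
    rw [e] at h3
    exact h3
  have hu' : IntervalIntegrable (fun x : ℝ => -(x ^ 2)⁻¹) volume x0 x1 := by
    apply ContinuousOn.intervalIntegrable
    intro x hx
    have := hpos x hx
    exact ((continuousAt_id.pow 2).inv₀ (by simp; exact this.ne')).neg.continuousWithinAt
  have hv' : IntervalIntegrable (fun x : ℝ => Real.cos (b * x)) volume x0 x1 := by
    apply Continuous.intervalIntegrable
    fun_prop
  have hparts := intervalIntegral.integral_mul_deriv_eq_deriv_mul hu hv hu' hv'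
  have e1 : (∫ x in x0..x1, Real.cos (b * x) / x) =
      ∫ x in x0..x1, x⁻¹ * Real.cos (b * x) := by
    congr 1
    funext x
    rw [div_eq_inv_mul]
  rw [e1, hparts]
  have hsin : ∀ x : ℝ, |Real.sin (b * x) / b| ≤ 1 / |b| := by
    intro x
    rw [abs_div]
    exact div_le_div_of_nonneg_right (Real.abs_sin_le_one _) hb'.le
  have h2 : |∫ x in x0..x1, -(x ^ 2)⁻¹ * (Real.sin (b * x) / b)| ≤
      1 / |b| * (x0⁻¹ - x1⁻¹) := by
    have h3 := intervalIntegral.norm_integral_le_of_norm_le (μ := volume)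
      (f := fun x : ℝ => -(x ^ 2)⁻¹ * (Real.sin (b * x) / b))
      (g := fun x : ℝ => -(1 / |b|) * -(x ^ 2)⁻¹) h1 (by
        refine Eventually.of_forall fun x hx => ?_
        have hx0 : 0 < x := h0.trans hx.1
        rw [norm_mul, Real.norm_eq_abs, Real.norm_eq_abs, abs_neg, abs_of_pos (by positivity)]
        have := hsin x
        have h5 : 0 < (x ^ 2)⁻¹ := by positivity
        nlinarith) (hu'.const_mul _)
    rw [intervalIntegral.integral_const_mul,
      intervalIntegral.integral_eq_sub_of_hasDerivAt hu hu', Real.norm_eq_abs] at h3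
    refine h3.trans (le_of_eq ?_)
    ring
  have h3 : |x1⁻¹ * (Real.sin (b * x1) / b)| ≤ x1⁻¹ * (1 / |b|) := by
    rw [abs_mul, abs_of_pos (inv_pos.2 hx1)]
    exact mul_le_mul_of_nonneg_left (hsin _) (by positivity)
  have h4 : |x0⁻¹ * (Real.sin (b * x0) / b)| ≤ x0⁻¹ * (1 / |b|) := by
    rw [abs_mul, abs_of_pos (inv_pos.2 h0)]
    exact mul_le_mul_of_nonneg_left (hsin _) (by positivity)
  have h5 : 2 / (|b| * x0) = x1⁻¹ * (1 / |b|) + x0⁻¹ * (1 / |b|) + 1 / |b| * (x0⁻¹ - x1⁻¹) := by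
    field_simp
    ring
  rw [h5]
  refine (abs_sub _ _).trans (add_le_add ((abs_sub _ _).trans (add_le_add h3 h4)) h2)

variable {ι : Type} [Fintype ι]

/-- the exponential sum -/
noncomputable def AA (a c : ι → ℝ) (u : ℝ) : ℂ :=
  ∑ i, (c i : ℂ) * cexp (I * ((-(a i * u) : ℝ) : ℂ))

theorem norm_e (x : ℝ) : ‖cexp (I * (x : ℂ))‖ = 1 := by
  rw [mul_comm]
  exact Complex.norm_exp_ofReal_mul_I x

theorem AA_le (a c : ι → ℝ) (u : ℝ) : ‖AA a c u‖ ≤ ∑ i, |c i| := by
  unfold AA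
  refine (norm_sum_le _ _).trans (Finset.sum_le_sum fun i _ => ?_)
  rw [norm_mul, norm_e, mul_one, Complex.norm_real, Real.norm_eq_abs]

theorem AA_small (a c : ι → ℝ) (hc : ∑ i, c i = 0) (u : ℝ) :
    ‖AA a c u‖ ≤ (∑ i, |c i| * |a i|) * |u| := by
  have h1 : AA a c u = ∑ i, (c i : ℂ) * (cexp (I * ((-(a i * u) : ℝ) : ℂ)) - 1) := by
    unfold AA
    simp only [mul_sub, mul_one, Finset.sum_sub_distrib]
    rw [← Complex.ofReal_sum, hc, Complex.ofReal_zero, sub_zero]
  rw [h1, Finset.sum_mul]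
  refine (norm_sum_le _ _).trans (Finset.sum_le_sum fun i _ => ?_)
  rw [norm_mul, Complex.norm_real, Real.norm_eq_abs, mul_assoc]
  refine mul_le_mul_of_nonneg_left ?_ (abs_nonneg _)
  have h2 := Real.norm_exp_I_mul_ofReal_sub_one_le (x := -(a i * u))
  rw [Real.norm_eq_abs, abs_neg, abs_mul] at h2
  exact h2

theorem AA_sq (a c : ι → ℝ) (u : ℝ) :
    ‖AA a c u‖ ^ 2 = ∑ i, ∑ j, c i * c j * Real.cos ((a i - a j) * u) := by
  have hre : (AA a c u).re = ∑ i, c i * Real.cos (a i * u) := by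
    unfold AA
    rw [Complex.re_sum]
    refine Finset.sum_congr rfl fun i _ => ?_
    rw [Complex.re_ofReal_mul, mul_comm I, Complex.exp_ofReal_mul_I_re, Real.cos_neg]
  have him : (AA a c u).im = -∑ i, c i * Real.sin (a i * u) := by
    unfold AA
    rw [Complex.im_sum, ← Finset.sum_neg_distrib]
    refine Finset.sum_congr rfl fun i _ => ?_
    rw [Complex.im_ofReal_mul, mul_comm I, Complex.exp_ofReal_mul_I_im, Real.sin_neg]
    ring
  rw [← Complex.normSq_eq_norm_sq, Complex.normSq_apply, hre, him, neg_mul_neg,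
    Finset.sum_mul_sum, Finset.sum_mul_sum, ← Finset.sum_add_distrib]
  refine Finset.sum_congr rfl fun i _ => ?_
  rw [← Finset.sum_add_distrib]
  refine Finset.sum_congr rfl fun j _ => ?_
  rw [sub_mul, Real.cos_sub]
  ring

theorem AA_cont (a c : ι → ℝ) : Continuous (AA a c) := by
  unfold AA
  fun_prop

end STVL

open STVL

open Classical in
theorem t_STV (h : S_FTE) : S_STV := by
  obtain ⟨φ, C, hC, hφd, -, hφ1, hφ2, hφ3, -, hform⟩ := h
  intro ι _ a c hc
  set S : ℝ := ∑ i, |c i| with hS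
  set D : ℝ := ∑ i, |c i| * |a i| with hD
  set E : ℝ := ∑ i, ∑ j, |c i * c j| * (2 / |a i - a j|) with hE
  have hS0 : 0 ≤ S := Finset.sum_nonneg fun i _ => abs_nonneg _
  have hD0 : 0 ≤ D := Finset.sum_nonneg fun i _ => by positivity
  have hE0 : 0 ≤ E := Finset.sum_nonneg fun i _ => Finset.sum_nonneg fun j _ => by positivity
  refine ⟨D ^ 2 + 2 * S ^ 2 + E + S ^ 2 * C / 2 + 1, by positivity, ?_⟩
  intro s w σ hw hws hσ
  have hs : 0 < s := hw.trans_le hws
  set N : ℝ → ℝ := fun u => ‖AA a c u‖ ^ 2 with hN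
  set g : ℝ → ℝ := fun ξ => N (s * ξ) * ‖φ (w * ξ)‖ ^ 2 / ξ with hg
  have hφc : Continuous φ := hφd.continuous
  have hNc : Continuous N := (AA_cont a c).norm.pow 2
  have hN0 : ∀ u, 0 ≤ N u := fun u => by positivity
  have hNS : ∀ u, N u ≤ S ^ 2 := fun u =>
    pow_le_pow_left₀ (norm_nonneg _) (AA_le a c u) 2
  have hND : ∀ u, N u ≤ D ^ 2 * u ^ 2 := by
    intro u
    have h1 := pow_le_pow_left₀ (norm_nonneg _) (AA_small a c hc u) 2
    rw [mul_pow, sq_abs] at h1
    exact h1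
  have hφsq : ∀ u, ‖φ u‖ ^ 2 ≤ 1 := fun u => by
    have := hφ1 u
    have := norm_nonneg (φ u)
    nlinarith
  have hg0 : ∀ ξ, 0 < ξ → 0 ≤ g ξ := by
    intro ξ hξ
    have := hN0 (s * ξ)
    simp only [hg]
    positivity
  have hgc : ContinuousOn g (Ioi 0) := by
    intro ξ hξ
    have hξ' : (0 : ℝ) < ξ := hξ
    refine ContinuousAt.continuousWithinAt ?_
    simp only [hg]
    refine ContinuousAt.div ?_ continuousAt_id hξ'.ne'
    refine ContinuousAt.mul ?_ ?_
    · exact (hNc.comp (continuous_const.mul continuous_id)).continuousAt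
    · exact ((hφc.comp (continuous_const.mul continuous_id)).norm.pow 2).continuousAt
  -- reduction to `g`
  have hred : (∫ ξ in Ioi (0 : ℝ), ξ * ‖ftw (Ft a c s w σ) ξ‖ ^ 2) =
      (∫ ξ in Ioi (0 : ℝ), g ξ) / σ ^ 2 := by
    rw [div_eq_mul_inv, mul_comm, ← integral_const_mul]
    refine setIntegral_congr_fun measurableSet_Ioi fun ξ hξ => ?_
    have hξ' : (0 : ℝ) < ξ := hξ
    rw [hform ι a c s w σ hc hw hσ ξ hξ'.ne']
    have e1 : (∑ i, (c i : ℂ) * cexp (-(((ξ * (a i * s) : ℝ) : ℂ) * I))) = AA a c (s * ξ) := by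
      unfold AA
      refine Finset.sum_congr rfl fun i _ => ?_
      congr 2
      push_cast
      ring
    rw [e1, norm_div, norm_mul, norm_mul, Complex.norm_I, mul_one, Complex.norm_real,
      Real.norm_eq_abs, abs_of_pos (by positivity)]
    simp only [hg, hN]
    field_simp
  have hx0 : 0 < s⁻¹ := inv_pos.2 hs
  have hx1 : 0 < w⁻¹ := inv_pos.2 hw
  have hx01 : s⁻¹ ≤ w⁻¹ := inv_anti₀ hw hws
  -- the first interval
  have hb1 : ∀ ξ ∈ Ioc (0 : ℝ) s⁻¹, ‖g ξ‖ ≤ D ^ 2 * s := by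
    intro ξ hξ
    rw [Real.norm_eq_abs, abs_of_nonneg (hg0 ξ hξ.1)]
    have e1 : N (s * ξ) * ‖φ (w * ξ)‖ ^ 2 ≤ D ^ 2 * (s * ξ) ^ 2 * 1 :=
      mul_le_mul (hND _) (hφsq _) (by positivity) (by positivity)
    simp only [hg]
    rw [div_le_iff₀ hξ.1]
    refine e1.trans ?_
    have e2 : s * ξ ≤ 1 := by
      have := mul_le_mul_of_nonneg_left hξ.2 hs.le
      rwa [mul_inv_cancel₀ hs.ne'] at this
    have e3 : 0 ≤ D ^ 2 * (s * ξ) := by
      have := hξ.1
      positivity
    nlinarith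
  have hi1 : IntervalIntegrable g volume 0 s⁻¹ := by
    rw [intervalIntegrable_iff_integrableOn_Ioc_of_le hx0.le]
    refine Integrable.mono' (g := fun _ => D ^ 2 * s) (integrableOn_const (by simp)) ?_ ?_
    · exact (hgc.mono Ioc_subset_Ioi_self).aestronglyMeasurable measurableSet_Ioc
    · rw [ae_restrict_iff' measurableSet_Ioc]
      exact Eventually.of_forall hb1
  have hI1 : |∫ ξ in (0 : ℝ)..s⁻¹, g ξ| ≤ D ^ 2 := by
    have h1 := intervalIntegral.norm_integral_le_of_norm_le_const (a := 0) (b := s⁻¹) (f := g)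
      (C := D ^ 2 * s) (by
        intro ξ hξ
        rw [uIoc_of_le hx0.le] at hξ
        exact hb1 ξ hξ)
    rw [Real.norm_eq_abs, sub_zero, abs_of_pos hx0, mul_assoc, mul_inv_cancel₀ hs.ne', mul_one] at h1
    exact h1
  -- the second interval
  have hpos2 : ∀ ξ ∈ uIcc s⁻¹ w⁻¹, 0 < ξ := by
    intro ξ hξ
    rw [uIcc_of_le hx01] at hξ
    exact hx0.trans_le hξ.1
  have hi2 : IntervalIntegrable g volume s⁻¹ w⁻¹ :=
    ContinuousOn.intervalIntegrable (hgc.mono fun ξ hξ => hpos2 ξ hξ)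
  have hi2a : IntervalIntegrable (fun ξ => N (s * ξ) / ξ) volume s⁻¹ w⁻¹ := by
    apply ContinuousOn.intervalIntegrable
    intro ξ hξ
    have := hpos2 ξ hξ
    exact (ContinuousAt.div (hNc.comp (continuous_const.mul continuous_id)).continuousAt
      continuousAt_id this.ne').continuousWithinAt
  have hI2b : |∫ ξ in s⁻¹..w⁻¹, (g ξ - N (s * ξ) / ξ)| ≤ 2 * S ^ 2 := by
    have h1 := intervalIntegral.norm_integral_le_of_norm_le_const (a := s⁻¹) (b := w⁻¹)
      (f := fun ξ => g ξ - N (s * ξ) / ξ) (C := S ^ 2 * (2 * w)) (by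
        intro ξ hξ
        rw [uIoc_of_le hx01] at hξ
        have hξ0 : 0 < ξ := hx0.trans hξ.1
        have e1 : g ξ - N (s * ξ) / ξ = N (s * ξ) * ((‖φ (w * ξ)‖ ^ 2 - 1) / ξ) := by
          simp only [hg]
          ring
        have e2 : |(‖φ (w * ξ)‖ ^ 2 - 1) / ξ| ≤ 2 * w := by
          rw [abs_div, abs_of_pos hξ0, div_le_iff₀ hξ0]
          have e3 : ‖φ (w * ξ)‖ ^ 2 - 1 = -((1 - ‖φ (w * ξ)‖) * (1 + ‖φ (w * ξ)‖)) := by ring
          have e4 : 1 - ‖φ (w * ξ)‖ ≤ w * ξ := by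
            have h2 := hφ2 (w * ξ)
            rw [abs_of_pos (by positivity)] at h2
            have h3 := norm_sub_norm_le (1 : ℂ) (φ (w * ξ))
            rw [norm_one, norm_sub_rev] at h3
            linarith
          have e5 : 0 ≤ 1 - ‖φ (w * ξ)‖ := by
            have := hφ1 (w * ξ)
            linarith
          have e6 := norm_nonneg (φ (w * ξ))
          rw [e3, abs_neg, abs_of_nonneg (by positivity)]
          nlinarith
        rw [e1, norm_mul, Real.norm_eq_abs, Real.norm_eq_abs, abs_of_nonneg (hN0 _)]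
        exact mul_le_mul (hNS _) e2 (abs_nonneg _) (by positivity))
    rw [Real.norm_eq_abs, abs_of_nonneg (show 0 ≤ w⁻¹ - s⁻¹ by linarith)] at h1
    refine h1.trans ?_
    have e1 : S ^ 2 * (2 * w) * (w⁻¹ - s⁻¹) ≤ S ^ 2 * (2 * w) * w⁻¹ := by
      apply mul_le_mul_of_nonneg_left _ (by positivity)
      linarith
    refine e1.trans (le_of_eq ?_)
    field_simp
  have hI2a : |(∫ ξ in s⁻¹..w⁻¹, N (s * ξ) / ξ) -
      (∑ i, ∑ j, if a i = a j then c i * c j else 0) * Real.log (s / w)| ≤ E := by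
    have e1 : (∫ ξ in s⁻¹..w⁻¹, N (s * ξ) / ξ) =
        ∑ i, ∑ j, c i * c j * ∫ ξ in s⁻¹..w⁻¹, Real.cos (((a i - a j) * s) * ξ) / ξ := by
      have e2 : (fun ξ => N (s * ξ) / ξ) = fun ξ => ∑ i, ∑ j, c i * c j *
          (Real.cos (((a i - a j) * s) * ξ) / ξ) := by
        funext ξ
        simp only [hN]
        rw [AA_sq, Finset.sum_div]
        refine Finset.sum_congr rfl fun i _ => ?_
        rw [Finset.sum_div]
        refine Finset.sum_congr rfl fun j _ => ?_
        rw [mul_div_assoc, mul_assoc (a i - a j)]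
      have e3 : ∀ b : ℝ, IntervalIntegrable (fun ξ => Real.cos (b * ξ) / ξ) volume s⁻¹ w⁻¹ := by
        intro b
        apply ContinuousOn.intervalIntegrable
        intro ξ hξ
        have := hpos2 ξ hξ
        refine (ContinuousAt.div ?_ continuousAt_id this.ne').continuousWithinAt
        fun_prop
      rw [e2, intervalIntegral.integral_finsetSum]
      · refine Finset.sum_congr rfl fun i _ => ?_
        rw [intervalIntegral.integral_finsetSum]
        · refine Finset.sum_congr rfl fun j _ => ?_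
          rw [intervalIntegral.integral_const_mul]
        · intro j _
          exact (e3 _).const_mul _
      · intro i _
        have h9 := IntervalIntegrable.sum (Finset.univ) (f := fun j ξ => c i * c j *
          (Real.cos (((a i - a j) * s) * ξ) / ξ)) (fun j _ => (e3 ((a i - a j) * s)).const_mul (c i * c j))
        refine h9.congr ?_
        intro ξ _
        simp [Finset.sum_apply]
    rw [e1, Finset.sum_mul, ← Finset.sum_sub_distrib, hE]
    refine (Finset.abs_sum_le_sum_abs _ _).trans (Finset.sum_le_sum fun i _ => ?_)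
    rw [Finset.sum_mul, ← Finset.sum_sub_distrib]
    refine (Finset.abs_sum_le_sum_abs _ _).trans (Finset.sum_le_sum fun j _ => ?_)
    by_cases hij : a i = a j
    · rw [if_pos hij, hij, sub_self]
      have e4 : (∫ ξ in s⁻¹..w⁻¹, Real.cos ((0 * s) * ξ) / ξ) = Real.log (s / w) := by
        have e5 : (fun ξ : ℝ => Real.cos ((0 * s) * ξ) / ξ) = fun ξ => 1 / ξ := by
          funext ξ
          rw [zero_mul, zero_mul, Real.cos_zero]
        rw [e5, integral_one_div_of_pos hx0 hx1]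
        congr 1
        field_simp
      rw [e4, sub_self, abs_zero]
      positivity
    · rw [if_neg hij, zero_mul, sub_zero, abs_mul]
      apply mul_le_mul_of_nonneg_left _ (abs_nonneg _)
      have hb : a i - a j ≠ 0 := sub_ne_zero.2 hij
      refine (cos_int (mul_ne_zero hb hs.ne') hx0 hx01).trans (le_of_eq ?_)
      rw [abs_mul, abs_of_pos hs, mul_assoc, mul_inv_cancel₀ hs.ne', mul_one]
  -- the third interval
  have hb3 : ∀ ξ ∈ Ioi w⁻¹, ‖g ξ‖ ≤ S ^ 2 * C / w ^ 2 * ξ ^ (-3 : ℝ) := by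
    intro ξ hξ
    have hξ0 : 0 < ξ := hx1.trans hξ
    rw [Real.norm_eq_abs, abs_of_nonneg (hg0 ξ hξ0)]
    have e1 : ‖φ (w * ξ)‖ ^ 2 ≤ C / (w * ξ) ^ 2 := by
      have e2 : ‖φ (w * ξ)‖ ^ 2 ≤ ‖φ (w * ξ)‖ := by
        have := hφ1 (w * ξ)
        have := norm_nonneg (φ (w * ξ))
        nlinarith
      refine (e2.trans (hφ3 _)).trans ?_
      apply div_le_div_of_nonneg_left hC.le (by positivity)
      linarith
    have e3 : ξ ^ (-3 : ℝ) = (ξ ^ 3)⁻¹ := by
      rw [Real.rpow_neg hξ0.le]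
      norm_cast
    have e4 : N (s * ξ) * ‖φ (w * ξ)‖ ^ 2 ≤ S ^ 2 * (C / (w * ξ) ^ 2) :=
      mul_le_mul (hNS _) e1 (by positivity) (by positivity)
    simp only [hg]
    rw [e3, div_le_iff₀ hξ0]
    refine e4.trans (le_of_eq ?_)
    field_simp
  have hint3 : IntegrableOn (fun ξ : ℝ => S ^ 2 * C / w ^ 2 * ξ ^ (-3 : ℝ)) (Ioi w⁻¹) :=
    (integrableOn_Ioi_rpow_of_lt (by norm_num) hx1).const_mul _
  have hi3 : IntegrableOn g (Ioi w⁻¹) := by
    refine Integrable.mono' hint3 ?_ ?_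
    · exact (hgc.mono (Ioi_subset_Ioi hx1.le)).aestronglyMeasurable measurableSet_Ioi
    · rw [ae_restrict_iff' measurableSet_Ioi]
      exact Eventually.of_forall hb3
  have hI3 : |∫ ξ in Ioi w⁻¹, g ξ| ≤ S ^ 2 * C / 2 := by
    rw [← Real.norm_eq_abs]
    refine (norm_integral_le_of_norm_le hint3 (by
      rw [ae_restrict_iff' measurableSet_Ioi]
      exact Eventually.of_forall hb3)).trans (le_of_eq ?_)
    rw [integral_const_mul, integral_Ioi_rpow_of_lt (by norm_num) hx1]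
    have e1 : (w⁻¹ : ℝ) ^ (-3 + 1 : ℝ) = w ^ 2 := by
      rw [show (-3 + 1 : ℝ) = -2 by norm_num, Real.rpow_neg hx1.le]
      norm_cast
      rw [inv_pow, inv_inv]
    rw [e1]
    field_simp
    norm_num
  -- conclusion
  have hsplit : (∫ ξ in Ioi (0 : ℝ), g ξ) = (∫ ξ in (0 : ℝ)..s⁻¹, g ξ) +
      ((∫ ξ in s⁻¹..w⁻¹, (g ξ - N (s * ξ) / ξ)) + (∫ ξ in s⁻¹..w⁻¹, N (s * ξ) / ξ)) +
      ∫ ξ in Ioi w⁻¹, g ξ := by
    rw [intervalIntegral.integral_sub hi2 hi2a, sub_add_cancel,
      intervalIntegral.integral_add_adjacent_intervals hi1 hi2,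
      intervalIntegral.integral_interval_add_Ioi' (hi1.trans hi2) hi3]
  rw [hred, hsplit, ← sub_div, abs_div, abs_of_pos (show (0 : ℝ) < σ ^ 2 by positivity)]
  apply div_le_div_of_nonneg_right _ (by positivity)
  rw [abs_le] at hI1 hI2a hI2b hI3 ⊢
  constructor
  · linarith [hI1.1, hI2a.1, hI2b.1, hI3.1]
  · linarith [hI1.2, hI2a.2, hI2b.2, hI3.2]

end Pool.Agent.H493.EN
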