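import Pool.Agent.H493.EN.Low
import Pool.Agent.H493.EN.FTE
import Pool.Agent.H493.EN.STV
import Pool.Agent.H493.EN.STA
import Pool.Agent.H493.EN.STT
import Pool.Agent.H493.EN.BLI
import Pool.Agent.H493.EN.SCL
import Pool.Agent.H493.EN.ADF
import Pool.Agent.H493.EN.EDG
import Pool.Agent.H493.EN.SCF
import Pool.Agent.H493.EN.CHF
import Pool.Agent.H493.EN.MEF

set_option autoImplicit false

/-! Assembly. -/

open Complex Filter Topology Set MeasureTheory ProbabilityTheory
open scoped BoundedContinuousFunction RealInnerProductSpace NNReal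

namespace Pool.Agent.H493.EN

open Pool.Agent.H203.ME

theorem p_ADF : S_ADF := t_ADF (t_STV t_FTE) t_STA (t_STT t_FTE)

theorem p_STC : S_STC := t_STC p_SEC

theorem p_STL : S_STL := t_STL t_BLI p_L2

theorem p_CHF : S_CHF := t_CHF t_SCL p_ADF p_STC t_MEF

theorem p_SCF : S_SCF := t_SCF t_SCL p_ADF p_STC p_STL t_EDG t_MEF

end Pool.Agent.H493.EN
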