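import Pool.Agent.H493.EN.Stb

set_option autoImplicit false

/-! EN5-BLK: a function which follows few patterns and correlates with a given function (helper81). -/

open Complex Filter Topology Set MeasureTheory ProbabilityTheory
open scoped RealInnerProductSpace NNReal

namespace Pool.Agent.H493.EN

namespace BLKL

/-- the sign -/
noncomputable def sg (x : ℝ) : ℝ := if 0 ≤ x then 1 else -1

lemma sg_mul (x : ℝ) : sg x * x = |x| := by
  unfold sg
  split_ifs with h
  · rw [one_mul, abs_of_nonneg h]
  · rw [abs_of_neg (not_le.1 h)]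
    ring

lemma abs_sg (x : ℝ) : |sg x| = 1 := by
  unfold sg
  split_ifs <;> simp

lemma meas_sg : Measurable sg := Measurable.ite measurableSet_Ici measurable_const measurable_const

/-- the alternating sum -/
noncomputable def Sig (q : ℕ) (s : ℝ) (D : ℝ → ℝ) (t : ℝ) : ℝ :=
  ∑ m ∈ Finset.range q, (-1) ^ m * D (t + m * s)

/-- the position in the block -/
noncomputable def pos (q : ℕ) (s : ℝ) (r : ℕ) (t : ℝ) : ℕ := ((⌊t / s⌋ + r) % q).toNat

/-- the function -/
noncomputable def th (q : ℕ) (s : ℝ) (D : ℝ → ℝ) (r : ℕ) (t : ℝ) : ℝ :=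
  (-1) ^ pos q s r t * sg (Sig q s D (t - pos q s r t * s))

/-- the patterns -/
noncomputable def pat (q M : ℕ) (x : Fin q × (Fin (M / q + 2) → Bool)) (m : ℕ) : ℂ :=
  (-1) ^ ((x.1.val + m) % q) *
    (if h : (x.1.val + m) / q < M / q + 2 then (if x.2 ⟨(x.1.val + m) / q, h⟩ then 1 else -1) else 1)

lemma pos_cast {q : ℕ} (hq : 0 < q) (s : ℝ) (r : ℕ) (t : ℝ) :
    (pos q s r t : ℤ) = (⌊t / s⌋ + r) % q := by
  unfold pos
  exact Int.toNat_of_nonneg (Int.emod_nonneg _ (by exact_mod_cast hq.ne'))

lemma pos_lt {q : ℕ} (hq : 0 < q) (s : ℝ) (r : ℕ) (t : ℝ) : pos q s r t < q := by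
  have h : (pos q s r t : ℤ) < q := by
    rw [pos_cast hq]
    exact Int.emod_lt_of_pos _ (by exact_mod_cast hq)
  exact_mod_cast h

lemma pos_image {q : ℕ} (hq : 0 < q) (s : ℝ) (t : ℝ) (F : ℕ → ℝ) :
    ∑ r ∈ Finset.range q, F (pos q s r t) = ∑ m ∈ Finset.range q, F m := by
  have hinj : Set.InjOn (fun r => pos q s r t) (Finset.range q : Set ℕ) := by
    intro r hr r' hr' h
    have hr1 : r < q := Finset.mem_range.1 (Finset.mem_coe.1 hr)
    have hr2 : r' < q := Finset.mem_range.1 (Finset.mem_coe.1 hr')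
    have h0 : pos q s r t = pos q s r' t := h
    have h1 : (⌊t / s⌋ + (r : ℤ)) % q = (⌊t / s⌋ + r') % q := by
      rw [← pos_cast hq, ← pos_cast hq, h0]
    have h2 : (r : ℤ) ≡ r' [ZMOD q] := Int.ModEq.add_left_cancel' ⌊t / s⌋ h1
    have h3 : (r : ℤ) = r' := by
      have h4 : (r : ℤ) % q = r' % q := h2
      rwa [Int.emod_eq_of_lt (by positivity) (by exact_mod_cast hr1),
        Int.emod_eq_of_lt (by positivity) (by exact_mod_cast hr2)] at h4
    exact_mod_cast h3
  have him : (Finset.range q).image (fun r => pos q s r t) = Finset.range q := by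
    refine Finset.eq_of_subset_of_card_le ?_ ?_
    · intro m hm
      obtain ⟨r, -, rfl⟩ := Finset.mem_image.1 hm
      exact Finset.mem_range.2 (pos_lt hq s r t)
    · rw [Finset.card_image_of_injOn hinj]
  conv_rhs => rw [← him]
  rw [Finset.sum_image hinj]

lemma meas_pos (q : ℕ) (s : ℝ) (r : ℕ) : Measurable (pos q s r) := by
  have h1 : Measurable (fun t : ℝ => ⌊t / s⌋) := (measurable_id.div_const s).floor
  have h2 : Measurable (fun n : ℤ => ((n + r) % q).toNat) := measurable_of_countable _
  exact h2.comp h1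

lemma meas_Sig (q : ℕ) (s : ℝ) {D : ℝ → ℝ} (hD : Measurable D) : Measurable (Sig q s D) := by
  unfold Sig
  exact Finset.measurable_fun_sum _ fun m _ => (hD.comp (measurable_id.add_const _)).const_mul _

lemma meas_th {q : ℕ} (hq : 0 < q) (s : ℝ) {D : ℝ → ℝ} (hD : Measurable D) (r : ℕ) :
    Measurable (th q s D r) := by
  have h1 : th q s D r = fun t => ∑ m ∈ Finset.range q,
      if pos q s r t = m then (-1) ^ m * sg (Sig q s D (t - m * s)) else 0 := by
    funext t
    rw [Finset.sum_ite_eq, if_pos (Finset.mem_range.2 (pos_lt hq s r t))]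
    rfl
  rw [h1]
  refine Finset.measurable_fun_sum _ fun m _ => ?_
  refine Measurable.ite (meas_pos q s r (measurableSet_singleton m)) ?_ measurable_const
  exact (meas_sg.comp ((meas_Sig q s hD).comp (measurable_id.sub_const _))).const_mul _

lemma abs_th (q : ℕ) (s : ℝ) (D : ℝ → ℝ) (r : ℕ) (t : ℝ) : |th q s D r t| = 1 := by
  unfold th
  rw [abs_mul, abs_sg, mul_one, abs_pow, abs_neg, abs_one, one_pow]

lemma int_bdd {f D : ℝ → ℝ} (hf : Measurable f) (h1 : ∀ t, |f t| = 1) (hD : Integrable D) :
    Integrable (fun t => f t * D t) := by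
  refine hD.norm.mono' (hf.aestronglyMeasurable.mul hD.1) (Eventually.of_forall fun t => ?_)
  rw [norm_mul, Real.norm_eq_abs, h1, one_mul]

lemma sum_int {q : ℕ} (hq : 0 < q) (s : ℝ) {D : ℝ → ℝ} (hD : Measurable D) (hI : Integrable D) :
    ∑ r ∈ Finset.range q, ∫ t, th q s D r t * D t = ∫ t, |Sig q s D t| := by
  have hsg : ∀ m : ℕ, Measurable (fun t => sg (Sig q s D (t - m * s))) := fun m =>
    meas_sg.comp ((meas_Sig q s hD).comp (measurable_id.sub_const _))
  have hi : ∀ m : ℕ, Integrable (fun t => sg (Sig q s D (t - m * s)) * D t) := fun m =>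
    int_bdd (hsg m) (fun t => abs_sg _) hI
  rw [← integral_finsetSum _ (fun r _ => int_bdd (meas_th hq s hD r) (abs_th q s D r) hI)]
  have h1 : ∀ t, ∑ r ∈ Finset.range q, th q s D r t * D t =
      ∑ m ∈ Finset.range q, (-1) ^ m * (sg (Sig q s D (t - m * s)) * D t) := by
    intro t
    rw [← Finset.sum_mul]
    have h2 := pos_image hq s t (fun m => (-1) ^ m * sg (Sig q s D (t - m * s)))
    have h3 : ∑ r ∈ Finset.range q, th q s D r t =
        ∑ m ∈ Finset.range q, (-1) ^ m * sg (Sig q s D (t - m * s)) := h2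
    rw [h3, Finset.sum_mul]
    exact Finset.sum_congr rfl fun m _ => mul_assoc _ _ _
  have h2 : (fun t => ∑ r ∈ Finset.range q, th q s D r t * D t) =
      fun t => ∑ m ∈ Finset.range q, (-1) ^ m * (sg (Sig q s D (t - m * s)) * D t) := funext h1
  rw [h2, integral_finsetSum _ (fun m _ => (hi m).const_mul _)]
  have h3 : ∀ m : ℕ, ∫ t, (-1) ^ m * (sg (Sig q s D (t - m * s)) * D t) =
      ∫ t, sg (Sig q s D t) * ((-1) ^ m * D (t + m * s)) := by
    intro m
    rw [← integral_add_right_eq_self
      (fun t => (-1) ^ m * (sg (Sig q s D (t - m * s)) * D t)) ((m : ℝ) * s)]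
    congr 1
    funext t
    rw [add_sub_cancel_right]
    ring
  have hi2 : ∀ m : ℕ, Integrable (fun t => sg (Sig q s D t) * ((-1) ^ m * D (t + m * s))) := by
    intro m
    refine int_bdd (meas_sg.comp (meas_Sig q s hD)) (fun t => abs_sg _) ?_
    exact (hI.comp_add_right _).const_mul _
  rw [Finset.sum_congr rfl fun m _ => h3 m, ← integral_finsetSum _ (fun m _ => hi2 m)]
  congr 1
  funext t
  rw [← Finset.mul_sum]
  exact sg_mul (Sig q s D t)

lemma pos_add {q : ℕ} (hq : 0 < q) {s : ℝ} (hs : 0 < s) (r m : ℕ) (t : ℝ) :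
    pos q s r (t + m * s) = (pos q s r t + m) % q := by
  have h1 : (pos q s r (t + m * s) : ℤ) = (((pos q s r t + m) % q : ℕ) : ℤ) := by
    rw [pos_cast hq]
    push_cast
    rw [pos_cast hq]
    have h2 : (t + m * s) / s = t / s + (m : ℕ) := by
      field_simp
    rw [h2, Int.floor_add_natCast, Int.emod_add_emod]
    congr 1
    ring
  exact_mod_cast h1

end BLKL

open BLKL in
/-- EN5-BLK. -/
theorem t_BLK : S_BLK := by
  classical
  intro q hq
  have hq1 : (0 : ℝ) < q := by exact_mod_cast hq
  refine ⟨fun M => Finset.univ.image (pat q M), ?_, ?_, ?_⟩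
  · intro M
    refine Finset.card_image_le.trans ?_
    rw [Finset.card_univ, Fintype.card_prod, Fintype.card_fin, Fintype.card_fun, Fintype.card_bool,
      Fintype.card_fin]
  · intro M p hp m
    obtain ⟨x, -, rfl⟩ := Finset.mem_image.1 hp
    unfold pat
    rw [norm_mul, norm_pow, norm_neg, norm_one, one_pow, one_mul]
    split_ifs <;> simp
  · intro s D hs hD hI
    obtain ⟨r, -, hr⟩ := Finset.exists_le_of_sum_le
      (f := fun _ : ℕ => 1 / (q : ℝ) * ∫ t, |Sig q s D t|)
      (g := fun r => ∫ t, th q s D r t * D t) (s := Finset.range q)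
      (Finset.nonempty_range_iff.2 hq.ne') (by
        rw [sum_int hq s hD hI, Finset.sum_const, Finset.card_range, nsmul_eq_mul, ← mul_assoc,
          mul_one_div_cancel hq1.ne', one_mul])
    refine ⟨fun t => (th q s D r t : ℂ), ?_, ?_, ?_, ?_⟩
    · exact Complex.measurable_ofReal.comp (meas_th hq s hD r)
    · intro t
      rw [Complex.norm_real, Real.norm_eq_abs, abs_th]
    · intro t M
      refine ⟨pat q M (⟨pos q s r t, pos_lt hq s r t⟩,
        fun j => decide (0 ≤ Sig q s D (t - pos q s r t * s + j.val * q * s))),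
        Finset.mem_image.2 ⟨_, Finset.mem_univ _, rfl⟩, ?_⟩
      intro m hm
      have hlt : (pos q s r t + m) / q < M / q + 2 := by
        have h1 := pos_lt hq s r t
        have h2 : pos q s r t + m ≤ M + q := by omega
        have h3 : (pos q s r t + m) / q ≤ (M + q) / q := Nat.div_le_div_right h2
        rw [Nat.add_div_right _ hq] at h3
        omega
      have harg : t + m * s - ((pos q s r t + m) % q : ℕ) * s =
          t - pos q s r t * s + ((pos q s r t + m) / q : ℕ) * q * s := by
        have h1 : (pos q s r t + m) % q + q * ((pos q s r t + m) / q) = pos q s r t + m :=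
          Nat.mod_add_div _ _
        have h2 : ((((pos q s r t + m) % q : ℕ) : ℝ)) + q * (((pos q s r t + m) / q : ℕ) : ℝ) =
            pos q s r t + m := by exact_mod_cast h1
        have h3 : (((pos q s r t + m) % q : ℕ) : ℝ) =
            pos q s r t + m - q * (((pos q s r t + m) / q : ℕ) : ℝ) := by linarith
        rw [h3]
        ring
      have hth : th q s D r (t + m * s) = (-1) ^ ((pos q s r t + m) % q) *
          sg (Sig q s D (t - pos q s r t * s + ((pos q s r t + m) / q : ℕ) * q * s)) := by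
        unfold th
        rw [pos_add hq hs, harg]
      simp only [hth, pat, dif_pos hlt]
      unfold sg
      by_cases h : 0 ≤ Sig q s D (t - pos q s r t * s + ((pos q s r t + m) / q : ℕ) * q * s)
      · rw [if_pos h, if_pos (decide_eq_true h)]
        push_cast
        ring
      · rw [if_neg h, if_neg (by simpa using h)]
        push_cast
        ring
    · have h1 : (fun t => ((th q s D r t : ℂ)) * (D t : ℂ)) =
          fun t => (((th q s D r t * D t : ℝ)) : ℂ) := by
        funext t
        push_cast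
        rfl
      rw [h1, integral_complex_ofReal, Complex.norm_real, Real.norm_eq_abs]
      exact hr.trans (le_abs_self _)

end Pool.Agent.H493.EN
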