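import Pool.Agent.H493.EN.Stw

set_option autoImplicit false

namespace Pool.Agent.H493.EN

namespace CPSL

open Classical in
theorem one_sum (X : Finset ℝ) (p q : ℝ) (hp : p ∈ X) :
    ∑ x ∈ X, (if p = x then (1 : ℝ) else 0) * (if q = x then (1 : ℝ) else 0) =
      if p = q then 1 else 0 := by
  rw [Finset.sum_eq_single p]
  · rw [if_pos rfl, one_mul]
    by_cases h : p = q
    · rw [if_pos h, if_pos h.symm]
    · rw [if_neg h, if_neg (fun h' => h h'.symm)]
  · intro x _ hx
    rw [if_neg (fun h => hx h.symm), zero_mul]
  · intro h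
    exact absurd hp h

end CPSL

open Classical in
open CPSL in
/-- the matrix of the covariances is positive semidefinite -/
theorem t_CPS : S_CPS := by
  intro ι _ _ a b
  set X : Finset ℝ := Finset.univ.image a ∪ Finset.univ.image b with hX
  have ha : ∀ i, a i ∈ X := fun i =>
    Finset.mem_union_left _ (Finset.mem_image_of_mem a (Finset.mem_univ i))
  have hb : ∀ i, b i ∈ X := fun i =>
    Finset.mem_union_right _ (Finset.mem_image_of_mem b (Finset.mem_univ i))
  let V : Matrix X ι ℝ := fun x i =>
    (if a i = (x : ℝ) then 1 else 0) - (if b i = (x : ℝ) then 1 else 0)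
  have key : Matrix.of (cw2 a b) = (1 / 2 : ℝ) • (V.conjTranspose * V) := by
    ext i j
    rw [Matrix.of_apply, Matrix.smul_apply, Matrix.mul_apply]
    have e : ∑ x : X, V.conjTranspose i x * V x j = ∑ x ∈ X,
        ((if a i = x then (1 : ℝ) else 0) - (if b i = x then 1 else 0)) *
          ((if a j = x then (1 : ℝ) else 0) - (if b j = x then 1 else 0)) := by
      rw [← Finset.sum_coe_sort X]
      refine Finset.sum_congr rfl fun x _ => ?_
      rw [Matrix.conjTranspose_apply]
      simp only [V, star_trivial]
    have e2 : ∑ x ∈ X,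
        ((if a i = x then (1 : ℝ) else 0) - (if b i = x then 1 else 0)) *
          ((if a j = x then (1 : ℝ) else 0) - (if b j = x then 1 else 0)) =
        (if a i = a j then 1 else 0) + (if b i = b j then 1 else 0) -
          (if a i = b j then 1 else 0) - (if b i = a j then 1 else 0) := by
      rw [← one_sum X (a i) (a j) (ha i), ← one_sum X (b i) (b j) (hb i),
        ← one_sum X (a i) (b j) (ha i), ← one_sum X (b i) (a j) (hb i), ← Finset.sum_add_distrib,
        ← Finset.sum_sub_distrib, ← Finset.sum_sub_distrib]
      refine Finset.sum_congr rfl fun x _ => ?_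
      ring
    rw [e, e2, cw2, smul_eq_mul]
    ring
  rw [key]
  exact (Matrix.posSemidef_conjTranspose_mul_self V).smul (by norm_num)

end Pool.Agent.H493.EN
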