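import Pool.Agent.H493.EN.Stw

set_option autoImplicit false

namespace Pool.Agent.H493.EN

namespace CQFL

open Classical in
theorem ind {k M : ℕ} (x : ℝ) (f : Fin k → ℝ) :
    ∑ q : Fin k × Fin M, (if x = f q.1 + ((q.2 : ℕ) : ℝ) then (1 : ℝ) else 0) ≤ k := by
  rw [Fintype.sum_prod_type]
  have h1 : ∀ j : Fin k, ∑ m : Fin M, (if x = f j + ((m : ℕ) : ℝ) then (1 : ℝ) else 0) ≤ 1 := by
    intro j
    rw [Finset.sum_ite, Finset.sum_const_zero, add_zero, Finset.sum_const, nsmul_eq_mul, mul_one]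
    have h2 : (Finset.univ.filter fun m : Fin M => x = f j + ((m : ℕ) : ℝ)).card ≤ 1 := by
      rw [Finset.card_le_one]
      intro m hm m' hm'
      rw [Finset.mem_filter] at hm hm'
      have h3 : ((m : ℕ) : ℝ) = ((m' : ℕ) : ℝ) := by linarith [hm.2, hm'.2]
      exact Fin.ext (by exact_mod_cast h3)
    exact_mod_cast h2
  calc ∑ j : Fin k, ∑ m : Fin M, (if x = f j + ((m : ℕ) : ℝ) then (1 : ℝ) else 0)
      ≤ ∑ _j : Fin k, (1 : ℝ) := Finset.sum_le_sum fun j _ => h1 j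
    _ = k := by simp

open Classical in
theorem cabs_le {ι : Type} (a b : ι → ℝ) (i j : ι) : |cw2 a b i j| ≤
    ((if a i = a j then 1 else 0) + (if b i = b j then 1 else 0) + (if a i = b j then 1 else 0) +
    (if b i = a j then 1 else 0)) / 2 := by
  unfold cw2
  rw [abs_le]
  constructor <;> split_ifs <;> norm_num

theorem symm {ι : Type} (a b : ι → ℝ) (i j : ι) : cw2 a b i j = cw2 a b j i := by
  unfold cw2
  have h1 : (a i = a j) = (a j = a i) := propext eq_comm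
  have h2 : (b i = b j) = (b j = b i) := propext eq_comm
  have h3 : (a i = b j) = (b j = a i) := propext eq_comm
  have h4 : (b i = a j) = (a j = b i) := propext eq_comm
  simp only [h1, h2, h3, h4]
  ring

theorem row {k M : ℕ} (a b : Fin k → ℝ) (p : Fin k × Fin M) :
    ∑ q, |cw2 (fun r : Fin k × Fin M => a r.1 + ((r.2 : ℕ) : ℝ))
      (fun r => b r.1 + ((r.2 : ℕ) : ℝ)) p q| ≤ 2 * k := by
  classical
  refine (Finset.sum_le_sum fun q _ => cabs_le _ _ p q).trans ?_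
  rw [← Finset.sum_div, Finset.sum_add_distrib, Finset.sum_add_distrib, Finset.sum_add_distrib]
  have h1 := ind (M := M) (a p.1 + ((p.2 : ℕ) : ℝ)) a
  have h2 := ind (M := M) (b p.1 + ((p.2 : ℕ) : ℝ)) b
  have h3 := ind (M := M) (a p.1 + ((p.2 : ℕ) : ℝ)) b
  have h4 := ind (M := M) (b p.1 + ((p.2 : ℕ) : ℝ)) a
  linarith

theorem bound {ι : Type} [Fintype ι] (c : ι → ι → ℝ) (hc : ∀ i j, c i j = c j i) (K : ℝ)
    (hK : ∀ i, ∑ j, |c i j| ≤ K) (u : ι → ℝ) :
    ∑ p, ∑ q, u p * u q * c p q ≤ K * ∑ p, u p ^ 2 := by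
  have h1 : ∀ p q, u p * u q * c p q ≤ (u p ^ 2 * |c p q| + u q ^ 2 * |c q p|) / 2 := by
    intro p q
    rw [hc q p]
    have h2 : u p * u q * c p q ≤ |u p * u q| * |c p q| := by
      rw [← abs_mul]
      exact le_abs_self _
    have h3 : |u p * u q| ≤ (u p ^ 2 + u q ^ 2) / 2 := by
      rw [abs_mul]
      nlinarith [sq_nonneg (|u p| - |u q|), sq_abs (u p), sq_abs (u q)]
    have h4 : |u p * u q| * |c p q| ≤ (u p ^ 2 + u q ^ 2) / 2 * |c p q| :=
      mul_le_mul_of_nonneg_right h3 (abs_nonneg _)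
    linarith
  have h5 : ∑ p, ∑ q, u p * u q * c p q ≤ ∑ p, ∑ q, (u p ^ 2 * |c p q| + u q ^ 2 * |c q p|) / 2 :=
    Finset.sum_le_sum fun p _ => Finset.sum_le_sum fun q _ => h1 p q
  have h6 : ∑ p, ∑ q, (u p ^ 2 * |c p q| + u q ^ 2 * |c q p|) / 2 =
      ∑ p, u p ^ 2 * ∑ q, |c p q| := by
    have h7 : ∑ p, ∑ q, u q ^ 2 * |c q p| = ∑ p, ∑ q, u p ^ 2 * |c p q| := Finset.sum_comm
    have h8 : ∑ p, ∑ q, (u p ^ 2 * |c p q| + u q ^ 2 * |c q p|) / 2 =
        ((∑ p, ∑ q, u p ^ 2 * |c p q|) + ∑ p, ∑ q, u q ^ 2 * |c q p|) / 2 := by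
      rw [← Finset.sum_add_distrib, Finset.sum_div]
      refine Finset.sum_congr rfl fun p _ => ?_
      rw [← Finset.sum_add_distrib, Finset.sum_div]
    rw [h8, h7]
    simp only [Finset.mul_sum]
    ring
  rw [h6] at h5
  refine h5.trans ?_
  rw [Finset.mul_sum]
  refine Finset.sum_le_sum fun p _ => ?_
  rw [mul_comm K]
  exact mul_le_mul_of_nonneg_left (hK p) (sq_nonneg _)

end CQFL

theorem t_CQF : S_CQF := by
  intro k M a b u
  exact CQFL.bound _ (fun i j => CQFL.symm _ _ i j) (2 * k) (fun p => CQFL.row a b p) u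

end Pool.Agent.H493.EN
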