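import Pool.Agent.H493.EN.Stm

set_option autoImplicit false

/-! (QFA) a weighted large sieve inequality by periodisation. -/

open Complex Filter Topology Set MeasureTheory ProbabilityTheory
open scoped BoundedContinuousFunction RealInnerProductSpace NNReal

namespace Pool.Agent.H493.EN

namespace QFAL

/-- the square of the trigonometric polynomial -/
noncomputable def Fq {M : ℕ} (a : Fin M → ℝ) (ξ : ℝ) : ℝ :=
  ∑ m, ∑ n, a m * a n * Real.cos (ξ * (((m : ℕ) : ℝ) - ((n : ℕ) : ℝ)))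

theorem norm_sq {M : ℕ} (a : Fin M → ℝ) (ξ : ℝ) :
    ‖∑ m : Fin M, (a m : ℂ) * cexp (-(((ξ * (m : ℕ) : ℝ) : ℂ) * I))‖ ^ 2 = Fq a ξ := by
  have h1 : ∀ m : Fin M, (a m : ℂ) * cexp (-(((ξ * (m : ℕ) : ℝ) : ℂ) * I)) =
      ((a m * Real.cos (ξ * (m : ℕ)) : ℝ) : ℂ) + ((-(a m * Real.sin (ξ * (m : ℕ))) : ℝ) : ℂ) * I := by
    intro m
    have : -(((ξ * (m : ℕ) : ℝ) : ℂ) * I) = ((-(ξ * (m : ℕ)) : ℝ) : ℂ) * I := by push_cast; ring
    rw [this, Complex.exp_mul_I, ← Complex.ofReal_cos, ← Complex.ofReal_sin, Real.cos_neg,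
      Real.sin_neg]
    push_cast
    ring
  have h2 : ∑ m : Fin M, (a m : ℂ) * cexp (-(((ξ * (m : ℕ) : ℝ) : ℂ) * I)) =
      ((∑ m : Fin M, a m * Real.cos (ξ * (m : ℕ)) : ℝ) : ℂ) +
        ((∑ m : Fin M, -(a m * Real.sin (ξ * (m : ℕ))) : ℝ) : ℂ) * I := by
    rw [Finset.sum_congr rfl fun m _ => h1 m, Finset.sum_add_distrib, ← Finset.sum_mul]
    push_cast
    rfl
  rw [h2, ← Complex.normSq_eq_norm_sq, Complex.normSq_add_mul_I, Finset.sum_neg_distrib, neg_sq,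
    pow_two, pow_two, Finset.sum_mul_sum, Finset.sum_mul_sum, ← Finset.sum_add_distrib]
  unfold Fq
  refine Finset.sum_congr rfl fun m _ => ?_
  rw [← Finset.sum_add_distrib]
  refine Finset.sum_congr rfl fun n _ => ?_
  rw [mul_sub, Real.cos_sub]
  ring

theorem Fq_nonneg {M : ℕ} (a : Fin M → ℝ) (ξ : ℝ) : 0 ≤ Fq a ξ := by
  rw [← norm_sq]
  positivity

theorem Fq_cont {M : ℕ} (a : Fin M → ℝ) : Continuous (Fq a) := by
  unfold Fq
  fun_prop

theorem Fq_le {M : ℕ} (a : Fin M → ℝ) (ξ : ℝ) : Fq a ξ ≤ ∑ m, ∑ n, |a m * a n| := by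
  unfold Fq
  refine Finset.sum_le_sum fun m _ => Finset.sum_le_sum fun n _ => ?_
  calc a m * a n * Real.cos (ξ * (((m : ℕ) : ℝ) - ((n : ℕ) : ℝ)))
      ≤ |a m * a n * Real.cos (ξ * (((m : ℕ) : ℝ) - ((n : ℕ) : ℝ)))| := le_abs_self _
    _ = |a m * a n| * |Real.cos (ξ * (((m : ℕ) : ℝ) - ((n : ℕ) : ℝ)))| := abs_mul _ _
    _ ≤ |a m * a n| * 1 := mul_le_mul_of_nonneg_left (Real.abs_cos_le_one _) (abs_nonneg _)
    _ = |a m * a n| := mul_one _

theorem Fq_periodic {M : ℕ} (a : Fin M → ℝ) : Function.Periodic (Fq a) (2 * Real.pi) := by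
  intro ξ
  unfold Fq
  refine Finset.sum_congr rfl fun m _ => Finset.sum_congr rfl fun n _ => ?_
  have e : (ξ + 2 * Real.pi) * (((m : ℕ) : ℝ) - ((n : ℕ) : ℝ)) =
      ξ * (((m : ℕ) : ℝ) - ((n : ℕ) : ℝ)) + ((((m : ℕ) : ℤ) - ((n : ℕ) : ℤ) : ℤ) : ℝ) * (2 * Real.pi) := by
    push_cast
    ring
  rw [e, Real.cos_add_int_mul_two_pi]

theorem int_cos (d : ℤ) : ∫ ξ in (0 : ℝ)..(2 * Real.pi), Real.cos (ξ * (d : ℝ)) =
    if d = 0 then 2 * Real.pi else 0 := by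
  split_ifs with h
  · subst h
    simp
  · have hd : (d : ℝ) ≠ 0 := by exact_mod_cast h
    rw [intervalIntegral.integral_comp_mul_right (fun x => Real.cos x) hd, integral_cos]
    have : Real.sin (2 * Real.pi * (d : ℝ)) = 0 := by
      have := Real.sin_int_mul_pi (2 * d)
      push_cast at this
      rw [← this]
      congr 1
      ring
    rw [this]
    simp

theorem int_Fq {M : ℕ} (a : Fin M → ℝ) :
    ∫ ξ in (0 : ℝ)..(2 * Real.pi), Fq a ξ = 2 * Real.pi * ∑ m, a m ^ 2 := by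
  unfold Fq
  rw [intervalIntegral.integral_finsetSum (fun m _ => by
    apply Continuous.intervalIntegrable
    fun_prop), Finset.mul_sum]
  refine Finset.sum_congr rfl fun m _ => ?_
  rw [intervalIntegral.integral_finsetSum (fun n _ => by
    apply Continuous.intervalIntegrable
    fun_prop)]
  rw [Finset.sum_eq_single m]
  · rw [intervalIntegral.integral_const_mul]
    have := int_cos 0
    simp only [Int.cast_zero, if_true] at this
    rw [sub_self, this]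
    ring
  · intro n _ hn
    rw [intervalIntegral.integral_const_mul]
    have := int_cos (((m : ℕ) : ℤ) - ((n : ℕ) : ℤ))
    rw [if_neg (by
      intro h
      apply hn
      apply Fin.ext
      omega)] at this
    push_cast at this
    rw [this, mul_zero]
  · intro h
    exact absurd (Finset.mem_univ _) h

theorem sum_bound (N : ℕ) : ∑ l ∈ Finset.range (N + 1), 1 / (1 + (2 * Real.pi * (l : ℝ)) ^ 2) ≤
    2 - 1 / ((N : ℝ) + 1) := by
  induction N with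
  | zero => simp; norm_num
  | succ N ih =>
    rw [Finset.sum_range_succ]
    have hN : (0 : ℝ) ≤ N := Nat.cast_nonneg N
    have h1 : 1 / (1 + (2 * Real.pi * ((N + 1 : ℕ) : ℝ)) ^ 2) ≤
        1 / ((N : ℝ) + 1) - 1 / (((N + 1 : ℕ) : ℝ) + 1) := by
      push_cast
      have e : 1 / ((N : ℝ) + 1) - 1 / ((N : ℝ) + 1 + 1) = 1 / (((N : ℝ) + 1) * ((N : ℝ) + 1 + 1)) := by
        field_simp
        ring
      rw [e]
      apply one_div_le_one_div_of_le (by positivity)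
      have hp : (3 : ℝ) < Real.pi := Real.pi_gt_three
      have h2 : (2 * 3 * ((N : ℝ) + 1)) ^ 2 ≤ (2 * Real.pi * ((N : ℝ) + 1)) ^ 2 := by
        apply pow_le_pow_left₀ (by positivity)
        nlinarith
      nlinarith
    linarith

theorem finite_bound {M : ℕ} (a : Fin M → ℝ) (N : ℕ) :
    ∫ ξ in (0 : ℝ)..(2 * Real.pi * ((N + 1 : ℕ) : ℝ)), Fq a ξ * (1 + ξ ^ 2)⁻¹ ≤
      4 * Real.pi * ∑ m, a m ^ 2 := by
  have hcont : Continuous (fun ξ : ℝ => Fq a ξ * (1 + ξ ^ 2)⁻¹) := by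
    apply (Fq_cont a).mul
    apply Continuous.inv₀ (by fun_prop)
    intro x
    positivity
  have h1 := intervalIntegral.sum_integral_adjacent_intervals
    (f := fun ξ : ℝ => Fq a ξ * (1 + ξ ^ 2)⁻¹) (μ := volume)
    (a := fun l : ℕ => 2 * Real.pi * (l : ℝ)) (n := N + 1)
    (fun k _ => hcont.intervalIntegrable _ _)
  simp only [Nat.cast_zero, mul_zero] at h1
  rw [← h1]
  have hI : 0 ≤ 2 * Real.pi * ∑ m, a m ^ 2 := by positivity
  have h2 : ∀ l ∈ Finset.range (N + 1),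
      ∫ ξ in (2 * Real.pi * (l : ℝ))..(2 * Real.pi * ((l + 1 : ℕ) : ℝ)), Fq a ξ * (1 + ξ ^ 2)⁻¹ ≤
        1 / (1 + (2 * Real.pi * (l : ℝ)) ^ 2) * (2 * Real.pi * ∑ m, a m ^ 2) := by
    intro l _
    have hle : 2 * Real.pi * (l : ℝ) ≤ 2 * Real.pi * ((l + 1 : ℕ) : ℝ) := by
      push_cast
      have := Real.pi_pos
      nlinarith
    have h3 : ∫ ξ in (2 * Real.pi * (l : ℝ))..(2 * Real.pi * ((l + 1 : ℕ) : ℝ)), Fq a ξ =
        2 * Real.pi * ∑ m, a m ^ 2 := by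
      have := (Fq_periodic a).intervalIntegral_add_eq (2 * Real.pi * (l : ℝ)) 0
      rw [zero_add, int_Fq] at this
      rw [← this]
      congr 1
      push_cast
      ring
    rw [← h3, ← intervalIntegral.integral_const_mul]
    apply intervalIntegral.integral_mono_on hle (hcont.intervalIntegrable _ _)
      ((continuous_const.mul (Fq_cont a)).intervalIntegrable _ _)
    intro ξ hξ
    have hl0 : 0 ≤ 2 * Real.pi * (l : ℝ) := by positivity
    rw [mul_comm, ← one_div]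
    apply mul_le_mul_of_nonneg_right _ (Fq_nonneg a ξ)
    apply one_div_le_one_div_of_le (by positivity)
    have := pow_le_pow_left₀ hl0 hξ.1 2
    linarith
  refine (Finset.sum_le_sum h2).trans ?_
  rw [← Finset.sum_mul]
  have h4 := sum_bound N
  have h5 : ∑ l ∈ Finset.range (N + 1), 1 / (1 + (2 * Real.pi * (l : ℝ)) ^ 2) ≤ 2 := by
    have : 0 ≤ 1 / ((N : ℝ) + 1) := by positivity
    linarith
  calc _ ≤ 2 * (2 * Real.pi * ∑ m, a m ^ 2) := mul_le_mul_of_nonneg_right h5 hI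
    _ = 4 * Real.pi * ∑ m, a m ^ 2 := by ring

theorem integrable_F {M : ℕ} (a : Fin M → ℝ) :
    Integrable (fun ξ : ℝ => Fq a ξ * (1 + ξ ^ 2)⁻¹) := by
  refine Integrable.mono' (integrable_inv_one_add_sq.const_mul (∑ m, ∑ n, |a m * a n|)) ?_ ?_
  · apply Continuous.aestronglyMeasurable
    apply (Fq_cont a).mul
    apply Continuous.inv₀ (by fun_prop)
    intro x
    positivity
  · refine Filter.Eventually.of_forall fun ξ => ?_
    have h0 : 0 ≤ Fq a ξ * (1 + ξ ^ 2)⁻¹ := mul_nonneg (Fq_nonneg a ξ) (by positivity)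
    rw [Real.norm_of_nonneg h0]
    exact mul_le_mul_of_nonneg_right (Fq_le a ξ) (by positivity)

theorem bound {M : ℕ} (a : Fin M → ℝ) :
    ∫ ξ in Ioi (0 : ℝ), Fq a ξ * (1 + ξ ^ 2)⁻¹ ≤ 4 * Real.pi * ∑ m, a m ^ 2 := by
  have ht : Tendsto (fun N : ℕ => 2 * Real.pi * ((N + 1 : ℕ) : ℝ)) atTop atTop :=
    Tendsto.const_mul_atTop (by positivity)
      (tendsto_natCast_atTop_atTop.comp (tendsto_add_atTop_nat 1))
  have h := intervalIntegral_tendsto_integral_Ioi (0 : ℝ) ((integrable_F a).integrableOn) ht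
  exact le_of_tendsto' h fun N => finite_bound a N

end QFAL

open QFAL in
theorem t_QFA : S_QFA := by
  intro k M C φ hC hφ a
  have hG : Integrable (fun ξ : ℝ => (k * C ^ 2 / 2) * ∑ j, (Fq (a j) ξ * (1 + ξ ^ 2)⁻¹)) :=
    (integrable_finsetSum _ fun j _ => integrable_F (a j)).const_mul _
  have h1 : ∫ ξ in Ioi (0 : ℝ), ξ * ‖∑ j, φ j ξ * ∑ m : Fin M, (a j m : ℂ) *
      cexp (-(((ξ * (m : ℕ) : ℝ) : ℂ) * I))‖ ^ 2 ≤
      ∫ ξ in Ioi (0 : ℝ), (k * C ^ 2 / 2) * ∑ j, (Fq (a j) ξ * (1 + ξ ^ 2)⁻¹) := by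
    apply integral_mono_of_nonneg
    · rw [EventuallyLE, ae_restrict_iff' measurableSet_Ioi]
      refine Filter.Eventually.of_forall fun ξ hξ => ?_
      have : (0 : ℝ) < ξ := hξ
      show 0 ≤ ξ * _
      positivity
    · exact hG.integrableOn
    · rw [EventuallyLE, ae_restrict_iff' measurableSet_Ioi]
      refine Filter.Eventually.of_forall fun ξ hξ => ?_
      have hξ0 : (0 : ℝ) < ξ := hξ
      have h2 : ‖∑ j, φ j ξ * ∑ m : Fin M, (a j m : ℂ) *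
          cexp (-(((ξ * (m : ℕ) : ℝ) : ℂ) * I))‖ ^ 2 ≤
          k * ∑ j, (C / (1 + ξ ^ 2)) ^ 2 * Fq (a j) ξ := by
        calc ‖∑ j, φ j ξ * ∑ m : Fin M, (a j m : ℂ) *
            cexp (-(((ξ * (m : ℕ) : ℝ) : ℂ) * I))‖ ^ 2
            ≤ (∑ j, ‖φ j ξ * ∑ m : Fin M, (a j m : ℂ) *
            cexp (-(((ξ * (m : ℕ) : ℝ) : ℂ) * I))‖) ^ 2 :=
              pow_le_pow_left₀ (norm_nonneg _) (norm_sum_le _ _) 2
          _ ≤ (Finset.univ : Finset (Fin k)).card * ∑ j, ‖φ j ξ * ∑ m : Fin M, (a j m : ℂ) *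
            cexp (-(((ξ * (m : ℕ) : ℝ) : ℂ) * I))‖ ^ 2 := sq_sum_le_card_mul_sum_sq
          _ = k * ∑ j, ‖φ j ξ‖ ^ 2 * Fq (a j) ξ := by
            rw [Finset.card_univ, Fintype.card_fin]
            congr 1
            refine Finset.sum_congr rfl fun j _ => ?_
            rw [norm_mul, mul_pow, norm_sq]
          _ ≤ k * ∑ j, (C / (1 + ξ ^ 2)) ^ 2 * Fq (a j) ξ := by
            apply mul_le_mul_of_nonneg_left _ (Nat.cast_nonneg k)
            refine Finset.sum_le_sum fun j _ => ?_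
            apply mul_le_mul_of_nonneg_right _ (Fq_nonneg (a j) ξ)
            exact pow_le_pow_left₀ (norm_nonneg _) (hφ j ξ) 2
      have h3 : ξ * (C / (1 + ξ ^ 2)) ^ 2 ≤ C ^ 2 / 2 * (1 + ξ ^ 2)⁻¹ := by
        have e : C ^ 2 / 2 * (1 + ξ ^ 2)⁻¹ - ξ * (C / (1 + ξ ^ 2)) ^ 2 =
            C ^ 2 * (1 - ξ) ^ 2 / (2 * (1 + ξ ^ 2) ^ 2) := by
          field_simp
          ring
        have : 0 ≤ C ^ 2 * (1 - ξ) ^ 2 / (2 * (1 + ξ ^ 2) ^ 2) := by positivity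
        linarith
      show ξ * _ ≤ _
      calc ξ * ‖∑ j, φ j ξ * ∑ m : Fin M, (a j m : ℂ) *
            cexp (-(((ξ * (m : ℕ) : ℝ) : ℂ) * I))‖ ^ 2
          ≤ ξ * (k * ∑ j, (C / (1 + ξ ^ 2)) ^ 2 * Fq (a j) ξ) :=
            mul_le_mul_of_nonneg_left h2 hξ0.le
        _ = k * ∑ j, (ξ * (C / (1 + ξ ^ 2)) ^ 2) * Fq (a j) ξ := by
          rw [Finset.mul_sum, Finset.mul_sum, Finset.mul_sum]
          exact Finset.sum_congr rfl fun j _ => by ring
        _ ≤ k * ∑ j, (C ^ 2 / 2 * (1 + ξ ^ 2)⁻¹) * Fq (a j) ξ := by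
          apply mul_le_mul_of_nonneg_left _ (Nat.cast_nonneg k)
          exact Finset.sum_le_sum fun j _ => mul_le_mul_of_nonneg_right h3 (Fq_nonneg (a j) ξ)
        _ = (k * C ^ 2 / 2) * ∑ j, (Fq (a j) ξ * (1 + ξ ^ 2)⁻¹) := by
          rw [Finset.mul_sum, Finset.mul_sum]
          exact Finset.sum_congr rfl fun j _ => by ring
  refine h1.trans ?_
  rw [integral_const_mul, integral_finsetSum _ fun j _ => (integrable_F (a j)).integrableOn]
  have h4 : ∑ j, ∫ ξ in Ioi (0 : ℝ), Fq (a j) ξ * (1 + ξ ^ 2)⁻¹ ≤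
      ∑ j, 4 * Real.pi * ∑ m, a j m ^ 2 := Finset.sum_le_sum fun j _ => bound (a j)
  calc (k * C ^ 2 / 2) * ∑ j, ∫ ξ in Ioi (0 : ℝ), Fq (a j) ξ * (1 + ξ ^ 2)⁻¹
      ≤ (k * C ^ 2 / 2) * ∑ j, 4 * Real.pi * ∑ m, a j m ^ 2 :=
        mul_le_mul_of_nonneg_left h4 (by positivity)
    _ = 2 * Real.pi * k * C ^ 2 * ∑ j, ∑ m, a j m ^ 2 := by
      rw [← Finset.mul_sum]
      ring

end Pool.Agent.H493.EN
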