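import Pool.Agent.H493.EN.Stm

/-!
# S_QG (helper399, for helper493): approximation by Lipschitz functions in the mean

Instead of a convolution we use the infimal convolution `g x = ⨅ y, (f y + L dist x y)` of the
compactly supported function `f = ψ χ_R`.
-/

set_option autoImplicit false

open Complex Filter Topology Set MeasureTheory ProbabilityTheory
open scoped BoundedContinuousFunction RealInnerProductSpace NNReal

namespace Pool.Agent.H493.EN

namespace QGL

/-- uniform approximation of bounded uniformly continuous functions by Lipschitz functions -/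
theorem lip_approx {E : Type*} [PseudoMetricSpace E] (f : E → ℝ) (hf : UniformContinuous f)
    (B : ℝ) (hB0 : 0 ≤ B) (hB : ∀ x, |f x| ≤ B) (ε : ℝ) (hε : 0 < ε) :
    ∃ (L : ℝ≥0) (g : E → ℝ), 0 < L ∧ LipschitzWith L g ∧ ∀ x, |f x - g x| ≤ ε := by
  obtain ⟨δ, hδ, h⟩ := Metric.uniformContinuous_iff.1 hf ε hε
  set L : ℝ := 2 * (B + 1) / δ with hLdef
  have hL : 0 < L := by positivity
  have hLδ : L * δ = 2 * (B + 1) := by
    rw [hLdef]
    field_simp
  have key : ∀ x y, f x ≤ f y + ε + L * dist x y := by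
    intro x y
    by_cases hxy : dist x y < δ
    · have h1 := h hxy
      rw [Real.dist_eq] at h1
      have h2 := (abs_lt.1 h1).2
      have h3 : 0 ≤ L * dist x y := by positivity
      linarith
    · push Not at hxy
      have h1 : 2 * (B + 1) ≤ L * dist x y := by
        rw [← hLδ]
        exact mul_le_mul_of_nonneg_left hxy hL.le
      have h2 := (abs_le.1 (hB x)).2
      have h3 := (abs_le.1 (hB y)).1
      linarith
  have hbdd : ∀ x, BddBelow (Set.range fun y => f y + L * dist x y) := by
    intro x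
    refine ⟨-B, ?_⟩
    rintro _ ⟨y, rfl⟩
    have h1 := (abs_le.1 (hB y)).1
    have h2 : 0 ≤ L * dist x y := by positivity
    change -B ≤ f y + L * dist x y
    linarith
  refine ⟨⟨L, hL.le⟩, fun x => ⨅ y, (f y + L * dist x y), by exact_mod_cast hL, ?_, ?_⟩
  · refine LipschitzWith.of_le_add_mul _ fun x x' => ?_
    have : Nonempty E := ⟨x⟩
    rw [← sub_le_iff_le_add]
    refine le_ciInf fun y => ?_
    have h1 : (⨅ y, (f y + L * dist x y)) ≤ f y + L * dist x y := ciInf_le (hbdd x) y
    have h2 : dist x y ≤ dist x x' + dist x' y := dist_triangle _ _ _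
    have h3 := mul_le_mul_of_nonneg_left h2 hL.le
    change (⨅ y, (f y + L * dist x y)) - L * dist x x' ≤ f y + L * dist x' y
    linarith
  · intro x
    have : Nonempty E := ⟨x⟩
    have h1 : (⨅ y, (f y + L * dist x y)) ≤ f x := by
      have h2 := ciInf_le (hbdd x) x
      simpa using h2
    have h2 : f x - ε ≤ ⨅ y, (f y + L * dist x y) := le_ciInf fun y => by
      have := key x y
      linarith
    rw [abs_le]
    constructor <;> linarith

/-- the cut-off -/
noncomputable def cut (R r : ℝ) : ℝ := max 0 (min 1 (3 - r / R))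

theorem cut_nonneg (R r : ℝ) : 0 ≤ cut R r := le_max_left _ _

theorem cut_le_one (R r : ℝ) : cut R r ≤ 1 := max_le zero_le_one (min_le_left _ _)

theorem cut_eq_one (R r : ℝ) (hR : 0 < R) (h : r ≤ 2 * R) : cut R r = 1 := by
  have h1 : r / R ≤ 2 := by
    rw [div_le_iff₀ hR]
    exact h
  unfold cut
  rw [min_eq_left (by linarith), max_eq_right zero_le_one]

theorem cut_eq_zero (R r : ℝ) (hR : 0 < R) (h : 3 * R < r) : cut R r = 0 := by
  have h1 : 3 ≤ r / R := by
    rw [le_div_iff₀ hR]
    exact h.le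
  unfold cut
  exact max_eq_left ((min_le_right _ _).trans (by linarith))

/-- the truncation error -/
theorem trunc (C R r p : ℝ) (hC : 0 ≤ C) (hR : 1 ≤ R) (hr : 0 ≤ r) (hp : |p| ≤ C * (1 + r ^ 2)) :
    |p - p * cut R r| ≤ 3 * C * (r ^ 2 - min (r ^ 2) (R ^ 2)) := by
  have hR0 : 0 < R := by linarith
  have hD : 0 ≤ r ^ 2 - min (r ^ 2) (R ^ 2) := sub_nonneg.2 (min_le_left _ _)
  by_cases h : r ≤ 2 * R
  · rw [cut_eq_one R r hR0 h, mul_one, sub_self, abs_zero]
    positivity
  · push Not at h
    have h1 : R ^ 2 ≤ r ^ 2 := pow_le_pow_left₀ hR0.le (by linarith) 2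
    rw [min_eq_right h1]
    have h2 : |p - p * cut R r| ≤ |p| := by
      rw [show p - p * cut R r = p * (1 - cut R r) by ring, abs_mul]
      have h3 : |1 - cut R r| ≤ 1 := by
        rw [abs_le]
        have := cut_nonneg R r
        have := cut_le_one R r
        constructor <;> linarith
      calc |p| * |1 - cut R r| ≤ |p| * 1 := mul_le_mul_of_nonneg_left h3 (abs_nonneg _)
        _ = |p| := mul_one _
    have h4 : 1 + r ^ 2 ≤ 3 * (r ^ 2 - R ^ 2) := by nlinarith
    calc |p - p * cut R r| ≤ |p| := h2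
      _ ≤ C * (1 + r ^ 2) := hp
      _ ≤ C * (3 * (r ^ 2 - R ^ 2)) := mul_le_mul_of_nonneg_left h4 hC
      _ = 3 * C * (r ^ 2 - R ^ 2) := by ring

end QGL

open QGL

theorem t_QG : S_QG := by
  intro k X ν _ hX hw hint h2 ψ C hψ hC ε hε
  have hC0 : 0 ≤ C := by
    have h := hC 0
    have h1 : 0 ≤ |ψ 0| := abs_nonneg _
    have h3 : C * (1 + ‖(0 : EuclideanSpace ℝ (Fin k))‖ ^ 2) = C := by simp
    rw [h3] at h
    linarith
  -- the excess `D`
  set D : ℝ → EuclideanSpace ℝ (Fin k) → ℝ := fun R x => ‖x‖ ^ 2 - min (‖x‖ ^ 2) (R ^ 2) with hD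
  have hD0 : ∀ R x, 0 ≤ D R x := fun R x => sub_nonneg.2 (min_le_left _ _)
  have hDc : ∀ R, Continuous (D R) := fun R => by
    rw [hD]
    fun_prop
  have hDle : ∀ R x, D R x ≤ ‖x‖ ^ 2 := fun R x => by
    have : 0 ≤ min (‖x‖ ^ 2) (R ^ 2) := le_min (sq_nonneg _) (sq_nonneg _)
    rw [hD]
    linarith
  have hDint : ∀ R, Integrable (D R) ν := fun R => by
    refine Integrable.mono hint (hDc R).aestronglyMeasurable (Eventually.of_forall fun x => ?_)
    rw [Real.norm_eq_abs, Real.norm_eq_abs, abs_of_nonneg (hD0 R x), abs_of_nonneg (sq_nonneg _)]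
    exact hDle R x
  have hDlim : Tendsto (fun n : ℕ => ∫ x, D (n : ℝ) x ∂ν) atTop (𝓝 0) := by
    have h3 := tendsto_integral_of_dominated_convergence (μ := ν) (F := fun n : ℕ => D (n : ℝ))
      (f := fun _ => (0 : ℝ)) (fun x => ‖x‖ ^ 2) (fun n => (hDc n).aestronglyMeasurable) hint
      (fun n => Eventually.of_forall fun x => by
        rw [Real.norm_eq_abs, abs_of_nonneg (hD0 _ x)]
        exact hDle _ x)
      (Eventually.of_forall fun x => by
        obtain ⟨N, hN⟩ := exists_nat_ge ‖x‖
        refine tendsto_const_nhds.congr' ?_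
        filter_upwards [eventually_ge_atTop N] with n hn
        have h4 : ‖x‖ ≤ (n : ℝ) := hN.trans (by exact_mod_cast hn)
        have h5 : ‖x‖ ^ 2 ≤ (n : ℝ) ^ 2 := pow_le_pow_left₀ (norm_nonneg _) h4 2
        change (0 : ℝ) = ‖x‖ ^ 2 - min (‖x‖ ^ 2) ((n : ℝ) ^ 2)
        rw [min_eq_left h5, sub_self])
    simpa using h3
  -- constants
  set η : ℝ := ε / (2 * (3 * C + 1)) with hη
  have hη0 : 0 < η := by positivity
  have hη1 : 3 * C * η ≤ ε / 2 := by
    rw [hη, ← mul_div_assoc, div_le_iff₀ (by positivity)]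
    nlinarith
  obtain ⟨n, hn1, hnη⟩ : ∃ n : ℕ, 1 ≤ n ∧ ∫ x, D (n : ℝ) x ∂ν < η := by
    have h3 := (hDlim.eventually (gt_mem_nhds hη0)).and (eventually_ge_atTop 1)
    obtain ⟨n, hn⟩ := h3.exists
    exact ⟨n, hn.2, hn.1⟩
  set R : ℝ := (n : ℝ) with hR
  have hR1 : 1 ≤ R := by
    rw [hR]
    exact_mod_cast hn1
  have hR0 : 0 < R := by linarith
  -- the cut-off function
  set f : EuclideanSpace ℝ (Fin k) → ℝ := fun x => ψ x * cut R ‖x‖ with hf
  have hcutc : Continuous fun x : EuclideanSpace ℝ (Fin k) => cut R ‖x‖ := by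
    unfold cut
    fun_prop
  have hfc : Continuous f := hψ.mul hcutc
  have hfs : HasCompactSupport f := by
    refine HasCompactSupport.intro
      (isCompact_closedBall (0 : EuclideanSpace ℝ (Fin k)) (3 * R)) fun x hx => ?_
    rw [Metric.mem_closedBall, dist_zero_right, not_le] at hx
    rw [hf]
    change ψ x * cut R ‖x‖ = 0
    rw [cut_eq_zero R _ hR0 hx, mul_zero]
  have hfu : UniformContinuous f := hfs.uniformContinuous_of_continuous hfc
  set B : ℝ := C * (1 + (3 * R) ^ 2) with hB
  have hB0 : 0 ≤ B := by positivity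
  have hfB : ∀ x, |f x| ≤ B := by
    intro x
    change |ψ x * cut R ‖x‖| ≤ B
    by_cases hx : ‖x‖ ≤ 3 * R
    · rw [abs_mul, abs_of_nonneg (cut_nonneg R ‖x‖)]
      calc |ψ x| * cut R ‖x‖ ≤ |ψ x| * 1 :=
            mul_le_mul_of_nonneg_left (cut_le_one _ _) (abs_nonneg _)
        _ = |ψ x| := mul_one _
        _ ≤ C * (1 + ‖x‖ ^ 2) := hC x
        _ ≤ C * (1 + (3 * R) ^ 2) := by
            have : ‖x‖ ^ 2 ≤ (3 * R) ^ 2 := pow_le_pow_left₀ (norm_nonneg _) hx 2
            exact mul_le_mul_of_nonneg_left (by linarith) hC0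
    · push Not at hx
      rw [cut_eq_zero R _ hR0 hx, mul_zero, abs_zero]
      exact hB0
  obtain ⟨L, g, hL0, hL, hg⟩ := lip_approx f hfu B hB0 hfB (ε / 2) (by positivity)
  have hmain : ∀ x, |ψ x - g x| ≤ 3 * C * D R x + ε / 2 := by
    intro x
    have h3 := trunc C R ‖x‖ (ψ x) hC0 hR1 (norm_nonneg _) (hC x)
    have h4 := hg x
    calc |ψ x - g x| = |(ψ x - ψ x * cut R ‖x‖) + (f x - g x)| := by
          congr 1
          change _ = ψ x - ψ x * cut R ‖x‖ + (ψ x * cut R ‖x‖ - g x)
          ring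
      _ ≤ |ψ x - ψ x * cut R ‖x‖| + |f x - g x| := abs_add_le _ _
      _ ≤ 3 * C * D R x + ε / 2 := add_le_add h3 h4
  have hgc : Continuous g := hL.continuous
  refine ⟨L, g, hL0, hL, ?_, ?_⟩
  · -- the time average
    let φ : EuclideanSpace ℝ (Fin k) →ᵇ ℝ := BoundedContinuousFunction.ofNormedAddCommGroup
      (fun x => min (‖x‖ ^ 2) (R ^ 2)) (by fun_prop) (R ^ 2) (fun x => by
        rw [Real.norm_eq_abs, abs_of_nonneg (le_min (sq_nonneg _) (sq_nonneg _))]
        exact min_le_right _ _)
    have hφ : ∀ x, φ x = min (‖x‖ ^ 2) (R ^ 2) := fun x => rfl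
    have hφint : Integrable (fun x => min (‖x‖ ^ 2) (R ^ 2)) ν := by
      have h3 := hint.sub (hDint R)
      refine h3.congr (Eventually.of_forall fun x => ?_)
      change ‖x‖ ^ 2 - (‖x‖ ^ 2 - min (‖x‖ ^ 2) (R ^ 2)) = _
      ring
    have h3 : Tendsto (fun T : ℝ => 1 / T * ∫ t in T..(2 * T), D R (X T t)) atTop
        (𝓝 (∫ x, D R x ∂ν)) := by
      have h4 := h2.sub (hw φ)
      have h5 : ∫ x, D R x ∂ν = ∫ x, ‖x‖ ^ 2 ∂ν - ∫ x, φ x ∂ν := integral_sub hint hφint
      rw [h5]
      refine h4.congr' ?_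
      filter_upwards [hX, eventually_gt_atTop 0] with T hT hT0
      have hle : T ≤ 2 * T := by linarith
      have hc1 : ContinuousOn (fun t => ‖X T t‖ ^ 2) (uIcc T (2 * T)) := by
        rw [uIcc_of_le hle]
        exact (hT.norm).pow 2
      have hc2 : ContinuousOn (fun t => φ (X T t)) (uIcc T (2 * T)) := by
        rw [uIcc_of_le hle]
        exact φ.continuous.comp_continuousOn hT
      rw [← mul_sub, ← intervalIntegral.integral_sub hc1.intervalIntegrable
        hc2.intervalIntegrable]
      rfl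
    have h6 := h3.eventually (gt_mem_nhds hnη)
    filter_upwards [hX, eventually_gt_atTop 0, h6] with T hT hT0 hT6
    have hle : T ≤ 2 * T := by linarith
    have hc1 : ContinuousOn (fun t => |ψ (X T t) - g (X T t)|) (uIcc T (2 * T)) := by
      rw [uIcc_of_le hle]
      exact ((hψ.comp_continuousOn hT).sub (hgc.comp_continuousOn hT)).abs
    have hc3 : ContinuousOn (fun t => D R (X T t)) (uIcc T (2 * T)) := by
      rw [uIcc_of_le hle]
      exact (hDc R).comp_continuousOn hT
    have hc2 : ContinuousOn (fun t => 3 * C * D R (X T t) + ε / 2) (uIcc T (2 * T)) :=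
      (continuousOn_const.mul hc3).add continuousOn_const
    have h7 : ∫ t in T..(2 * T), |ψ (X T t) - g (X T t)| ≤
        ∫ t in T..(2 * T), (3 * C * D R (X T t) + ε / 2) :=
      intervalIntegral.integral_mono_on hle hc1.intervalIntegrable hc2.intervalIntegrable
        fun t _ => hmain _
    have h8 : ∫ t in T..(2 * T), (3 * C * D R (X T t) + ε / 2) =
        3 * C * (∫ t in T..(2 * T), D R (X T t)) + T * (ε / 2) := by
      have hi1 : IntervalIntegrable (fun t => 3 * C * D R (X T t)) volume T (2 * T) :=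
        (continuousOn_const.mul hc3).intervalIntegrable
      have hi2 : IntervalIntegrable (fun _ : ℝ => ε / 2) volume T (2 * T) :=
        intervalIntegrable_const
      rw [intervalIntegral.integral_add hi1 hi2, intervalIntegral.integral_const_mul,
        intervalIntegral.integral_const, smul_eq_mul]
      ring
    have h9 : ∫ t in T..(2 * T), D R (X T t) ≤ η * T := by
      rw [one_div, inv_mul_lt_iff₀ hT0] at hT6
      linarith
    have h10 : 3 * C * (∫ t in T..(2 * T), D R (X T t)) ≤ ε / 2 * T := by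
      calc 3 * C * (∫ t in T..(2 * T), D R (X T t)) ≤ 3 * C * (η * T) :=
            mul_le_mul_of_nonneg_left h9 (by positivity)
        _ = (3 * C * η) * T := by ring
        _ ≤ ε / 2 * T := mul_le_mul_of_nonneg_right hη1 hT0.le
    rw [h8] at h7
    linarith
  · -- the space average
    have hψint : Integrable ψ ν := by
      refine Integrable.mono' ((integrable_const (1 : ℝ)).add hint |>.const_mul C)
        hψ.aestronglyMeasurable (Eventually.of_forall fun x => ?_)
      rw [Real.norm_eq_abs]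
      exact hC x
    have hgint : Integrable g ν := by
      refine Integrable.mono' (integrable_const (B + ε / 2)) hgc.aestronglyMeasurable
        (Eventually.of_forall fun x => ?_)
      rw [Real.norm_eq_abs]
      have h3 := hfB x
      have h4 := hg x
      calc |g x| = |f x - (f x - g x)| := by congr 1; ring
        _ ≤ |f x| + |f x - g x| := abs_sub _ _
        _ ≤ B + ε / 2 := add_le_add h3 h4
    rw [← integral_sub hψint hgint]
    calc |∫ x, (ψ x - g x) ∂ν| ≤ ∫ x, |ψ x - g x| ∂ν := abs_integral_le_integral_abs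
      _ ≤ ∫ x, (3 * C * D R x + ε / 2) ∂ν := by
          refine integral_mono (hψint.sub hgint).abs
            (((hDint R).const_mul _).add (integrable_const _)) fun x => hmain x
      _ = 3 * C * (∫ x, D R x ∂ν) + ε / 2 := by
          rw [integral_add ((hDint R).const_mul _) (integrable_const _), integral_const_mul]
          simp
      _ ≤ 3 * C * η + ε / 2 := by
          have := mul_le_mul_of_nonneg_left hnη.le (by positivity : (0 : ℝ) ≤ 3 * C)
          linarith
      _ ≤ ε := by linarith

end Pool.Agent.H493.EN
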