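import Pool.Agent.H493.EN.Trn
import Pool.Agent.H493.EN.GAU1
import Pool.Agent.H493.EN.MOL
import Pool.Agent.H493.EN.GAU
import Pool.Agent.H493.EN.QFA
import Pool.Agent.H493.EN.GLO
import Pool.Agent.H493.EN.QG

set_option autoImplicit false

/-! The entropy principle. -/

open Complex Filter Topology Set MeasureTheory ProbabilityTheory
open scoped BoundedContinuousFunction RealInnerProductSpace NNReal

namespace Pool.Agent.H493.EN

open Pool.Agent.H203.ME Pool.Agent.H493.DC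

theorem p_GAU : S_GAU := t_GAU t_GAU1 t_MOL

section

variable {k : ℕ} {f : Fin k → ℝ → ℝ}

/-- the constant of the covariances -/
theorem lam (hf : ∀ j, ContDiff ℝ 2 (f j)) (hs : ∀ j, HasCompactSupport (f j)) :
    ∃ Λ : ℝ, 0 < Λ ∧ ∀ (h : ℝ → ℝ) (M : ℕ) (u : Fin (k * M) → ℝ),
      ∑ i, ∑ j, u i * u j * cM (gM f M) (fun _ => h) i j ≤ Λ * ∑ i, u i ^ 2 := qf t_QFA hf hs

/-- **entropy bound** -/
theorem ent (hf : ∀ j, ContDiff ℝ 2 (f j)) (hs : ∀ j, HasCompactSupport (f j)) {Λ : ℝ} (hΛ : 0 < Λ)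
    (hq : ∀ (h : ℝ → ℝ) (M : ℕ) (u : Fin (k * M) → ℝ),
      ∑ i, ∑ j, u i * u j * cM (gM f M) (fun _ => h) i j ≤ Λ * ∑ i, u i ^ 2)
    {h : ℝ → ℝ} (h0 : Tendsto h atTop (𝓝 0)) (h1 : Tendsto (fun T => h T * Real.log T) atTop atTop)
    {ψ : EuclideanSpace ℝ (Fin k) → ℝ} {L : ℝ≥0} (hL : 0 < L) (hψ : LipschitzWith L ψ) {κ ε : ℝ} (hκ : 0 ≤ κ)
    (hε : 0 < ε) : ∃ (δ : ℝ) (M₀ : ℕ), 0 < δ ∧ ∀ M : ℕ, M₀ ≤ M → ∀ᶠ T : ℝ in atTop, ∀ θ : ℝ → ℂ, Measurable θ →
      (∀ t, ‖θ t‖ ≤ 1) → Follows T (h T) M κ δ θ →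
      ‖∫ t in T..(2 * T), θ t * (Yf f h ψ T t : ℂ)‖ ≤
        (L * Real.sqrt (32 * Real.pi ^ 2 * Λ * κ) + ε) * T := by
  have hL' : (0 : ℝ) < L := by exact_mod_cast hL
  have hpi := Real.pi_pos
  set c₀ : ℝ := 1 / (32 * Real.pi ^ 2 * L ^ 2 * Λ) with hc₀
  have hc0 : 0 < c₀ := by positivity
  set s : ℝ := L * Real.sqrt (32 * Real.pi ^ 2 * Λ * κ) with hs'
  have hs0 : 0 ≤ s := by positivity
  have hs2 : c₀ * s ^ 2 = κ := by
    rw [hs', mul_pow, Real.sq_sqrt (by positivity), hc₀]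
    field_simp
  set η : ℝ := s + ε / 2 with hη
  have hη0 : 0 < η := by positivity
  have hηκ : κ + c₀ * (ε ^ 2 / 4) ≤ c₀ * η ^ 2 := by
    rw [hη, ← hs2]
    have : 0 ≤ c₀ * (s * ε) := by positivity
    nlinarith
  set B := BY f h ψ L with hB
  have hB0 : 0 ≤ B := BY_nonneg f h ψ L
  set τ : ℝ := ε / (12 * (B + 1)) with hτ
  have hτ0 : 0 < τ := by positivity
  set δ : ℝ := ε * τ / 12 with hδ
  have hδ0 : 0 < δ := by positivity
  -- the exponential
  have hlim : Tendsto (fun M : ℕ => 5 * Real.exp (-(c₀ * (ε ^ 2 / 4) * M)) / (2 * τ)) atTop (𝓝 0) := by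
    have h2 : Tendsto (fun M : ℕ => c₀ * (ε ^ 2 / 4) * (M : ℝ)) atTop atTop :=
      tendsto_natCast_atTop_atTop.const_mul_atTop (by positivity)
    have h3 := (Real.tendsto_exp_neg_atTop_nhds_zero.comp h2).const_mul 5
    have h4 := h3.div_const (2 * τ)
    simpa using h4
  obtain ⟨M₁, hM₁⟩ := eventually_atTop.1 (hlim.eventually (gt_mem_nhds (show (0 : ℝ) < ε / 8 by positivity)))
  refine ⟨δ, max M₁ 1, hδ0, fun M hM => ?_⟩
  have hM1 : 1 ≤ M := (le_max_right _ _).trans hM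
  have hMp : (0 : ℝ) < M := by exact_mod_cast hM1
  have hMe := hM₁ M ((le_max_left _ _).trans hM)
  have hMh : ∀ᶠ T : ℝ in atTop, M * h T < min (τ * (ε / 8)) 1 := by
    have : Tendsto (fun T => M * h T) atTop (𝓝 (M * 0)) := h0.const_mul _
    rw [mul_zero] at this
    exact this.eventually (gt_mem_nhds (by positivity))
  filter_upwards [expo p_GAU hf hs h0 h1 hΛ hM1 (hq h M) hL hψ hη0, Yf_cont hf hs h0 h1 hψ.continuous,
    Yf_sec hf hs h0 h1 hψ M, pos_ev h1, hMh, eventually_ge_atTop (1 : ℝ)] with T h2 h3 h4 h5 h6 h7 θ hθ hθ1 hθP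
  have hT : (0 : ℝ) < T := by linarith
  have h8 := h6.trans_le (min_le_left _ _)
  have h9 := h6.trans_le (min_le_right _ _)
  have key := t_GLO T (h T) M (Yf f h ψ T) B τ η (5 * Real.exp (-(η ^ 2 * M / (32 * Real.pi ^ 2 * L ^ 2 * Λ)))) δ
    (Real.exp (κ * M)) hT h5.le hM1 (by linarith) hB0 hτ0 hη0.le (by positivity) hδ0.le (fun m _ => h3 m) h4 h2 θ hθ hθ1
    hθP
  refine key.trans ?_
  have e1 : Real.exp (κ * M) * (5 * Real.exp (-(η ^ 2 * M / (32 * Real.pi ^ 2 * L ^ 2 * Λ)))) ≤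
      5 * Real.exp (-(c₀ * (ε ^ 2 / 4) * M)) := by
    have h10 : Real.exp (κ * M) * (5 * Real.exp (-(η ^ 2 * M / (32 * Real.pi ^ 2 * L ^ 2 * Λ)))) =
        5 * Real.exp (κ * M - c₀ * η ^ 2 * M) := by
      rw [sub_eq_add_neg, Real.exp_add, hc₀]
      have : -(1 / (32 * Real.pi ^ 2 * (L : ℝ) ^ 2 * Λ) * η ^ 2 * M) =
          -(η ^ 2 * M / (32 * Real.pi ^ 2 * L ^ 2 * Λ)) := by ring
      rw [this]
      ring
    rw [h10]
    refine mul_le_mul_of_nonneg_left (Real.exp_le_exp.2 ?_) (by norm_num)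
    have := mul_le_mul_of_nonneg_right hηκ hMp.le
    linarith
  have e2 : 3 / 2 * τ * B ≤ ε / 8 := by
    have : τ * (B + 1) = ε / 12 := by
      rw [hτ]
      field_simp
    nlinarith
  have e3 : δ / τ = ε / 12 := by
    rw [hδ]
    field_simp
  have e4 : (δ + Real.exp (κ * M) * (5 * Real.exp (-(η ^ 2 * M / (32 * Real.pi ^ 2 * L ^ 2 * Λ))))) / (2 * τ) ≤
      ε / 24 + ε / 8 := by
    rw [add_div]
    refine add_le_add (le_of_eq ?_) (le_trans ?_ hMe.le)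
    · rw [hδ]
      field_simp
      ring
    · gcongr
  have e5 : M * h T / τ ≤ ε / 8 * T := by
    rw [div_le_iff₀ hτ0]
    have : τ * (ε / 8) ≤ ε / 8 * T * τ := by
      have h10 : 0 ≤ τ * (ε / 8) * (T - 1) := by
        have : 0 ≤ T - 1 := by linarith
        positivity
      linarith
    linarith
  have e6 : (η + δ / τ + 3 / 2 * τ * B +
      (δ + Real.exp (κ * M) * (5 * Real.exp (-(η ^ 2 * M / (32 * Real.pi ^ 2 * L ^ 2 * Λ))))) / (2 * τ)) * T ≤
      (s + ε / 2 + ε / 12 + ε / 8 + (ε / 24 + ε / 8)) * T := by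
    refine mul_le_mul_of_nonneg_right ?_ hT.le
    rw [e3]
    linarith
  calc _ ≤ (s + ε / 2 + ε / 12 + ε / 8 + (ε / 24 + ε / 8)) * T + ε / 8 * T := add_le_add e6 e5
    _ = (s + ε) * T := by ring

/-- second moment of the limit law -/
lemma nu_sq (hf : ∀ j, ContDiff ℝ 2 (f j)) (hs : ∀ j, HasCompactSupport (f j))
    {h : ℝ → ℝ} (h0 : Tendsto h atTop (𝓝 0)) (h1 : Tendsto (fun T => h T * Real.log T) atTop atTop) :
    Integrable (fun x => ‖x‖ ^ 2) (multivariateGaussian 0 (cM f (fun _ => h))) ∧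
      ∫ x, ‖x‖ ^ 2 ∂(multivariateGaussian 0 (cM f (fun _ => h))) = ∑ j, cv (f j) (f j) := by
  set ν := multivariateGaussian 0 (cM f (fun _ => h)) with hν
  have hpsd := FINL.cM_psd t_COV hf hs (scales_const h0 h1 k)
  have hi : Integrable (fun x : EuclideanSpace ℝ (Fin k) => ‖x‖ ^ 2) ν := by
    have := (IsGaussian.memLp_two_id (μ := ν)).integrable_norm_pow (by norm_num)
    simpa using this
  refine ⟨hi, ?_⟩
  have hj : ∀ j : Fin k, Integrable (fun x : EuclideanSpace ℝ (Fin k) => x j ^ 2) ν := by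
    intro j
    refine hi.mono (by fun_prop) (Filter.Eventually.of_forall fun x => ?_)
    rw [Real.norm_eq_abs, Real.norm_eq_abs, abs_of_nonneg (sq_nonneg _), abs_of_nonneg (sq_nonneg _),
      EuclideanSpace.norm_sq_eq]
    calc x j ^ 2 = ‖x j‖ ^ 2 := by rw [Real.norm_eq_abs, sq_abs]
      _ ≤ _ := Finset.single_le_sum (f := fun i => ‖x i‖ ^ 2) (fun i _ => by positivity) (Finset.mem_univ j)
  have e : (fun x : EuclideanSpace ℝ (Fin k) => ‖x‖ ^ 2) = fun x => ∑ j, x j ^ 2 := by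
    funext x
    rw [EuclideanSpace.norm_sq_eq]
    exact Finset.sum_congr rfl fun j _ => by rw [Real.norm_eq_abs, sq_abs]
  rw [e, integral_finsetSum _ fun j _ => hj j]
  refine Finset.sum_congr rfl fun j _ => ?_
  have h2 := variance_eval_multivariateGaussian (μ := 0) hpsd j
  rw [variance_eq_integral (by fun_prop)] at h2
  have h3 : ∫ x : EuclideanSpace ℝ (Fin k), x j ∂ν = 0 := by
    have h4 := (measurePreserving_eval_multivariateGaussian (μ := 0) hpsd (i := j)).map_eq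
    have h5 : ∫ x : EuclideanSpace ℝ (Fin k), x j ∂ν = ∫ y, y ∂(ν.map fun x => x j) := by
      rw [integral_map (by fun_prop) (by fun_prop)]
    rw [h5, hν, h4, integral_id_gaussianReal]
    simp
  rw [h3] at h2
  simp only [sub_zero] at h2
  rw [h2, cM_const]

/-- **zero entropy**: functions of quadratic growth -/
theorem zeroEnt (hf : ∀ j, ContDiff ℝ 2 (f j)) (hs : ∀ j, HasCompactSupport (f j))
    {h : ℝ → ℝ} (h0 : Tendsto h atTop (𝓝 0)) (h1 : Tendsto (fun T => h T * Real.log T) atTop atTop)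
    {ψ : EuclideanSpace ℝ (Fin k) → ℝ} {C : ℝ} (hψ : Continuous ψ) (hC : ∀ x, |ψ x| ≤ C * (1 + ‖x‖ ^ 2)) {ε : ℝ}
    (hε : 0 < ε) : ∃ (κ δ : ℝ) (M₀ : ℕ), 0 < κ ∧ 0 < δ ∧ ∀ M : ℕ, M₀ ≤ M → ∀ᶠ T : ℝ in atTop, ∀ θ : ℝ → ℂ,
      Measurable θ → (∀ t, ‖θ t‖ ≤ 1) → Follows T (h T) M κ δ θ →
      ‖∫ t in T..(2 * T), θ t * (Yf f h ψ T t : ℂ)‖ ≤ ε * T := by
  obtain ⟨Λ, hΛ, hq⟩ := lam hf hs
  set ν := multivariateGaussian 0 (cM f (fun _ => h)) with hν
  obtain ⟨hi, he⟩ := nu_sq hf hs h0 h1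
  have hcont : ∀ᶠ T : ℝ in atTop, ContinuousOn (fun t => Xv f (fun _ => h T) T t) (Icc T (2 * T)) := by
    filter_upwards [cont_ev hf hs h0 h1, eventually_ge_atTop (3 : ℝ)] with T h2 h3
    exact (h2 _).mono (Icc_subset_Icc h3 le_rfl)
  have h2 : Tendsto (fun T : ℝ => 1 / T * ∫ t in T..(2 * T), ‖Xv f (fun _ => h T) T t‖ ^ 2) atTop
      (𝓝 (∫ x, ‖x‖ ^ 2 ∂ν)) := by
    have := sec_lim hf hs h0 h1 0
    rw [he]
    simpa using this
  obtain ⟨L, g, hL, hg, hg1, hg2⟩ := t_QG k (fun T t => Xv f (fun _ => h T) T t) ν hcont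
    (fun φ => finA p_MAIN t_ADM t_COV hf hs (scales_const h0 h1 k) φ) hi h2 ψ C hψ hC (ε / 4) (by positivity)
  have hL' : (0 : ℝ) < L := by exact_mod_cast hL
  have hpi := Real.pi_pos
  set κ : ℝ := (ε / 4 / L) ^ 2 / (32 * Real.pi ^ 2 * Λ) with hκ
  have hκ0 : 0 < κ := by positivity
  obtain ⟨δ, M₀, hδ, hM⟩ := ent hf hs hΛ hq h0 h1 hL hg hκ0.le (ε := ε / 4) (by positivity)
  refine ⟨κ, δ, M₀, hκ0, hδ, fun M hMM => ?_⟩
  have hk2 : L * Real.sqrt (32 * Real.pi ^ 2 * Λ * κ) = ε / 4 := by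
    have : 32 * Real.pi ^ 2 * Λ * κ = (ε / 4 / L) ^ 2 := by
      rw [hκ]
      field_simp
    rw [this, Real.sqrt_sq (by positivity)]
    field_simp
  filter_upwards [hM M hMM, hg1, hcont, eventually_ge_atTop (1 : ℝ)] with T h3 h4 h5 h6 θ hθ hθ1 hθP
  have hT : T ≤ 2 * T := by linarith
  have h7 := h3 θ hθ hθ1 hθP
  rw [hk2] at h7
  have icont : ∀ {G : ℝ → ℝ}, ContinuousOn G (Icc T (2 * T)) →
      IntervalIntegrable (fun t => θ t * (G t : ℂ)) volume T (2 * T) := by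
    intro G hG
    have h8 : IntervalIntegrable (fun t => (G t : ℂ)) volume T (2 * T) := by
      apply ContinuousOn.intervalIntegrable
      rw [uIcc_of_le hT]
      exact Complex.continuous_ofReal.comp_continuousOn hG
    rw [intervalIntegrable_iff] at h8 ⊢
    exact h8.bdd_mul (c := 1) hθ.aestronglyMeasurable (Filter.Eventually.of_forall hθ1)
  have cψ : ContinuousOn (Yf f h ψ T) (Icc T (2 * T)) := (hψ.comp_continuousOn h5).sub continuousOn_const
  have cg : ContinuousOn (Yf f h g T) (Icc T (2 * T)) := (hg.continuous.comp_continuousOn h5).sub continuousOn_const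
  have cd : ContinuousOn (fun t => |ψ (Xv f (fun _ => h T) T t) - g (Xv f (fun _ => h T) T t)|) (Icc T (2 * T)) :=
    ((hψ.comp_continuousOn h5).sub (hg.continuous.comp_continuousOn h5)).abs
  have id : IntervalIntegrable (fun t => |ψ (Xv f (fun _ => h T) T t) - g (Xv f (fun _ => h T) T t)|) volume
      T (2 * T) := by
    apply ContinuousOn.intervalIntegrable
    rw [uIcc_of_le hT]
    exact cd
  have h8 : ∫ t in T..(2 * T), θ t * (Yf f h ψ T t : ℂ) = (∫ t in T..(2 * T), θ t * (Yf f h g T t : ℂ)) +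
      ∫ t in T..(2 * T), θ t * ((Yf f h ψ T t - Yf f h g T t : ℝ) : ℂ) := by
    rw [← intervalIntegral.integral_add (icont cg) (icont (G := fun t => Yf f h ψ T t - Yf f h g T t) (cψ.sub cg))]
    refine intervalIntegral.integral_congr fun t _ => ?_
    push_cast
    ring
  have h9 : ‖∫ t in T..(2 * T), θ t * ((Yf f h ψ T t - Yf f h g T t : ℝ) : ℂ)‖ ≤
      ∫ t in T..(2 * T), (|ψ (Xv f (fun _ => h T) T t) - g (Xv f (fun _ => h T) T t)| + ε / 4) := by
    refine intervalIntegral.norm_integral_le_of_norm_le hT ?_ (id.add intervalIntegrable_const)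
    refine Filter.Eventually.of_forall fun t _ => ?_
    rw [norm_mul, Complex.norm_real, Real.norm_eq_abs]
    have h10 : |Yf f h ψ T t - Yf f h g T t| ≤
        |ψ (Xv f (fun _ => h T) T t) - g (Xv f (fun _ => h T) T t)| + ε / 4 := by
      unfold Yf
      have h11 : ψ (Xv f (fun _ => h T) T t) - (∫ y, ψ y ∂ν) - (g (Xv f (fun _ => h T) T t) - ∫ y, g y ∂ν) =
          (ψ (Xv f (fun _ => h T) T t) - g (Xv f (fun _ => h T) T t)) - ((∫ y, ψ y ∂ν) - ∫ y, g y ∂ν) := by ring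
      rw [h11]
      exact (abs_sub _ _).trans (add_le_add le_rfl hg2)
    calc ‖θ t‖ * |Yf f h ψ T t - Yf f h g T t| ≤ 1 * |Yf f h ψ T t - Yf f h g T t| := by
          have := hθ1 t
          gcongr
      _ ≤ _ := by rw [one_mul]; exact h10
  rw [intervalIntegral.integral_add id intervalIntegrable_const, intervalIntegral.integral_const, smul_eq_mul] at h9
  rw [h8]
  refine (norm_add_le _ _).trans ?_
  linarith

end

end Pool.Agent.H493.EN
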