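import Pool.Agent.H493.EN.Stv

set_option autoImplicit false

/-! (OFF) averages over offsets (helper34) -/

open Complex Filter Topology Set MeasureTheory

namespace Pool.Agent.H493.EN

namespace OFFL

/-- integrability on a cell -/
theorem cell_int {f : ℝ → ℂ} {s : ℝ} (hs : 0 < s) (n : ℕ)
    (hf : IntervalIntegrable f volume ((n : ℝ) * s) (((n + 1 : ℕ) : ℝ) * s)) :
    IntervalIntegrable (fun x : ℝ => f (s * x + n * s)) volume 0 1 := by
  have h1 := (hf.comp_add_right ((n : ℝ) * s)).comp_mul_left (c := s)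
  have e1 : ((n : ℝ) * s - n * s) / s = 0 := by rw [sub_self, zero_div]
  have e2 : (((n + 1 : ℕ) : ℝ) * s - n * s) / s = 1 := by
    push_cast
    field_simp
    ring
  rw [e1, e2] at h1
  exact h1

/-- the sign -/
noncomputable def sg (z : ℂ) : ℂ := if z = 0 then 1 else (starRingEnd ℂ) z / (‖z‖ : ℂ)

theorem sg_norm (z : ℂ) : ‖sg z‖ = 1 := by
  unfold sg
  split_ifs with h
  · exact norm_one
  · rw [norm_div, RCLike.norm_conj, Complex.norm_real, norm_norm, div_self (norm_ne_zero_iff.2 h)]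

theorem sg_mul (z : ℂ) : sg z * z = (‖z‖ : ℂ) := by
  unfold sg
  split_ifs with h
  · rw [h, mul_zero, norm_zero, Complex.ofReal_zero]
  · have h1 : (‖z‖ : ℂ) ≠ 0 := by
      rw [Ne, Complex.ofReal_eq_zero]
      exact norm_ne_zero_iff.2 h
    rw [div_mul_eq_mul_div, mul_comm, Complex.mul_conj, Complex.normSq_eq_norm_sq, div_eq_iff h1]
    push_cast
    ring

theorem sg_meas : Measurable sg := by
  unfold sg
  refine Measurable.ite (measurableSet_eq_fun measurable_id measurable_const) measurable_const ?_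
  fun_prop

end OFFL

open OFFL in
theorem t_OFF : S_OFF := by
  classical
  intro T s Y w hT hs hY hw
  obtain ⟨n0, hn0⟩ : ∃ n0 : ℕ, n0 = ⌈T / s⌉₊ := ⟨_, rfl⟩
  obtain ⟨n1, hn1⟩ : ∃ n1 : ℕ, n1 = ⌊2 * T / s⌋₊ := ⟨_, rfl⟩
  rw [← hn0, ← hn1]
  have hT0 : T ≤ (n0 : ℝ) * s := by
    have h1 := Nat.le_ceil (T / s)
    rw [← hn0, div_le_iff₀ hs] at h1
    exact h1
  have hT1 : (n1 : ℝ) * s ≤ 2 * T := by
    have h1 := Nat.floor_le (show 0 ≤ 2 * T / s by positivity)
    rw [← hn1, le_div_iff₀ hs] at h1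
    exact h1
  have hYc : IntervalIntegrable (fun t => (Y t : ℂ)) volume T (2 * T) :=
    ⟨hY.1.ofReal, hY.2.ofReal⟩
  -- integrability of Y on the cells
  have hcell : ∀ n ∈ Finset.Ico n0 n1, T ≤ (n : ℝ) * s ∧ ((n + 1 : ℕ) : ℝ) * s ≤ 2 * T ∧
      (n : ℝ) * s ≤ ((n + 1 : ℕ) : ℝ) * s := by
    intro n hn
    rw [Finset.mem_Ico] at hn
    have h1 : (n0 : ℝ) ≤ n := by exact_mod_cast hn.1
    have h2 : ((n + 1 : ℕ) : ℝ) ≤ n1 := by exact_mod_cast hn.2
    refine ⟨?_, ?_, ?_⟩
    · have := mul_le_mul_of_nonneg_right h1 hs.le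
      linarith
    · have := mul_le_mul_of_nonneg_right h2 hs.le
      linarith
    · push_cast
      nlinarith
  have hsub : ∀ n ∈ Finset.Ico n0 n1,
      Set.uIcc ((n : ℝ) * s) (((n + 1 : ℕ) : ℝ) * s) ⊆ Set.uIcc T (2 * T) := by
    intro n hn
    obtain ⟨h1, h2, h3⟩ := hcell n hn
    rw [Set.uIcc_of_le h3, Set.uIcc_of_le (by linarith)]
    exact Set.Icc_subset_Icc h1 h2
  have hYx : ∀ n ∈ Finset.Ico n0 n1,
      IntervalIntegrable (fun x : ℝ => (Y (s * x + n * s) : ℂ)) volume 0 1 := fun n hn =>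
    cell_int hs n (hYc.mono_set (hsub n hn))
  -- the function G
  obtain ⟨G, hG⟩ : ∃ G : ℝ → ℂ, G = fun x => ∑ n ∈ Finset.Ico n0 n1,
      w n * (Y (s * x + n * s) : ℂ) := ⟨_, rfl⟩
  have hGint : IntervalIntegrable G volume 0 1 := by
    have h1 := IntervalIntegrable.sum (Finset.Ico n0 n1)
      (f := fun n x => w n * (Y (s * x + n * s) : ℂ)) fun n hn => (hYx n hn).const_mul (w n)
    have h2 : (∑ n ∈ Finset.Ico n0 n1, fun x => w n * (Y (s * x + n * s) : ℂ)) = G := by
      funext x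
      rw [hG, Finset.sum_apply]
    rw [h2] at h1
    exact h1
  have hGm : AEStronglyMeasurable G (volume.restrict (Ioc 0 1)) :=
    hGint.1.aestronglyMeasurable
  obtain ⟨G', hG'⟩ : ∃ G' : ℝ → ℂ, G' = hGm.mk G := ⟨_, rfl⟩
  have hG'm : Measurable G' := by
    rw [hG']
    exact hGm.stronglyMeasurable_mk.measurable
  have hGG' : ∀ᵐ x ∂(volume.restrict (Ioc (0 : ℝ) 1)), G x = G' x := by
    rw [hG']
    exact hGm.ae_eq_mk
  obtain ⟨u, hu⟩ : ∃ u : ℝ → ℂ, u = fun x => sg (G' x) := ⟨_, rfl⟩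
  have hum : Measurable u := by
    rw [hu]
    exact sg_meas.comp hG'm
  have hun : ∀ x, ‖u x‖ = 1 := fun x => by
    rw [hu]
    exact sg_norm _
  obtain ⟨θ, hθ⟩ : ∃ θ : ℝ → ℂ, θ = fun t => if (n0 : ℝ) * s ≤ t ∧ t < (n1 : ℝ) * s then
      u (Int.fract (t / s)) * w ⌊t / s⌋₊ else 0 := ⟨_, rfl⟩
  have hθm : Measurable θ := by
    rw [hθ]
    refine Measurable.ite ?_ ?_ measurable_const
    · exact measurableSet_Ico
    · refine Measurable.mul ?_ ?_
      · exact hum.comp (measurable_fract.comp (measurable_id.div_const s))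
      · exact (measurable_from_nat (f := w)).comp
          (Nat.measurable_floor.comp (measurable_id.div_const s))
  have hθ1 : ∀ t, ‖θ t‖ ≤ 1 := by
    intro t
    rw [hθ]
    dsimp only
    split_ifs with h
    · rw [norm_mul, hun, one_mul]
      exact hw _
    · rw [norm_zero]
      exact zero_le_one
  have hθin : ∀ t, (n0 : ℝ) * s ≤ t → t < (n1 : ℝ) * s →
      θ t = u (Int.fract (t / s)) * w ⌊t / s⌋₊ := by
    intro t h1 h2
    rw [hθ]
    dsimp only
    rw [if_pos ⟨h1, h2⟩]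
  have hθlo : ∀ t, t < (n0 : ℝ) * s → θ t = 0 := by
    intro t h1
    rw [hθ]
    dsimp only
    rw [if_neg fun h => absurd h.1 (not_le.2 h1)]
  have hθhi : ∀ t, (n1 : ℝ) * s ≤ t → θ t = 0 := by
    intro t h1
    rw [hθ]
    dsimp only
    rw [if_neg fun h => absurd h.2 (not_lt.2 h1)]
  refine ⟨θ, u, hθm, hθ1, hun, hθin, hθlo, hθhi, ?_⟩
  have hGe : ∀ x : ℝ, (∑ n ∈ Finset.Ico n0 n1, w n * (Y ((n + x) * s) : ℂ)) = G x := by
    intro x
    rw [hG]
    refine Finset.sum_congr rfl fun n _ => ?_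
    have : ((n : ℝ) + x) * s = s * x + n * s := by ring
    rw [this]
  simp only [hGe]
  rcases lt_or_ge n1 n0 with hlt | hle
  · -- the empty case
    have hθ0 : ∀ t, θ t = 0 := by
      intro t
      rcases lt_or_ge t ((n0 : ℝ) * s) with h | h
      · exact hθlo t h
      · apply hθhi t
        have h2 : (n1 : ℝ) ≤ n0 := by exact_mod_cast hlt.le
        have := mul_le_mul_of_nonneg_right h2 hs.le
        linarith
    have hG0 : ∀ x, G x = 0 := by
      intro x
      rw [hG]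
      dsimp only
      rw [Finset.Ico_eq_empty (by omega), Finset.sum_empty]
    simp only [hθ0, hG0, zero_mul, norm_zero, intervalIntegral.integral_zero, mul_zero,
      Complex.ofReal_zero]
  -- the main case
  obtain ⟨f, hf⟩ : ∃ f : ℝ → ℂ, f = fun t => θ t * (Y t : ℂ) := ⟨_, rfl⟩
  have hfint : IntervalIntegrable f volume T (2 * T) := by
    rw [hf]
    refine ⟨?_, ?_⟩
    · exact hYc.1.bdd_mul (c := 1) hθm.aestronglyMeasurable (Filter.Eventually.of_forall hθ1)
    · exact hYc.2.bdd_mul (c := 1) hθm.aestronglyMeasurable (Filter.Eventually.of_forall hθ1)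
  have hle' : (n0 : ℝ) * s ≤ (n1 : ℝ) * s := by
    have h2 : (n0 : ℝ) ≤ n1 := by exact_mod_cast hle
    exact mul_le_mul_of_nonneg_right h2 hs.le
  have hi1 : IntervalIntegrable f volume T ((n0 : ℝ) * s) := by
    refine hfint.mono_set ?_
    rw [Set.uIcc_of_le hT0, Set.uIcc_of_le (by linarith)]
    exact Set.Icc_subset_Icc le_rfl (by linarith)
  have hi2 : IntervalIntegrable f volume ((n0 : ℝ) * s) ((n1 : ℝ) * s) := by
    refine hfint.mono_set ?_
    rw [Set.uIcc_of_le hle', Set.uIcc_of_le (by linarith)]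
    exact Set.Icc_subset_Icc hT0 hT1
  have hi3 : IntervalIntegrable f volume ((n1 : ℝ) * s) (2 * T) := by
    refine hfint.mono_set ?_
    rw [Set.uIcc_of_le hT1, Set.uIcc_of_le (by linarith)]
    exact Set.Icc_subset_Icc (by linarith) le_rfl
  have z1 : ∫ t in T..((n0 : ℝ) * s), f t = 0 := by
    rw [intervalIntegral.integral_congr_Ioo_of_le (g := fun _ => (0 : ℂ)) hT0 (fun t ht => by
      rw [hf]
      dsimp only
      rw [hθlo t ht.2, zero_mul])]
    simp
  have z3 : ∫ t in ((n1 : ℝ) * s)..(2 * T), f t = 0 := by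
    rw [intervalIntegral.integral_congr_Ioo_of_le (g := fun _ => (0 : ℂ)) hT1 (fun t ht => by
      rw [hf]
      dsimp only
      rw [hθhi t ht.1.le, zero_mul])]
    simp
  have hsplit : ∫ t in T..(2 * T), f t = ∫ t in ((n0 : ℝ) * s)..((n1 : ℝ) * s), f t := by
    rw [← intervalIntegral.integral_add_adjacent_intervals (hi1.trans hi2) hi3,
      ← intervalIntegral.integral_add_adjacent_intervals hi1 hi2, z1, z3, zero_add, add_zero]
  have hsum : ∫ t in ((n0 : ℝ) * s)..((n1 : ℝ) * s), f t =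
      ∑ n ∈ Finset.Ico n0 n1, ∫ t in ((n : ℝ) * s)..(((n + 1 : ℕ) : ℝ) * s), f t := by
    have := intervalIntegral.sum_integral_adjacent_intervals_Ico (f := f) (μ := volume)
      (a := fun k : ℕ => (k : ℝ) * s) hle (fun k hk => by
        have hk' : k ∈ Finset.Ico n0 n1 := Finset.mem_Ico.2 hk
        exact hfint.mono_set (hsub k hk'))
    exact this.symm
  have hc : ∀ n ∈ Finset.Ico n0 n1, ∫ t in ((n : ℝ) * s)..(((n + 1 : ℕ) : ℝ) * s), f t =
      s • ∫ x in (0 : ℝ)..1, u x * (w n * (Y (s * x + n * s) : ℂ)) := by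
    intro n hn
    have hn' := Finset.mem_Ico.1 hn
    have h1 := intervalIntegral.smul_integral_comp_mul_add (a := 0) (b := 1) f s ((n : ℝ) * s)
    have e1 : s * 0 + (n : ℝ) * s = n * s := by ring
    have e2 : s * 1 + (n : ℝ) * s = ((n + 1 : ℕ) : ℝ) * s := by
      push_cast
      ring
    rw [e1, e2] at h1
    rw [← h1]
    congr 1
    refine intervalIntegral.integral_congr_Ioo_of_le zero_le_one fun x hx => ?_
    rw [hf]
    dsimp only
    have d1 : (s * x + n * s) / s = n + x := by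
      field_simp
      ring
    have g0 : (n0 : ℝ) ≤ n := by exact_mod_cast hn'.1
    have g1 : (n : ℝ) + 1 ≤ n1 := by exact_mod_cast hn'.2
    have b1 : (n0 : ℝ) * s ≤ s * x + n * s := by
      have := mul_le_mul_of_nonneg_right g0 hs.le
      have := mul_pos hs hx.1
      linarith
    have b2 : s * x + n * s < (n1 : ℝ) * s := by
      have k1 := mul_le_mul_of_nonneg_right g1 hs.le
      have k2 := mul_lt_mul_of_pos_left hx.2 hs
      linarith
    rw [hθin _ b1 b2, d1]
    have d2 : Int.fract ((n : ℝ) + x) = x := by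
      rw [Int.fract_natCast_add]
      exact Int.fract_eq_self.2 ⟨hx.1.le, hx.2⟩
    have d3 : ⌊(n : ℝ) + x⌋₊ = n := by
      rw [Nat.floor_eq_iff (by have := hx.1; positivity)]
      exact ⟨by linarith [hx.1], by linarith [hx.2]⟩
    rw [d2, d3]
    ring
  have hfe : ∫ t in T..(2 * T), θ t * (Y t : ℂ) = ∫ t in T..(2 * T), f t := by rw [hf]
  rw [hfe, hsplit, hsum, Finset.sum_congr rfl hc, ← Finset.smul_sum]
  have hint2 : ∀ n ∈ Finset.Ico n0 n1, IntervalIntegrable
      (fun x => u x * (w n * (Y (s * x + n * s) : ℂ))) volume 0 1 := by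
    intro n hn
    have h1 := (hYx n hn).const_mul (w n)
    have h2 : ∀ x, ‖u x‖ ≤ 1 := fun x => (hun x).le
    exact ⟨h1.1.bdd_mul (c := 1) hum.aestronglyMeasurable (Filter.Eventually.of_forall h2),
      h1.2.bdd_mul (c := 1) hum.aestronglyMeasurable (Filter.Eventually.of_forall h2)⟩
  rw [← intervalIntegral.integral_finset_sum hint2]
  have h3 : ∫ x in (0 : ℝ)..1, ∑ n ∈ Finset.Ico n0 n1, u x * (w n * (Y (s * x + n * s) : ℂ)) =
      ∫ x in (0 : ℝ)..1, ((‖G x‖ : ℝ) : ℂ) := by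
    rw [intervalIntegral.integral_of_le zero_le_one, intervalIntegral.integral_of_le zero_le_one]
    refine integral_congr_ae ?_
    filter_upwards [hGG'] with x hx
    have e1 : ∑ n ∈ Finset.Ico n0 n1, u x * (w n * (Y (s * x + n * s) : ℂ)) = u x * G x := by
      rw [hG, Finset.mul_sum]
    rw [e1, hu]
    dsimp only
    rw [hx]
    exact sg_mul _
  rw [h3, intervalIntegral.integral_ofReal, Complex.real_smul]
  push_cast
  rfl

end Pool.Agent.H493.EN
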