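import Pool.Agent.H493.EN.AE
import Pool.Agent.H493.EN.Ent
import Pool.Agent.H493.EN.OFF

set_option autoImplicit false

/-! The field of smooth linear statistics of the zeros as an instance of the abstract theory. -/

open Complex Filter Topology Set MeasureTheory ProbabilityTheory
open scoped BoundedContinuousFunction RealInnerProductSpace NNReal

namespace Pool.Agent.H493.EN

open Pool.Agent.H203.ME Pool.Agent.H493.DC

/-- matrix of covariances -/
noncomputable def CM {n : ℕ} (g : Fin n → ℝ → ℝ) : Matrix (Fin n) (Fin n) ℝ := Matrix.of fun i j => cv (g i) (g j)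

lemma cM_eq {n : ℕ} (g : Fin n → ℝ → ℝ) (h : ℝ → ℝ) : cM g (fun _ => h) = CM g := by
  ext i j
  rw [cM_const]
  rfl

/-- a mesoscopic scale -/
noncomputable def hsq (T : ℝ) : ℝ := (Real.sqrt (Real.log T))⁻¹

lemma hsq0 : Tendsto hsq atTop (𝓝 0) :=
  tendsto_inv_atTop_zero.comp (Real.tendsto_sqrt_atTop.comp Real.tendsto_log_atTop)

lemma hsq1 : Tendsto (fun T => hsq T * Real.log T) atTop atTop := by
  refine (Real.tendsto_sqrt_atTop.comp Real.tendsto_log_atTop).congr' ?_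
  filter_upwards [eventually_gt_atTop (1 : ℝ)] with T hT
  have h1 := Real.log_pos hT
  unfold hsq
  simp only [Function.comp]
  rw [inv_mul_eq_div, eq_div_iff (Real.sqrt_pos.2 h1).ne', Real.mul_self_sqrt h1.le]

section

variable {k : ℕ} {f : Fin k → ℝ → ℝ}

theorem ins_Gs (hf : ∀ j, ContDiff ℝ 2 (f j)) (hs : ∀ j, HasCompactSupport (f j)) :
    ∃ Λ : ℝ, Gs k Λ (CM f) (fun M => CM (gM f M)) := by
  obtain ⟨Λ, hΛ, hq⟩ := lam hf hs
  refine ⟨Λ, hΛ, ?_, fun M => ?_, fun M u => ?_, fun M m i j => ?_⟩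
  · rw [← cM_eq f hsq]
    exact FINL.cM_psd t_COV hf hs (scales_const hsq0 hsq1 k)
  · rw [← cM_eq (gM f M) hsq]
    exact FINL.cM_psd t_COV (gM_smooth hf M) (gM_supp hs M) (scales_const hsq0 hsq1 _)
  · have := hq hsq M u
    simp only [cM_eq] at this
    exact this
  · change cv (gM f M (finProdFinEquiv (i, m))) (gM f M (finProdFinEquiv (j, m))) = cv (f i) (f j)
    rw [gM_apply, gM_apply, cv_sh]

/-- the field at the height `t` and the scale `s` -/
noncomputable def Xs {k : ℕ} (f : Fin k → ℝ → ℝ) (s T t : ℝ) : EuclideanSpace ℝ (Fin k) := Xv f (fun _ => s) T t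

lemma vecB_Xs {k M : ℕ} (f : Fin k → ℝ → ℝ) {s : ℝ} (hs : 0 < s) (T t : ℝ) :
    (vecB fun m : Fin M => Xs f s T (t + (m : ℕ) * s)) = Xv (gM f M) (fun _ => s) T t := by
  unfold vecB Xs
  ext a
  change Xv f (fun _ => s) T (t + ((finProdFinEquiv.symm a).2 : ℕ) * s) (finProdFinEquiv.symm a).1 =
    Xv (gM f M) (fun _ => s) T t a
  rw [← blk_Xv f hs (finProdFinEquiv.symm a).2 T t]
  change Xv (gM f M) (fun _ => s) T t (finProdFinEquiv (finProdFinEquiv.symm a)) = _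
  rw [Equiv.apply_symm_apply]

theorem ins_Fam (hf : ∀ j, ContDiff ℝ 2 (f j)) (hs : ∀ j, HasCompactSupport (f j)) :
    Fam k (CM f) (fun M => CM (gM f M)) (Xs f) := by
  intro h h0 h1
  have hc : ∀ᶠ T : ℝ in atTop, ∀ m : ℕ, ContinuousOn (fun t => Xs f (h T) T (t + m * h T)) (Icc T (2 * T)) := by
    filter_upwards [cont_ev hf hs h0 h1, pos_ev h1, eventually_ge_atTop (3 : ℝ)] with T h2 h3 h4 m
    have h5 := h2 (2 * T + m * h T)
    refine h5.comp (by fun_prop) ?_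
    intro t ht
    have h8 : 0 ≤ (m : ℝ) * h T := by positivity
    exact ⟨by linarith [ht.1], by linarith [ht.2]⟩
  refine ⟨pos_ev h1, ?_, ?_, ?_, fun M Φ => ?_, fun m => ?_⟩
  · have h2 : Tendsto (fun T : ℝ => T⁻¹) atTop (𝓝 0) := tendsto_inv_atTop_zero
    have h3 := h0.mul h2
    rw [mul_zero] at h3
    exact h3.congr fun T => by rw [div_eq_mul_inv]
  · filter_upwards [hc] with T h2 m
    exact ((h2 m).mono Ioc_subset_Icc_self).aestronglyMeasurable measurableSet_Ioc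
  · filter_upwards [hc, eventually_gt_atTop (0 : ℝ)] with T h2 h3 m
    apply ContinuousOn.intervalIntegrable
    rw [uIcc_of_le (by linarith)]
    exact (h2 m).norm.pow 2
  · have h2 := finA p_MAIN t_ADM t_COV (gM_smooth hf M) (gM_supp hs M) (scales_const h0 h1 _) Φ
    rw [cM_eq] at h2
    refine h2.congr' ?_
    filter_upwards [pos_ev h1] with T h3
    congr 1
    refine intervalIntegral.integral_congr fun t _ => ?_
    rw [vecB_Xs f h3]
  · have h2 := sec_lim hf hs h0 h1 m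
    have h3 := (nu_sq hf hs h0 h1).2
    rw [cM_eq] at h3
    rw [h3]
    exact h2

end

/-- **offsets**: discrete sums along arithmetic progressions of difference `s` -/
theorem offU {k : ℕ} {Λ : ℝ} {S₁ : Matrix (Fin k) (Fin k) ℝ} {S : ∀ M : ℕ, Matrix (Fin (k * M)) (Fin (k * M)) ℝ}
    {X : ℝ → ℝ → ℝ → EuclideanSpace ℝ (Fin k)} (hG : Gs k Λ S₁ S) (hX : Fam k S₁ S X)
    {ψ : EuclideanSpace ℝ (Fin k) → ℝ} {C : ℝ} (hψ : Continuous ψ) (hC : ∀ x, |ψ x| ≤ C * (1 + ‖x‖ ^ 2))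
    {Y : Type} [MetricSpace Y] [CompactSpace Y] {Q : Y → Y} (hQ : ZeroEntropy Q) {F : Y → ℂ} (hF : Continuous F)
    {ε : ℝ} (hε : 0 < ε) : ∃ K : ℝ, 1 ≤ K ∧ ∀ T : ℝ, K ≤ T → ∀ s : ℝ, K ≤ s * Real.log T → s ≤ 1 / K → ∀ y : Y,
      ∫ x in (0 : ℝ)..1, ‖∑ n ∈ Finset.Ico ⌈T / s⌉₊ ⌊2 * T / s⌋₊, F (Q^[n] y) * (Yg X S₁ ψ s T ((n + x) * s) : ℂ)‖ ≤
        ε * (T / s) := by
  obtain ⟨R, hR0, hR⟩ := norm_F hF
  set F' : Y → ℂ := fun y => F y / R with hF'
  have hF'c : Continuous F' := hF.div_const _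
  have hF'1 : ∀ y, ‖F' y‖ ≤ 1 := by
    intro y
    rw [hF']
    simp only
    rw [norm_div, Complex.norm_real, Real.norm_eq_abs, abs_of_pos hR0, div_le_one hR0]
    exact hR y
  obtain ⟨κ, δ, M₀, hκ, hδ, h1⟩ := zeroU hG hX hψ hC (ε := ε / R) (by positivity)
  obtain ⟨M₁, h2⟩ := orb hQ hF'c hF'1 hκ hδ
  set M := max M₀ M₁ with hM
  obtain ⟨K, hK, h3⟩ := h1 M (le_max_left _ _)
  obtain ⟨K₁, hK₁, h4⟩ := intU hX hψ hC
  have hMp : (0 : ℝ) ≤ M := Nat.cast_nonneg _
  set K' : ℝ := max (max K K₁) (2 * (M + 1) / δ) with hK'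
  have k1 : K ≤ K' := (le_max_left _ _).trans (le_max_left _ _)
  have k2 : K₁ ≤ K' := (le_max_right _ _).trans (le_max_left _ _)
  have k3 : 2 * (M + 1) / δ ≤ K' := le_max_right _ _
  have hK0 : 0 < K := by linarith
  have hK10 : 0 < K₁ := by linarith
  have hK'0 : 0 < K' := by linarith
  refine ⟨K', hK.trans k1, fun T hT s hs1 hs2 y => ?_⟩
  have hT1 : 1 ≤ T := (hK.trans k1).trans hT
  have hT0 : 0 < T := by linarith
  have hs0 : 0 < s := by
    by_contra h
    push Not at h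
    have h6 : 0 ≤ Real.log T := Real.log_nonneg hT1
    nlinarith
  have hi := h4 T (k2.trans hT) s (k2.trans hs1) (hs2.trans (one_div_le_one_div_of_le hK10 k2))
  have h6 : 2 * (M + 1) ≤ K' * δ := by rwa [div_le_iff₀ hδ] at k3
  have hMs : 2 * ((M + 1) * s) ≤ δ := by
    have h5 : s * K' ≤ 1 := by rwa [le_div_iff₀ hK'0] at hs2
    calc 2 * ((M + 1) * s) = (2 * (M + 1)) * s := by ring
      _ ≤ K' * δ * s := mul_le_mul_of_nonneg_right h6 hs0.le
      _ = (s * K') * δ := by ring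
      _ ≤ 1 * δ := mul_le_mul_of_nonneg_right h5 hδ.le
      _ = δ := one_mul _
  obtain ⟨θ, u, hθm, hθ1, hu1, hθ2, hθ3, hθ4, hθi⟩ := t_OFF T s (Yg X S₁ ψ s T) (fun n => F' (Q^[n] y)) hT0 hs0 hi
    (fun n => hF'1 _)
  set n₀ := ⌈T / s⌉₊ with hn₀
  set n₁ := ⌊2 * T / s⌋₊ with hn₁
  have hn₀T : (n₀ : ℝ) * s < T + s := by
    have := Nat.ceil_lt_add_one (div_nonneg hT0.le hs0.le)
    rw [← hn₀] at this
    have h7 := mul_lt_mul_of_pos_right this hs0
    rw [add_mul, one_mul, div_mul_cancel₀ _ hs0.ne'] at h7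
    exact h7
  have hfol : Follows T s M κ δ θ := by
    refine h2 M (le_max_right _ _) T s θ (Icc T (T + s) ∪ Icc ((n₁ : ℝ) * s - M * s) ((n₁ : ℝ) * s)) ?_
      fun t ht htE => ?_
    · refine (measure_union_le _ _).trans ?_
      rw [Real.volume_Icc, Real.volume_Icc, ← ENNReal.ofReal_add (by linarith) (by
        have : 0 ≤ (M : ℝ) * s := by positivity
        linarith)]
      apply ENNReal.ofReal_le_ofReal
      nlinarith
    · rw [mem_union, not_or] at htE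
      obtain ⟨hE1, hE2⟩ := htE
      have hmh : ∀ m : ℕ, m < M → 0 ≤ (m : ℝ) * s ∧ (m : ℝ) * s ≤ M * s := by
        intro m hm
        have : (m : ℝ) ≤ M := by exact_mod_cast hm.le
        exact ⟨by positivity, mul_le_mul_of_nonneg_right this hs0.le⟩
      have ht1 : T + s < t := by
        by_contra hcon
        exact hE1 ⟨ht.1, not_lt.1 hcon⟩
      rcases le_or_gt ((n₁ : ℝ) * s) t with h7 | h7
      · left
        intro m hm
        exact hθ4 _ (by linarith [(hmh m hm).1])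
      · right
        have h8 : t < (n₁ : ℝ) * s - M * s := by
          by_contra hcon
          exact hE2 ⟨not_lt.1 hcon, h7.le⟩
        have ht0 : 0 ≤ t / s := div_nonneg (by linarith) hs0.le
        refine ⟨u (Int.fract (t / s)), Q^[⌊t / s⌋₊] y, hu1 _, fun m hm => ?_⟩
        rw [hθ2 _ (by linarith [(hmh m hm).1]) (by linarith [(hmh m hm).2])]
        have h12 : (t + m * s) / s = t / s + (m : ℝ) := by field_simp
        rw [h12, Nat.floor_add_natCast ht0, Int.fract_add_natCast, add_comm, Function.iterate_add_apply]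
  have key := h3 T (k1.trans hT) s (k1.trans hs1) (hs2.trans (one_div_le_one_div_of_le hK0 k1)) θ hθm hθ1 hfol
  rw [hθi, Complex.norm_real, Real.norm_eq_abs, abs_of_nonneg (mul_nonneg hs0.le
    (intervalIntegral.integral_nonneg zero_le_one fun x _ => norm_nonneg _))] at key
  have e1 : ∫ x in (0 : ℝ)..1, ‖∑ n ∈ Finset.Ico n₀ n₁, F (Q^[n] y) * (Yg X S₁ ψ s T ((n + x) * s) : ℂ)‖ =
      R * ∫ x in (0 : ℝ)..1, ‖∑ n ∈ Finset.Ico n₀ n₁, F' (Q^[n] y) * (Yg X S₁ ψ s T ((n + x) * s) : ℂ)‖ := by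
    rw [← intervalIntegral.integral_const_mul]
    refine intervalIntegral.integral_congr fun x _ => ?_
    have h7 : ∑ n ∈ Finset.Ico n₀ n₁, F (Q^[n] y) * (Yg X S₁ ψ s T ((n + x) * s) : ℂ) =
        (R : ℂ) * ∑ n ∈ Finset.Ico n₀ n₁, F' (Q^[n] y) * (Yg X S₁ ψ s T ((n + x) * s) : ℂ) := by
      rw [Finset.mul_sum]
      refine Finset.sum_congr rfl fun n _ => ?_
      simp only [hF']
      have : (R : ℂ) ≠ 0 := by exact_mod_cast hR0.ne'
      field_simp
    rw [h7, norm_mul, Complex.norm_real, Real.norm_eq_abs, abs_of_pos hR0]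
  rw [e1]
  have h8 : (∫ x in (0 : ℝ)..1, ‖∑ n ∈ Finset.Ico n₀ n₁, F' (Q^[n] y) * (Yg X S₁ ψ s T ((n + x) * s) : ℂ)‖) ≤
      ε / R * (T / s) := by
    rw [← mul_div_assoc, le_div_iff₀ hs0, mul_comm]
    exact key
  calc _ ≤ R * (ε / R * (T / s)) := mul_le_mul_of_nonneg_left h8 hR0.le
    _ = ε * (T / s) := by field_simp

end Pool.Agent.H493.EN
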