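import Pool.Agent.H493.EN.Stz

set_option autoImplicit false

open Complex Filter Topology Set MeasureTheory

namespace Pool.Agent.H493.EN

open Pool.Agent.H203.ME

namespace STLL

/-- dyadic piece of the step -/
noncomputable def D (y : ℝ) : ℝ := Real.smoothTransition y - Real.smoothTransition (y / 2)

lemma D_cd : ContDiff ℝ 2 D :=
  Real.smoothTransition.contDiff.sub (Real.smoothTransition.contDiff.comp (contDiff_id.div_const 2))

lemma D_neg {y : ℝ} (h : y ≤ 0) : D y = 0 := by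
  unfold D
  rw [Real.smoothTransition.zero_of_nonpos h, Real.smoothTransition.zero_of_nonpos (by linarith), sub_self]

lemma D_ge {y : ℝ} (h : 2 ≤ y) : D y = 0 := by
  unfold D
  rw [Real.smoothTransition.one_of_one_le (by linarith), Real.smoothTransition.one_of_one_le (by linarith),
    sub_self]

lemma D_cs : HasCompactSupport D := by
  refine HasCompactSupport.intro (isCompact_Icc (a := (0 : ℝ)) (b := 2)) fun y hy => ?_
  rw [mem_Icc, not_and_or, not_le, not_le] at hy
  rcases hy with hy | hy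
  · exact D_neg hy.le
  · exact D_ge hy.le

/-- the last piece -/
noncomputable def E {ι : Type} [Fintype ι] (a c : ι → ℝ) (y : ℝ) : ℝ :=
  ∑ i, c i * Real.smoothTransition (y - a i)

lemma E_cd {ι : Type} [Fintype ι] (a c : ι → ℝ) : ContDiff ℝ 2 (E a c) :=
  ContDiff.sum fun _ _ => contDiff_const.mul
    (Real.smoothTransition.contDiff.comp (contDiff_id.sub contDiff_const))

lemma abs_le_sum {ι : Type} [Fintype ι] (a : ι → ℝ) (i : ι) : |a i| ≤ ∑ i, |a i| :=
  Finset.single_le_sum (f := fun i => |a i|) (fun _ _ => abs_nonneg _) (Finset.mem_univ i)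

lemma E_neg {ι : Type} [Fintype ι] (a c : ι → ℝ) {y : ℝ} (h : y ≤ -∑ i, |a i|) : E a c y = 0 := by
  refine Finset.sum_eq_zero fun i _ => ?_
  have h1 := abs_le_sum a i
  have h2 := neg_abs_le (a i)
  rw [Real.smoothTransition.zero_of_nonpos (by linarith), mul_zero]

lemma E_ge {ι : Type} [Fintype ι] (a c : ι → ℝ) (hc : ∑ i, c i = 0) {y : ℝ} (h : 1 + ∑ i, |a i| ≤ y) :
    E a c y = 0 := by
  unfold E
  rw [← hc]
  refine Finset.sum_congr rfl fun i _ => ?_
  have h1 := abs_le_sum a i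
  have h2 := le_abs_self (a i)
  rw [Real.smoothTransition.one_of_one_le (by linarith), mul_one]

lemma E_cs {ι : Type} [Fintype ι] (a c : ι → ℝ) (hc : ∑ i, c i = 0) : HasCompactSupport (E a c) := by
  refine HasCompactSupport.intro (isCompact_Icc (a := -∑ i, |a i|) (b := 1 + ∑ i, |a i|)) fun y hy => ?_
  rw [mem_Icc, not_and_or, not_le, not_le] at hy
  rcases hy with hy | hy
  · exact E_neg a c hy.le
  · exact E_ge a c hc hy.le

/-- the functions -/
noncomputable def fk {ι : Type} [Fintype ι] (a c : ι → ℝ) {N : ℕ} : Option (ι × Fin N) → ℝ → ℝ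
  | none => E a c
  | some _ => D

/-- the scales -/
noncomputable def hk {ι : Type} {N : ℕ} (s : ℝ) : Option (ι × Fin N) → ℝ
  | none => s
  | some p => 2 ^ (p.2 : ℕ) * (s / 2 ^ N)

/-- the shifts -/
noncomputable def bk {ι : Type} {N : ℕ} (a : ι → ℝ) (s : ℝ) : Option (ι × Fin N) → ℝ
  | none => 0
  | some p => a p.1 * s

/-- the coefficients -/
noncomputable def ck {ι : Type} {N : ℕ} (c : ι → ℝ) : Option (ι × Fin N) → ℝ
  | none => 1
  | some p => c p.1

/-- telescoping -/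
lemma tele (N : ℕ) (w x : ℝ) : Real.smoothTransition (x / w) =
    (∑ j : Fin N, D (x / (2 ^ (j : ℕ) * w))) + Real.smoothTransition (x / (2 ^ N * w)) := by
  have h : ∀ j : ℕ, D (x / (2 ^ j * w)) =
      Real.smoothTransition (x / (2 ^ j * w)) - Real.smoothTransition (x / (2 ^ (j + 1) * w)) := fun j => by
    unfold D
    congr 2
    rw [div_div, pow_succ]
    congr 1
    ring
  rw [Fin.sum_univ_eq_sum_range (fun j : ℕ => D (x / (2 ^ j * w))) N]
  simp_rw [h]
  rw [Finset.sum_range_sub' (fun j : ℕ => Real.smoothTransition (x / (2 ^ j * w)))]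
  simp

/-- decomposition of the smoothed steps -/
lemma decomp {ι : Type} [Fintype ι] (a c : ι → ℝ) {s : ℝ} (hs : 0 < s) (σ : ℝ) (N : ℕ) (x : ℝ) :
    Ft a c s (s / 2 ^ N) σ x =
      ∑ k : Option (ι × Fin N), ck c k / σ * fk a c k ((x - bk a s k) / hk s k) := by
  rw [Fintype.sum_option, Fintype.sum_prod_type]
  simp only [ck, fk, bk, hk, sub_zero]
  unfold Ft
  have h2 : (2 : ℝ) ^ N * (s / 2 ^ N) = s := by field_simp
  have h3 : ∀ i, Real.smoothTransition ((x - a i * s) / (s / 2 ^ N)) =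
      (∑ j : Fin N, D ((x - a i * s) / (2 ^ (j : ℕ) * (s / 2 ^ N)))) +
        Real.smoothTransition (x / s - a i) := fun i => by
    rw [tele N, h2]
    congr 2
    field_simp
  simp_rw [h3]
  unfold E
  rw [Finset.sum_div, Finset.mul_sum, ← Finset.sum_add_distrib]
  refine Finset.sum_congr rfl fun i _ => ?_
  rw [← Finset.mul_sum]
  ring

/-- the sum of the weights -/
lemma lam_sum {ι : Type} [Fintype ι] (N : ℕ) {s L : ℝ} (hs : 0 < s) (hL : 0 < L) :
    ∑ k : Option (ι × Fin N), (1 / (hk s k * L) + hk s k) ≤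
      (2 * Fintype.card ι + 1) * (1 / (s / 2 ^ N * L) + s) := by
  rw [Fintype.sum_option, Fintype.sum_prod_type]
  simp only [hk]
  set w := s / 2 ^ N with hw
  have hw0 : 0 < w := by positivity
  have h2 : (2 : ℝ) ^ N * w = s := by rw [hw]; field_simp
  have hws : w ≤ s := by
    rw [← h2]
    have : (1 : ℝ) ≤ 2 ^ N := one_le_pow₀ (by norm_num)
    nlinarith
  have h3 : ∑ j : Fin N, (1 / (2 ^ (j : ℕ) * w * L) + 2 ^ (j : ℕ) * w) ≤ 2 * (1 / (w * L)) + s := by
    rw [Fin.sum_univ_eq_sum_range (fun j : ℕ => 1 / (2 ^ j * w * L) + 2 ^ j * w) N,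
      Finset.sum_add_distrib]
    have h4 : ∑ j ∈ Finset.range N, 1 / ((2 : ℝ) ^ j * w * L) ≤ 2 * (1 / (w * L)) := by
      have h5 : ∀ j ∈ Finset.range N, 1 / ((2 : ℝ) ^ j * w * L) = (1 / 2) ^ j * (1 / (w * L)) := fun j _ => by
        rw [one_div_pow]
        field_simp
      rw [Finset.sum_congr rfl h5, ← Finset.sum_mul]
      refine mul_le_mul_of_nonneg_right ?_ (by positivity)
      have h6 := geom_sum_eq (show (1 / 2 : ℝ) ≠ 1 by norm_num) N
      rw [h6]
      have : (0 : ℝ) < (1 / 2) ^ N := by positivity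
      rw [div_le_iff_of_neg (by norm_num)]
      linarith
    have h7 : ∑ j ∈ Finset.range N, (2 : ℝ) ^ j * w ≤ s := by
      rw [← Finset.sum_mul, geom_sum_eq (by norm_num), ← h2]
      refine mul_le_mul_of_nonneg_right ?_ hw0.le
      norm_num
    linarith
  have h8 : ∑ i : ι, ∑ j : Fin N, (1 / (2 ^ (j : ℕ) * w * L) + 2 ^ (j : ℕ) * w) ≤
      Fintype.card ι * (2 * (1 / (w * L)) + s) := by
    rw [Finset.sum_const, Finset.card_univ, nsmul_eq_mul]
    exact mul_le_mul_of_nonneg_left h3 (by positivity)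
  have h9 : 1 / (s * L) ≤ 1 / (w * L) := one_div_le_one_div_of_le (by positivity)
    (mul_le_mul_of_nonneg_right hws hL.le)
  have h10 : (0 : ℝ) ≤ Fintype.card ι := by positivity
  nlinarith [mul_nonneg h10 hs.le]

/-- weighted Cauchy-Schwarz -/
lemma cs {κ : Type} [Fintype κ] (y l : κ → ℝ) (hl : ∀ k, 0 < l k) :
    (∑ k, y k) ^ 2 ≤ (∑ k, l k) * ∑ k, y k ^ 2 / l k :=
  Finset.sum_sq_le_sum_mul_sum_of_sq_le_mul _ (fun k _ => (hl k).le)
    (fun k _ => div_nonneg (sq_nonneg _) (hl k).le) fun k _ => by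
      have := (hl k).ne'
      refine le_of_eq ?_
      field_simp

/-- the statistic plus the prime side -/
noncomputable def G (F : ℝ → ℝ) (T t : ℝ) : ℝ := XF F T t + BB F (Real.log T / 4) t

lemma XF_linF {κ : Type} [Fintype κ] {F : κ → ℝ → ℝ} (hF : ∀ j, C2c (F j)) (u : κ → ℝ) {T t : ℝ} (hT : 3 ≤ T)
    (h1 : T ≤ t) (h2 : t ≤ 2 * T) :
    XF (fun x => ∑ j, u j * F j x) T t = ∑ j, u j * XF (F j) T t := by
  have hc : C2c (fun x => ∑ j, u j * F j x) := by
    refine ⟨ContDiff.sum fun j _ => contDiff_const.mul (hF j).cd, fun x hx => ?_⟩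
    exact Finset.sum_eq_zero fun j _ => by rw [(hF j).supp x hx, mul_zero]
  rw [XF_eq hc (U1 := T - 1) (U2 := 2 * T + 1) (by linarith) (by linarith) (by linarith)]
  have h3 : ∀ j, XF (F j) T t = (∑ s ∈ H370.Zf riemannZeta (T - 1) (2 * T + 1), (mz s : ℝ) * F j (s.im - t)) -
      Real.log T / (2 * Real.pi) * ∫ x : ℝ, F j x := fun j =>
    XF_eq (hF j) (by linarith) (by linarith) (by linarith)
  simp_rw [h3]
  rw [integral_finsetSum _ fun j _ => ((hF j).int.const_mul (u j))]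
  simp_rw [integral_const_mul, mul_sub, Finset.sum_sub_distrib, Finset.mul_sum]
  congr 1
  · rw [Finset.sum_comm]
    exact Finset.sum_congr rfl fun j _ => Finset.sum_congr rfl fun s _ => by ring
  · exact Finset.sum_congr rfl fun j _ => by ring

lemma XF_shift (F : ℝ → ℝ) (T t u : ℝ) : XF (fun x => F (x - u)) T t = XF F T (t + u) := by
  unfold XF
  rw [integral_sub_right_eq_self F u]
  congr 1
  refine finsum_congr fun s => ?_
  refine finsum_congr fun _ => ?_
  change (mz s : ℝ) * F (s.im - t - u) = _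
  rw [show s.im - t - u = s.im - (t + u) by ring]

lemma G_lin (hB : S_BLI) {κ : Type} [Fintype κ] {F : κ → ℝ → ℝ} (u b : κ → ℝ)
    (hFb : ∀ j, C2c (fun x => F j (x - b j))) {T t : ℝ} (hT : 3 ≤ T) (hL : 4 ≤ Real.log T) (h1 : T ≤ t)
    (h2 : t ≤ 2 * T) :
    G (fun x => ∑ j, u j * F j (x - b j)) T t = ∑ j, u j * G (F j) T (t + b j) := by
  unfold G
  rw [XF_linF (F := fun j x => F j (x - b j)) hFb u hT h1 h2,
    hB.1 κ (fun j x => F j (x - b j)) u hFb _ t (by linarith), ← Finset.sum_add_distrib]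
  refine Finset.sum_congr rfl fun j _ => ?_
  rw [XF_shift, hB.2]
  ring

lemma G_cont {F : ℝ → ℝ} (hF : C2c F) {T : ℝ} (hT : 3 ≤ T) (hL : 4 ≤ Real.log T) :
    ContinuousOn (G F T) (Icc T (2 * T)) :=
  (XF_contOn hF hT).add (t_BBC F hF _ (by linarith)).continuousOn

section scales

variable {ι : Type} {N : ℕ} {s : ℝ}

lemma hk_pos (hs : 0 < s) (k : Option (ι × Fin N)) : 0 < hk s k := by
  rcases k with _ | p
  · exact hs
  · simp only [hk]
    positivity

lemma hk_ge (hs : 0 < s) (k : Option (ι × Fin N)) : s / 2 ^ N ≤ hk s k := by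
  rcases k with _ | p
  · simp only [hk]
    exact div_le_self hs.le (one_le_pow₀ (by norm_num))
  · simp only [hk]
    have h1 : (1 : ℝ) ≤ 2 ^ (p.2 : ℕ) := one_le_pow₀ (by norm_num)
    have h2 : 0 < s / 2 ^ N := by positivity
    nlinarith

lemma hk_le (hs : 0 < s) (k : Option (ι × Fin N)) : hk s k ≤ s := by
  rcases k with _ | p
  · exact le_refl _
  · simp only [hk]
    have h1 : (2 : ℝ) ^ (p.2 : ℕ) ≤ 2 ^ N := pow_le_pow_right₀ (by norm_num) p.2.2.le
    rw [mul_div_assoc', div_le_iff₀ (by positivity), mul_comm]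
    exact mul_le_mul_of_nonneg_left h1 hs.le

variable [Fintype ι]

lemma fk_cd (a c : ι → ℝ) (k : Option (ι × Fin N)) : ContDiff ℝ 2 (fk a c k) := by
  rcases k with _ | p
  · exact E_cd a c
  · exact D_cd

lemma fk_zero {a c : ι → ℝ} (hc : ∑ i, c i = 0) (k : Option (ι × Fin N)) {y : ℝ}
    (hy : y ≤ -∑ i, |a i| ∨ 2 + ∑ i, |a i| ≤ y) : fk a c k y = 0 := by
  have hA : 0 ≤ ∑ i, |a i| := Finset.sum_nonneg fun _ _ => abs_nonneg _
  rcases k with _ | p
  · simp only [fk]
    rcases hy with hy | hy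
    · exact E_neg a c hy
    · exact E_ge a c hc (by linarith)
  · simp only [fk]
    rcases hy with hy | hy
    · exact D_neg (by linarith)
    · exact D_ge (by linarith)

lemma c2c_k {a c : ι → ℝ} (hc : ∑ i, c i = 0) (hs : 0 < s) (hsA : (2 * ∑ i, |a i|) * s + 2 * s ≤ 1)
    (k : Option (ι × Fin N)) {b : ℝ} (hb : |b| ≤ (∑ i, |a i|) * s) :
    C2c (fun x => fk a c k ((x - b) / hk s k)) := by
  have hA : 0 ≤ ∑ i, |a i| := Finset.sum_nonneg fun _ _ => abs_nonneg _
  have h1 := hk_pos hs k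
  have h2 := hk_le hs k
  have hb1 := neg_abs_le b
  have hb2 := le_abs_self b
  have h3 : (∑ i, |a i|) * hk s k ≤ (∑ i, |a i|) * s := mul_le_mul_of_nonneg_left h2 hA
  refine ⟨(fk_cd a c k).comp ((contDiff_id.sub contDiff_const).div_const _), fun x hx => ?_⟩
  refine fk_zero hc k ?_
  rcases le_abs.1 hx with hx | hx
  · right
    rw [le_div_iff₀ h1]
    nlinarith
  · left
    rw [div_le_iff₀ h1]
    nlinarith

end scales

lemma ck_sq {ι : Type} [Fintype ι] {N : ℕ} (c : ι → ℝ) (k : Option (ι × Fin N)) :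
    ck c k ^ 2 ≤ 1 + ∑ i, c i ^ 2 := by
  rcases k with _ | p
  · simp only [ck]
    have : 0 ≤ ∑ i, c i ^ 2 := Finset.sum_nonneg fun _ _ => sq_nonneg _
    linarith
  · simp only [ck]
    have : c p.1 ^ 2 ≤ ∑ i, c i ^ 2 :=
      Finset.single_le_sum (f := fun i => c i ^ 2) (fun _ _ => sq_nonneg _) (Finset.mem_univ p.1)
    linarith

lemma bk_le {ι : Type} [Fintype ι] {N : ℕ} (a : ι → ℝ) {s : ℝ} (hs : 0 < s) (k : Option (ι × Fin N)) :
    |bk a s k| ≤ (∑ i, |a i|) * s := by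
  have hA : 0 ≤ ∑ i, |a i| := Finset.sum_nonneg fun _ _ => abs_nonneg _
  rcases k with _ | p
  · simp only [bk, abs_zero]
    positivity
  · simp only [bk]
    rw [abs_mul, abs_of_pos hs]
    exact mul_le_mul_of_nonneg_right (abs_le_sum a p.1) hs.le

end STLL

open STLL in
theorem t_STL (hB : S_BLI) (hL : S_L2) : S_STL := by
  intro ι _ a c hc
  obtain ⟨C1, K1, T1, hC1, hK1, hT1, h1⟩ := hL D D_cd D_cs
  obtain ⟨C2, K2, T2, hC2, hK2, hT2, h2⟩ := hL (E a c) (E_cd a c) (E_cs a c hc)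
  have hA : 0 ≤ ∑ i, |a i| := Finset.sum_nonneg fun _ _ => abs_nonneg _
  have hM : 0 < 1 + ∑ i, c i ^ 2 := by
    have : 0 ≤ ∑ i, c i ^ 2 := Finset.sum_nonneg fun _ _ => sq_nonneg _
    linarith
  refine ⟨(C1 + C2) * (1 + ∑ i, c i ^ 2) * ((2 * Fintype.card ι + 1) ^ 2 * 2), K1 + K2 + 2 * (∑ i, |a i|) + 2,
    max (max T1 T2) (Real.exp 20), by positivity, by linarith,
    hT1.trans ((le_max_left _ _).trans (le_max_left _ _)), ?_⟩
  intro T hT s σ N hsK hs1 hσ
  have hTT1 : T1 ≤ T := ((le_max_left _ _).trans (le_max_left _ _)).trans hT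
  have hTT2 : T2 ≤ T := ((le_max_right _ _).trans (le_max_left _ _)).trans hT
  have hTe : Real.exp 20 ≤ T := (le_max_right _ _).trans hT
  have hT0 : 0 < T := (Real.exp_pos _).trans_le hTe
  have hL20 : 20 ≤ Real.log T := by rw [Real.le_log_iff_exp_le hT0]; exact hTe
  have hLT := log_le_tenth hTe
  set L := Real.log T with hLd
  have hL0 : 0 < L := by linarith
  set K := K1 + K2 + 2 * (∑ i, |a i|) + 2 with hKd
  have hK0 : 0 < K := by rw [hKd]; linarith
  have hw0 : 0 < s / 2 ^ N := by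
    have h3 : 0 < s / 2 ^ N * L := hK0.trans_le hsK
    exact pos_of_mul_pos_left h3 hL0.le
  have hs0 : 0 < s := by
    have h3 : s = 2 ^ N * (s / 2 ^ N) := by field_simp
    rw [h3]
    positivity
  have hsK' : s * K ≤ 1 := by rwa [le_div_iff₀ hK0] at hs1
  have hsA : (2 * ∑ i, |a i|) * s + 2 * s ≤ 1 := by
    refine le_trans ?_ hsK'
    rw [hKd]
    nlinarith [mul_pos hs0 (show (0 : ℝ) < K1 by linarith), mul_pos hs0 (show (0 : ℝ) < K2 by linarith)]
  have hAs : (∑ i, |a i|) * s ≤ 1 := by nlinarith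
  -- the weights
  let lam : Option (ι × Fin N) → ℝ := fun k => 1 / (hk s k * L) + hk s k
  have hlam : ∀ k, 0 < lam k := fun k => by
    have := hk_pos hs0 k
    simp only [lam]
    positivity
  have hLam := lam_sum (ι := ι) N hs0 hL0
  change ∑ k, lam k ≤ _ at hLam
  have hLam0 : 0 ≤ ∑ k, lam k := Finset.sum_nonneg fun k _ => (hlam k).le
  -- the functions
  let g : Option (ι × Fin N) → ℝ → ℝ := fun k => G (fun x => fk a c k (x / hk s k)) T
  have hC2k : ∀ k : Option (ι × Fin N), C2c (fun x => fk a c k (x / hk s k)) := fun k => by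
    have := c2c_k hc hs0 hsA k (b := 0) (by rw [abs_zero]; positivity)
    simpa using this
  have hC2b : ∀ k : Option (ι × Fin N), C2c (fun x => fk a c k ((x - bk a s k) / hk s k)) := fun k =>
    c2c_k hc hs0 hsA k (bk_le a hs0 k)
  have hgc : ∀ k, ContinuousOn (g k) (Icc T (2 * T)) := fun k => G_cont (hC2k k) (by linarith) (by linarith)
  have hab : T + 2 * L + 1 ≤ 2 * T - 2 * L - 1 := by linarith
  have hb1 : ∀ k : Option (ι × Fin N), |bk a s k| ≤ 1 := fun k => (bk_le a hs0 k).trans hAs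
  have hbl : ∀ k : Option (ι × Fin N), -1 ≤ bk a s k := fun k => (abs_le.1 (hb1 k)).1
  have hbr : ∀ k : Option (ι × Fin N), bk a s k ≤ 1 := fun k => (abs_le.1 (hb1 k)).2
  have hgc' : ∀ k, ContinuousOn (fun t => g k (t + bk a s k)) (Icc (T + 2 * L + 1) (2 * T - 2 * L - 1)) := fun k => by
    refine (hgc k).comp (by fun_prop) fun t ht => ?_
    have := hbl k
    have := hbr k
    have := ht.1
    have := ht.2
    constructor <;> linarith
  -- the integral of each piece
  have hpiece : ∀ k, ∫ t in (T + 2 * L + 1)..(2 * T - 2 * L - 1), g k (t + bk a s k) ^ 2 ≤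
      (C1 + C2) * T * lam k ^ 2 := by
    intro k
    rw [intervalIntegral.integral_comp_add_right (fun t => g k t ^ 2)]
    have hsub : ContinuousOn (fun t => g k t ^ 2) (uIcc (T + 2 * L) (2 * T - 2 * L)) := by
      rw [uIcc_of_le (by linarith)]
      exact ((hgc k).mono (Icc_subset_Icc (by linarith) (by linarith))).pow 2
    have hm : ∫ t in (T + 2 * L + 1 + bk a s k)..(2 * T - 2 * L - 1 + bk a s k), g k t ^ 2 ≤
        ∫ t in (T + 2 * L)..(2 * T - 2 * L), g k t ^ 2 := by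
      refine intervalIntegral.integral_mono_interval (by linarith [hbl k]) (by linarith) (by linarith [hbr k])
        (Eventually.of_forall fun t => sq_nonneg _) hsub.intervalIntegrable
    refine hm.trans ?_
    have hk0 := hk_pos hs0 k
    have hkl : K ≤ hk s k * L := hsK.trans (mul_le_mul_of_nonneg_right (hk_ge hs0 k) hL0.le)
    have hks : hk s k * K ≤ 1 := (mul_le_mul_of_nonneg_right (hk_le hs0 k) hK0.le).trans hsK'
    have hlam2 : 1 / (hk s k * L) ^ 2 + hk s k ^ 2 ≤ lam k ^ 2 := by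
      simp only [lam]
      have h5 : 0 ≤ 1 / (hk s k * L) := by positivity
      have h6 : 1 / (hk s k * L) ^ 2 = (1 / (hk s k * L)) ^ 2 := by rw [one_div_pow]
      rw [h6]
      nlinarith [mul_nonneg h5 hk0.le]
    have hfin : ∀ C : ℝ, 0 < C → C ≤ C1 + C2 →
        C * T * (1 / (hk s k * L) ^ 2 + hk s k ^ 2) ≤ (C1 + C2) * T * lam k ^ 2 := fun C hC hCC => by
      refine mul_le_mul (mul_le_mul_of_nonneg_right hCC hT0.le) hlam2 (by positivity) (by positivity)
    rcases k with _ | p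
    · refine (h2 T hTT2 (hk s (none : Option (ι × Fin N))) (by linarith) ?_).trans (hfin C2 hC2 (by linarith))
      rw [le_div_iff₀ (by linarith)]
      refine le_trans (mul_le_mul_of_nonneg_left ?_ hk0.le) hks
      linarith
    · refine (h1 T hTT1 (hk s (some p)) (by linarith) ?_).trans (hfin C1 hC1 (by linarith))
      rw [le_div_iff₀ (by linarith)]
      refine le_trans (mul_le_mul_of_nonneg_left ?_ hk0.le) hks
      linarith
  -- the pointwise bound
  have hGF : ∀ t ∈ Icc (T + 2 * L + 1) (2 * T - 2 * L - 1),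
      (XF (Ft a c s (s / 2 ^ N) σ) T t + BB (Ft a c s (s / 2 ^ N) σ) (L / 4) t) =
        ∑ k, ck c k / σ * g k (t + bk a s k) := by
    intro t ht
    have h5 : Ft a c s (s / 2 ^ N) σ = fun x => ∑ k : Option (ι × Fin N), ck c k / σ *
        (fun k x => fk a c k (x / hk s k)) k (x - bk a s k) := funext fun x => decomp a c hs0 σ N x
    have h6 := G_lin hB (F := fun (k : Option (ι × Fin N)) x => fk a c k (x / hk s k)) (fun k => ck c k / σ)
      (fun k => bk a s k) hC2b (T := T) (t := t) (by linarith) (by linarith) (by linarith [ht.1]) (by linarith [ht.2])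
    rw [h5]
    exact h6
  have hpt : ∀ t ∈ Icc (T + 2 * L + 1) (2 * T - 2 * L - 1),
      (XF (Ft a c s (s / 2 ^ N) σ) T t + BB (Ft a c s (s / 2 ^ N) σ) (L / 4) t) ^ 2 ≤
        (∑ k, lam k) * ∑ k, (ck c k / σ) ^ 2 / lam k * g k (t + bk a s k) ^ 2 := by
    intro t ht
    rw [hGF t ht]
    refine (cs _ lam hlam).trans (le_of_eq ?_)
    congr 1
    refine Finset.sum_congr rfl fun k _ => ?_
    rw [mul_pow]
    ring
  have hcl : ContinuousOn (fun t => (XF (Ft a c s (s / 2 ^ N) σ) T t +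
      BB (Ft a c s (s / 2 ^ N) σ) (L / 4) t) ^ 2) (Icc (T + 2 * L + 1) (2 * T - 2 * L - 1)) := by
    refine ContinuousOn.congr (f := fun t => (∑ k, ck c k / σ * g k (t + bk a s k)) ^ 2) ?_
      fun t ht => by rw [hGF t ht]
    exact (continuousOn_finsetSum _ fun k _ => continuousOn_const.mul (hgc' k)).pow 2
  have hcr : ∀ k, ContinuousOn (fun t => (ck c k / σ) ^ 2 / lam k * g k (t + bk a s k) ^ 2)
      (Icc (T + 2 * L + 1) (2 * T - 2 * L - 1)) := fun k => continuousOn_const.mul ((hgc' k).pow 2)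
  have hu : uIcc (T + 2 * L + 1) (2 * T - 2 * L - 1) = Icc (T + 2 * L + 1) (2 * T - 2 * L - 1) := uIcc_of_le hab
  have hir : ∀ k, IntervalIntegrable (fun t => (ck c k / σ) ^ 2 / lam k * g k (t + bk a s k) ^ 2) volume
      (T + 2 * L + 1) (2 * T - 2 * L - 1) := fun k =>
    ContinuousOn.intervalIntegrable (by rw [hu]; exact hcr k)
  have hmono := intervalIntegral.integral_mono_on (μ := volume) hab (f := fun t => (XF (Ft a c s (s / 2 ^ N) σ) T t +
      BB (Ft a c s (s / 2 ^ N) σ) (L / 4) t) ^ 2)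
      (g := fun t => (∑ k, lam k) * ∑ k, (ck c k / σ) ^ 2 / lam k * g k (t + bk a s k) ^ 2)
      (ContinuousOn.intervalIntegrable (by rw [hu]; exact hcl))
      (ContinuousOn.intervalIntegrable (by
        rw [hu]; exact continuousOn_const.mul (continuousOn_finsetSum _ fun k _ => hcr k)))
      hpt
  refine hmono.trans ?_
  rw [intervalIntegral.integral_const_mul, intervalIntegral.integral_finsetSum fun k _ => hir k]
  simp_rw [intervalIntegral.integral_const_mul]
  have hsum : ∑ k, (ck c k / σ) ^ 2 / lam k *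
      (∫ t in (T + 2 * L + 1)..(2 * T - 2 * L - 1), g k (t + bk a s k) ^ 2) ≤
      (1 + ∑ i, c i ^ 2) / σ ^ 2 * ((C1 + C2) * T) * ∑ k, lam k := by
    rw [Finset.mul_sum]
    refine Finset.sum_le_sum fun k _ => ?_
    have h5 := hlam k
    have h6 : (ck c k / σ) ^ 2 / lam k ≤ (1 + ∑ i, c i ^ 2) / σ ^ 2 / lam k := by
      rw [div_pow]
      exact div_le_div_of_nonneg_right (div_le_div_of_nonneg_right (ck_sq c k) (by positivity)) h5.le
    refine (mul_le_mul_of_nonneg_left (hpiece k) (by positivity)).trans ?_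
    refine (mul_le_mul_of_nonneg_right h6 (by positivity)).trans (le_of_eq ?_)
    field_simp
  refine (mul_le_mul_of_nonneg_left hsum hLam0).trans ?_
  have h7 : (∑ k, lam k) ^ 2 ≤ ((2 * Fintype.card ι + 1) * (1 / (s / 2 ^ N * L) + s)) ^ 2 :=
    pow_le_pow_left₀ hLam0 hLam 2
  have h8 : (1 / (s / 2 ^ N * L) + s) ^ 2 ≤ 2 * (1 / (s / 2 ^ N * L) ^ 2 + s ^ 2) := by
    rw [← one_div_pow (s / 2 ^ N * L)]
    nlinarith [sq_nonneg (1 / (s / 2 ^ N * L) - s)]
  have h9 : (∑ k, lam k) ^ 2 ≤ (2 * Fintype.card ι + 1) ^ 2 * 2 * (1 / (s / 2 ^ N * L) ^ 2 + s ^ 2) := by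
    refine h7.trans ?_
    rw [mul_pow, mul_assoc _ (2 : ℝ)]
    exact mul_le_mul_of_nonneg_left h8 (by positivity)
  have h10 : 0 ≤ (1 + ∑ i, c i ^ 2) / σ ^ 2 * ((C1 + C2) * T) := by positivity
  calc (∑ k, lam k) * ((1 + ∑ i, c i ^ 2) / σ ^ 2 * ((C1 + C2) * T) * ∑ k, lam k)
      = (1 + ∑ i, c i ^ 2) / σ ^ 2 * ((C1 + C2) * T) * (∑ k, lam k) ^ 2 := by ring
    _ ≤ (1 + ∑ i, c i ^ 2) / σ ^ 2 * ((C1 + C2) * T) *
        ((2 * Fintype.card ι + 1) ^ 2 * 2 * (1 / (s / 2 ^ N * L) ^ 2 + s ^ 2)) :=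
      mul_le_mul_of_nonneg_left h9 h10
    _ = (C1 + C2) * (1 + ∑ i, c i ^ 2) * ((2 * Fintype.card ι + 1) ^ 2 * 2) * T *
        (1 / (s / 2 ^ N * L) ^ 2 + s ^ 2) / σ ^ 2 := by ring

end Pool.Agent.H493.EN
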