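import Pool.Agent.H493.EN.Stc
import Pool.Agent.H493.EN.STC
import Pool.Agent.H493.EN.STL
import Pool.Agent.H493.EN.CPS
import Pool.Agent.H493.EN.CQF
import Pool.Agent.H493.EN.AE
import Pool.Agent.H493.EN.Ins

set_option autoImplicit false

/-! The numbers of zeros in windows as an instance of the abstract theory. -/

open Complex Filter Topology Set MeasureTheory ProbabilityTheory
open scoped BoundedContinuousFunction RealInnerProductSpace NNReal

namespace Pool.Agent.H493.EN

open Pool.Agent.H203.ME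

/-- the window `(α s, β s]`, divided by `σ` -/
noncomputable def wd (α β s σ : ℝ) : ℝ → ℝ := F0 ![α, β] ![1, -1] s σ

lemma wd_apply (α β s σ x : ℝ) : wd α β s σ x =
    ((Ioi (α * s)).indicator (fun _ => (1 : ℝ)) x - (Ioi (β * s)).indicator (fun _ => (1 : ℝ)) x) / σ := by
  unfold wd F0
  simp [Fin.sum_univ_two]
  ring

lemma wd_sum : ∑ i, (![1, -1] : Fin 2 → ℝ) i = 0 := by simp [Fin.sum_univ_two]

lemma wd_small {α β s : ℝ} (h1 : |α * s| ≤ 1 / 2) (h2 : |β * s| ≤ 1 / 2) : ∀ i, |(![α, β] : Fin 2 → ℝ) i * s| ≤ 1 / 2 := by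
  intro i
  fin_cases i
  · simpa using h1
  · simpa using h2

/-- combination of windows -/
noncomputable def cmb {ι : Type} (u : ι → ℝ) : ι ⊕ ι → ℝ := Sum.elim u fun j => -u j

section

variable {ι : Type} [Fintype ι]

lemma cmb_sum (u : ι → ℝ) : ∑ i, cmb u i = 0 := by
  unfold cmb
  rw [Fintype.sum_sum_type]
  simp

lemma F0_cmb (α β u : ι → ℝ) (s σ x : ℝ) : F0 (Sum.elim α β) (cmb u) s σ x = ∑ i, u i * wd (α i) (β i) s σ x := by
  unfold F0 cmb
  rw [Fintype.sum_sum_type]
  simp only [Sum.elim_inl, Sum.elim_inr, wd_apply]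
  rw [← Finset.sum_add_distrib, Finset.sum_div]
  exact Finset.sum_congr rfl fun i _ => by ring

/-- the linear statistic is linear -/
lemma XF_cmb (α β u : ι → ℝ) {s σ T t : ℝ} (ha : ∀ i, |α i * s| ≤ 1 / 2) (hb : ∀ i, |β i * s| ≤ 1 / 2) (ht : 10 ≤ t) :
    XF (F0 (Sum.elim α β) (cmb u) s σ) T t = ∑ i, u i * XF (wd (α i) (β i) s σ) T t := by
  have h1 : ∀ i : ι ⊕ ι, |Sum.elim α β i * s| ≤ 1 / 2 := by
    intro i
    rcases i with i | i
    · exact ha i
    · exact hb i
  rw [STCL.XF_eq' (STCL.F0_v (cmb_sum u) h1) (U1 := t - 2) (U2 := t + 2) (by linarith) (by linarith) (by linarith)]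
  have h2 : ∀ i, XF (wd (α i) (β i) s σ) T t =
      (∑ z ∈ H370.Zf riemannZeta (t - 2) (t + 2), (mz z : ℝ) * wd (α i) (β i) s σ (z.im - t)) -
      Real.log T / (2 * Real.pi) * ∫ x : ℝ, wd (α i) (β i) s σ x := fun i =>
    STCL.XF_eq' (STCL.F0_v wd_sum (wd_small (ha i) (hb i))) (U1 := t - 2) (U2 := t + 2) (by linarith)
      (by linarith) (by linarith)
  have h3 : ∀ i, Integrable (fun x => wd (α i) (β i) s σ x) := fun i =>
    STCL.F0_i wd_sum (wd_small (ha i) (hb i))
  simp_rw [h2, F0_cmb]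
  rw [integral_finsetSum _ fun i _ => (h3 i).const_mul (u i)]
  simp_rw [integral_const_mul, mul_sub, Finset.sum_sub_distrib, Finset.mul_sum]
  congr 1
  · rw [Finset.sum_comm]
    exact Finset.sum_congr rfl fun j _ => Finset.sum_congr rfl fun s _ => by ring
  · exact Finset.sum_congr rfl fun j _ => by ring

open Classical in
/-- the quadratic form of the jumps in terms of the covariances -/
lemma QQ_cmb (α β u : ι → ℝ) : QQ (Sum.elim α β) (cmb u) / 2 = ∑ i, ∑ j, u i * u j * cw2 α β i j := by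
  unfold QQ cmb cw2
  rw [Fintype.sum_sum_type]
  simp only [Fintype.sum_sum_type, Sum.elim_inl, Sum.elim_inr]
  rw [← Finset.sum_add_distrib, Finset.sum_div]
  refine Finset.sum_congr rfl fun i _ => ?_
  rw [← Finset.sum_add_distrib, ← Finset.sum_add_distrib, ← Finset.sum_add_distrib, Finset.sum_div]
  refine Finset.sum_congr rfl fun j _ => ?_
  rcases (Classical.em (α i = α j)).imp eq_true eq_false with h1 | h1 <;>
  rcases (Classical.em (β i = β j)).imp eq_true eq_false with h2 | h2 <;>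
  rcases (Classical.em (α i = β j)).imp eq_true eq_false with h3 | h3 <;>
  rcases (Classical.em (β i = α j)).imp eq_true eq_false with h4 | h4 <;>
  simp only [h1, h2, h3, h4, if_true, if_false] <;> ring

end

lemma XF_wd_shift (α β s σ T t m : ℝ) : XF (wd (α + m) (β + m) s σ) T t = XF (wd α β s σ) T (t + m * s) := by
  rw [← STLL.XF_shift]
  congr 1
  funext x
  have h1 : ∀ γ : ℝ, (Ioi ((γ + m) * s)).indicator (fun _ => (1 : ℝ)) x =
      (Ioi (γ * s)).indicator (fun _ => (1 : ℝ)) (x - m * s) := by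
    intro γ
    by_cases h : (γ + m) * s < x
    · rw [indicator_of_mem (show x ∈ Ioi ((γ + m) * s) from h),
        indicator_of_mem (show x - m * s ∈ Ioi (γ * s) by
          show γ * s < x - m * s
          linarith)]
    · rw [indicator_of_notMem (show x ∉ Ioi ((γ + m) * s) from h),
        indicator_of_notMem (show x - m * s ∉ Ioi (γ * s) by
          show ¬ (γ * s < x - m * s)
          intro h2
          exact h (by linarith))]
  rw [wd_apply, wd_apply, h1, h1]

/-- second moment of a Gaussian vector -/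
lemma gauss_sq {n : ℕ} {S : Matrix (Fin n) (Fin n) ℝ} (hS : S.PosSemidef) :
    ∫ x, ‖x‖ ^ 2 ∂(multivariateGaussian 0 S) = ∑ j, S j j := by
  set ν := multivariateGaussian 0 S with hν
  have hi : Integrable (fun x : EuclideanSpace ℝ (Fin n) => ‖x‖ ^ 2) ν := gauss_int2 S
  have hj : ∀ j : Fin n, Integrable (fun x : EuclideanSpace ℝ (Fin n) => x j ^ 2) ν := by
    intro j
    refine hi.mono (by fun_prop) (Filter.Eventually.of_forall fun x => ?_)
    rw [Real.norm_eq_abs, Real.norm_eq_abs, abs_of_nonneg (sq_nonneg _), abs_of_nonneg (sq_nonneg _),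
      EuclideanSpace.norm_sq_eq]
    calc x j ^ 2 = ‖x j‖ ^ 2 := by rw [Real.norm_eq_abs, sq_abs]
      _ ≤ _ := Finset.single_le_sum (f := fun i => ‖x i‖ ^ 2) (fun i _ => by positivity) (Finset.mem_univ j)
  have e : (fun x : EuclideanSpace ℝ (Fin n) => ‖x‖ ^ 2) = fun x => ∑ j, x j ^ 2 := by
    funext x
    rw [EuclideanSpace.norm_sq_eq]
    exact Finset.sum_congr rfl fun j _ => by rw [Real.norm_eq_abs, sq_abs]
  rw [e, integral_finsetSum _ fun j _ => hj j]
  refine Finset.sum_congr rfl fun j _ => ?_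
  have h2 := variance_eval_multivariateGaussian (μ := 0) hS j
  rw [variance_eq_integral (by fun_prop)] at h2
  have h3 : ∫ x : EuclideanSpace ℝ (Fin n), x j ∂ν = 0 := by
    have h4 := (measurePreserving_eval_multivariateGaussian (μ := 0) hS (i := j)).map_eq
    have h5 : ∫ x : EuclideanSpace ℝ (Fin n), x j ∂ν = ∫ y, y ∂(ν.map fun x => x j) := by
      rw [integral_map (by fun_prop) (by fun_prop)]
    rw [h5, hν, h4, integral_id_gaussianReal]
    simp
  rw [h3] at h2
  simp only [sub_zero] at h2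
  exact h2

/-- weak convergence from characteristic functions, for random heights -/
theorem weak_char {n : ℕ} {V : ℝ → ℝ → EuclideanSpace ℝ (Fin n)} {ν : Measure (EuclideanSpace ℝ (Fin n))}
    [IsProbabilityMeasure ν] (hm : ∀ᶠ T : ℝ in atTop, AEMeasurable (V T) (volume.restrict (Ioc T (2 * T))))
    (hc : ∀ u : EuclideanSpace ℝ (Fin n), Tendsto (fun T : ℝ => (1 / T : ℂ) * ∫ t in T..(2 * T),
      cexp (I * ((⟪V T t, u⟫ : ℝ) : ℂ))) atTop (𝓝 (charFun ν u))) (φ : EuclideanSpace ℝ (Fin n) →ᵇ ℝ) :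
    Tendsto (fun T : ℝ => 1 / T * ∫ t in T..(2 * T), φ (V T t)) atTop (𝓝 (∫ x, φ x ∂ν)) := by
  set μ : ℝ → Measure (EuclideanSpace ℝ (Fin n)) := fun T => (ENNReal.ofReal T)⁻¹ •
    (volume.restrict (Ioc T (2 * T))).map (V T) with hμ
  have hp : ∀ᶠ T in atTop, IsProbabilityMeasure (μ T) := by
    filter_upwards [hm, eventually_gt_atTop (0 : ℝ)] with T h1 h2
    constructor
    rw [hμ]
    simp only [Measure.smul_apply, smul_eq_mul]
    rw [Measure.map_apply_of_aemeasurable h1 MeasurableSet.univ, preimage_univ, Measure.restrict_apply_univ,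
      Real.volume_Ioc, show 2 * T - T = T by ring]
    exact ENNReal.inv_mul_cancel (by simpa using h2) ENNReal.ofReal_ne_top
  have hint : ∀ᶠ T : ℝ in atTop, ∀ {G : Type} [NormedAddCommGroup G] [NormedSpace ℝ G] (g : EuclideanSpace ℝ (Fin n) → G), Continuous g →
      ∫ x, g x ∂(μ T) = (1 / T) • ∫ t in T..(2 * T), g (V T t) := by
    filter_upwards [hm, eventually_gt_atTop (0 : ℝ)] with T h1 h2 G _ _ g hg
    rw [hμ]
    simp only
    rw [integral_smul_measure, integral_map h1 hg.aestronglyMeasurable, intervalIntegral.integral_of_le (by linarith),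
      ENNReal.toReal_inv, ENNReal.toReal_ofReal h2.le, one_div]
  have hchar : ∀ u, Tendsto (fun T => charFun (μ T) u) atTop (𝓝 (charFun ν u)) := by
    intro u
    refine (hc u).congr' ?_
    filter_upwards [hint] with T h1
    rw [charFun_apply, h1 (fun x => cexp (⟪x, u⟫ * I)) (by fun_prop), Complex.real_smul]
    congr 1
    · push_cast; ring
    · apply intervalIntegral.integral_congr
      intro t _
      simp only
      rw [mul_comm]
  have hw := FINL.weak hp hchar φ
  refine hw.congr' ?_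
  filter_upwards [hint] with T h1
  rw [h1 φ φ.continuous, smul_eq_mul]

/-- the field: normalised numbers of zeros in the windows `(t + a_j s, t + b_j s]` -/
noncomputable def Xc {k : ℕ} (a b : Fin k → ℝ) (s T t : ℝ) : EuclideanSpace ℝ (Fin k) :=
  WithLp.toLp 2 fun j => XF (wd (a j) (b j) s (sgm s T)) T t

/-- the shifted end points -/
noncomputable def aM {k : ℕ} (a : Fin k → ℝ) (M : ℕ) : Fin (k * M) → ℝ :=
  fun p => a (finProdFinEquiv.symm p).1 + ((finProdFinEquiv.symm p).2 : ℕ)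

/-- the covariances at `M` consecutive points -/
noncomputable def SC {k : ℕ} (a b : Fin k → ℝ) (M : ℕ) : Matrix (Fin (k * M)) (Fin (k * M)) ℝ :=
  Matrix.of (cw2 (aM a M) (aM b M))

open Classical in
lemma cw2_shift {ι κ : Type} (a b : ι → ℝ) (a' b' : κ → ℝ) (x : ℝ) (i j : ι) (i' j' : κ)
    (h1 : a' i' = a i + x) (h2 : b' i' = b i + x) (h3 : a' j' = a j + x) (h4 : b' j' = b j + x) :
    cw2 a' b' i' j' = cw2 a b i j := by
  unfold cw2
  rw [h1, h2, h3, h4]
  simp only [add_left_inj]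

theorem cnt_Gs (hP : S_CPS) (hF : S_CQF) {k : ℕ} (hk : 0 < k) (a b : Fin k → ℝ) :
    Gs k (2 * k) (Matrix.of (cw2 a b)) (SC a b) := by
  refine ⟨by positivity, hP _ a b, fun M => hP _ _ _, fun M u => ?_, fun M m i j => ?_⟩
  · have h1 := hF k M a b (fun p => u (finProdFinEquiv p))
    have h2 : ∑ i, ∑ j, u i * u j * SC a b M i j = ∑ p, ∑ q, u (finProdFinEquiv p) * u (finProdFinEquiv q) *
        cw2 (fun r : Fin k × Fin M => a r.1 + (r.2 : ℕ)) (fun r => b r.1 + (r.2 : ℕ)) p q := by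
      rw [← Equiv.sum_comp finProdFinEquiv]
      refine Finset.sum_congr rfl fun p _ => ?_
      rw [← Equiv.sum_comp finProdFinEquiv]
      refine Finset.sum_congr rfl fun q _ => ?_
      congr 1
      change cw2 (aM a M) (aM b M) (finProdFinEquiv p) (finProdFinEquiv q) = _
      refine cw2_shift _ _ _ _ 0 _ _ _ _ ?_ ?_ ?_ ?_ <;>
      · unfold aM
        rw [Equiv.symm_apply_apply, add_zero]
    have h3 : ∑ i, u i ^ 2 = ∑ p, u (finProdFinEquiv p) ^ 2 := by rw [← Equiv.sum_comp finProdFinEquiv]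
    rw [h2, h3]
    exact h1
  · change cw2 (aM a M) (aM b M) (finProdFinEquiv (i, m)) (finProdFinEquiv (j, m)) = cw2 a b i j
    refine cw2_shift _ _ _ _ ((m : ℕ) : ℝ) _ _ _ _ ?_ ?_ ?_ ?_ <;>
    · unfold aM
      rw [Equiv.symm_apply_apply]

/-- end points are small -/
lemma small_ev {κ : Type} [Fintype κ] (a : κ → ℝ) {h : ℝ → ℝ} (h0 : Tendsto h atTop (𝓝 0)) :
    ∀ᶠ T : ℝ in atTop, ∀ i, |a i * h T| ≤ 1 / 2 := by
  rw [eventually_all]
  intro i
  have h1 : Tendsto (fun T => |a i * h T|) atTop (𝓝 |a i * 0|) := (h0.const_mul _).abs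
  rw [mul_zero, abs_zero] at h1
  exact (h1.eventually (gt_mem_nhds (show (0 : ℝ) < 1 / 2 by norm_num))).mono fun T hT => hT.le

lemma sgm_pos {h : ℝ → ℝ} (h1 : Tendsto (fun T => h T * Real.log T) atTop atTop) : ∀ᶠ T : ℝ in atTop, 0 < sgm (h T) T := by
  filter_upwards [h1.eventually (eventually_gt_atTop 1)] with T h2
  unfold sgm
  have := Real.log_pos h2
  positivity

lemma vecB_Xc_inner {k M : ℕ} (a b : Fin k → ℝ) {s T t : ℝ} (ht : 10 ≤ t) (ha : ∀ i, |aM a M i * s| ≤ 1 / 2)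
    (hb : ∀ i, |aM b M i * s| ≤ 1 / 2) (u : EuclideanSpace ℝ (Fin (k * M))) :
    ⟪(vecB fun m : Fin M => Xc a b s T (t + (m : ℕ) * s)), u⟫ =
      XF (F0 (Sum.elim (aM a M) (aM b M)) (cmb u) s (sgm s T)) T t := by
  rw [XF_cmb (aM a M) (aM b M) u ha hb ht]
  simp only [PiLp.inner_apply]
  refine Finset.sum_congr rfl fun p _ => ?_
  have h1 : (vecB fun m : Fin M => Xc a b s T (t + (m : ℕ) * s)) p =
      XF (wd (a (finProdFinEquiv.symm p).1) (b (finProdFinEquiv.symm p).1) s (sgm s T)) T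
        (t + ((finProdFinEquiv.symm p).2 : ℕ) * s) := rfl
  rw [h1, ← XF_wd_shift]
  simp only [RCLike.inner_apply, conj_trivial]
  rfl

section

variable {ι : Type} [Fintype ι] {a c : ι → ℝ} {s σ : ℝ}

lemma F0_meas : Measurable (F0 a c s σ) := by
  unfold F0
  exact (Finset.measurable_fun_sum _ fun i _ =>
    (measurable_const.indicator measurableSet_Ioi).const_mul _).div_const _

lemma F0_bd (x : ℝ) : |F0 a c s σ x| ≤ (∑ i, |c i|) / |σ| := by
  unfold F0
  rw [abs_div]
  refine div_le_div_of_nonneg_right ((Finset.abs_sum_le_sum_abs _ _).trans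
    (Finset.sum_le_sum fun i _ => ?_)) (abs_nonneg _)
  rw [abs_mul]
  refine mul_le_of_le_one_right (abs_nonneg _) ?_
  by_cases h : x ∈ Ioi (a i * s)
  · rw [indicator_of_mem h]; simp
  · rw [indicator_of_notMem h]; simp

lemma XF0_loc (hc : ∑ i, c i = 0) (ha : ∀ i, |a i * s| ≤ 1 / 2) {A : ℝ} (hA : 3 ≤ A) (B T : ℝ) :
    ∃ G : ℝ → ℝ, Measurable G ∧ (∃ C : ℝ, 0 ≤ C ∧ ∀ t, |G t| ≤ C) ∧ ∀ t ∈ Icc A B, XF (F0 a c s σ) T t = G t := by
  refine ⟨fun t => (∑ z ∈ H370.Zf riemannZeta (A - 1) (B + 1), (mz z : ℝ) * F0 a c s σ (z.im - t)) -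
      Real.log T / (2 * Real.pi) * ∫ x : ℝ, F0 a c s σ x, ?_,
    ⟨(∑ z ∈ H370.Zf riemannZeta (A - 1) (B + 1), (mz z : ℝ) * ((∑ i, |c i|) / |σ|)) +
      |Real.log T / (2 * Real.pi) * ∫ x : ℝ, F0 a c s σ x|, ?_, fun t => ?_⟩, fun t ht => ?_⟩
  · exact (Finset.measurable_fun_sum _ fun z _ => (F0_meas.comp (measurable_const.sub measurable_id)).const_mul _).sub
      measurable_const
  · have : 0 ≤ ∑ i, |c i| := Finset.sum_nonneg fun i _ => abs_nonneg _
    exact add_nonneg (Finset.sum_nonneg fun z _ => by positivity) (abs_nonneg _)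
  · refine (abs_sub _ _).trans (add_le_add ((Finset.abs_sum_le_sum_abs _ _).trans (Finset.sum_le_sum fun z _ => ?_))
      le_rfl)
    rw [abs_mul, abs_of_nonneg (Nat.cast_nonneg _)]
    exact mul_le_mul_of_nonneg_left (F0_bd _) (Nat.cast_nonneg _)
  · exact STCL.XF_eq' (STCL.F0_v hc ha) (by linarith) (by linarith [ht.1]) (by linarith [ht.2])

end

lemma ii_bdd {a b : ℝ} {G : ℝ → ℝ} {C : ℝ} (hG : Measurable G) (hC : ∀ t, |G t| ≤ C) :
    IntervalIntegrable G volume a b := by
  refine (intervalIntegrable_const (c := C)).mono_fun hG.aestronglyMeasurable (Filter.Eventually.of_forall fun t => ?_)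
  change ‖G t‖ ≤ ‖C‖
  rw [Real.norm_eq_abs, Real.norm_eq_abs]
  exact (hC t).trans (le_abs_self _)

lemma Xc_loc {k : ℕ} (a b : Fin k → ℝ) {s T : ℝ} (hs : 0 ≤ s) (ha : ∀ i, |a i * s| ≤ 1 / 2)
    (hb : ∀ i, |b i * s| ≤ 1 / 2) (hT : 10 ≤ T) (m : ℕ) :
    ∃ V : ℝ → EuclideanSpace ℝ (Fin k), Measurable V ∧ (∃ C : ℝ, ∀ t, ‖V t‖ ^ 2 ≤ C) ∧
      ∀ t ∈ Icc T (2 * T), Xc a b s T (t + m * s) = V t := by
  have hh : ∀ j, ∃ G : ℝ → ℝ, Measurable G ∧ (∃ C : ℝ, 0 ≤ C ∧ ∀ t, |G t| ≤ C) ∧
      ∀ t ∈ Icc T (2 * T + m * s), XF (wd (a j) (b j) s (sgm s T)) T t = G t := fun j =>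
    XF0_loc (s := s) (σ := sgm s T) wd_sum (wd_small (ha j) (hb j)) (show 3 ≤ T by linarith) (2 * T + m * s) T
  choose G hG hC' hGe using hh
  choose C hC using hC'
  refine ⟨fun t => WithLp.toLp 2 fun j => G j (t + m * s), ?_, ⟨∑ j, C j ^ 2, fun t => ?_⟩, fun t ht => ?_⟩
  · refine (PiLp.continuous_toLp 2 _).measurable.comp (measurable_pi_lambda _ fun j => ?_)
    exact (hG j).comp (measurable_id.add_const _)
  · rw [EuclideanSpace.norm_sq_eq]
    refine Finset.sum_le_sum fun j _ => ?_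
    change ‖G j (t + m * s)‖ ^ 2 ≤ C j ^ 2
    rw [Real.norm_eq_abs]
    exact pow_le_pow_left₀ (abs_nonneg _) ((hC j).2 _) 2
  · unfold Xc
    congr 1
    funext j
    have h8 : 0 ≤ (m : ℝ) * s := by positivity
    exact hGe j _ ⟨by linarith [ht.1], by linarith [ht.2]⟩

open Classical in
lemma QQ_two (α β : ℝ) : QQ ![α, β] ![1, -1] / 2 = ((if α = α then 1 else 0) + (if β = β then 1 else 0) -
    (if α = β then 1 else 0) - (if β = α then 1 else 0)) / 2 := by
  unfold QQ
  simp only [Fin.sum_univ_two, Matrix.cons_val_zero, Matrix.cons_val_one]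
  rcases (Classical.em (α = β)).imp eq_true eq_false with h3 | h3 <;>
  rcases (Classical.em (β = α)).imp eq_true eq_false with h4 | h4 <;>
  simp only [h3, h4, if_true, if_false] <;> ring

theorem cnt_Fam (hCH : S_CHF) (hSC : S_SCF) (hP : S_CPS) {k : ℕ} (a b : Fin k → ℝ) :
    Fam k (Matrix.of (cw2 a b)) (SC a b) (Xc a b) := by
  classical
  intro h h0 h1
  have hpos := pos_ev h1
  have hloc : ∀ᶠ T : ℝ in atTop, ∀ m : ℕ, ∃ V : ℝ → EuclideanSpace ℝ (Fin k), Measurable V ∧
      (∃ C : ℝ, ∀ t, ‖V t‖ ^ 2 ≤ C) ∧ ∀ t ∈ Icc T (2 * T), Xc a b (h T) T (t + m * h T) = V t := by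
    filter_upwards [small_ev a h0, small_ev b h0, hpos, eventually_ge_atTop (10 : ℝ)] with T h2 h3 h4 h5 m
    exact Xc_loc a b h4.le h2 h3 h5 m
  have hmeas : ∀ᶠ T : ℝ in atTop, ∀ m : ℕ,
      AEStronglyMeasurable (fun t => Xc a b (h T) T (t + m * h T)) (volume.restrict (Ioc T (2 * T))) := by
    filter_upwards [hloc] with T h2 m
    obtain ⟨V, hV, _, hVe⟩ := h2 m
    refine hV.aestronglyMeasurable.congr ?_
    filter_upwards [ae_restrict_mem measurableSet_Ioc] with t ht
    exact (hVe t (Ioc_subset_Icc_self ht)).symm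
  refine ⟨hpos, ?_, hmeas, ?_, fun M Φ => ?_, fun m => ?_⟩
  · have h2 : Tendsto (fun T : ℝ => T⁻¹) atTop (𝓝 0) := tendsto_inv_atTop_zero
    have h3 := h0.mul h2
    rw [mul_zero] at h3
    exact h3.congr fun T => by rw [div_eq_mul_inv]
  · filter_upwards [hloc, eventually_gt_atTop (0 : ℝ)] with T h2 h3 m
    obtain ⟨V, hV, ⟨C, hC⟩, hVe⟩ := h2 m
    have h4 : IntervalIntegrable (fun t => ‖V t‖ ^ 2) volume T (2 * T) :=
      ii_bdd (C := C) (hV.norm.pow_const 2) fun t => by
        rw [abs_of_nonneg (sq_nonneg _)]; exact hC t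
    refine h4.congr fun t ht => ?_
    rw [uIoc_of_le (by linarith)] at ht
    rw [hVe t (Ioc_subset_Icc_self ht)]
  · refine weak_char ?_ (fun u => ?_) Φ
    · filter_upwards [hmeas] with T h2
      have h7 : AEMeasurable (fun t => fun m : Fin M => Xc a b (h T) T (t + (m : ℕ) * h T))
          (volume.restrict (Ioc T (2 * T))) := aemeasurable_pi_lambda _ fun m => (h2 m).aemeasurable
      exact vecB_cont.measurable.comp_aemeasurable h7
    · rw [charG2 (S := SC a b M) (hP _ _ _)]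
      have h2 := hCH _ (Sum.elim (aM a M) (aM b M)) (cmb u) (cmb_sum u) h h0 h1
      rw [QQ_cmb] at h2
      refine h2.congr' ?_
      filter_upwards [small_ev (aM a M) h0, small_ev (aM b M) h0, eventually_ge_atTop (10 : ℝ)] with T h3 h4 h5
      congr 1
      apply intervalIntegral.integral_congr
      intro t ht
      rw [uIcc_of_le (by linarith)] at ht
      beta_reduce
      rw [vecB_Xc_inner a b (by linarith [ht.1]) h3 h4 u]
  · rw [gauss_sq (hP _ a b)]
    have h2 : ∀ j : Fin k, Tendsto (fun T : ℝ => 1 / T * ∫ t in T..(2 * T),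
        (XF (wd (a j + m) (b j + m) (h T) (sgm (h T) T)) T t) ^ 2) atTop (𝓝 (cw2 a b j j)) := by
      intro j
      have h3 := hSC (Fin 2) ![a j + m, b j + m] ![1, -1] wd_sum h h0 h1
      rw [QQ_two] at h3
      have h4 : cw2 a b j j = ((if a j + (m : ℝ) = a j + m then 1 else 0) + (if b j + (m : ℝ) = b j + m then 1 else 0) -
          (if a j + (m : ℝ) = b j + m then 1 else 0) - (if b j + (m : ℝ) = a j + m then 1 else 0)) / 2 := by
        unfold cw2
        simp only [add_left_inj]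
      rw [h4]
      exact h3
    have h3 := tendsto_finsetSum Finset.univ fun j _ => h2 j
    refine h3.congr' ?_
    filter_upwards [hpos, eventually_ge_atTop (10 : ℝ), hloc, hmeas,
      (eventually_all.2 fun j : Fin k => small_ev ![a j + m, b j + m] h0)] with T h4 h5 h6 h6' h7
    rw [← Finset.mul_sum, ← intervalIntegral.integral_finsetSum]
    · congr 1
      refine intervalIntegral.integral_congr fun t _ => ?_
      rw [EuclideanSpace.norm_sq_eq]
      refine Finset.sum_congr rfl fun j _ => ?_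
      change _ = ‖XF (wd (a j) (b j) (h T) (sgm (h T) T)) T (t + m * h T)‖ ^ 2
      rw [XF_wd_shift, Real.norm_eq_abs, sq_abs]
    · intro j _
      obtain ⟨G, hG, ⟨C, hC0, hC⟩, hGe⟩ := XF0_loc (s := h T) (σ := sgm (h T) T) wd_sum (h7 j)
        (show 3 ≤ T by linarith) (2 * T) T
      have h8 : IntervalIntegrable (fun t => G t ^ 2) volume T (2 * T) :=
        ii_bdd (C := C ^ 2) (hG.pow_const 2) fun t => by
          rw [abs_of_nonneg (sq_nonneg _), ← sq_abs]
          exact pow_le_pow_left₀ (abs_nonneg _) (hC t) 2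
      refine h8.congr fun t ht => ?_
      rw [uIoc_of_le (by linarith)] at ht
      rw [wd, hGe t (Ioc_subset_Icc_self ht)]

end Pool.Agent.H493.EN
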