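import Pool.Agent.H493.EN.Qf

set_option autoImplicit false

/-! Exponential inequalities for the field at consecutive points, uniform in the pattern. -/

open Complex Filter Topology Set MeasureTheory ProbabilityTheory
open scoped BoundedContinuousFunction RealInnerProductSpace NNReal

namespace Pool.Agent.H493.EN

open Pool.Agent.H203.ME Pool.Agent.H493.DC

/-- the pattern sum on the Gaussian side -/
noncomputable def Gp {k M : ℕ} (ψ : EuclideanSpace ℝ (Fin k) → ℝ) (c : ℝ) (p : Fin M → ℂ)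
    (x : EuclideanSpace ℝ (Fin (k * M))) : ℂ := ∑ m, p m * ((ψ (blk m x) - c : ℝ) : ℂ)

/-- the real version -/
noncomputable def Rp {k M : ℕ} (ψ : EuclideanSpace ℝ (Fin k) → ℝ) (c : ℝ) (r : Fin M → ℝ)
    (x : EuclideanSpace ℝ (Fin (k * M))) : ℝ := ∑ m, r m * (ψ (blk m x) - c)

lemma Gp_re {k M : ℕ} (ψ : EuclideanSpace ℝ (Fin k) → ℝ) (c : ℝ) (p : Fin M → ℂ)
    (x : EuclideanSpace ℝ (Fin (k * M))) : (Gp ψ c p x).re = Rp ψ c (fun m => (p m).re) x := by
  unfold Gp Rp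
  rw [Complex.re_sum]
  exact Finset.sum_congr rfl fun m _ => by rw [Complex.re_mul_ofReal]

lemma Gp_im {k M : ℕ} (ψ : EuclideanSpace ℝ (Fin k) → ℝ) (c : ℝ) (p : Fin M → ℂ)
    (x : EuclideanSpace ℝ (Fin (k * M))) : (Gp ψ c p x).im = Rp ψ c (fun m => (p m).im) x := by
  unfold Gp Rp
  rw [Complex.im_sum]
  exact Finset.sum_congr rfl fun m _ => by rw [Complex.im_mul_ofReal]

lemma Gp_cont {k M : ℕ} {ψ : EuclideanSpace ℝ (Fin k) → ℝ} (hψ : Continuous ψ) (c : ℝ) (p : Fin M → ℂ) :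
    Continuous (Gp ψ c p) := by
  unfold Gp
  refine continuous_finsetSum _ fun m _ => continuous_const.mul (Complex.continuous_ofReal.comp ?_)
  exact (hψ.comp (blk_cont m)).sub continuous_const

lemma lip_sum {M : ℕ} (d : Fin M → ℝ) : ∑ m, d m ≤ Real.sqrt M * Real.sqrt (∑ m, d m ^ 2) := by
  have h1 := Finset.sum_mul_sq_le_sq_mul_sq Finset.univ (fun _ : Fin M => (1 : ℝ)) d
  simp only [one_mul, one_pow, Finset.sum_const, Finset.card_univ, Fintype.card_fin, nsmul_eq_mul, mul_one] at h1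
  rw [← Real.sqrt_mul (Nat.cast_nonneg M)]
  exact Real.le_sqrt_of_sq_le h1

/-- the real pattern sum is Lipschitz -/
lemma Rp_lip {k M : ℕ} {ψ : EuclideanSpace ℝ (Fin k) → ℝ} {L : ℝ≥0} (hψ : LipschitzWith L ψ) (c : ℝ)
    {r : Fin M → ℝ} (hr : ∀ m, |r m| ≤ 1) : LipschitzWith (L * NNReal.sqrt M) (Rp (k := k) ψ c r) := by
  refine LipschitzWith.of_dist_le_mul fun x y => ?_
  rw [Real.dist_eq]
  unfold Rp
  rw [← Finset.sum_sub_distrib]
  have h1 : ∀ m, |r m * (ψ (blk m x) - c) - r m * (ψ (blk m y) - c)| ≤ (L : ℝ) * dist (blk (k := k) m x) (blk m y) := by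
    intro m
    have h2 := hψ.dist_le_mul (blk m x) (blk m y)
    rw [Real.dist_eq] at h2
    rw [← mul_sub, abs_mul, show ψ (blk m x) - c - (ψ (blk m y) - c) = ψ (blk m x) - ψ (blk m y) by ring]
    calc |r m| * |ψ (blk m x) - ψ (blk m y)| ≤ 1 * |ψ (blk m x) - ψ (blk m y)| := by
          have := hr m
          gcongr
      _ ≤ _ := by rw [one_mul]; exact h2
  calc |∑ m, (r m * (ψ (blk m x) - c) - r m * (ψ (blk m y) - c))| ≤ ∑ m, |_| := Finset.abs_sum_le_sum_abs _ _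
    _ ≤ ∑ m : Fin M, (L : ℝ) * dist (blk (k := k) m x) (blk m y) := Finset.sum_le_sum fun m _ => h1 m
    _ = (L : ℝ) * ∑ m : Fin M, dist (blk (k := k) m x) (blk m y) := by rw [Finset.mul_sum]
    _ ≤ (L : ℝ) * (Real.sqrt M * Real.sqrt (∑ m : Fin M, dist (blk (k := k) m x) (blk m y) ^ 2)) := by
        gcongr
        exact lip_sum _
    _ = _ := by
        rw [blk_norm, Real.sqrt_sq dist_nonneg]
        push_cast
        ring

lemma lip_int {n : ℕ} {F : EuclideanSpace ℝ (Fin n) → ℝ} {L : ℝ≥0} (hF : LipschitzWith L F)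
    (μ : Measure (EuclideanSpace ℝ (Fin n))) [IsGaussian μ] : Integrable F μ := by
  have h1 : Integrable (fun x : EuclideanSpace ℝ (Fin n) => |F 0| + L * ‖x‖) μ :=
    (integrable_const _).add (IsGaussian.integrable_id.norm.const_mul _)
  refine h1.mono hF.continuous.aestronglyMeasurable (Filter.Eventually.of_forall fun x => ?_)
  have h2 := hF.dist_le_mul x 0
  rw [Real.dist_eq, dist_zero_right] at h2
  rw [Real.norm_eq_abs, Real.norm_eq_abs]
  have h3 : |F x| ≤ |F 0| + |F x - F 0| := by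
    have := abs_add_le (F 0) (F x - F 0)
    rwa [add_sub_cancel] at this
  exact (h3.trans (by linarith)).trans (le_abs_self _)

section

variable {k : ℕ} {f : Fin k → ℝ → ℝ} {h : ℝ → ℝ}

/-- the mean of the real pattern sum -/
lemma Rp_mean (hf : ∀ j, ContDiff ℝ 2 (f j)) (hs : ∀ j, HasCompactSupport (f j))
    (h0 : Tendsto h atTop (𝓝 0)) (h1 : Tendsto (fun T => h T * Real.log T) atTop atTop)
    {ψ : EuclideanSpace ℝ (Fin k) → ℝ} {L : ℝ≥0} (hψ : LipschitzWith L ψ) {M : ℕ} (r : Fin M → ℝ) :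
    ∫ x, Rp ψ (∫ y, ψ y ∂(multivariateGaussian 0 (cM f (fun _ => h)))) r x
      ∂(multivariateGaussian 0 (cM (gM f M) (fun _ => h))) = 0 := by
  have hi : ∀ m : Fin M, Integrable (fun x => ψ (blk m x)) (multivariateGaussian 0 (cM (gM f M) (fun _ => h))) := by
    intro m
    have h2 := lip_int hψ (multivariateGaussian 0 (cM f (fun _ => h)))
    rw [← blk_law hf hs h0 h1 m] at h2
    exact h2.comp_measurable (blk_cont m).measurable
  unfold Rp
  have hi2 : ∀ m ∈ (Finset.univ : Finset (Fin M)), Integrable (fun x => r m * (ψ (blk m x) -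
      ∫ y, ψ y ∂(multivariateGaussian 0 (cM f (fun _ => h))))) (multivariateGaussian 0 (cM (gM f M) (fun _ => h))) :=
    fun m _ => ((hi m).sub (integrable_const _)).const_mul _
  rw [integral_finsetSum _ hi2]
  refine Finset.sum_eq_zero fun m _ => ?_
  rw [integral_const_mul, integral_sub (hi m) (integrable_const _), integral_const, probReal_univ, one_smul]
  have h3 : ∫ x, ψ (blk m x) ∂(multivariateGaussian 0 (cM (gM f M) (fun _ => h))) =
      ∫ y, ψ y ∂(multivariateGaussian 0 (cM f (fun _ => h))) := by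
    rw [← blk_law hf hs h0 h1 m, integral_map (blk_cont m).aemeasurable hψ.continuous.aestronglyMeasurable]
  rw [h3, sub_self, mul_zero]

/-- concentration for the pattern sums on the Gaussian side -/
lemma Gp_conc (hG : S_GAU) (hf : ∀ j, ContDiff ℝ 2 (f j)) (hs : ∀ j, HasCompactSupport (f j))
    (h0 : Tendsto h atTop (𝓝 0)) (h1 : Tendsto (fun T => h T * Real.log T) atTop atTop) {Λ : ℝ} (hΛ : 0 < Λ)
    {M : ℕ} (hM : 1 ≤ M)
    (hq : ∀ u : Fin (k * M) → ℝ, ∑ i, ∑ j, u i * u j * cM (gM f M) (fun _ => h) i j ≤ Λ * ∑ i, u i ^ 2)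
    {ψ : EuclideanSpace ℝ (Fin k) → ℝ} {L : ℝ≥0} (hL : 0 < L) (hψ : LipschitzWith L ψ) {p : Fin M → ℂ}
    (hp : ∀ m, ‖p m‖ ≤ 1) {δ : ℝ} (hδ : 0 ≤ δ) :
    (multivariateGaussian 0 (cM (gM f M) (fun _ => h))).real
      {x | δ ≤ ‖Gp ψ (∫ y, ψ y ∂(multivariateGaussian 0 (cM f (fun _ => h)))) p x‖} ≤
      4 * Real.exp (-(δ ^ 2 / (2 * Real.pi ^ 2 * L ^ 2 * M * Λ))) := by
  set μ := multivariateGaussian 0 (cM (gM f M) (fun _ => h)) with hμ
  set c := ∫ y, ψ y ∂(multivariateGaussian 0 (cM f (fun _ => h))) with hc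
  have hpsd := FINL.cM_psd t_COV (gM_smooth hf M) (gM_supp hs M) (scales_const h0 h1 (k * M))
  have hM0 : (0 : ℝ) < M := by exact_mod_cast hM
  have one : ∀ r : Fin M → ℝ, (∀ m, |r m| ≤ 1) →
      μ.real {x | δ / 2 ≤ Rp ψ c r x} ≤ Real.exp (-(δ ^ 2 / (2 * Real.pi ^ 2 * L ^ 2 * M * Λ))) := by
    intro r hr
    have h2 := hG (k * M) (cM (gM f M) (fun _ => h)) hpsd Λ hΛ hq (Rp ψ c r) (L * NNReal.sqrt M)
      (mul_pos hL (by rw [NNReal.sqrt_pos]; exact_mod_cast hM)) (Rp_lip hψ c hr) (Rp_mean hf hs h0 h1 hψ r)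
      (δ / 2) (by positivity)
    refine h2.trans (le_of_eq ?_)
    congr 2
    have h3 : ((L * NNReal.sqrt M : ℝ≥0) : ℝ) ^ 2 = (L : ℝ) ^ 2 * M := by
      push_cast
      rw [mul_pow, Real.sq_sqrt hM0.le]
    rw [h3]
    have hL' : (0 : ℝ) < L := by exact_mod_cast hL
    have := Real.pi_pos
    field_simp
  have neg : ∀ r : Fin M → ℝ, ∀ x, Rp (k := k) ψ c (fun m => -r m) x = -Rp ψ c r x := by
    intro r x
    unfold Rp
    rw [← Finset.sum_neg_distrib]
    exact Finset.sum_congr rfl fun m _ => by ring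
  have hre : ∀ m, |(p m).re| ≤ 1 := fun m => (Complex.abs_re_le_norm _).trans (hp m)
  have him : ∀ m, |(p m).im| ≤ 1 := fun m => (Complex.abs_im_le_norm _).trans (hp m)
  have hsub : {x | δ ≤ ‖Gp ψ c p x‖} ⊆ (({x | δ / 2 ≤ Rp ψ c (fun m => (p m).re) x} ∪
      {x | δ / 2 ≤ Rp ψ c (fun m => -(p m).re) x}) ∪ {x | δ / 2 ≤ Rp ψ c (fun m => (p m).im) x}) ∪
      {x | δ / 2 ≤ Rp ψ c (fun m => -(p m).im) x} := by
    intro x hx
    have h2 : δ ≤ ‖Gp ψ c p x‖ := hx
    have h3 := Complex.norm_le_abs_re_add_abs_im (Gp ψ c p x)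
    rw [Gp_re, Gp_im] at h3
    simp only [mem_union, mem_setOf_eq, neg]
    by_contra h4
    push Not at h4
    obtain ⟨⟨⟨h5, h6⟩, h7⟩, h8⟩ := h4
    have h9 : |Rp ψ c (fun m => (p m).re) x| < δ / 2 := abs_lt.2 ⟨by linarith, h5⟩
    have h10 : |Rp ψ c (fun m => (p m).im) x| < δ / 2 := abs_lt.2 ⟨by linarith, h7⟩
    linarith
  have e := (measureReal_mono hsub (measure_ne_top μ _)).trans ((measureReal_union_le _ _).trans
    (add_le_add ((measureReal_union_le _ _).trans (add_le_add ((measureReal_union_le _ _).trans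
      (add_le_add (one _ hre) (one _ (fun m => by rw [abs_neg]; exact hre m)))) (one _ him)))
      (one _ (fun m => by rw [abs_neg]; exact him m))))
  linarith

end

end Pool.Agent.H493.EN
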