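import Pool.Agent.H493.EN.Stb

set_option autoImplicit false
set_option linter.unusedSectionVars false

open Complex Filter Topology Set MeasureTheory ProbabilityTheory
open scoped RealInnerProductSpace NNReal

namespace Pool.Agent.H493.EN

namespace GLBL

lemma charG {n : ℕ} {S : Matrix (Fin n) (Fin n) ℝ} (hS : S.PosSemidef) (u : EuclideanSpace ℝ (Fin n)) :
    charFun (multivariateGaussian 0 S) u = cexp (-((∑ i, ∑ j, u i * u j * S i j : ℝ) : ℂ) / 2) := by
  rw [charFun_multivariateGaussian hS]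
  congr 1
  have : (u.ofLp ⬝ᵥ S.mulVec u.ofLp) = ∑ i, ∑ j, u i * u j * S i j := by
    simp only [dotProduct, Matrix.mulVec, Finset.mul_sum]
    exact Finset.sum_congr rfl fun i _ => Finset.sum_congr rfl fun j _ => by ring
  rw [this]
  simp
  ring

/-- the law of a linear combination -/
lemma law {n : ℕ} {S : Matrix (Fin n) (Fin n) ℝ} (hS : S.PosSemidef) (u : Fin n → ℝ)
    (hV : 0 ≤ ∑ i, ∑ j, u i * u j * S i j) :
    (multivariateGaussian 0 S).map (fun x => ∑ i, u i * x i) =
      gaussianReal 0 (Real.toNNReal (∑ i, ∑ j, u i * u j * S i j)) := by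
  have hc : Continuous fun x : EuclideanSpace ℝ (Fin n) => ∑ i, u i * x i := by fun_prop
  have : IsProbabilityMeasure ((multivariateGaussian 0 S).map (fun x => ∑ i, u i * x i)) :=
    Measure.isProbabilityMeasure_map hc.aemeasurable
  refine Measure.ext_of_charFun ?_
  funext t
  rw [charFun_gaussianReal, charFun_apply, integral_map hc.aemeasurable (by fun_prop)]
  have e : ∀ x : EuclideanSpace ℝ (Fin n), cexp ((⟪∑ i, u i * x i, t⟫ : ℝ) * I) =
      cexp ((⟪x, WithLp.toLp 2 (fun i => t * u i)⟫ : ℝ) * I) := by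
    intro x
    congr 3
    simp only [PiLp.inner_apply, RCLike.inner_apply, conj_trivial, Finset.mul_sum]
    exact Finset.sum_congr rfl fun i _ => by ring
  simp_rw [e]
  rw [← charFun_apply, charG hS]
  congr 1
  rw [Real.coe_toNNReal _ hV]
  have e2 : (∑ i, ∑ j, (t * u i) * (t * u j) * S i j) = t ^ 2 * ∑ i, ∑ j, u i * u j * S i j := by
    simp only [Finset.mul_sum]
    exact Finset.sum_congr rfl fun i _ => Finset.sum_congr rfl fun j _ => by ring
  rw [e2]
  push_cast
  ring

/-- the mean of the modulus -/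
lemma mean {V : ℝ} (hV : 0 < V) :
    ∫ y, |y| ∂(gaussianReal 0 (Real.toNNReal V)) = Real.sqrt (2 * V / Real.pi) := by
  have h0 : Real.toNNReal V ≠ 0 := (Real.toNNReal_pos.2 hV).ne'
  rw [integral_gaussianReal_eq_integral_smul h0]
  have h1 : ∀ y : ℝ, gaussianPDFReal 0 (Real.toNNReal V) y • |y| =
      (√(2 * Real.pi * V))⁻¹ * (|y| * Real.exp (-(1 / (2 * V)) * |y| ^ 2)) := by
    intro y
    rw [gaussianPDFReal, Real.coe_toNNReal _ hV.le, smul_eq_mul, sub_zero, sq_abs]
    have h2 : -y ^ 2 / (2 * V) = -(1 / (2 * V)) * y ^ 2 := by ring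
    rw [h2]
    ring
  simp_rw [h1]
  rw [integral_const_mul, integral_comp_abs (f := fun y => y * Real.exp (-(1 / (2 * V)) * y ^ 2))]
  have h3 : ∫ y in Ioi (0:ℝ), y * Real.exp (-(1 / (2 * V)) * y ^ 2) = V := by
    have h4 := integral_mul_cexp_neg_mul_sq (b := ((1 / (2 * V) : ℝ) : ℂ))
      (by rw [Complex.ofReal_re]; positivity)
    have h5 : ∀ r : ℝ, (r : ℂ) * cexp (-((1 / (2 * V) : ℝ) : ℂ) * (r : ℂ) ^ 2) =
        ((r * Real.exp (-(1 / (2 * V)) * r ^ 2) : ℝ) : ℂ) := by
      intro r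
      push_cast
      rfl
    simp_rw [h5] at h4
    rw [integral_complex_ofReal] at h4
    have h6 : (2 * ((1 / (2 * V) : ℝ) : ℂ))⁻¹ = ((V : ℝ) : ℂ) := by
      rw [show (2 : ℂ) * ((1 / (2 * V) : ℝ) : ℂ) = ((1 / V : ℝ) : ℂ) by
        push_cast
        field_simp, ← Complex.ofReal_inv, one_div, inv_inv]
    rw [h6] at h4
    exact_mod_cast h4
  rw [h3]
  rw [eq_comm, Real.sqrt_eq_iff_mul_self_eq (by positivity) (by positivity)]
  have h7 : √(2 * Real.pi * V) * √(2 * Real.pi * V) = 2 * Real.pi * V := Real.mul_self_sqrt (by positivity)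
  have h8 : √(2 * Real.pi * V) ≠ 0 := by positivity
  have hpi := Real.pi_pos
  have h9 : (√(2 * Real.pi * V))⁻¹ * (√(2 * Real.pi * V))⁻¹ = (2 * Real.pi * V)⁻¹ := by
    rw [← mul_inv, h7]
  symm
  calc (√(2 * Real.pi * V))⁻¹ * (2 * V) * ((√(2 * Real.pi * V))⁻¹ * (2 * V))
      = ((√(2 * Real.pi * V))⁻¹ * (√(2 * Real.pi * V))⁻¹) * (4 * V ^ 2) := by ring
    _ = 2 * V / Real.pi := by
      rw [h9]
      field_simp
      ring

end GLBL

open GLBL in
theorem t_GLB : S_GLB := by
  intro n S hS u q ε hq hε hV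
  set V : ℝ := ∑ i, ∑ j, u i * u j * S i j with hVd
  have hV0 : 0 < V := lt_of_lt_of_le hq hV
  have hlaw := law hS u hV0.le
  rw [← hVd] at hlaw
  have hc : Continuous fun x : EuclideanSpace ℝ (Fin n) => ∑ i, u i * x i := by fun_prop
  have hint : ∀ R : ℝ, ∫ x, min |∑ i, u i * x i| R ∂(multivariateGaussian 0 S) =
      ∫ y, min |y| R ∂(gaussianReal 0 (Real.toNNReal V)) := by
    intro R
    rw [← hlaw, integral_map hc.aemeasurable (by fun_prop)]
  have hI : Integrable (fun y : ℝ => |y|) (gaussianReal 0 (Real.toNNReal V)) := by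
    have h1 := (memLp_id_gaussianReal' (μ := 0) (v := Real.toNNReal V) 1 (by simp)).integrable le_rfl
    exact h1.abs
  have hlim : Tendsto (fun m : ℕ => ∫ y, min |y| (m : ℝ) ∂(gaussianReal 0 (Real.toNNReal V))) atTop
      (𝓝 (∫ y, |y| ∂(gaussianReal 0 (Real.toNNReal V)))) := by
    refine tendsto_integral_of_dominated_convergence (fun y => |y|) (fun m => by fun_prop) hI ?_ ?_
    · intro m
      refine ae_of_all _ fun y => ?_
      rw [Real.norm_eq_abs, abs_of_nonneg (le_min (abs_nonneg y) (Nat.cast_nonneg m))]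
      exact min_le_left _ _
    · refine ae_of_all _ fun y => ?_
      refine tendsto_const_nhds.congr' ?_
      filter_upwards [eventually_ge_atTop ⌈|y|⌉₊] with m hm
      rw [min_eq_left]
      exact (Nat.le_ceil _).trans (by exact_mod_cast hm)
  rw [mean hV0] at hlim
  have h2 : Real.sqrt (2 * q / Real.pi) ≤ Real.sqrt (2 * V / Real.pi) := by
    apply Real.sqrt_le_sqrt
    have hpi := Real.pi_pos
    gcongr
  have h3 := hlim.eventually (lt_mem_nhds (show Real.sqrt (2 * V / Real.pi) - ε <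
    Real.sqrt (2 * V / Real.pi) by linarith))
  obtain ⟨m, hm, hm1⟩ := (h3.and (eventually_ge_atTop 1)).exists
  refine ⟨m, by exact_mod_cast hm1, ?_⟩
  rw [hint]
  linarith

end Pool.Agent.H493.EN
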