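import Pool.Agent.H493.EN.Stm
import Pool.Agent.H493.DC.Shift
import Pool.Agent.H203.ME.ALL3

set_option autoImplicit false

/-! The field at `M` consecutive points: `k * M` test functions. -/

open Complex Filter Topology Set MeasureTheory ProbabilityTheory
open scoped BoundedContinuousFunction RealInnerProductSpace NNReal

namespace Pool.Agent.H493.EN

open Pool.Agent.H203.ME Pool.Agent.H493.DC

/-- the test functions of the field at `M` consecutive points -/
noncomputable def gM {k : ℕ} (f : Fin k → ℝ → ℝ) (M : ℕ) : Fin (k * M) → ℝ → ℝ :=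
  fun a => sh (f (finProdFinEquiv.symm a).1) (((finProdFinEquiv.symm a).2 : ℕ) : ℝ)

/-- the block at the `m`-th point -/
noncomputable def blk {k M : ℕ} (m : Fin M) (x : EuclideanSpace ℝ (Fin (k * M))) : EuclideanSpace ℝ (Fin k) :=
  WithLp.toLp 2 fun j => x (finProdFinEquiv (j, m))

/-- the adjoint -/
noncomputable def emb {k M : ℕ} (m : Fin M) (u : EuclideanSpace ℝ (Fin k)) : EuclideanSpace ℝ (Fin (k * M)) :=
  WithLp.toLp 2 fun a => if (finProdFinEquiv.symm a).2 = m then u (finProdFinEquiv.symm a).1 else 0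

lemma gM_apply {k M : ℕ} (f : Fin k → ℝ → ℝ) (j : Fin k) (m : Fin M) :
    gM f M (finProdFinEquiv (j, m)) = sh (f j) ((m : ℕ) : ℝ) := by
  unfold gM
  rw [Equiv.symm_apply_apply]

lemma gM_smooth {k : ℕ} {f : Fin k → ℝ → ℝ} (hf : ∀ j, ContDiff ℝ 2 (f j)) (M : ℕ) :
    ∀ a, ContDiff ℝ 2 (gM f M a) := by
  intro a
  unfold gM sh
  exact (hf _).comp (contDiff_id.sub contDiff_const)

lemma gM_supp {k : ℕ} {f : Fin k → ℝ → ℝ} (hs : ∀ j, HasCompactSupport (f j)) (M : ℕ) :
    ∀ a, HasCompactSupport (gM f M a) := by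
  intro a
  unfold gM sh
  exact (hs _).comp_homeomorph (Homeomorph.subRight _)

lemma sum_ab {k M : ℕ} {G : Type} [AddCommMonoid G] (F : Fin (k * M) → G) :
    ∑ a, F a = ∑ j : Fin k, ∑ m : Fin M, F (finProdFinEquiv (j, m)) := by
  rw [← Fintype.sum_prod_type', ← Equiv.sum_comp finProdFinEquiv]

lemma blk_cont {k M : ℕ} (m : Fin M) : Continuous (blk (k := k) m) := by
  unfold blk
  refine (PiLp.continuous_toLp 2 _).comp ?_
  exact continuous_pi fun j => by fun_prop

lemma blk_norm {k M : ℕ} (x y : EuclideanSpace ℝ (Fin (k * M))) :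
    ∑ m : Fin M, dist (blk (k := k) m x) (blk m y) ^ 2 = dist x y ^ 2 := by
  rw [EuclideanSpace.dist_sq_eq, sum_ab, Finset.sum_comm]
  refine Finset.sum_congr rfl fun m _ => ?_
  rw [EuclideanSpace.dist_sq_eq]
  rfl

lemma inner_blk {k M : ℕ} (m : Fin M) (x : EuclideanSpace ℝ (Fin (k * M))) (u : EuclideanSpace ℝ (Fin k)) :
    ⟪blk m x, u⟫ = ⟪x, emb m u⟫ := by
  simp only [PiLp.inner_apply]
  rw [sum_ab]
  refine Finset.sum_congr rfl fun j _ => ?_
  unfold blk emb
  simp only [Equiv.symm_apply_apply]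
  rw [Finset.sum_eq_single m]
  · simp
  · intro b _ hb
    simp [hb]
  · simp

lemma sh_scale (F : ℝ → ℝ) {h : ℝ} (hh : 0 < h) (a T t : ℝ) :
    XF (fun x => sh F a (x / h)) T t = XF (fun x => F (x / h)) T (t + a * h) := by
  rw [← XF_shift]
  congr 1
  funext x
  unfold sh
  congr 1
  field_simp

/-- the blocks of the field are its shifts -/
lemma blk_Xv {k M : ℕ} (f : Fin k → ℝ → ℝ) {h : ℝ} (hh : 0 < h) (m : Fin M) (T t : ℝ) :
    blk m (Xv (gM f M) (fun _ => h) T t) = Xv f (fun _ => h) T (t + (m : ℕ) * h) := by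
  unfold blk Xv
  congr 1
  funext j
  change XF (fun x => gM f M (finProdFinEquiv (j, m)) (x / h)) T t = _
  rw [gM_apply, sh_scale (f j) hh]

/-- covariances are invariant under shifts -/
lemma cv_sh (F G : ℝ → ℝ) (a : ℝ) : cv (sh F a) (sh G a) = cv F G := by
  unfold cv
  congr 2
  funext ξ
  congr 2
  rw [FF_shift, FF_shift, map_mul]
  have h1 : ph1 a ξ * (starRingEnd ℂ) (ph1 a ξ) = 1 := by
    rw [Complex.mul_conj, Complex.normSq_eq_norm_sq, ph1_norm]
    norm_num
  linear_combination (FF F ξ * (starRingEnd ℂ) (FF G ξ)) * h1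

lemma cM_const {k : ℕ} (f : Fin k → ℝ → ℝ) (h : ℝ → ℝ) (i j : Fin k) : cM f (fun _ => h) i j = cv (f i) (f j) := by
  unfold cM
  simp

lemma scales_const {h : ℝ → ℝ} (h0 : Tendsto h atTop (𝓝 0)) (h1 : Tendsto (fun T => h T * Real.log T) atTop atTop)
    (n : ℕ) : Scales (fun _ : Fin n => h) :=
  ⟨fun _ => h0, fun _ => h1, fun _ _ hne => absurd rfl hne⟩

/-- the law of a block -/
theorem blk_law {k : ℕ} {f : Fin k → ℝ → ℝ} (hf : ∀ j, ContDiff ℝ 2 (f j)) (hs : ∀ j, HasCompactSupport (f j))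
    {h : ℝ → ℝ} (h0 : Tendsto h atTop (𝓝 0)) (h1 : Tendsto (fun T => h T * Real.log T) atTop atTop)
    {M : ℕ} (m : Fin M) :
    (multivariateGaussian 0 (cM (gM f M) (fun _ => h))).map (blk (k := k) m) =
      multivariateGaussian 0 (cM f (fun _ => h)) := by
  have : IsProbabilityMeasure ((multivariateGaussian 0 (cM (gM f M) (fun _ => h))).map (blk (k := k) m)) :=
    Measure.isProbabilityMeasure_map (blk_cont m).aemeasurable
  refine Measure.ext_of_charFun ?_
  funext u
  rw [FINL.charG t_COV hf hs (scales_const h0 h1 k), charFun_apply, integral_map (blk_cont m).aemeasurable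
    (by fun_prop)]
  have e : ∀ x, cexp ((⟪blk m x, u⟫ : ℝ) * I) = cexp ((⟪x, emb m u⟫ : ℝ) * I) := fun x => by rw [inner_blk]
  simp_rw [e]
  rw [← charFun_apply, FINL.charG t_COV (gM_smooth hf M) (gM_supp hs M) (scales_const h0 h1 _)]
  congr 3
  rw [Complex.ofReal_inj, sum_ab]
  refine Finset.sum_congr rfl fun i _ => ?_
  rw [Finset.sum_eq_single m]
  · rw [sum_ab]
    refine Finset.sum_congr rfl fun j _ => ?_
    rw [Finset.sum_eq_single m]
    · rw [cM_const, cM_const, gM_apply, gM_apply, cv_sh]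
      unfold emb
      simp
    · intro b _ hb
      unfold emb
      simp [hb]
    · simp
  · intro b _ hb
    refine Finset.sum_eq_zero fun a _ => ?_
    unfold emb
    simp [hb]
  · simp

end Pool.Agent.H493.EN
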