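import Mathlib

set_option autoImplicit false

/-! Sharpness of the entropy bound: statements of the pieces (only Mathlib is needed). -/

open Complex Filter Topology Set MeasureTheory ProbabilityTheory
open scoped RealInnerProductSpace NNReal

namespace Pool.Agent.H493.EN

/-- (GLB) mean of the truncated modulus of a Gaussian variable.
Proof.  `μ = multivariateGaussian 0 S`; the law of `x ↦ ∑ i, u i * x i = ⟪x, WithLp.toLp 2 u⟫` under `μ` is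
`gaussianReal 0 V`, `V = ∑ u_i u_j S i j` (compare characteristic functions: `charFun_multivariateGaussian`, `charFun_gaussianReal`,
`Measure.ext_of_charFun`; see `charG2` and `Gs.law` in Pool/Agent/H493/EN/AB.lean for this computation), and
`∫ |y| d(gaussianReal 0 V) = √(2V/π)` (`integral_gaussianReal_eq_integral_smul`, the density is even,
`∫_0^∞ y exp(-y²/(2V)) dy = V`, e.g. `integral_mul_cexp_neg_mul_sq` or `integral_rpow_mul_exp_neg_mul_sq...` or the fundamental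
theorem for `-V exp(-y²/(2V))`: `integral_Ioi_of_hasDerivAt_of_tendsto`).  `min |y| R ↑ |y|` as `R → ∞`
(monotone or dominated convergence), and `√(2q/π) ≤ √(2V/π)`. -/
def S_GLB : Prop := ∀ (n : ℕ) (S : Matrix (Fin n) (Fin n) ℝ), S.PosSemidef → ∀ (u : Fin n → ℝ) (q ε : ℝ), 0 < q → 0 < ε →
  q ≤ ∑ i, ∑ j, u i * u j * S i j → ∃ R : ℝ, 0 < R ∧
    Real.sqrt (2 * q / Real.pi) - ε ≤ ∫ x, min |∑ i, u i * x i| R ∂(multivariateGaussian 0 S)

/-- (BLK) a function which follows few patterns and correlates with a given function.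
Proof.  `Σ t = ∑_{m<q} (-1)^m D(t + m s)`, `sg x = 1` if `0 ≤ x` and `-1` otherwise (`x * sg x = |x|`).  For `r < q` let
`pos_r t = ((⌊t/s⌋ + r) mod q)` (`Int.floor`, `Int.emod`, a number in `{0, ..., q-1}`) and
`θ_r t = (-1)^{pos_r t} sg (Σ (t - pos_r t * s))`.  Measurable: it is `∑_{m<q} 1[pos_r t = m] (-1)^m sg (Σ (t - m s))`.
For every `t` and every `m < q` there is exactly one `r < q` with `pos_r t = m`, so
`∑_r ∫ θ_r D = ∑_m (-1)^m ∫ sg (Σ (t - ms)) D(t) dt = ∑_m (-1)^m ∫ sg (Σ t) D(t + ms) dt = ∫ sg(Σ) Σ = ∫ |Σ|`.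
Hence `∫ θ_r D ≥ (1/q) ∫ |Σ|` for some `r`; this `θ_r` is taken.
Patterns: `ρ = pos_r t`; `⌊(t + ms)/s⌋ = ⌊t/s⌋ + m`, so `pos_r (t + ms) = (ρ + m) % q`, and
`t + ms - ((ρ + m) % q) s = t - ρ s + ((ρ + m)/q) q s`; so `θ_r (t + ms) = (-1)^{(ρ+m) % q} e_{(ρ+m)/q}`, with
`e_j = sg (Σ (t - ρ s + j q s))`, and `(ρ + m)/q < M/q + 2` for `m < M`.  `P M` is the image of
`Fin q × (Fin (M/q + 2) → Bool)` under `(ρ, e) ↦ (m ↦ (-1)^{(ρ+m) % q} * (1 or -1 according to e_{(ρ+m)/q}, and 1 if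
(ρ+m)/q ≥ M/q + 2))`. -/
def S_BLK : Prop := ∀ q : ℕ, 0 < q → ∃ P : ℕ → Finset (ℕ → ℂ), (∀ M, (P M).card ≤ q * 2 ^ (M / q + 2)) ∧
  (∀ M, ∀ p ∈ P M, ∀ m, ‖p m‖ ≤ 1) ∧ ∀ (s : ℝ) (D : ℝ → ℝ), 0 < s → Measurable D → Integrable D →
    ∃ θ : ℝ → ℂ, Measurable θ ∧ (∀ t, ‖θ t‖ ≤ 1) ∧ (∀ (t : ℝ) (M : ℕ), ∃ p ∈ P M, ∀ m < M, θ (t + m * s) = p m) ∧
      1 / q * ∫ t, |∑ m ∈ Finset.range q, (-1) ^ m * D (t + m * s)| ≤ ‖∫ t, θ t * (D t : ℂ)‖

end Pool.Agent.H493.EN
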