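import Pool.Agent.H493.EN.Cnt
import Pool.Agent.H493.EN.Stb

set_option autoImplicit false

/-! The entropy bound is sharp up to a constant. -/

open Complex Filter Topology Set MeasureTheory ProbabilityTheory
open scoped BoundedContinuousFunction RealInnerProductSpace NNReal

namespace Pool.Agent.H493.EN

open Pool.Agent.H203.ME

/-- the alternating signs -/
noncomputable def sgn2 (q : ℕ) : Fin (1 * q) → ℝ := fun p => (-1) ^ ((finProdFinEquiv.symm p).2 : ℕ)

lemma sgn2_sum {q : ℕ} (x : Fin q → EuclideanSpace ℝ (Fin 1)) :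
    ∑ p, sgn2 q p * (vecB x) p = ∑ m : Fin q, (-1) ^ (m : ℕ) * x m 0 := by
  rw [sum_ab (k := 1) (M := q)]
  simp only [Finset.univ_unique, Finset.sum_singleton]
  refine Finset.sum_congr rfl fun m _ => ?_
  unfold sgn2
  rw [Equiv.symm_apply_apply]
  congr 1
  unfold vecB
  simp only [Equiv.symm_apply_apply]
  rfl

open Classical in
lemma alt_var (q : ℕ) : (q : ℝ) ≤ ∑ i, ∑ j, sgn2 q i * sgn2 q j * SC (fun _ : Fin 1 => (0 : ℝ)) (fun _ => 1) q i j := by
  have key : ∀ i j : Fin (1 * q), (if i = j then (1 : ℝ) else 0) ≤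
      sgn2 q i * sgn2 q j * SC (fun _ : Fin 1 => (0 : ℝ)) (fun _ => 1) q i j := by
    intro i j
    obtain ⟨⟨i0, m⟩, rfl⟩ := finProdFinEquiv.surjective i
    obtain ⟨⟨j0, n⟩, rfl⟩ := finProdFinEquiv.surjective j
    have hi0 : i0 = 0 := Subsingleton.elim _ _
    have hj0 : j0 = 0 := Subsingleton.elim _ _
    subst hi0
    subst hj0
    change _ ≤ sgn2 q _ * sgn2 q _ * cw2 _ _ _ _
    unfold sgn2 cw2 aM
    simp only [Equiv.symm_apply_apply, EmbeddingLike.apply_eq_iff_eq, Prod.mk.injEq, true_and, zero_add]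
    by_cases h : m = n
    · subst h
      have h1 : ((m : ℕ) : ℝ) ≠ 1 + ((m : ℕ) : ℝ) := by intro h; linarith
      rw [if_pos rfl, if_pos rfl, if_pos rfl, if_neg h1, if_neg h1.symm, ← pow_add, Even.neg_one_pow ⟨_, rfl⟩]
      norm_num
    · have h1 : ((m : ℕ) : ℝ) ≠ ((n : ℕ) : ℝ) := by
        intro h2
        exact h (Fin.ext (by exact_mod_cast h2))
      have h2 : (1 : ℝ) + ((m : ℕ) : ℝ) ≠ 1 + ((n : ℕ) : ℝ) := by
        intro h3
        exact h1 (by linarith)
      rw [if_neg h, if_neg h1, if_neg h2]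
      by_cases h3 : ((m : ℕ) : ℝ) = 1 + ((n : ℕ) : ℝ)
      · have h4 : (m : ℕ) = 1 + (n : ℕ) := by exact_mod_cast h3
        have h5 : (1 : ℝ) + ((m : ℕ) : ℝ) ≠ ((n : ℕ) : ℝ) := by intro h; linarith
        rw [if_pos h3, if_neg h5, h4, ← pow_add, Odd.neg_one_pow ⟨(n : ℕ), by ring⟩]
        norm_num
      · rw [if_neg h3]
        by_cases h4 : (1 : ℝ) + ((m : ℕ) : ℝ) = ((n : ℕ) : ℝ)
        · have h5 : 1 + (m : ℕ) = (n : ℕ) := by exact_mod_cast h4
          rw [if_pos h4, ← h5, ← pow_add, Odd.neg_one_pow ⟨(m : ℕ), by ring⟩]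
          norm_num
        · rw [if_neg h4]
          norm_num
  calc (q : ℝ) = ∑ i : Fin (1 * q), ∑ j : Fin (1 * q), (if i = j then (1 : ℝ) else 0) := by simp
    _ ≤ _ := Finset.sum_le_sum fun i _ => Finset.sum_le_sum fun j _ => key i j

/-- number of patterns -/
lemma card_ev {κ : ℝ} (hκ : 0 < κ) {q : ℕ} (hq : 1 / κ ≤ q) : ∃ M₀ : ℕ, ∀ M : ℕ, M₀ ≤ M →
    ((q * 2 ^ (M / q + 2) : ℕ) : ℝ) ≤ Real.exp (κ * M) := by
  have hq0 : (0 : ℝ) < q := lt_of_lt_of_le (by positivity) hq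
  have hl := Real.log_two_lt_d9
  have hc : 0 < κ * (1 - Real.log 2) := mul_pos hκ (by linarith)
  have h1 : Tendsto (fun M : ℕ => κ * (1 - Real.log 2) * (M : ℝ)) atTop atTop :=
    tendsto_natCast_atTop_atTop.const_mul_atTop hc
  obtain ⟨M₀, hM₀⟩ := eventually_atTop.1 ((Real.tendsto_exp_atTop.comp h1).eventually_ge_atTop (4 * q : ℝ))
  refine ⟨M₀, fun M hM => ?_⟩
  have h2 := hM₀ M hM
  simp only [Function.comp] at h2
  push_cast
  have h3 : (2 : ℝ) ^ (M / q + 2) ≤ 4 * Real.exp (κ * Real.log 2 * M) := by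
    rw [pow_add, mul_comm]
    have h4 : (2 : ℝ) ^ (M / q) ≤ Real.exp (κ * Real.log 2 * M) := by
      have h5 : (2 : ℝ) ^ (M / q) = Real.exp (Real.log 2 * ((M / q : ℕ) : ℝ)) := by
        rw [Real.exp_mul, Real.exp_log (by norm_num), Real.rpow_natCast]
      rw [h5]
      apply Real.exp_le_exp.2
      have h6 : ((M / q : ℕ) : ℝ) ≤ κ * M := by
        refine Nat.cast_div_le.trans ?_
        rw [div_le_iff₀ hq0]
        have h7 : 1 ≤ q * κ := by rwa [div_le_iff₀ hκ] at hq
        have h8 : (0 : ℝ) ≤ M := Nat.cast_nonneg _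
        nlinarith
      have h7 := Real.log_pos (show (1 : ℝ) < 2 by norm_num)
      nlinarith
    nlinarith
  calc (q : ℝ) * 2 ^ (M / q + 2) ≤ q * (4 * Real.exp (κ * Real.log 2 * M)) := by gcongr
    _ = (4 * q) * Real.exp (κ * Real.log 2 * M) := by ring
    _ ≤ Real.exp (κ * (1 - Real.log 2) * M) * Real.exp (κ * Real.log 2 * M) := by gcongr
    _ = Real.exp (κ * M) := by rw [← Real.exp_add]; congr 1; ring

theorem low (hB : S_BLK) (hL : S_GLB) (hCH : S_CHF) (hSC : S_SCF) (hP : S_CPS) {κ : ℝ} (hκ : 0 < κ) (hκ1 : κ ≤ 1) :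
    ∃ (M₀ : ℕ) (K : ℝ), 1 ≤ K ∧ ∀ T : ℝ, K ≤ T → ∀ s : ℝ, K ≤ s * Real.log T → s ≤ 1 / K →
      ∃ θ : ℝ → ℂ, Measurable θ ∧ (∀ t, ‖θ t‖ ≤ 1) ∧ (∀ M, M₀ ≤ M → Follows T s M κ 0 θ) ∧
        Real.sqrt κ / 2 * T ≤ ‖∫ t in T..(2 * T), θ t * ((XF (wd 0 1 s (sgm s T)) T t : ℝ) : ℂ)‖ := by
  classical
  set q : ℕ := ⌈1 / κ⌉₊ with hq
  have hq1 : 1 / κ ≤ q := Nat.le_ceil _
  have hq2 : (q : ℝ) < 1 / κ + 1 := Nat.ceil_lt_add_one (by positivity)
  have hq0 : (0 : ℝ) < q := lt_of_lt_of_le (by positivity) hq1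
  have hqn : 0 < q := by exact_mod_cast hq0
  have hq3 : (q : ℝ) * κ ≤ 2 := by
    have h1 : (1 / κ + 1) * κ = 1 + κ := by field_simp
    nlinarith
  obtain ⟨M₀, hM₀⟩ := card_ev hκ hq1
  obtain ⟨P, hPc, hPn, hPB⟩ := hB q hqn
  -- the constant
  have hpi := Real.pi_pos
  have hpi4 := Real.pi_lt_four
  set A := Real.sqrt (2 * q / Real.pi) with hA
  have hAκ : Real.sqrt κ / 2 * q < A := by
    rw [hA]
    apply Real.lt_sqrt_of_sq_lt
    rw [mul_pow, div_pow, Real.sq_sqrt hκ.le, lt_div_iff₀ hpi]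
    have h1 : κ / 2 ^ 2 * (q : ℝ) ^ 2 * Real.pi = (q * κ) * (q * Real.pi / 4) := by ring
    rw [h1]
    have h2 : (q : ℝ) * Real.pi / 4 < q := by
      rw [div_lt_iff₀ (by norm_num)]
      nlinarith
    have h3 : 0 < (q : ℝ) * Real.pi / 4 := by positivity
    nlinarith
  set ε := (A - Real.sqrt κ / 2 * q) / 3 with hε
  have hε0 : 0 < ε := by
    rw [hε]
    linarith
  obtain ⟨R, hR0, hR⟩ := hL (1 * q) (SC (fun _ : Fin 1 => (0 : ℝ)) (fun _ => 1) q) (hP _ _ _) (sgn2 q) q ε hq0 hε0 (alt_var q)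
  refine ⟨M₀, unif (P := fun T s => ∃ θ : ℝ → ℂ, Measurable θ ∧ (∀ t, ‖θ t‖ ≤ 1) ∧
    (∀ M, M₀ ≤ M → Follows T s M κ 0 θ) ∧
    Real.sqrt κ / 2 * T ≤ ‖∫ t in T..(2 * T), θ t * ((XF (wd 0 1 s (sgm s T)) T t : ℝ) : ℂ)‖) fun h h0 h1 => ?_⟩
  have hO := cnt_Fam hCH hSC hP (fun _ : Fin 1 => (0 : ℝ)) (fun _ => 1) h h0 h1
  -- the truncated modulus
  have hcont : Continuous fun x : EuclideanSpace ℝ (Fin (1 * q)) => min |∑ i, sgn2 q i * x i| R := by fun_prop
  let Φ : EuclideanSpace ℝ (Fin (1 * q)) →ᵇ ℝ := BoundedContinuousFunction.ofNormedAddCommGroup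
    (fun x => min |∑ i, sgn2 q i * x i| R) hcont R (fun x => by
      rw [Real.norm_eq_abs, abs_of_nonneg (le_min (abs_nonneg _) hR0.le)]
      exact min_le_right _ _)
  have hlim := hO.weak q Φ
  have hgt : A - 2 * ε < ∫ x, Φ x ∂(multivariateGaussian 0 (SC (fun _ : Fin 1 => (0 : ℝ)) (fun _ => 1) q)) := by
    refine lt_of_lt_of_le ?_ hR
    linarith
  have hzero : Tendsto (fun T => R * q * (h T / T)) atTop (𝓝 (R * q * 0)) := hO.zero.const_mul _
  rw [mul_zero] at hzero
  filter_upwards [hlim.eventually (lt_mem_nhds hgt), hzero.eventually (gt_mem_nhds hε0), hO.pos,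
    eventually_ge_atTop (10 : ℝ), small_ev ![(0 : ℝ), 1] h0, (h0.eventually (gt_mem_nhds (show (0 : ℝ) < 1 / q by positivity))), hO.meas]
    with T h2 h3 h4 h5 h6 h7 hme
  set s := h T with hs
  have hT : T ≤ 2 * T := by linarith
  have hT0 : 0 < T := by linarith
  obtain ⟨G, hG, ⟨C, hC0, hC⟩, hGe⟩ := XF0_loc (s := s) (σ := sgm s T) wd_sum h6 (show 3 ≤ T by linarith) (2 * T) T
  set D : ℝ → ℝ := (Icc T (2 * T)).indicator G with hD
  have hDm : Measurable D := hG.indicator measurableSet_Icc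
  have hDi : Integrable D := by
    rw [hD, integrable_indicator_iff measurableSet_Icc]
    exact Measure.integrableOn_of_bounded (M := C) (by simp) hG.aestronglyMeasurable
      (Filter.Eventually.of_forall fun t => by rw [Real.norm_eq_abs]; exact hC t)
  obtain ⟨θ, hθm, hθ1, hθ2, hθ3⟩ := hPB s D h4 hDm hDi
  refine ⟨θ, hθm, hθ1, fun M hM => ?_, ?_⟩
  · refine ⟨P M, ∅, ?_, hPn M, by simp, fun t _ _ => ?_⟩
    · refine le_trans ?_ (hM₀ M hM)
      exact_mod_cast hPc M
    · obtain ⟨p, hp, hpe⟩ := hθ2 t M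
      refine ⟨p, hp, ?_⟩
      rw [zero_mul, Finset.sum_eq_zero]
      intro m hm
      rw [hpe m (Finset.mem_range.1 hm), sub_self, norm_zero]
  · have e1 : ∫ t, θ t * (D t : ℂ) = ∫ t in T..(2 * T), θ t * ((XF (wd 0 1 s (sgm s T)) T t : ℝ) : ℂ) := by
      rw [intervalIntegral.integral_of_le hT, ← integral_Icc_eq_integral_Ioc, ← integral_indicator measurableSet_Icc]
      congr 1
      funext t
      by_cases ht : t ∈ Icc T (2 * T)
      · rw [hD, indicator_of_mem ht, indicator_of_mem ht, ← hGe t ht]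
        rfl
      · rw [hD, indicator_of_notMem ht, indicator_of_notMem ht]
        simp
    rw [← e1]
    refine le_trans ?_ hθ3
    -- lower bound of the integral of the modulus
    have hqs : (q : ℝ) * s < 1 := by
      rw [lt_div_iff₀ hq0] at h7
      linarith
    have hqs0 : 0 < (q : ℝ) * s := by positivity
    have hSi : Integrable fun t => |∑ m ∈ Finset.range q, (-1) ^ m * D (t + m * s)| := by
      refine Integrable.abs (integrable_finsetSum _ fun m _ => ?_)
      exact (hDi.comp_add_right ((m : ℝ) * s)).const_mul _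
    have e2 : ∫ t in T..(2 * T - q * s), Φ (vecB fun m : Fin q => Xc (fun _ : Fin 1 => (0 : ℝ)) (fun _ => 1) s T (t + (m : ℕ) * s)) ≤
        ∫ t, |∑ m ∈ Finset.range q, (-1) ^ m * D (t + m * s)| := by
      rw [intervalIntegral.integral_of_le (by linarith), ← integral_indicator measurableSet_Ioc]
      refine integral_mono_of_nonneg (Filter.Eventually.of_forall fun t => ?_) hSi
        (Filter.Eventually.of_forall fun t => ?_)
      · refine indicator_nonneg (fun t _ => ?_) t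
        exact le_min (abs_nonneg _) hR0.le
      · beta_reduce
        by_cases ht : t ∈ Ioc T (2 * T - q * s)
        · rw [indicator_of_mem ht]
          change min |∑ i, sgn2 q i * _| R ≤ _
          rw [sgn2_sum]
          refine (min_le_left _ _).trans (le_of_eq ?_)
          congr 1
          rw [← Fin.sum_univ_eq_sum_range (fun m => (-1) ^ m * D (t + m * s)) q]
          refine Finset.sum_congr rfl fun m _ => ?_
          have hm : ((m : ℕ) : ℝ) * s ≤ q * s := by
            have : ((m : ℕ) : ℝ) ≤ q := by exact_mod_cast m.2.le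
            exact mul_le_mul_of_nonneg_right this h4.le
          have hm0 : 0 ≤ ((m : ℕ) : ℝ) * s := by positivity
          have hmem : t + ((m : ℕ) : ℝ) * s ∈ Icc T (2 * T) := ⟨by linarith [ht.1], by linarith [ht.2]⟩
          rw [hD, indicator_of_mem hmem, ← hGe _ hmem]
          rfl
        · rw [indicator_of_notMem ht]
          exact abs_nonneg _
    have hΦi : ∀ u v : ℝ, T ≤ u → u ≤ v → v ≤ 2 * T → IntervalIntegrable (fun t =>
        Φ (vecB fun m : Fin q => Xc (fun _ : Fin 1 => (0 : ℝ)) (fun _ => 1) s T (t + (m : ℕ) * s))) volume u v := by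
      intro u v hu huv hv
      rw [intervalIntegrable_iff, uIoc_of_le huv]
      have h11 : AEMeasurable (fun t => fun m : Fin q => Xc (fun _ : Fin 1 => (0 : ℝ)) (fun _ => 1) s T
          (t + (m : ℕ) * s)) (volume.restrict (Ioc T (2 * T))) :=
        aemeasurable_pi_lambda _ fun m => (hme m).aemeasurable
      have h12 := (Φ.continuous.comp vecB_cont).comp_aestronglyMeasurable h11.aestronglyMeasurable
      refine Integrable.mono' (integrable_const R) (h12.mono_measure (Measure.restrict_mono (Ioc_subset_Ioc hu hv)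
        le_rfl)) (Filter.Eventually.of_forall fun t => ?_)
      change ‖min |∑ i, sgn2 q i * _| R‖ ≤ R
      rw [Real.norm_eq_abs, abs_of_nonneg (le_min (abs_nonneg _) hR0.le)]
      exact min_le_right _ _
    have e3 : ∫ t in (2 * T - q * s)..(2 * T), Φ (vecB fun m : Fin q => Xc (fun _ : Fin 1 => (0 : ℝ)) (fun _ => 1) s T
        (t + (m : ℕ) * s)) ≤ R * (q * s) := by
      have h8 : ∫ t in (2 * T - q * s)..(2 * T), Φ (vecB fun m : Fin q => Xc (fun _ : Fin 1 => (0 : ℝ)) (fun _ => 1) s T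
          (t + (m : ℕ) * s)) ≤ ∫ t in (2 * T - q * s)..(2 * T), R :=
        intervalIntegral.integral_mono_on (by linarith) (hΦi _ _ (by linarith) (by linarith) le_rfl)
          intervalIntegrable_const fun t _ => min_le_right _ _
      rw [intervalIntegral.integral_const, smul_eq_mul] at h8
      linarith
    have e4 := intervalIntegral.integral_add_adjacent_intervals (hΦi T (2 * T - q * s) le_rfl (by linarith) (by linarith))
      (hΦi (2 * T - q * s) (2 * T) (by linarith) (by linarith) le_rfl)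
    rw [one_div, inv_mul_eq_div, lt_div_iff₀ hT0] at h2
    rw [← mul_div_assoc, div_lt_iff₀ hT0] at h3
    rw [one_div, inv_mul_eq_div, le_div_iff₀ hq0]
    have h9 : A - 3 * ε = Real.sqrt κ / 2 * q := by rw [hε]; ring
    have h10 : (A - 3 * ε) * T = Real.sqrt κ / 2 * T * q := by rw [h9]; ring
    rw [← h10]
    refine le_trans ?_ e2
    nlinarith

end Pool.Agent.H493.EN
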