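import Pool.Agent.H493.EN.Gm

set_option autoImplicit false

/-! The covariances of the field at `M` consecutive points are bounded, uniformly in `M`. -/

open Complex Filter Topology Set MeasureTheory ProbabilityTheory
open scoped BoundedContinuousFunction RealInnerProductSpace NNReal

namespace Pool.Agent.H493.EN

open Pool.Agent.H203.ME Pool.Agent.H493.DC

/-- the variance of a combination -/
lemma sg_comb {n : ℕ} {g : Fin n → ℝ → ℝ} (hg : ∀ j, ContDiff ℝ 2 (g j)) (hs : ∀ j, HasCompactSupport (g j))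
    (u : Fin n → ℝ) : sg (fun x => ∑ j, u j * g j x) = ∑ i, ∑ j, u i * u j * cv (g i) (g j) := by
  have h1 := t_COV n g hg hs (fun _ _ => True) (fun _ _ => 1) u (fun _ _ => one_pos) (fun _ _ _ _ => rfl)
    (fun _ _ hn => absurd trivial hn)
  have h2 : (fun x => ∑ j, u j * g j x) = fun x => ∑ j, u j * g j (x / 1) := by
    funext x
    simp
  rw [h2]
  have h3 := tendsto_nhds_unique h1 tendsto_const_nhds
  rw [← h3]
  simp

/-- **the quadratic form of the covariances is bounded** -/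
theorem qf (hQ : S_QFA) {k : ℕ} {f : Fin k → ℝ → ℝ} (hf : ∀ j, ContDiff ℝ 2 (f j))
    (hs : ∀ j, HasCompactSupport (f j)) :
    ∃ Λ : ℝ, 0 < Λ ∧ ∀ (h : ℝ → ℝ) (M : ℕ) (u : Fin (k * M) → ℝ),
      ∑ i, ∑ j, u i * u j * cM (gM f M) (fun _ => h) i j ≤ Λ * ∑ i, u i ^ 2 := by
  have hC : ∃ C : ℝ, 0 < C ∧ ∀ j ξ, ‖FF (f j) ξ‖ ≤ C / (1 + ξ ^ 2) := by
    choose C hC0 hC using fun j => COVL.decay (hf j) (hs j)
    refine ⟨1 + ∑ j, C j, by have := Finset.sum_nonneg fun j (_ : j ∈ Finset.univ) => (hC0 j).le; linarith,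
      fun j ξ => (hC j ξ).trans ?_⟩
    have h1 : C j ≤ ∑ j, C j := Finset.single_le_sum (fun j _ => (hC0 j).le) (Finset.mem_univ j)
    have h2 : (0 : ℝ) < 1 + ξ ^ 2 := by positivity
    gcongr
    linarith
  obtain ⟨C, hC0, hC⟩ := hC
  refine ⟨1 / (2 * Real.pi ^ 2) * (2 * Real.pi * k * C ^ 2) + 1, by positivity, fun h M u => ?_⟩
  have h1 : ∑ i, ∑ j, u i * u j * cM (gM f M) (fun _ => h) i j = sg (fun x => ∑ a, u a * gM f M a x) := by
    rw [sg_comb (gM_smooth hf M) (gM_supp hs M)]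
    exact Finset.sum_congr rfl fun i _ => Finset.sum_congr rfl fun j _ => by rw [cM_const]
  have h2 : ∀ ξ, FF (fun x => ∑ a, u a * gM f M a x) ξ = ∑ j, FF (f j) ξ * ∑ m : Fin M,
      ((u (finProdFinEquiv (j, m)) : ℝ) : ℂ) * cexp (-(((ξ * (m : ℕ) : ℝ) : ℂ) * I)) := by
    intro ξ
    have h3 := COVL.FF_sum (k * M) (gM f M) (fun a => (gM_smooth hf M a).continuous) (gM_supp hs M)
      (fun _ => 1) u (fun _ => one_pos) ξ
    simp only [div_one, mul_one, one_mul] at h3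
    rw [h3, sum_ab]
    refine Finset.sum_congr rfl fun j _ => ?_
    rw [Finset.mul_sum]
    refine Finset.sum_congr rfl fun m _ => ?_
    rw [gM_apply, FF_shift]
    unfold ph1
    ring
  have h3 := hQ k M C (fun j => FF (f j)) hC0.le hC (fun j m => u (finProdFinEquiv (j, m)))
  have h4 : sg (fun x => ∑ a, u a * gM f M a x) = 1 / (2 * Real.pi ^ 2) * ∫ ξ in Ioi (0 : ℝ),
      ξ * ‖∑ j, FF (f j) ξ * ∑ m : Fin M, ((u (finProdFinEquiv (j, m)) : ℝ) : ℂ) *
        cexp (-(((ξ * (m : ℕ) : ℝ) : ℂ) * I))‖ ^ 2 := by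
    unfold sg
    congr 2
    funext ξ
    rw [h2]
  have h5 : ∑ a, u a ^ 2 = ∑ j, ∑ m : Fin M, u (finProdFinEquiv (j, m)) ^ 2 := sum_ab fun a => u a ^ 2
  have h6 : 0 ≤ ∑ a, u a ^ 2 := Finset.sum_nonneg fun _ _ => sq_nonneg _
  rw [h1, h4]
  refine (mul_le_mul_of_nonneg_left h3 (by positivity)).trans ?_
  rw [← h5, add_mul, mul_assoc (1 / (2 * Real.pi ^ 2))]
  linarith

end Pool.Agent.H493.EN
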