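import Mathlib

set_option autoImplicit false

/-! Windows with sharp ends: statements of the analytic pieces (only Mathlib is needed). -/

open Complex Filter Topology Set MeasureTheory

namespace Pool.Agent.H493.EN

/-- the Fourier transform -/
noncomputable def ftw (F : ℝ → ℝ) (ξ : ℝ) : ℂ := ∫ x : ℝ, (F x : ℂ) * cexp (-(((ξ * x : ℝ) : ℂ) * I))

/-- combination of smoothed steps at the points `a i * s`, of width `w`, divided by `σ` -/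
noncomputable def Ft {ι : Type} [Fintype ι] (a c : ι → ℝ) (s w σ : ℝ) (x : ℝ) : ℝ :=
  (∑ i, c i * Real.smoothTransition ((x - a i * s) / w)) / σ

/-- (FTE) Fourier transform of the smoothed steps.
Proof.  `p = deriv Real.smoothTransition` is smooth, nonnegative, vanishes outside `[0,1]`, `∫ p = 1`
(`smoothTransition` is smooth, monotone, `0` for `x ≤ 0` and `1` for `x ≥ 1`; nonnegativity is only used for
`‖φ‖ ≤ 1` and can be replaced by `∫ |p| = 1`; a monotone differentiable function has derivative `≥ 0`).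
`φ u = ∫ p(x) e^{-iux} dx`: `‖φ‖ ≤ 1`, `‖φ u - 1‖ ≤ ∫ p |e^{-iux} - 1| ≤ |u|`; two integrations by parts give
`u² ‖φ u‖ ≤ ∫ |p''|`, and `φ' u = ∫ (-ix) p(x) e^{-iux} dx` is treated in the same way (it is continuous, and
`u² ‖φ' u‖ ≤ ∫ |(x p)''|`).  For the formula: `F = Ft a c s w σ` vanishes for `|x|` large (`∑ c_i = 0`), and integration
by parts gives `iξ ftw F ξ = ftw F' ξ`, `F'(x) = (1/σ) ∑ c_i p((x - a_i s)/w)/w`, whose transform is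
`(1/σ) ∑ c_i e^{-i ξ a_i s} φ(w ξ)` (substitution). -/
def S_FTE : Prop := ∃ (φ : ℝ → ℂ) (C : ℝ), 0 < C ∧ Differentiable ℝ φ ∧ Continuous (deriv φ) ∧ (∀ u, ‖φ u‖ ≤ 1) ∧
  (∀ u, ‖φ u - 1‖ ≤ |u|) ∧ (∀ u, ‖φ u‖ ≤ C / (1 + u ^ 2)) ∧ (∀ u, ‖deriv φ u‖ ≤ C / (1 + u ^ 2)) ∧
  ∀ (ι : Type) [Fintype ι] (a c : ι → ℝ) (s w σ : ℝ), ∑ i, c i = 0 → 0 < w → 0 < σ → ∀ ξ : ℝ, ξ ≠ 0 →
    ftw (Ft a c s w σ) ξ = (∑ i, (c i : ℂ) * cexp (-(((ξ * (a i * s) : ℝ) : ℂ) * I))) * φ (w * ξ) / ((σ * ξ : ℝ) * I)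

open Classical in
/-- (STV) the variance of the smoothed steps (it grows like the logarithm of the ratio of the length and the width).
Proof.  By (FTE) the integral is `σ⁻² ∫_0^∞ |A(sξ)|² |φ(wξ)|² dξ/ξ = σ⁻² ∫_0^∞ |A(u)|² |φ(ru)|² du/u`, `r = w/s ≤ 1`,
`A(u) = ∑ c_i e^{-i a_i u}`.  On `(0,1)`: `|A(u)| ≤ C u` (as `∑ c_i = 0`), so `O(1)`.  On `(1, 1/r)`:
`||φ(ru)|² - 1| ≤ 2 r u` contributes `O(1)`, and `|A(u)|² = ∑_{i,j} c_i c_j cos((a_i - a_j) u)`, with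
`|∫_1^X cos(bu) du/u| ≤ 3/|b|` for `b ≠ 0` (integration by parts), gives `Q log(1/r) + O(1)`.  On `(1/r, ∞)`:
`|φ(ru)| ≤ C/(1 + (ru)²) ≤ C/(ru)`, so `O(1)`.  (The constants depend on `a`, `c` only.) -/
def S_STV : Prop := ∀ (ι : Type) [Fintype ι] (a c : ι → ℝ), ∑ i, c i = 0 → ∃ C : ℝ, 0 < C ∧ ∀ s w σ : ℝ, 0 < w → w ≤ s →
  0 < σ → |(∫ ξ in Ioi (0 : ℝ), ξ * ‖ftw (Ft a c s w σ) ξ‖ ^ 2) -
    (∑ i, ∑ j, if a i = a j then c i * c j else 0) * Real.log (s / w) / σ ^ 2| ≤ C / σ ^ 2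

/-- (STA) support and `L¹` bounds.
Proof.  Let `A = ∑ |a_i| + 1` and choose `C ≥ A + 1` etc.  For `x ≥ 1` all steps are `1` (`x - a_i s ≥ w` because
`|a_i| s + w ≤ (A + 1) s ≤ 1`), so `F x = ∑ c_i/σ = 0`; for `x ≤ -1` all steps are `0`.  In the same way `F` vanishes for
`|x| ≥ (A + 1) s`, and `|F| ≤ ∑ |c_i|/σ`.  `F'' (x) = (1/σ) ∑ c_i w⁻² S''((x - a_i s)/w)`, `S = smoothTransition`, `S''` is continuous
with compact support, and `∫ |S''((x - b)/w)| dx = w ∫ |S''|`. -/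
def S_STA : Prop := ∀ (ι : Type) [Fintype ι] (a c : ι → ℝ), ∑ i, c i = 0 → ∃ C : ℝ, 1 ≤ C ∧ ∀ s w σ : ℝ, 0 < w → w ≤ s →
  s * C ≤ 1 → 0 < σ → ContDiff ℝ 2 (Ft a c s w σ) ∧ (∀ x, 1 / 2 ≤ |x| → Ft a c s w σ x = 0) ∧
    (∀ x, |Ft a c s w σ x| ≤ C / σ) ∧
    ∫ x : ℝ, |Ft a c s w σ x| ≤ C * s / σ ∧ ∫ x : ℝ, |deriv (deriv (Ft a c s w σ)) x| ≤ C / (w * σ)

/-- (STT) the total variation bound.
Proof.  For `ξ > 0` by (FTE) `ftw F ξ = A(sξ) φ(wξ)/(iσξ)`, `A(u) = ∑ c_i e^{-i a_i u}`, `|A(u)| ≤ C min(1, u)`, `|A'| ≤ C`.  So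
`‖ftw F‖² ≤ C σ⁻² min(1, sξ)²/ξ²`, with integral `≤ C s/σ²`.  The derivative is
`σ⁻¹ (s A'(sξ) φ(wξ)/ξ + w A(sξ) φ'(wξ)/ξ - A(sξ) φ(wξ)/ξ²)` up to a factor of modulus one, so
`ξ ‖ftw F‖ ‖(ftw F)'‖ ≤ C σ⁻² (s min(1,sξ) |φ(wξ)|²/ξ + w min(1,sξ) |φ φ'|(wξ)/ξ + min(1,sξ)²/ξ²)`; the integrals are
`≤ C s (1 + log(s/w))`, `≤ C w (1 + log(s/w))`, `≤ C s` (split at `1/s` and `1/w`; `|φ(wξ)| ≤ C/(1+(wξ)²)`).  If the left side is not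
integrable the integral is `0` and there is nothing to prove (use `integral_mono_of_nonneg` with an explicit integrable
majorant). -/
def S_STT : Prop := ∀ (ι : Type) [Fintype ι] (a c : ι → ℝ), ∑ i, c i = 0 → ∃ C : ℝ, 0 < C ∧ ∀ s w σ : ℝ, 0 < w → w ≤ s →
  0 < σ → ∫ ξ in Ioi (0 : ℝ), (‖ftw (Ft a c s w σ) ξ‖ ^ 2 +
      2 * ξ * ‖ftw (Ft a c s w σ) ξ‖ * ‖deriv (ftw (Ft a c s w σ)) ξ‖) ≤ C * s * (1 + Real.log (s / w)) / σ ^ 2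

open Classical in
/-- the covariances of the numbers of zeros in the windows `(a_i, b_i]` -/
noncomputable def cw2 {ι : Type} (a b : ι → ℝ) (i j : ι) : ℝ :=
  ((if a i = a j then 1 else 0) + (if b i = b j then 1 else 0) - (if a i = b j then 1 else 0) -
    (if b i = a j then 1 else 0)) / 2

/-- (CPS) the matrix is positive semidefinite.
Proof.  `∑ u_i u_j cw2 i j = (1/2) ∑_{p,q} c_p c_q [x_p = x_q] = (1/2) ∑_x (∑_{x_p = x} c_p)² ≥ 0` where `p, q` run over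
`ι ⊕ ι`, `x (inl i) = a i`, `c (inl i) = u i`, `x (inr i) = b i`, `c (inr i) = - u i`, and `x` over the image. -/
def S_CPS : Prop := ∀ (ι : Type) [Fintype ι] [DecidableEq ι] (a b : ι → ℝ), (Matrix.of (cw2 a b)).PosSemidef

/-- (CQF) a uniform bound for shifted windows.
Proof.  `u v ≤ (u² + v²)/2`, and `|cw2 (j,m) (j',m')| ≤ (1/2) ([..] + [..] + [..] + [..])`; for fixed `(j,m)` and `j'` each of
the four conditions (`a_j + m = a_{j'} + m'`, ...) holds for at most one `m'`.  So the sum is at most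
`∑_{(j,m)} u² · (1/2) · 4 k = 2 k ∑ u²`. -/
def S_CQF : Prop := ∀ (k M : ℕ) (a b : Fin k → ℝ) (u : Fin k × Fin M → ℝ),
  ∑ p, ∑ q, u p * u q * cw2 (fun r : Fin k × Fin M => a r.1 + (r.2 : ℕ)) (fun r => b r.1 + (r.2 : ℕ)) p q ≤
    2 * k * ∑ p, u p ^ 2

end Pool.Agent.H493.EN
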