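import Pool.Agent.H203.ME.ALL3
import Pool.Agent.H493.EN.Stw

set_option autoImplicit false

/-! Windows with sharp ends: statements of the number theoretic pieces. -/

open Complex Filter Topology Set MeasureTheory

namespace Pool.Agent.H493.EN

open Pool.Agent.H203.ME

/-- combination of sharp steps at the points `a i * s`, divided by `σ` -/
noncomputable def F0 {ι : Type} [Fintype ι] (a c : ι → ℝ) (s σ : ℝ) (x : ℝ) : ℝ :=
  (∑ i, c i * (Ioi (a i * s)).indicator (fun _ => (1 : ℝ)) x) / σ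

/-- (BLI) the prime side is linear and covariant under shifts.
Proof.  `BB F R t = 2/√(2π) (∑' n, Λ(n) n^{-1/2} cR R (log n) FF F (log n) ee n t).re`.  `FF` is linear (the functions are
continuous with compact support; cf. `COVL.FF_sum` in COV.lean), the series converges absolutely (`‖FF F‖ ≤ ∫|F|` and
`Λ(n) n^{-1/2} cR R (log n)` is summable: see the proof of `t_BBC`/`t_BBI`, or PRM.lean), and
`FF (fun x => F (x - a)) ξ = e^{-iξa} FF F ξ` (cf. `Pool.Agent.H493.DC.FF_shift` in H493/DC/Shift.lean),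
`ee n (t + a) = ee n t * e^{-i a log n}`. -/
def S_BLI : Prop :=
  (∀ (ι : Type) [Fintype ι] (F : ι → ℝ → ℝ) (c : ι → ℝ), (∀ i, C2c (F i)) → ∀ R t : ℝ, 1 ≤ R →
    BB (fun x => ∑ i, c i * F i x) R t = ∑ i, c i * BB (F i) R t) ∧
  (∀ (F : ℝ → ℝ) (a R t : ℝ), BB (fun x => F (x - a)) R t = BB F R (t + a))

/-- (STL) the approximate formula in mean square for smoothed steps.
Proof (assume `S_BLI` and `S_L2`, i.e. `p_L2` in ALL3.lean).  `L = log T`, `w = s/2^N`, `S = Real.smoothTransition`,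
`D(y) = S(y) - S(y/2)` (of class `C^∞`, support in `[0,2]`).  Telescoping: `S(y/w) = ∑_{j<N} D(y/(2^j w)) + S(y/s)`.  So with
`F = Ft a c s w σ`, `σ F(x) = ∑_i c_i ∑_{j<N} D((x - a_i s)/(2^j w)) + E(x/s)`, `E(y) = ∑_i c_i S(y - a_i)`, which is `C²` with compact
support because `∑ c_i = 0`.  Put `G_F t = XF F T t + BB F (L/4) t`; it is linear in `F` (`S_BLI`; `FINL.XF_lin` in FIN.lean for
families indexed by `Fin k`, valid for `T ≤ t ≤ 2T`, `3 ≤ T`) and `G_{F(· - b)} t = G_F (t + b)` (`S_BLI`,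
`Pool.Agent.H493.DC.XF_shift`).  By `S_L2` for `D` (scales `2^j w`) and `E` (scale `s`):
`∫_{T+2L}^{2T-2L} G_{D(·/(2^j w))}² ≤ C T (1/(2^j w L)² + (2^j w)²)`, so the `L²` norm is at most
`√(C T) (1/(2^j w L) + 2^j w)`.  On `[T+2L+1, 2T-2L-1]` the shifts by `a_i s` (`|a_i s| ≤ 1`) stay in the range.  Minkowski
(or Cauchy-Schwarz with the weights `2^{-j}` and `2^{j-N}`) gives the `L²` norm of `σ G_F` at most
`√(C T) (∑_i |c_i| ∑_{j<N} (2^{-j}/(wL) + 2^j w) + 1/(sL) + s) ≤ C' √T (1/(wL) + s)`. -/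
def S_STL : Prop := ∀ (ι : Type) [Fintype ι] (a c : ι → ℝ), ∑ i, c i = 0 → ∃ C K T0 : ℝ, 0 < C ∧ 1 ≤ K ∧ 10 ≤ T0 ∧
  ∀ T : ℝ, T0 ≤ T → ∀ (s σ : ℝ) (N : ℕ), K ≤ s / 2 ^ N * Real.log T → s ≤ 1 / K → 0 < σ →
    ∫ t in (T + 2 * Real.log T + 1)..(2 * T - 2 * Real.log T - 1),
      (XF (Ft a c s (s / 2 ^ N) σ) T t + BB (Ft a c s (s / 2 ^ N) σ) (Real.log T / 4) t) ^ 2 ≤
        C * T * (1 / (s / 2 ^ N * Real.log T) ^ 2 + s ^ 2) / σ ^ 2

/-- (STC) sharp and smoothed steps are close in mean square.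
Proof.  Fix `β` of class `C²` with compact support, `β ≥ 0` and `β ≥ 1` on `[0,1]` (`LLNL.bu` in LLN.lean, or a bump function).
For `S = Real.smoothTransition`, `|S(y/w) - 1_{y > 0}| ≤ 1_{[0,w]}(y) ≤ β(y/w)`.  Hence for `t ∈ [T, 2T]`
(finite sums over zeros as in `XF_eq` in APX.lean, whose proof only uses that the function vanishes for `|x| ≥ 1`)
`|XF F0 T t - XF F T t| ≤ σ⁻¹ ∑ |c_i| (XF (fun x => β (x/w)) T (t + a_i s) + C w log T)`.
The mean square of `XF (β(·/w)) T (t + a_i s)` over `[T + 1, 2T - 1]` is at most that of `XF (β(·/w)) T` over `[T, 2T]`, which is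
`≤ (cv β β + 1) T` for large `T` by `p_SEC` (scale `w(T) → 0`, `w(T) log T → ∞`); on the rest (length `2`) use
`|XF (β(·/w)) T (t')| ≤ C log T` for `T - 1 ≤ t' ≤ 2T + 1` (as in `XF_bd` in SEC.lean, from `H370.zcount`), and
`log² T ≤ T`.  Finally `w log T ≥ 1` for large `T`. -/
def S_STC : Prop := ∀ (ι : Type) [Fintype ι] (a c : ι → ℝ), ∑ i, c i = 0 → ∃ C : ℝ, 0 < C ∧ ∀ s w σ : ℝ → ℝ,
  Tendsto s atTop (𝓝 0) → Tendsto (fun T => w T * Real.log T) atTop atTop → (∀ᶠ T in atTop, w T ≤ s T) →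
  (∀ᶠ T in atTop, 0 < σ T) → ∀ᶠ T : ℝ in atTop,
    ∫ t in T..(2 * T), (XF (F0 a c (s T) (σ T)) T t - XF (Ft a c (s T) (w T) (σ T)) T t) ^ 2 ≤
      C * T * (w T * Real.log T) ^ 2 / σ T ^ 2

end Pool.Agent.H493.EN
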