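import Pool.Agent.H203.ME.ALL3
import Pool.Agent.H493.EN.Stz

set_option autoImplicit false

/-! Numbers of zeros in windows: the last statements. -/

open Complex Filter Topology Set MeasureTheory

namespace Pool.Agent.H493.EN

open Pool.Agent.H203.ME

/-- the normalisation `√(log (s log T)) / π` -/
noncomputable def sgm (s T : ℝ) : ℝ := Real.sqrt (Real.log (s * Real.log T)) / Real.pi

/-- the smoothing width `h / 2^N` is compatible with the scale `h` -/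
structure Smo (h : ℝ → ℝ) (N : ℝ → ℕ) : Prop where
  inf : Tendsto (fun T => h T / 2 ^ N T * Real.log T) atTop atTop
  sm : Tendsto (fun T => (h T / 2 ^ N T * Real.log T) ^ 2 / sgm (h T) T ^ 2) atTop (𝓝 0)
  lg : Tendsto (fun T => Real.log (h T / (h T / 2 ^ N T)) / sgm (h T) T ^ 2) atTop (𝓝 (Real.pi ^ 2))
  s0 : Tendsto (fun T => sgm (h T) T) atTop atTop

/-- (SCL) choice of the smoothing width.
Proof.  `H = h log T → ∞`, `τ = log H → ∞`, `sgm² = τ/π²` (as soon as `τ ≥ 0`), `r = √√τ → ∞`,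
`N = ⌊Real.logb 2 (H / r)⌋₊`, so that `2^N ≤ H/r < 2^(N+1)` as soon as `H ≥ r` (`log x ≤ x`: `r ≤ τ ≤ H` if `τ ≥ 1`), that is
`r ≤ H/2^N < 2 r`.  Hence `inf`; `sm`: the ratio is at most `4 r² π²/τ = 4 π²/√τ`; `lg`:
`log (h/(h/2^N)) = log (2^N) = log H - log (H/2^N) = τ - log (H/2^N)` and `0 ≤ log (H/2^N) ≤ log (2r) ≤ 2 r = o(τ)`. -/
def S_SCL : Prop := ∀ h : ℝ → ℝ, Tendsto h atTop (𝓝 0) → Tendsto (fun T => h T * Real.log T) atTop atTop →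
  ∃ N : ℝ → ℕ, Smo h N

open Classical in
/-- the quadratic form of the jumps -/
noncomputable def QQ {ι : Type} [Fintype ι] (a c : ι → ℝ) : ℝ := ∑ i, ∑ j, if a i = a j then c i * c j else 0

/-- (ADF) the smoothed steps are admissible, and their variance converges.
Proof (assume `S_STV`, `S_STA`, `S_STT`).  `s = h T > 0` for large `T`, `w = s/2^N ≤ s`, `w > 0`, `σ = sgm s T → ∞`, `L = log T`.
`FF` and `ftw` are the same by definition.  From (STA): `c2`; `∫|F| ≤ C s/σ → 0`; `∫|F''| ≤ C/(w σ) = (C/(w L σ)) L` and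
`w L → ∞`, `σ → ∞`.  From (STV): `∫ ξ ‖FF F ξ‖² = QQ log(s/w)/σ² + O(1/σ²) → QQ π²`, so it is eventually `≤ |QQ| π² + 1 =: V`, and
`sg F = (1/2π²) ∫ → QQ/2`.  From (STT): `tv ≤ C s (1 + log(s/w))/σ² = C s (1/σ² + log(s/w)/σ²) → 0`. -/
def S_ADF : Prop := ∀ (ι : Type) [Fintype ι] (a c : ι → ℝ), ∑ i, c i = 0 → ∀ (h : ℝ → ℝ) (N : ℝ → ℕ),
  Tendsto h atTop (𝓝 0) → Tendsto (fun T => h T * Real.log T) atTop atTop → Smo h N →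
  (∃ V : ℝ, 0 < V ∧ ∀ η : ℝ, 0 < η → ∀ᶠ T : ℝ in atTop,
    Adm η V (Real.log T) (Ft a c (h T) (h T / 2 ^ N T) (sgm (h T) T))) ∧
  Tendsto (fun T => sg (Ft a c (h T) (h T / 2 ^ N T) (sgm (h T) T))) atTop (𝓝 (QQ a c / 2))

/-- (MEF) measurability and a crude bound.
Proof.  `STCL.XF_eq'` and `STCL.F0_v` (STC.lean) write `XF (F0 ..) T t`, for `A < t ≤ B`, as a finite sum over the zeros in
`Zf (A-1) (B+1)` of `mz z * F0 (z.im - t)` minus a constant; `F0` is measurable (see the proof of `STCL.F0_i`).  The bound: as in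
`STCL.XF_bd'`, with `|F0| ≤ (∑ |c i|)/σ` and `|∫ F0| ≤ 2 (∑ |c i|)/σ`. -/
def S_MEF : Prop := ∀ (ι : Type) [Fintype ι] (a c : ι → ℝ), ∑ i, c i = 0 → ∃ C : ℝ, 0 < C ∧ ∀ s σ T : ℝ, 100 ≤ T →
  0 < s → (∀ i, |a i * s| ≤ 1 / 2) → 0 < σ →
  AEStronglyMeasurable (fun t => XF (F0 a c s σ) T t) (volume.restrict (Ioc T (2 * T))) ∧
  ∀ t : ℝ, T ≤ t → t ≤ 2 * T → |XF (F0 a c s σ) T t| ≤ C * Real.log T / σ

/-- (CHF) characteristic functions.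
Proof (assume `S_SCL`, `S_ADF`, `S_STC`, `S_MEF`).  Take `N` from (SCL) and `V` from (ADF), `F = Ft a c (h T) (h T/2^N) σ`,
`G = XF (F0 ..)`, `A = XF F`.  By `p_MAIN` (ALL.lean) `(1/T) ∫ e^{iA} - e^{-sg F/2} → 0`, and `e^{-sg F/2} → e^{-QQ/4}`.
`|e^{iG} - e^{iA}| ≤ |G - A| ≤ δ/2 + (G - A)²/(2δ)`, and by (STC) `(1/T) ∫_T^{2T} (G - A)² ≤ C (w L)²/σ² → 0`
(`s = h`, `w = h/2^N`, `σ = sgm (h T) T`).  (`A` is continuous on `[T,2T]`: `XF_contOn`; `G` is measurable and bounded: (MEF).) -/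
def S_CHF : Prop := ∀ (ι : Type) [Fintype ι] (a c : ι → ℝ), ∑ i, c i = 0 → ∀ h : ℝ → ℝ, Tendsto h atTop (𝓝 0) →
  Tendsto (fun T => h T * Real.log T) atTop atTop →
  Tendsto (fun T : ℝ => (1 / T : ℂ) * ∫ t in T..(2 * T), cexp (I * (XF (F0 a c (h T) (sgm (h T) T)) T t : ℂ))) atTop
    (𝓝 (cexp (-((QQ a c / 2 : ℝ) : ℂ) / 2)))

/-- (EDG) short pieces of the mean square of the prime side.
Proof.  `t_PRM t_VAR` (ALL.lean) : `S_PRM`: `∫_T^{2T} (BB - Y1)² ≤ C T (η²/ε₁² + ε₁⁴ (V+1))`, `Y1 = Y1 F ⌊T^ε₁⌋₊`, and `|Y1| ≤ T^ε₁`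
(`BBVL.Y1_le`, or the lemma `Y1_le` in BBV.lean).  `BB² ≤ 2 (BB - Y1)² + 2 Y1²`, so
`∫_p^{p+1} BB² ≤ 2 C T (η²/ε₁² + ε₁⁴ (V+1)) + 2 T^{2ε₁}`.  Choose `ε₁ ≤ 1/4` with `2 C ε₁⁴ (V+1) ≤ ε/4`, then `η`, then `T0`.
(`BB F (L/4)` is continuous by `t_BBC`, `Y1` also; see the proof of `t_BBV` in BBV.lean.) -/
def S_EDG : Prop := ∀ V ε : ℝ, 0 < V → 0 < ε → ∃ η T0 : ℝ, 0 < η ∧ η ≤ 1 ∧ 10 ≤ T0 ∧ ∀ T : ℝ, T0 ≤ T →
  ∀ F : ℝ → ℝ, Adm η V (Real.log T) F → ∀ p : ℝ, T ≤ p → p + 1 ≤ 2 * T →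
    ∫ t in p..(p + 1), (BB F (Real.log T / 4) t) ^ 2 ≤ ε * T

/-- (SCF) second moments.
Proof (assume `S_SCL`, `S_ADF`, `S_STC`, `S_STL`, `S_EDG`, `S_MEF`).  Notation as in (CHF), `B = BB F (L/4)`,
`p = T + 2L + 1`, `q = 2T - 2L - 1`.  By `t_BBV` and (ADF) `(1/T) ∫_{T+2L}^{2T-2L} B² → QQ/2`, by (EDG) the same for `∫_p^q`.
By (STL) `(1/T) ∫_p^q (A + B)² ≤ C (1/(wL)² + h²)/σ² → 0`, by (STC) `(1/T) ∫_T^{2T} (G - A)² → 0`.  So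
`(1/T) ∫_p^q (G + B)² → 0` and, as `|G² - B²| ≤ (1 + 1/δ) (G + B)² + δ B²`, `(1/T) ∫_p^q G² → QQ/2`.  On `[T, p]` and `[q, 2T]`
`G² ≤ (C L/σ)²` by (MEF), and `(2L + 1) L²/T → 0`. -/
def S_SCF : Prop := ∀ (ι : Type) [Fintype ι] (a c : ι → ℝ), ∑ i, c i = 0 → ∀ h : ℝ → ℝ, Tendsto h atTop (𝓝 0) →
  Tendsto (fun T => h T * Real.log T) atTop atTop →
  Tendsto (fun T : ℝ => 1 / T * ∫ t in T..(2 * T), (XF (F0 a c (h T) (sgm (h T) T)) T t) ^ 2) atTop (𝓝 (QQ a c / 2))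

end Pool.Agent.H493.EN
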