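import Mathlib

set_option autoImplicit false

/-! Statements of the pieces of the entropy principle (only Mathlib is needed). -/

open Complex Filter Topology Set MeasureTheory ProbabilityTheory
open scoped BoundedContinuousFunction RealInnerProductSpace NNReal

namespace Pool.Agent.H493.EN

/-- (GAU1) Maurey-Pisier: `C¹` functions of a centred Gaussian vector are sub-Gaussian.
Proof.  The case `n` arbitrary.  `μ` is Gaussian, so all the integrals converge (`|F x| ≤ |F 0| + L ‖x‖` and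
`exp (c ‖x‖)` is integrable: `IsGaussian.exists_integrable_exp_sq`, Fernique, `c ‖x‖ ≤ c²/(4C) + C‖x‖²`).
`ContinuousLinearMap.rotation θ` on `E × E` preserves `μ.prod μ` (`IsGaussian.map_rotation_eq_self`).  Fix `l : ℝ`.
For `(x, y)` put `g θ = cos θ • x + sin θ • y`, `g' θ = -sin θ • x + cos θ • y`;
`F y - F x = ∫ θ in 0..π/2, fderiv ℝ F (g θ) (g' θ)` (fundamental theorem).  Jensen for the probability measure
`(2/π) dθ` on `[0, π/2]` and the convex function `exp` (`ConvexOn.map_average_le` or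
`convexOn_exp.map_set_average_le`):
`exp (l (F y - F x)) ≤ (2/π) ∫ θ in 0..π/2, exp (l (π/2) fderiv ℝ F (g θ) (g' θ))`.
Integrate over `μ.prod μ`, exchange (Tonelli, everything is nonnegative; use `lintegral` if convenient), use the
rotation invariance for each `θ`: the inner double integral is `∫∫ exp (l (π/2) fderiv ℝ F x y) dμ dμ`.  For
fixed `x` the continuous linear form `fderiv ℝ F x = ⟪v, ·⟫`, `‖v‖ ≤ L`, has under `μ` the law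
`gaussianReal 0 (Var)`, `Var ≤ Λ L²`, so the `y`-integral is `exp ((l π/2)² Var / 2) ≤ exp (l² (π² L² Λ/4) / 2)`
(`IsGaussian.map_eq_gaussianReal`, `mgf_gaussianReal`).  Finally, by Jensen in `x`
(`∫ F x dμ` inside), `∫ exp (l (F y - ∫ F)) dμ(y) ≤ ∫∫ exp (l (F y - F x)) dμ dμ`. -/
def S_GAU1 : Prop := ∀ (n : ℕ) (μ : Measure (EuclideanSpace ℝ (Fin n))) [IsGaussian μ], ∫ x, x ∂μ = 0 →
  ∀ Λ : ℝ, 0 ≤ Λ → (∀ u : EuclideanSpace ℝ (Fin n), Var[fun x => ⟪u, x⟫; μ] ≤ Λ * ‖u‖ ^ 2) →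
  ∀ (F : EuclideanSpace ℝ (Fin n) → ℝ) (L : ℝ), 0 ≤ L → ContDiff ℝ 1 F → (∀ x, ‖fderiv ℝ F x‖ ≤ L) →
    HasSubgaussianMGF (fun x => F x - ∫ y, F y ∂μ) (Real.toNNReal (Real.pi ^ 2 * L ^ 2 * Λ / 4)) μ

/-- (MOL) Lipschitz functions are uniform limits of `C¹` functions with the same Lipschitz constant.
Proof.  Convolution `F' x = ∫ φ(y) F (x - y) dy` with a normed bump function (`ContDiffBump.normed`) of support radius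
`r` with `L r ≤ ε`: smooth (`HasCompactSupport.contDiff_convolution_left`, `F` is continuous hence locally
integrable), `dist_normed_convolution_le` gives the distance, and
`|F' x - F' x'| ≤ ∫ φ(y) |F (x - y) - F (x' - y)| dy ≤ L ‖x - x'‖`. -/
def S_MOL : Prop := ∀ (n : ℕ) (F : EuclideanSpace ℝ (Fin n) → ℝ) (L : ℝ≥0), LipschitzWith L F →
  ∀ ε : ℝ, 0 < ε → ∃ F' : EuclideanSpace ℝ (Fin n) → ℝ, ContDiff ℝ 1 F' ∧ LipschitzWith L F' ∧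
    ∀ x, |F' x - F x| ≤ ε

/-- (GAU) Gaussian concentration for Lipschitz functions.
Proof (from `S_GAU1`, `S_MOL`).  `μ = multivariateGaussian 0 S` is Gaussian with mean `0`
(`integral_id_multivariateGaussian`) and `Var[⟪u, ·⟫; μ] = covarianceBilin μ u u = u ⬝ᵥ S *ᵥ u ≤ Λ ‖u‖²`
(`covarianceBilin_multivariateGaussian`, `IsGaussian.memLp_two_id`).  For `η > 0` take `F'` from `S_MOL` with `η`:
`‖fderiv ℝ F' x‖ ≤ L` (`norm_fderiv_le_of_lipschitz`), `|∫ F'| ≤ η`, so `δ ≤ F x` implies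
`δ - 2η ≤ F' x - ∫ F'`, and `HasSubgaussianMGF.measure_ge_le` gives
`μ {δ ≤ F} ≤ exp (-(δ - 2η)² / (2 π² L² Λ/4))` for `2η ≤ δ`.  Let `η → 0` (`le_of_tendsto`).  The case `δ = 0` is
trivial (the right side is `1`). -/
def S_GAU : Prop := ∀ (n : ℕ) (S : Matrix (Fin n) (Fin n) ℝ), S.PosSemidef → ∀ Λ : ℝ, 0 < Λ →
  (∀ a : Fin n → ℝ, ∑ i, ∑ j, a i * a j * S i j ≤ Λ * ∑ i, a i ^ 2) →
  ∀ (F : EuclideanSpace ℝ (Fin n) → ℝ) (L : ℝ≥0), 0 < L → LipschitzWith L F →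
  ∫ y, F y ∂(multivariateGaussian 0 S) = 0 → ∀ δ : ℝ, 0 ≤ δ →
    (multivariateGaussian 0 S).real {x | δ ≤ F x} ≤
      Real.exp (-(2 * δ ^ 2 / (Real.pi ^ 2 * (L : ℝ) ^ 2 * Λ)))

/-- (QFA) a weighted large sieve inequality (periodisation).
Proof.  `A_j(ξ) = ∑_m a_{jm} e^{-imξ}`.  Cauchy-Schwarz: `‖∑_j φ_j A_j‖² ≤ k ∑_j ‖φ_j‖² ‖A_j‖²`, and
`ξ ‖φ_j ξ‖² ≤ ξ C²/(1+ξ²)² ≤ C²/(2 (1+ξ²))` for `ξ > 0`.  So it is enough that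
`∫ ξ in Ioi 0, ‖A ξ‖²/(1+ξ²) ≤ 4π ∑_m a_m²`: split `(0, ∞)` into `(2πl, 2π(l+1)]`, `l = 0, 1, ...`; on the `l`-th
interval `1/(1+ξ²) ≤ 1/(1+(2πl)²)`, and `∫_{2πl}^{2π(l+1)} ‖A‖² = 2π ∑ a_m²` (expand the square; orthogonality);
`∑_l 1/(1+4π²l²) ≤ 2`.  (The Bochner integral is `0` if the function on the left is not integrable; but then the
inequality is trivial.  Use `setIntegral_mono_on` / `integral_mono_of_nonneg` with the integrable majorant.) -/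
def S_QFA : Prop := ∀ (k M : ℕ) (C : ℝ) (φ : Fin k → ℝ → ℂ), 0 ≤ C → (∀ j ξ, ‖φ j ξ‖ ≤ C / (1 + ξ ^ 2)) →
  ∀ a : Fin k → Fin M → ℝ,
    ∫ ξ in Ioi (0 : ℝ), ξ * ‖∑ j, φ j ξ * ∑ m : Fin M, (a j m : ℂ) * cexp (-(((ξ * (m : ℕ) : ℝ) : ℂ) * I))‖ ^ 2 ≤
      2 * Real.pi * k * C ^ 2 * ∑ j, ∑ m, a j m ^ 2

/-- (GLO) the pattern inequality at a fixed height.
Proof.  Put `Y_m t = Y (t + m h)`, `θ_m t = θ (t + m h)`.  Always `|x| ≤ τ x²/2 + 1/(2τ)`.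
(i) For `m < M` (`mh ≤ T`): `∫_T^{2T} θ Y - ∫_T^{2T} θ_m Y_m = ∫_T^{T+mh} θ Y - ∫_{2T}^{2T+mh} θ Y`, and the second
integral is `∫_{2T-mh}^{2T} θ_m Y_m`; both are at most `τ B T / 2 + m h/(2τ)` in absolute value; so
`‖∫ θ Y - (1/M) ∑_{m<M} ∫ θ_m Y_m‖ ≤ τ B T + M h/τ`.
(ii) Pointwise, for `t ∈ [T, 2T]`: if `t ∉ E`, take `p ∈ P` with `∑ ‖θ_m t - p_m‖ ≤ δ M`;
`‖θ_m - p_m‖ |Y_m| ≤ ‖θ_m - p_m‖²/(2τ) + τ Y_m²/2 ≤ ‖θ_m - p_m‖/τ + τ Y_m²/2` (as `‖θ_m - p_m‖ ≤ 2`), so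
`‖∑ θ_m Y_m‖ ≤ ‖∑ p_m Y_m‖ + δ M/τ + (τ/2) ∑ Y_m²`, and if `t` is not in the exceptional set of `p` then
`‖∑ p_m Y_m‖ ≤ η M`.  In the other cases (`t ∈ E` or `t` in the exceptional set of some `p ∈ P`, a set of measure at
most `(δ + K ρ) T`; replace it by a measurable superset `toMeasurable`) use
`‖∑ θ_m Y_m‖ ≤ ∑ |Y_m| ≤ (τ/2) ∑ Y_m² + M/(2τ)`.  Integrate over `[T, 2T]` and divide by `M`. -/
def S_GLO : Prop := ∀ (T h : ℝ) (M : ℕ) (Y : ℝ → ℝ) (B τ η ρ δ K : ℝ), 0 < T → 0 ≤ h → 1 ≤ M → M * h ≤ T →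
  0 ≤ B → 0 < τ → 0 ≤ η → 0 ≤ ρ → 0 ≤ δ →
  (∀ m ≤ M, ContinuousOn (fun t => Y (t + m * h)) (Icc T (2 * T))) →
  (∀ m ≤ M, ∫ t in T..(2 * T), Y (t + m * h) ^ 2 ≤ B * T) →
  (∀ p : ℕ → ℂ, (∀ m, ‖p m‖ ≤ 1) →
    volume {t | t ∈ Icc T (2 * T) ∧ η * M ≤ ‖∑ m ∈ Finset.range M, p m * (Y (t + m * h) : ℂ)‖} ≤
      ENNReal.ofReal (ρ * T)) →
  ∀ θ : ℝ → ℂ, Measurable θ → (∀ t, ‖θ t‖ ≤ 1) →
  (∃ (P : Finset (ℕ → ℂ)) (E : Set ℝ), (P.card : ℝ) ≤ K ∧ (∀ p ∈ P, ∀ m, ‖p m‖ ≤ 1) ∧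
    volume E ≤ ENNReal.ofReal (δ * T) ∧ ∀ t ∈ Icc T (2 * T), t ∉ E →
      ∃ p ∈ P, ∑ m ∈ Finset.range M, ‖θ (t + m * h) - p m‖ ≤ δ * M) →
  ‖∫ t in T..(2 * T), θ t * (Y t : ℂ)‖ ≤
    (η + δ / τ + 3 / 2 * τ * B + (δ + K * ρ) / (2 * τ)) * T + M * h / τ

/-- `P` describes `θ` on `[T, 2T]`: outside a set of measure `δ T` the values `θ(t + mh)`, `m < M`, follow one of at
most `exp (κ M)` patterns, up to `δ` in mean -/
def Follows (T h : ℝ) (M : ℕ) (κ δ : ℝ) (θ : ℝ → ℂ) : Prop :=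
  ∃ (P : Finset (ℕ → ℂ)) (E : Set ℝ), (P.card : ℝ) ≤ Real.exp (κ * M) ∧ (∀ p ∈ P, ∀ m, ‖p m‖ ≤ 1) ∧
    volume E ≤ ENNReal.ofReal (δ * T) ∧ ∀ t ∈ Icc T (2 * T), t ∉ E →
      ∃ p ∈ P, ∑ m ∈ Finset.range M, ‖θ (t + m * h) - p m‖ ≤ δ * M

/-- zero topological entropy (Bowen): for all `ε, κ > 0` and all large `M` the orbits of length `M` are covered, up to
`ε`, by at most `exp (κ M)` of them -/
def ZeroEntropy {Y : Type} [MetricSpace Y] (S : Y → Y) : Prop :=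
  ∀ ε κ : ℝ, 0 < ε → 0 < κ → ∃ M₀ : ℕ, ∀ M : ℕ, M₀ ≤ M → ∃ A : Finset Y, (A.card : ℝ) ≤ Real.exp (κ * M) ∧
    ∀ y : Y, ∃ a ∈ A, ∀ m < M, dist (S^[m] y) (S^[m] a) ≤ ε

/-- (CORD) the orbits of a system of zero entropy, with free starting points on windows and free unimodular
constants, follow few patterns.
Proof.  `F` is uniformly continuous: `ε₁` with `dist x y ≤ ε₁ → ‖F x - F y‖ ≤ δ/2`.  Take `M₀` from `ZeroEntropy`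
with `ε₁`, `κ/2`, and so large that `Q + 1 ≤ exp (κ M/2)`, where `Q` is the size of a finite `δ/2`-net `V` (of
unimodular numbers) of the unit circle.  Patterns: `p = 0` and `p m = v F (S^m a)`, `v ∈ V`, `a ∈ A`.
`E = [a_0 - M h, a_0] ∪ ⋃_{n<N} [a_{n+1} - M h, a_{n+1}]`, of measure at most `(N + 1) M h ≤ δ T`.
If `t ∈ [T, a_0 - Mh)` or `t ≥ a_N`, then `θ(t + mh) = 0` for `m < M` (pattern `0`).  If `t ∈ [a_n, a_{n+1} - Mh)` then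
`t + mh`, `m < M`, are in the same window, `⌊(t + mh)/h⌋ = ⌊t/h⌋ + m`, and `θ(t + mh) = u_n F(S^m z)` with
`z = S^{⌊t/h⌋} (y_n)` (`Function.iterate_add_apply`); every `t ∈ [a_0, a_N)` lies in a window (induction). -/
def S_CORD : Prop := ∀ (Y : Type) [MetricSpace Y] [CompactSpace Y] (S : Y → Y), ZeroEntropy S →
  ∀ F : Y → ℂ, Continuous F → (∀ y, ‖F y‖ ≤ 1) → ∀ κ δ : ℝ, 0 < κ → 0 < δ → ∃ M₀ : ℕ, ∀ M : ℕ, M₀ ≤ M →
  ∀ (T h : ℝ) (N : ℕ) (a : ℕ → ℝ) (y : ℕ → Y) (u : ℕ → ℂ) (θ : ℝ → ℂ), 0 < T → 0 < h →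
    (N + 1) * M * h ≤ δ * T → T ≤ a 0 → a N ≤ 2 * T → (∀ n < N, a n ≤ a (n + 1)) → (∀ n, ‖u n‖ = 1) →
    (∀ t ∈ Ico T (a 0), θ t = 0) → (∀ t, a N ≤ t → θ t = 0) →
    (∀ n < N, ∀ t ∈ Ico (a n) (a (n + 1)), θ t = u n * F (S^[⌊t / h⌋₊] (y n))) →
    Follows T h M κ δ θ

/-- (SLOW) functions which vary slowly at the scale `h` follow few patterns.
Proof.  Patterns: the constants `v`, `v ∈ V`, `V` a finite `δ/2`-net of the closed unit disc (size `Q(δ)`), and the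
condition on `M₀` is `Q ≤ exp (κ M₀)`.  `∑_{m<M} ‖θ(t+mh) - θ(t)‖ ≤ ∑_{m<M} ∑_{i<m} ‖θ(t+(i+1)h) - θ(t+ih)‖
≤ M ∑_{i<M} w(t + ih)`, `w(t) = ‖θ(t+h) - θ(t)‖`.  For `i < M`,
`∫_T^{2T - Mh} w(t + ih) dt ≤ ∫_T^{2T} w ≤ δ' T`, so by Markov's inequality
the set `E` of the `t ∈ [T, 2T - Mh]` with `∑_{i<M} w(t+ih) > δ/2` has measure at most `2 M δ' T/δ ≤ δ T/2` if
`δ' = δ²/(4M)`; add `[2T - Mh, 2T]`, of measure `M h ≤ δ T/2`.  -/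
def S_SLOW : Prop := ∀ κ δ : ℝ, 0 < κ → 0 < δ → ∃ M₀ : ℕ, ∀ M : ℕ, M₀ ≤ M → ∃ δ' : ℝ, 0 < δ' ∧
  ∀ (T h : ℝ) (θ : ℝ → ℂ), 0 < T → 0 ≤ h → M * h ≤ δ / 2 * T → Measurable θ → (∀ t, ‖θ t‖ ≤ 1) →
    ∫ t in T..(2 * T), ‖θ (t + h) - θ t‖ ≤ δ' * T → Follows T h M κ δ θ

/-- (QG) approximation of continuous functions of quadratic growth by bounded Lipschitz functions.
Proof.  `χ_R` continuous cut-off, `1` on the ball of radius `2R`, `0` outside the ball of radius `3R`, values in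
`[0,1]`.  `|ψ - ψ χ_R| ≤ C (1 + ‖x‖²) 1_{‖x‖ > 2R} ≤ 3 C (‖x‖² - min (‖x‖², R²))` for `R ≥ 1`.  The function
`min (‖x‖², R²)` is bounded and continuous, so by `hw` and `h2` the mean of `‖X‖² - min (‖X‖², R²)` tends to
`∫ (‖x‖² - min (‖x‖², R²)) dν`, which tends to `0` as `R → ∞` (dominated convergence).  The function `ψ χ_R` is
continuous with compact support, hence uniformly within `ε/4` of a `C^∞` function with compact support (convolution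
with a normed bump function, `ContDiffBump.dist_normed_convolution_le`), which is bounded and Lipschitz
(`ContDiff.lipschitzWith_of_hasCompactSupport`). -/
def S_QG : Prop := ∀ (k : ℕ) (X : ℝ → ℝ → EuclideanSpace ℝ (Fin k)) (ν : Measure (EuclideanSpace ℝ (Fin k)))
  [IsProbabilityMeasure ν], (∀ᶠ T : ℝ in atTop, ContinuousOn (X T) (Icc T (2 * T))) →
  (∀ φ : EuclideanSpace ℝ (Fin k) →ᵇ ℝ,
    Tendsto (fun T : ℝ => 1 / T * ∫ t in T..(2 * T), φ (X T t)) atTop (𝓝 (∫ x, φ x ∂ν))) →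
  Integrable (fun x => ‖x‖ ^ 2) ν →
  Tendsto (fun T : ℝ => 1 / T * ∫ t in T..(2 * T), ‖X T t‖ ^ 2) atTop (𝓝 (∫ x, ‖x‖ ^ 2 ∂ν)) →
  ∀ (ψ : EuclideanSpace ℝ (Fin k) → ℝ) (C : ℝ), Continuous ψ → (∀ x, |ψ x| ≤ C * (1 + ‖x‖ ^ 2)) →
  ∀ ε : ℝ, 0 < ε → ∃ (L : ℝ≥0) (g : EuclideanSpace ℝ (Fin k) → ℝ), 0 < L ∧ LipschitzWith L g ∧
    (∀ᶠ T : ℝ in atTop, ∫ t in T..(2 * T), |ψ (X T t) - g (X T t)| ≤ ε * T) ∧
    |∫ x, ψ x ∂ν - ∫ x, g x ∂ν| ≤ ε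

end Pool.Agent.H493.EN
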