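import Pool.Agent.H493.EN.Expo

set_option autoImplicit false

/-! Exponential inequalities for the field of the zeros at consecutive points. -/

open Complex Filter Topology Set MeasureTheory ProbabilityTheory
open scoped BoundedContinuousFunction RealInnerProductSpace NNReal

namespace Pool.Agent.H493.EN

open Pool.Agent.H203.ME Pool.Agent.H493.DC

/-- Markov's inequality on an interval -/
lemma markov {a b : ℝ} (hab : a ≤ b) {G : ℝ → ℝ} (hG : ContinuousOn G (Icc a b)) (h0 : ∀ t ∈ Icc a b, 0 ≤ G t)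
    {c : ℝ} (hc : 0 < c) :
    volume {t | t ∈ Icc a b ∧ c ≤ G t} ≤ ENNReal.ofReal ((∫ t in a..b, G t) / c) := by
  have hi : Integrable G (volume.restrict (Icc a b)) := hG.integrableOn_Icc
  have h1 : ∫ t in a..b, G t = ∫ t in Icc a b, G t := by
    rw [intervalIntegral.integral_of_le hab, integral_Icc_eq_integral_Ioc]
  have h2 : 0 ≤ᵐ[volume.restrict (Icc a b)] G := by
    filter_upwards [ae_restrict_mem measurableSet_Icc] with t ht
    exact h0 t ht
  rw [h1, ENNReal.ofReal_div_of_pos hc, ofReal_integral_eq_lintegral_ofReal hi h2]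
  have h3 : {t | t ∈ Icc a b ∧ c ≤ G t} ⊆ Icc a b := fun t ht => ht.1
  rw [← Measure.restrict_eq_self volume h3]
  refine (measure_mono ?_).trans (meas_ge_le_lintegral_div
    (hi.aestronglyMeasurable.aemeasurable.ennreal_ofReal) (by simpa using hc) ENNReal.ofReal_ne_top)
  intro t ht
  exact ENNReal.ofReal_le_ofReal ht.2

section

variable {k : ℕ} {f : Fin k → ℝ → ℝ} {h : ℝ → ℝ}

lemma cont_ev (hf : ∀ j, ContDiff ℝ 2 (f j)) (hs : ∀ j, HasCompactSupport (f j))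
    (h0 : Tendsto h atTop (𝓝 0)) (h1 : Tendsto (fun T => h T * Real.log T) atTop atTop) :
    ∀ᶠ T : ℝ in atTop, ∀ b : ℝ, ContinuousOn (fun t => Xv f (fun _ => h T) T t) (Icc 3 b) := by
  filter_upwards [FINL.c2c_ev hf hs (scales_const h0 h1 k)] with T h2 b
  unfold Xv
  refine (PiLp.continuous_toLp 2 _).comp_continuousOn ?_
  rw [continuousOn_pi]
  exact fun j => XF_contOn (h2 j) le_rfl

lemma pos_ev (h1 : Tendsto (fun T => h T * Real.log T) atTop atTop) : ∀ᶠ T : ℝ in atTop, 0 < h T := by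
  filter_upwards [h1.eventually (eventually_gt_atTop 0), eventually_gt_atTop (1 : ℝ)] with T h1 h2
  have h3 := Real.log_pos h2
  by_contra h4
  push Not at h4
  nlinarith

/-- second moments of the shifts -/
lemma sec_lim (hf : ∀ j, ContDiff ℝ 2 (f j)) (hs : ∀ j, HasCompactSupport (f j))
    (h0 : Tendsto h atTop (𝓝 0)) (h1 : Tendsto (fun T => h T * Real.log T) atTop atTop) (m : ℕ) :
    Tendsto (fun T : ℝ => 1 / T * ∫ t in T..(2 * T), ‖Xv f (fun _ => h T) T (t + m * h T)‖ ^ 2) atTop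
      (𝓝 (∑ j, cv (f j) (f j))) := by
  have h2 : Tendsto (fun T : ℝ => ∑ j, 1 / T * ∫ t in T..(2 * T), XF (fun x => sh (f j) m (x / h T)) T t *
      XF (fun x => sh (f j) m (x / h T)) T t) atTop (𝓝 (∑ j, cv (f j) (f j))) := by
    refine tendsto_finsetSum _ fun j _ => ?_
    have h3 := p_SEC (sh (f j) m) (sh (f j) m) ((hf j).comp (contDiff_id.sub contDiff_const))
      ((hs j).comp_homeomorph (Homeomorph.subRight _)) ((hf j).comp (contDiff_id.sub contDiff_const))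
      ((hs j).comp_homeomorph (Homeomorph.subRight _)) h h0 h1
    rwa [cv_sh] at h3
  refine h2.congr' ?_
  filter_upwards [pos_ev h1, FINL.c2c_ev hf hs (scales_const h0 h1 k), eventually_ge_atTop (3 : ℝ)] with T h3 h4 h5
  rw [← Finset.mul_sum, ← intervalIntegral.integral_finsetSum]
  · congr 1
    refine intervalIntegral.integral_congr fun t _ => ?_
    rw [EuclideanSpace.norm_sq_eq]
    refine Finset.sum_congr rfl fun j _ => ?_
    rw [sh_scale (f j) h3]
    unfold Xv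
    simp only [Real.norm_eq_abs, sq_abs]
    ring
  · intro j _
    have e : (fun t => XF (fun x => sh (f j) m (x / h T)) T t * XF (fun x => sh (f j) m (x / h T)) T t) =
        fun t => XF (fun x => f j (x / h T)) T (t + m * h T) * XF (fun x => f j (x / h T)) T (t + m * h T) := by
      funext t
      rw [sh_scale (f j) h3]
    rw [e]
    apply ContinuousOn.intervalIntegrable
    have h6 : ContinuousOn (fun t => XF (fun x => f j (x / h T)) T (t + m * h T)) (uIcc T (2 * T)) := by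
      have h7 := XF_contOn (h4 j) (T := T) (a := 3) (b := 2 * T + m * h T) le_rfl
      refine h7.comp (by fun_prop) ?_
      intro t ht
      rw [uIcc_of_le (by linarith)] at ht
      have h8 : 0 ≤ m * h T := by positivity
      exact ⟨by linarith [ht.1], by linarith [ht.2]⟩
    exact h6.mul h6

/-- second moments of the shifts, uniformly -/
lemma sec_ev (hf : ∀ j, ContDiff ℝ 2 (f j)) (hs : ∀ j, HasCompactSupport (f j))
    (h0 : Tendsto h atTop (𝓝 0)) (h1 : Tendsto (fun T => h T * Real.log T) atTop atTop) (M : ℕ) :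
    ∀ᶠ T : ℝ in atTop, ∀ m ≤ M, ∫ t in T..(2 * T), ‖Xv f (fun _ => h T) T (t + m * h T)‖ ^ 2 ≤
      (∑ j, cv (f j) (f j) + 1) * T := by
  have h2 : ∀ᶠ T : ℝ in atTop, ∀ m ∈ Finset.range (M + 1),
      1 / T * ∫ t in T..(2 * T), ‖Xv f (fun _ => h T) T (t + m * h T)‖ ^ 2 < ∑ j, cv (f j) (f j) + 1 := by
    rw [Finset.eventually_all]
    exact fun m _ => (sec_lim hf hs h0 h1 m).eventually (gt_mem_nhds (by linarith))
  filter_upwards [h2, eventually_gt_atTop (0 : ℝ)] with T h3 h4 m hm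
  have h5 := h3 m (Finset.mem_range.2 (by omega))
  rw [one_div, inv_mul_eq_div, div_lt_iff₀ h4] at h5
  exact h5.le

/-- the centred function along the field -/
noncomputable def Yf {k : ℕ} (f : Fin k → ℝ → ℝ) (h : ℝ → ℝ) (ψ : EuclideanSpace ℝ (Fin k) → ℝ) (T t : ℝ) : ℝ :=
  ψ (Xv f (fun _ => h T) T t) - ∫ y, ψ y ∂(multivariateGaussian 0 (cM f (fun _ => h)))

lemma Yf_cont (hf : ∀ j, ContDiff ℝ 2 (f j)) (hs : ∀ j, HasCompactSupport (f j))
    (h0 : Tendsto h atTop (𝓝 0)) (h1 : Tendsto (fun T => h T * Real.log T) atTop atTop)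
    {ψ : EuclideanSpace ℝ (Fin k) → ℝ} (hψ : Continuous ψ) :
    ∀ᶠ T : ℝ in atTop, ∀ m : ℕ, ContinuousOn (fun t => Yf f h ψ T (t + m * h T)) (Icc T (2 * T)) := by
  filter_upwards [cont_ev hf hs h0 h1, pos_ev h1, eventually_ge_atTop (3 : ℝ)] with T h2 h3 h4 m
  unfold Yf
  refine ContinuousOn.sub ?_ continuousOn_const
  refine hψ.comp_continuousOn ?_
  refine (h2 (2 * T + m * h T)).comp (f := fun t => t + m * h T) (by fun_prop) ?_
  intro t ht
  have h8 : 0 ≤ m * h T := by positivity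
  exact ⟨by linarith [ht.1], by linarith [ht.2]⟩

lemma lip_sq {ψ : EuclideanSpace ℝ (Fin k) → ℝ} {L : ℝ≥0} (hψ : LipschitzWith L ψ) (c : ℝ)
    (x : EuclideanSpace ℝ (Fin k)) : (ψ x - c) ^ 2 ≤ 2 * (L : ℝ) ^ 2 * ‖x‖ ^ 2 + 2 * (ψ 0 - c) ^ 2 := by
  have h2 := hψ.dist_le_mul x 0
  rw [Real.dist_eq, dist_zero_right] at h2
  have h3 : (ψ x - ψ 0) ^ 2 ≤ (L * ‖x‖) ^ 2 := by
    rw [← sq_abs (ψ x - ψ 0)]
    exact pow_le_pow_left₀ (abs_nonneg _) h2 2
  nlinarith [sq_nonneg ((ψ x - ψ 0) - (ψ 0 - c))]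

/-- the constant in the second moments -/
noncomputable def BY {k : ℕ} (f : Fin k → ℝ → ℝ) (h : ℝ → ℝ) (ψ : EuclideanSpace ℝ (Fin k) → ℝ) (L : ℝ) : ℝ :=
  2 * L ^ 2 * (∑ j, cv (f j) (f j) + 1) +
    2 * (ψ 0 - ∫ y, ψ y ∂(multivariateGaussian 0 (cM f (fun _ => h)))) ^ 2

lemma cv_nonneg (F : ℝ → ℝ) : 0 ≤ cv F F := by
  unfold cv
  refine mul_nonneg (by positivity) (setIntegral_nonneg measurableSet_Ioi fun ξ hξ => ?_)
  have h2 : (0 : ℝ) < ξ := hξ
  rw [Complex.mul_conj, Complex.ofReal_re]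
  exact mul_nonneg h2.le (Complex.normSq_nonneg _)

lemma BY_nonneg (f : Fin k → ℝ → ℝ) (h : ℝ → ℝ) (ψ : EuclideanSpace ℝ (Fin k) → ℝ) (L : ℝ) : 0 ≤ BY f h ψ L := by
  unfold BY
  have : 0 ≤ ∑ j, cv (f j) (f j) := Finset.sum_nonneg fun j _ => cv_nonneg _
  positivity

lemma Yf_sec (hf : ∀ j, ContDiff ℝ 2 (f j)) (hs : ∀ j, HasCompactSupport (f j))
    (h0 : Tendsto h atTop (𝓝 0)) (h1 : Tendsto (fun T => h T * Real.log T) atTop atTop)
    {ψ : EuclideanSpace ℝ (Fin k) → ℝ} {L : ℝ≥0} (hψ : LipschitzWith L ψ) (M : ℕ) :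
    ∀ᶠ T : ℝ in atTop, ∀ m ≤ M, ∫ t in T..(2 * T), Yf f h ψ T (t + m * h T) ^ 2 ≤ BY f h ψ L * T := by
  filter_upwards [sec_ev hf hs h0 h1 M, Yf_cont hf hs h0 h1 hψ.continuous, cont_ev hf hs h0 h1, pos_ev h1,
    eventually_ge_atTop (3 : ℝ)] with T h2 h3 h5 h6 h4 m hm
  have hT : T ≤ 2 * T := by linarith
  have hc : ContinuousOn (fun t => ‖Xv f (fun _ => h T) T (t + m * h T)‖ ^ 2) (Icc T (2 * T)) := by
    refine (ContinuousOn.norm ?_).pow 2
    refine (h5 (2 * T + m * h T)).comp (f := fun t => t + m * h T) (by fun_prop) ?_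
    intro t ht
    have h8 : 0 ≤ m * h T := by positivity
    exact ⟨by linarith [ht.1], by linarith [ht.2]⟩
  have i1 : IntervalIntegrable (fun t => Yf f h ψ T (t + m * h T) ^ 2) volume T (2 * T) := by
    apply ContinuousOn.intervalIntegrable
    rw [uIcc_of_le hT]
    exact (h3 m).pow 2
  have i2 : IntervalIntegrable (fun t => ‖Xv f (fun _ => h T) T (t + m * h T)‖ ^ 2) volume T (2 * T) := by
    apply ContinuousOn.intervalIntegrable
    rw [uIcc_of_le hT]
    exact hc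
  have h7 : ∫ t in T..(2 * T), Yf f h ψ T (t + m * h T) ^ 2 ≤ ∫ t in T..(2 * T), (2 * (L : ℝ) ^ 2 *
      ‖Xv f (fun _ => h T) T (t + m * h T)‖ ^ 2 +
      2 * (ψ 0 - ∫ y, ψ y ∂(multivariateGaussian 0 (cM f (fun _ => h)))) ^ 2) :=
    intervalIntegral.integral_mono_on hT i1 ((i2.const_mul _).add intervalIntegrable_const)
      fun t _ => lip_sq hψ _ _
  refine h7.trans ?_
  rw [intervalIntegral.integral_add (i2.const_mul _) intervalIntegrable_const, intervalIntegral.integral_const_mul,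
    intervalIntegral.integral_const, smul_eq_mul]
  unfold BY
  have h8 := h2 m hm
  have h9 : 2 * (L : ℝ) ^ 2 * ∫ t in T..(2 * T), ‖Xv f (fun _ => h T) T (t + m * h T)‖ ^ 2 ≤
      2 * (L : ℝ) ^ 2 * ((∑ j, cv (f j) (f j) + 1) * T) := by gcongr
  linarith

lemma Gp_field (f : Fin k → ℝ → ℝ) (ψ : EuclideanSpace ℝ (Fin k) → ℝ) {T : ℝ} (hT : 0 < h T) {M : ℕ}
    (p : Fin M → ℂ) (t : ℝ) :
    Gp ψ (∫ y, ψ y ∂(multivariateGaussian 0 (cM f (fun _ => h)))) p (Xv (gM f M) (fun _ => h T) T t) =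
      ∑ m : Fin M, p m * ((Yf f h ψ T (t + (m : ℕ) * h T) : ℝ) : ℂ) := by
  unfold Gp Yf
  exact Finset.sum_congr rfl fun m _ => by rw [blk_Xv f hT]

/-- the cut-off function of a pattern sum -/
noncomputable def PhiF {n : ℕ} (G : EuclideanSpace ℝ (Fin n) → ℂ) (δ : ℝ) (x : EuclideanSpace ℝ (Fin n)) : ℝ :=
  min 1 (max 0 (‖G x‖ / (δ / 2) - 1))

/-- one pattern -/
lemma one_pattern (hG : S_GAU) (hf : ∀ j, ContDiff ℝ 2 (f j)) (hs : ∀ j, HasCompactSupport (f j))
    (h0 : Tendsto h atTop (𝓝 0)) (h1 : Tendsto (fun T => h T * Real.log T) atTop atTop) {Λ : ℝ} (hΛ : 0 < Λ)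
    {M : ℕ} (hM : 1 ≤ M)
    (hq : ∀ u : Fin (k * M) → ℝ, ∑ i, ∑ j, u i * u j * cM (gM f M) (fun _ => h) i j ≤ Λ * ∑ i, u i ^ 2)
    {ψ : EuclideanSpace ℝ (Fin k) → ℝ} {L : ℝ≥0} (hL : 0 < L) (hψ : LipschitzWith L ψ) {p : Fin M → ℂ}
    (hp : ∀ m, ‖p m‖ ≤ 1) {δ η : ℝ} (hδ : 0 < δ) (hη : 0 < η) :
    ∀ᶠ T : ℝ in atTop, volume {t | t ∈ Icc T (2 * T) ∧
        δ ≤ ‖∑ m : Fin M, p m * ((Yf f h ψ T (t + (m : ℕ) * h T) : ℝ) : ℂ)‖} ≤
      ENNReal.ofReal ((4 * Real.exp (-((δ / 2) ^ 2 / (2 * Real.pi ^ 2 * L ^ 2 * M * Λ))) + η) * T) := by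
  set c := ∫ y, ψ y ∂(multivariateGaussian 0 (cM f (fun _ => h))) with hc
  set μ := multivariateGaussian 0 (cM (gM f M) (fun _ => h)) with hμ
  have hcont : Continuous (PhiF (Gp ψ c p) δ) := by
    unfold PhiF
    have := Gp_cont (M := M) hψ.continuous c p
    fun_prop
  have hb0 : ∀ x, 0 ≤ PhiF (Gp ψ c p) δ x := fun x => le_min zero_le_one (le_max_left _ _)
  have hb1 : ∀ x, PhiF (Gp ψ c p) δ x ≤ 1 := fun x => min_le_left _ _
  let Φ : EuclideanSpace ℝ (Fin (k * M)) →ᵇ ℝ := BoundedContinuousFunction.ofNormedAddCommGroup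
    (PhiF (Gp ψ c p) δ) hcont 1 (fun x => by rw [Real.norm_eq_abs, abs_of_nonneg (hb0 x)]; exact hb1 x)
  have hlim := finA p_MAIN t_ADM t_COV (gM_smooth hf M) (gM_supp hs M) (scales_const h0 h1 (k * M)) Φ
  have hΦ : ∫ x, Φ x ∂μ ≤ 4 * Real.exp (-((δ / 2) ^ 2 / (2 * Real.pi ^ 2 * L ^ 2 * M * Λ))) := by
    have h2 := Gp_conc hG hf hs h0 h1 hΛ hM hq hL hψ hp (δ := δ / 2) (by positivity)
    refine le_trans ?_ h2
    have hms : MeasurableSet {x | δ / 2 ≤ ‖Gp ψ c p x‖} :=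
      measurableSet_le measurable_const (Gp_cont hψ.continuous c p).norm.measurable
    rw [← integral_indicator_one hms]
    refine integral_mono (Φ.integrable _) ((integrable_const (1 : ℝ)).indicator hms) fun x => ?_
    by_cases hx : δ / 2 ≤ ‖Gp ψ c p x‖
    · rw [indicator_of_mem (show x ∈ {x | δ / 2 ≤ ‖Gp ψ c p x‖} from hx)]
      exact hb1 x
    · rw [indicator_of_notMem (show x ∉ {x | δ / 2 ≤ ‖Gp ψ c p x‖} from hx)]
      change PhiF (Gp ψ c p) δ x ≤ 0
      unfold PhiF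
      push Not at hx
      have h3 : ‖Gp ψ c p x‖ / (δ / 2) - 1 ≤ 0 := by
        rw [sub_nonpos, div_le_one (by positivity)]
        exact hx.le
      rw [max_eq_left h3]
      exact min_le_right _ _
  have hlt : ∫ x, Φ x ∂μ < 4 * Real.exp (-((δ / 2) ^ 2 / (2 * Real.pi ^ 2 * L ^ 2 * M * Λ))) + η := by linarith
  filter_upwards [hlim.eventually (gt_mem_nhds hlt), cont_ev (gM_smooth hf M) (gM_supp hs M) h0 h1, pos_ev h1,
    eventually_ge_atTop (3 : ℝ)] with T h2 h3 h4 h5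
  have hT : T ≤ 2 * T := by linarith
  have h6 := markov hT (G := fun t => Φ (Xv (gM f M) (fun _ => h T) T t))
    (Φ.continuous.comp_continuousOn ((h3 (2 * T)).mono (Icc_subset_Icc h5 le_rfl))) (fun t _ => hb0 _) one_pos
  rw [div_one] at h6
  refine (measure_mono ?_).trans (h6.trans (ENNReal.ofReal_le_ofReal ?_))
  · intro t ht
    refine ⟨ht.1, ?_⟩
    change 1 ≤ PhiF (Gp ψ c p) δ _
    unfold PhiF
    rw [Gp_field f ψ h4]
    have h7 := ht.2
    refine le_min le_rfl (le_max_of_le_right ?_)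
    rw [le_sub_iff_add_le, le_div_iff₀ (by positivity)]
    linarith
  · rw [one_div, inv_mul_eq_div, div_lt_iff₀ (by linarith)] at h2
    exact h2.le

/-- **all patterns** -/
theorem expo (hG : S_GAU) (hf : ∀ j, ContDiff ℝ 2 (f j)) (hs : ∀ j, HasCompactSupport (f j))
    (h0 : Tendsto h atTop (𝓝 0)) (h1 : Tendsto (fun T => h T * Real.log T) atTop atTop) {Λ : ℝ} (hΛ : 0 < Λ)
    {M : ℕ} (hM : 1 ≤ M)
    (hq : ∀ u : Fin (k * M) → ℝ, ∑ i, ∑ j, u i * u j * cM (gM f M) (fun _ => h) i j ≤ Λ * ∑ i, u i ^ 2)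
    {ψ : EuclideanSpace ℝ (Fin k) → ℝ} {L : ℝ≥0} (hL : 0 < L) (hψ : LipschitzWith L ψ) {ε : ℝ} (hε : 0 < ε) :
    ∀ᶠ T : ℝ in atTop, ∀ p : ℕ → ℂ, (∀ m, ‖p m‖ ≤ 1) → volume {t | t ∈ Icc T (2 * T) ∧
        ε * M ≤ ‖∑ m ∈ Finset.range M, p m * ((Yf f h ψ T (t + m * h T) : ℝ) : ℂ)‖} ≤
      ENNReal.ofReal (5 * Real.exp (-(ε ^ 2 * M / (32 * Real.pi ^ 2 * L ^ 2 * Λ))) * T) := by
  have hM0 : (0 : ℝ) < M := by exact_mod_cast hM
  have hL' : (0 : ℝ) < L := by exact_mod_cast hL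
  set δ : ℝ := ε * M / 2 with hδ
  have hδ0 : 0 < δ := by positivity
  set e := Real.exp (-(ε ^ 2 * M / (32 * Real.pi ^ 2 * L ^ 2 * Λ))) with he
  have he0 : 0 < e := Real.exp_pos _
  have hee : Real.exp (-((δ / 2) ^ 2 / (2 * Real.pi ^ 2 * L ^ 2 * M * Λ))) = e := by
    rw [he, hδ]
    congr 2
    have := Real.pi_pos
    field_simp
    ring
  have hB := BY_nonneg f h ψ L
  set ρ : ℝ := ε * e / (2 * (BY f h ψ L + 1)) with hρ
  have hρ0 : 0 < ρ := by positivity
  obtain ⟨N, hN1, hN2, hN3⟩ := (isCompact_closedBall (0 : Fin M → ℂ) 1).finite_cover_balls hρ0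
  have hev : ∀ᶠ T : ℝ in atTop, ∀ q ∈ N, volume {t | t ∈ Icc T (2 * T) ∧
        δ ≤ ‖∑ m : Fin M, q m * ((Yf f h ψ T (t + (m : ℕ) * h T) : ℝ) : ℂ)‖} ≤
      ENNReal.ofReal ((4 * e + e / 2) * T) := by
    rw [Filter.eventually_all_finite hN2]
    intro q hq'
    have hq1 : ∀ m, ‖q m‖ ≤ 1 := by
      have := hN1 hq'
      rw [mem_closedBall_zero_iff] at this
      exact fun m => (norm_le_pi_norm q m).trans this
    have := one_pattern hG hf hs h0 h1 hΛ hM hq hL hψ hq1 hδ0 (η := e / 2) (by positivity)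
    rwa [hee] at this
  filter_upwards [hev, Yf_cont hf hs h0 h1 hψ.continuous, Yf_sec hf hs h0 h1 hψ M, eventually_ge_atTop (3 : ℝ)]
    with T h2 h3 h4 h5 p hp
  have hT : T ≤ 2 * T := by linarith
  have hpc : (fun m : Fin M => p m) ∈ Metric.closedBall (0 : Fin M → ℂ) 1 := by
    rw [mem_closedBall_zero_iff, pi_norm_le_iff_of_nonneg zero_le_one]
    exact fun m => hp m
  obtain ⟨q, hqN, hqb⟩ := mem_iUnion₂.1 (hN3 hpc)
  have hqd : ∀ m : Fin M, ‖p m - q m‖ ≤ ρ := by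
    intro m
    rw [Metric.mem_ball, dist_eq_norm] at hqb
    exact (norm_le_pi_norm _ m).trans hqb.le
  set S : ℝ → ℝ := fun t => ρ * ∑ m : Fin M, |Yf f h ψ T (t + (m : ℕ) * h T)| with hS
  have hSc : ContinuousOn S (Icc T (2 * T)) :=
    continuousOn_const.mul (continuousOn_finsetSum _ fun m _ => (h3 m).abs)
  have hS0 : ∀ t ∈ Icc T (2 * T), 0 ≤ S t := fun t _ =>
    mul_nonneg hρ0.le (Finset.sum_nonneg fun m _ => abs_nonneg _)
  have h6 := markov hT hSc hS0 hδ0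
  have iY : ∀ m : Fin M, IntervalIntegrable (fun t => Yf f h ψ T (t + (m : ℕ) * h T) ^ 2) volume T (2 * T) := by
    intro m
    apply ContinuousOn.intervalIntegrable
    rw [uIcc_of_le hT]
    exact (h3 m).pow 2
  have h7 : ∫ t in T..(2 * T), S t ≤ ρ * (M * ((BY f h ψ L + 1) / 2 * T)) := by
    rw [hS]
    simp only
    rw [intervalIntegral.integral_const_mul, intervalIntegral.integral_finsetSum]
    · refine mul_le_mul_of_nonneg_left ?_ hρ0.le
      calc ∑ m : Fin M, ∫ t in T..(2 * T), |Yf f h ψ T (t + (m : ℕ) * h T)|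
          ≤ ∑ m : Fin M, (BY f h ψ L + 1) / 2 * T := by
            refine Finset.sum_le_sum fun m _ => ?_
            have h8 : ∫ t in T..(2 * T), |Yf f h ψ T (t + (m : ℕ) * h T)| ≤
                ∫ t in T..(2 * T), (1 / 2 * Yf f h ψ T (t + (m : ℕ) * h T) ^ 2 + 1 / 2) := by
              refine intervalIntegral.integral_mono_on hT ?_ (((iY m).const_mul _).add intervalIntegrable_const)
                fun t _ => ?_
              · apply ContinuousOn.intervalIntegrable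
                rw [uIcc_of_le hT]
                exact (h3 m).abs
              · nlinarith [sq_nonneg (|Yf f h ψ T (t + (m : ℕ) * h T)| - 1),
                  sq_abs (Yf f h ψ T (t + (m : ℕ) * h T))]
            rw [intervalIntegral.integral_add ((iY m).const_mul _) intervalIntegrable_const,
              intervalIntegral.integral_const_mul, intervalIntegral.integral_const, smul_eq_mul] at h8
            have h9 := h4 m m.2.le
            linarith
        _ = _ := by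
            rw [Finset.sum_const, Finset.card_univ, Fintype.card_fin, nsmul_eq_mul]
    · intro m _
      apply ContinuousOn.intervalIntegrable
      rw [uIcc_of_le hT]
      exact (h3 m).abs
  have h8 : (∫ t in T..(2 * T), S t) / δ ≤ e / 2 * T := by
    rw [div_le_iff₀ hδ0]
    refine h7.trans (le_of_eq ?_)
    rw [hρ, hδ]
    field_simp
  have hsub : {t | t ∈ Icc T (2 * T) ∧
      ε * M ≤ ‖∑ m ∈ Finset.range M, p m * ((Yf f h ψ T (t + m * h T) : ℝ) : ℂ)‖} ⊆
      {t | t ∈ Icc T (2 * T) ∧ δ ≤ ‖∑ m : Fin M, q m * ((Yf f h ψ T (t + (m : ℕ) * h T) : ℝ) : ℂ)‖} ∪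
      {t | t ∈ Icc T (2 * T) ∧ δ ≤ S t} := by
    intro t ht
    by_contra h9
    rw [mem_union, not_or] at h9
    obtain ⟨h10, h11⟩ := h9
    have h12 : ‖∑ m : Fin M, q m * ((Yf f h ψ T (t + (m : ℕ) * h T) : ℝ) : ℂ)‖ < δ := by
      by_contra h
      exact h10 ⟨ht.1, not_lt.1 h⟩
    have h13 : S t < δ := by
      by_contra h
      exact h11 ⟨ht.1, not_lt.1 h⟩
    have h14 := ht.2
    rw [Finset.sum_range (fun m => p m * ((Yf f h ψ T (t + m * h T) : ℝ) : ℂ))] at h14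
    have h15 : ‖∑ m : Fin M, p m * ((Yf f h ψ T (t + (m : ℕ) * h T) : ℝ) : ℂ)‖ ≤
        ‖∑ m : Fin M, q m * ((Yf f h ψ T (t + (m : ℕ) * h T) : ℝ) : ℂ)‖ + S t := by
      have h16 : ∑ m : Fin M, p m * ((Yf f h ψ T (t + (m : ℕ) * h T) : ℝ) : ℂ) =
          ∑ m : Fin M, q m * ((Yf f h ψ T (t + (m : ℕ) * h T) : ℝ) : ℂ) +
          ∑ m : Fin M, (p m - q m) * ((Yf f h ψ T (t + (m : ℕ) * h T) : ℝ) : ℂ) := by
        rw [← Finset.sum_add_distrib]
        exact Finset.sum_congr rfl fun m _ => by ring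
      rw [h16]
      refine (norm_add_le _ _).trans (add_le_add le_rfl ?_)
      refine (norm_sum_le _ _).trans ?_
      rw [hS]
      simp only
      rw [Finset.mul_sum]
      refine Finset.sum_le_sum fun m _ => ?_
      rw [norm_mul, Complex.norm_real, Real.norm_eq_abs]
      exact mul_le_mul_of_nonneg_right (hqd m) (abs_nonneg _)
    linarith
  refine (measure_mono hsub).trans ((measure_union_le _ _).trans ((add_le_add (h2 q hqN) (h6.trans
    (ENNReal.ofReal_le_ofReal h8))).trans ?_))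
  rw [← ENNReal.ofReal_add (by positivity) (by positivity)]
  exact ENNReal.ofReal_le_ofReal (by linarith)

end

end Pool.Agent.H493.EN
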